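import Mathlib

set_option autoImplicit false
open scoped Manifold ContDiff Topology ComplexConjugate
open MeasureTheory Set

namespace Pool.Agent.NKM

/-- The value `∑ A_{jk} v_j conj(v_k)` at `v` of the form with matrix `A`. -/
noncomputable def hermForm {n : ℕ} (A : Matrix (Fin n) (Fin n) ℂ) (v : Fin n → ℂ) : ℂ :=
  ∑ j, ∑ k, A j k * v j * conj (v k)

/-- The second derivative of the real function `f` on `ℂ^n` at `p` in the real directions
`v` and `w`. -/
noncomputable def secondDeriv {n : ℕ} (f : (Fin n → ℂ) → ℝ) (p v w : Fin n → ℂ) : ℝ :=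
  iteratedFDeriv ℝ 2 f p ![v, w]

/-- The complex Hessian (Levi matrix) `∂²f/∂z_j∂z̄_k` of the real function `f` on `ℂ^n`. With
`z_j = x_j + i y_j` its entries are
`(f_{x_j x_k} + f_{y_j y_k} + i (f_{x_j y_k} - f_{y_j x_k})) / 4`. -/
noncomputable def leviMatrix {n : ℕ} (f : (Fin n → ℂ) → ℝ) (p : Fin n → ℂ) :
    Matrix (Fin n) (Fin n) ℂ :=
  Matrix.of fun j k =>
    (((secondDeriv f p (Pi.single j 1) (Pi.single k 1) +
        secondDeriv f p (Pi.single j Complex.I) (Pi.single k Complex.I) : ℝ) : ℂ) +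
      ((secondDeriv f p (Pi.single j 1) (Pi.single k Complex.I) -
        secondDeriv f p (Pi.single j Complex.I) (Pi.single k 1) : ℝ) : ℂ) * Complex.I) / 4

/-- A smooth Hermitian metric on a complex manifold of dimension `n`: for each chart `e` of the
atlas and each `p` in its image, `coeff e p` is the matrix `(g_{jk})` of the metric
`ω = i ∑ g_{jk} dz_j ∧ dz̄_k` at the point with coordinates `p`. The matrices are Hermitian
positive definite, depend smoothly on `p`, and transform as a form under changes of charts. -/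
structure HermitianMetric (n : ℕ) (X : Type) [TopologicalSpace X]
    [ChartedSpace (Fin n → ℂ) X] where
  /-- coefficient matrices in the charts -/
  coeff : OpenPartialHomeomorph X (Fin n → ℂ) → (Fin n → ℂ) → Matrix (Fin n) (Fin n) ℂ
  /-- the coefficients are smooth -/
  smooth : ∀ e ∈ atlas (Fin n → ℂ) X, ∀ j k : Fin n,
    ContDiffOn ℝ ∞ (fun p => coeff e p j k) e.target
  /-- the matrices are Hermitian -/
  hermitian : ∀ e ∈ atlas (Fin n → ℂ) X, ∀ p ∈ e.target, (coeff e p).IsHermitian
  /-- the matrices are positive definite -/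
  pos : ∀ e ∈ atlas (Fin n → ℂ) X, ∀ p ∈ e.target, ∀ v : Fin n → ℂ, v ≠ 0 →
    0 < (hermForm (coeff e p) v).re
  /-- transformation rule: the charts define the same form on tangent vectors -/
  compat : ∀ e ∈ atlas (Fin n → ℂ) X, ∀ e' ∈ atlas (Fin n → ℂ) X,
    ∀ p ∈ e.target, e.symm p ∈ e'.source → ∀ v : Fin n → ℂ,
      hermForm (coeff e p) v =
        hermForm (coeff e' (e' (e.symm p))) (fderiv ℂ (fun q => e' (e.symm q)) p v)

variable {n : ℕ} {X : Type} [TopologicalSpace X] [ChartedSpace (Fin n → ℂ) X]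

/-- The matrix of `ω + i∂∂̄φ` in the chart `e` at the point with coordinates `p`. -/
noncomputable def HermitianMetric.perturb (g : HermitianMetric n X) (φ : X → ℝ)
    (e : OpenPartialHomeomorph X (Fin n → ℂ)) (p : Fin n → ℂ) : Matrix (Fin n) (Fin n) ℂ :=
  g.coeff e p + leviMatrix (fun q => φ (e.symm q)) p

/-- `φ` is a smooth real function on `X` with `ω + i∂∂̄φ ≥ 0`, that is,
`φ ∈ C^∞(X) ∩ PSH(X, ω)`. -/
structure IsSmoothPsh (g : HermitianMetric n X) (φ : X → ℝ) : Prop where
  /-- `φ` is smooth in every chart -/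
  smooth : ∀ e ∈ atlas (Fin n → ℂ) X, ContDiffOn ℝ ∞ (fun p => φ (e.symm p)) e.target
  /-- `ω + i∂∂̄φ` is a nonnegative form at every point -/
  psh : ∀ e ∈ atlas (Fin n → ℂ) X, ∀ p ∈ e.target, ∀ v : Fin n → ℂ,
    0 ≤ (hermForm (g.perturb φ e p) v).re

/-- `μ` is the measure on `X` defined by the volume form `(ω + i∂∂̄φ)^n`: in the coordinates of
any chart this form is `n! 2^n det(g_{jk} + ∂²φ/∂z_j∂z̄_k)` times Lebesgue measure. The domains of
the charts cover `X`, so this determines `μ` when `X` is compact, see `IsMongeAmpere.unique`. -/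
def IsMongeAmpere [MeasurableSpace X] (g : HermitianMetric n X) (φ : X → ℝ)
    (μ : Measure X) : Prop :=
  ∀ e ∈ atlas (Fin n → ℂ) X, ∀ A : Set X, MeasurableSet A → A ⊆ e.source →
    μ A = ∫⁻ p in e '' A, ENNReal.ofReal ((n.factorial : ℝ) * 2 ^ n * (g.perturb φ e p).det.re)

/-- Sanity check: on a compact manifold the measure `(ω + i∂∂̄φ)^n` is unique. -/
theorem IsMongeAmpere.unique [CompactSpace X] [MeasurableSpace X] [BorelSpace X]
    {g : HermitianMetric n X} {φ : X → ℝ} {μ ν : Measure X}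
    (hμ : IsMongeAmpere g φ μ) (hν : IsMongeAmpere g φ ν) : μ = ν := by
  obtain ⟨t, ht⟩ := isCompact_univ.elim_nhds_subcover
    (fun x : X => (chartAt (Fin n → ℂ) x).source)
    (fun x _ => (chartAt (Fin n → ℂ) x).open_source.mem_nhds (mem_chart_source _ x))
  have hcov : ⋃ x : t, (chartAt (Fin n → ℂ) (x : X)).source = univ := by
    apply Subset.antisymm (subset_univ _)
    intro y hy
    obtain ⟨x, hx, hxy⟩ := mem_iUnion₂.1 (ht.2 hy)
    exact mem_iUnion.2 ⟨⟨x, hx⟩, hxy⟩
  rw [Measure.ext_iff_of_iUnion_eq_univ hcov]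
  intro x
  have hm : MeasurableSet (chartAt (Fin n → ℂ) (x : X)).source :=
    (chartAt (Fin n → ℂ) (x : X)).open_source.measurableSet
  ext A hA
  rw [Measure.restrict_apply hA, Measure.restrict_apply hA,
    hμ _ (chart_mem_atlas _ _) _ (hA.inter hm) inter_subset_right,
    hν _ (chart_mem_atlas _ _) _ (hA.inter hm) inter_subset_right]

/-- `T(X, ω)`: the infimum of the total masses `∫_X (ω + i∂∂̄φ)^n` over all smooth
`ω`-plurisubharmonic functions `φ`. -/
noncomputable def infMass [MeasurableSpace X] (g : HermitianMetric n X) : ENNReal :=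
  sInf {V : ENNReal | ∃ φ : X → ℝ, IsSmoothPsh g φ ∧
    ∃ μ : Measure X, IsMongeAmpere g φ μ ∧ V = μ univ}

end Pool.Agent.NKM
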