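import Pool.Agent.NKM.Sheet

set_option autoImplicit false
open scoped Manifold ContDiff Topology ComplexConjugate
open MeasureTheory Set

namespace Pool.Agent.NKM

/-- the invariant Hermitian form at `q` -/
noncomputable def hq (q v : E3) : ℝ :=
  ‖v 0‖ ^ 2 + Real.exp (-2 * (q 0).re) * ‖v 1‖ ^ 2 + Real.exp (2 * (q 0).re) * ‖v 2‖ ^ 2

/-- constant in the far estimate -/
noncomputable def CF (ε L Cs : ℝ) : ℝ :=
  4 * (Cs / ε + Real.exp L + Real.exp (2 * L) + Cs + 1)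

/-- the matrix of the invariant metric `|dz|² + e^{-2 Re z}|dx|² + e^{2 Re z}|dy|²` -/
noncomputable def hmat (p : E3) : Matrix (Fin 3) (Fin 3) ℂ :=
  Matrix.diagonal ![1, (Real.exp (-2 * (p 0).re) : ℂ), (Real.exp (2 * (p 0).re) : ℂ)]

/-- the concentrated density of one sheet -/
noncomputable def Gp (ε L δ κ r : ℝ) (q : E3) : ℝ :=
  Real.exp (-2 * (q 0).re) * (1 - 2 * ε) * P2 ε (uf L δ κ r q) * κ ^ 2 * sg (Tf r q) ^ 2 /
    ‖q 2‖ ^ 2
/-- the density weighted by the degeneracy factor -/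
noncomputable def Th (ε om L δ κ r : ℝ) (q : E3) : ℝ :=
  (1 + om - 4 * (1 - 2 * ε) * P2 ε (rho L δ q) * (1 / 2 - sg (q 0).re) ^ 2 +
    2 * (1 - 2 * ε) * P1 ε (rho L δ q) * dsg (q 0).re) * Gp ε L δ κ r q

/-- radial kernel of the background -/
noncomputable def kf (r : ℝ) (b : ℂ) : ℝ := dsg (Real.log (r / ‖b‖)) / ‖b‖ ^ 2
/-- summand of the Riemann sum -/
noncomputable def Ff (ε c r : ℝ) (p : ℂ × ℂ) : ℝ := P1 ε (c - ‖p.1‖ ^ 2) * kf r p.2

/-- total weight of the profile -/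
noncomputable def If (ε : ℝ) : ℝ := ∫ x : ℝ, Real.exp (-2 * x) * P ε x
/-- amplitude -/
noncomputable def Amp (ε : ℝ) (Pn : ℕ) : ℝ := t0 / Pn * (1 - 3 * ε) / If ε
/-- half length of the sheets of family `i` -/
noncomputable def Lv (ell : ℝ) (Pn : ℕ) (i : Fin Pn) : ℝ := ell + (i : ℝ) * (t0 / Pn)
/-- limit background -/
noncomputable def binf (ε ell : ℝ) (Pn : ℕ) (s : ℝ) : ℝ := Amp ε Pn * ∑ i : Fin Pn, ∑' m : ℤ,
  Real.exp (-2 * (Lv ell Pn i + s + m * t0)) * P ε (Lv ell Pn i - eta (s + m * t0))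

/-- inverse square radius of the sheets -/
noncomputable def dl (q : ℕ) : ℝ := (gr ^ (8 * q))⁻¹
/-- strength of the sheets of family `i` -/
noncomputable def kap (ε ell : ℝ) (Pn q : ℕ) (i : Fin Pn) : ℝ :=
  Amp ε Pn * Real.exp (-2 * Lv ell Pn i) * (5 * dl q) / (2 * Real.pi ^ 2 * (1 - 2 * ε))
/-- coordinates of `p` with respect to the sheet `j` of the family with offset `τ` -/
noncomputable def spt (τ : ℝ) (j : Lat × ℤ) (p : E3) : E3 :=
  gact j p - ![0, (τ : ℂ), (τ : ℂ)]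

end Pool.Agent.NKM
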