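import Pool.Agent.NKM.Mfd

set_option autoImplicit false
open MeasureTheory Set

namespace Pool.Agent.NKM

lemma lin_eq_toLin' (m : ℤ) : ((lin m : E3 →L[ℂ] E3) : E3 →ₗ[ℂ] E3)
    = Matrix.toLin' (Matrix.diagonal ![1, (gr : ℂ) ^ m, (gc : ℂ) ^ m]) := by
  apply LinearMap.ext
  intro v
  rw [Matrix.toLin'_apply]
  apply E3_ext
  · rw [Matrix.mulVec_diagonal]; simp
  · rw [Matrix.mulVec_diagonal]; simp
  · rw [Matrix.mulVec_diagonal]; simp

lemma lin_det (m : ℤ) :
    LinearMap.det ((((lin m : E3 →L[ℂ] E3) : E3 →ₗ[ℂ] E3)).restrictScalars ℝ) = 1 := by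
  rw [LinearMap.det_restrictScalars, lin_eq_toLin', LinearMap.det_toLin', Matrix.det_diagonal,
    Fin.prod_univ_three, Algebra.norm_complex_apply]
  simp only [Matrix.cons_val_zero, Matrix.cons_val_one, Matrix.cons_val, one_mul]
  rw [← mul_zpow, ← Complex.ofReal_mul, gr_mul_gc, map_zpow₀]
  simp

/-- TARGET 1: deck transformations preserve Lebesgue measure -/
theorem smul_measurePreserving (g : Gam) :
    MeasurePreserving (fun p : E3 => g • p) volume volume := by
  have h1 : MeasurePreserving (fun p : E3 => lin g.m p) volume volume := by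
    refine ⟨(lin g.m).continuous.measurable, ?_⟩
    have h2 := Measure.map_linearMap_addHaar_eq_smul_addHaar (volume : Measure E3)
      (f := (((lin g.m : E3 →L[ℂ] E3) : E3 →ₗ[ℂ] E3)).restrictScalars ℝ)
      (by rw [lin_det]; exact one_ne_zero)
    rw [lin_det] at h2
    simpa using h2
  have h3 := (measurePreserving_add_right (volume : Measure E3)
    ![((g.m : ℝ) * t0 : ℝ) + (g.k : ℂ) * Complex.I, E1 g.n, E2 g.n]).comp h1
  have h4 : (fun p : E3 => g • p) = (fun x => x + ![((g.m : ℝ) * t0 : ℝ) + (g.k : ℂ) * Complex.I,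
      E1 g.n, E2 g.n]) ∘ (fun p : E3 => lin g.m p) := by
    funext p
    exact act_eq g p
  rw [h4]
  exact h3

instance : SMulInvariantMeasure Gam E3 volume := by
  refine ⟨fun g s hs => ?_⟩
  exact (smul_measurePreserving g).measure_preimage hs.nullMeasurableSet

instance : Countable Gam := by
  have h : Function.Injective (fun g : Gam => (g.n, g.k, g.m)) := by
    intro g h hgh
    simp only [Prod.mk.injEq] at hgh
    ext1
    · exact hgh.1
    · exact hgh.2.1
    · exact hgh.2.2
  exact h.countable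

theorem dom_measurable : MeasurableSet Dom := by
  have m1 : Measurable (fun p : E3 => (p 0).re) := Complex.measurable_re.comp (measurable_pi_apply 0)
  have m2 : Measurable (fun p : E3 => (p 0).im) := Complex.measurable_im.comp (measurable_pi_apply 0)
  have m3 : Measurable (fun p : E3 => (p 1).re) := Complex.measurable_re.comp (measurable_pi_apply 1)
  have m4 : Measurable (fun p : E3 => (p 1).im) := Complex.measurable_im.comp (measurable_pi_apply 1)
  have m5 : Measurable (fun p : E3 => (p 2).re) := Complex.measurable_re.comp (measurable_pi_apply 2)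
  have m6 : Measurable (fun p : E3 => (p 2).im) := Complex.measurable_im.comp (measurable_pi_apply 2)
  have h1 : Measurable (fun p : E3 => ca (p 1).re (p 2).re) := by unfold ca; fun_prop
  have h2 : Measurable (fun p : E3 => cb (p 1).re (p 2).re) := by unfold cb; fun_prop
  have h3 : Measurable (fun p : E3 => ca (p 1).im (p 2).im) := by unfold ca; fun_prop
  have h4 : Measurable (fun p : E3 => cb (p 1).im (p 2).im) := by unfold cb; fun_prop
  exact (m1 measurableSet_Ico).inter ((m2 measurableSet_Ico).inter ((h1 measurableSet_Ico).inter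
    ((h2 measurableSet_Ico).inter ((h3 measurableSet_Ico).inter (h4 measurableSet_Ico)))))

/-- TARGET 2 (use `existsUnique_dom` and `IsFundamentalDomain.mk'`) -/
theorem dom_fund : IsFundamentalDomain Gam Dom (volume : Measure E3) :=
  IsFundamentalDomain.mk' dom_measurable.nullMeasurableSet existsUnique_dom

/-- TARGET 3: `Dom` is bounded -/
theorem vol_dom_lt_top : volume Dom < ⊤ := by
  apply Bornology.IsBounded.measure_lt_top
  rw [isBounded_iff_forall_norm_le]
  refine ⟨t0 + 7, ?_⟩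
  rintro p ⟨h1, h2, h3, h4, h5, h6⟩
  have ht := t0_pos
  have hg := gr_pos
  have hg2 := gr_lt_two
  have hc : |gc| < 1 := by
    rw [abs_gc]
    exact inv_lt_one_of_one_lt₀ one_lt_gr
  have hc' := abs_lt.1 hc
  have e1 := ca_cb_1 (p 1).re (p 2).re
  have e2 := ca_cb_2 (p 1).re (p 2).re
  have e3 := ca_cb_1 (p 1).im (p 2).im
  have e4 := ca_cb_2 (p 1).im (p 2).im
  have key : ∀ a b : ℝ, a ∈ Ico (0:ℝ) 1 → b ∈ Ico (0:ℝ) 1 → |a + b * gr| ≤ 3 ∧ |a + b * gc| ≤ 3 := by
    intro a b ha hb
    constructor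
    · calc |a + b * gr| ≤ |a| + |b * gr| := abs_add_le _ _
        _ = |a| + |b| * gr := by rw [abs_mul, abs_of_pos hg]
        _ ≤ 1 + 1 * 2 := by
          have ha1 : |a| ≤ 1 := by rw [abs_of_nonneg ha.1]; exact ha.2.le
          have hb1 : |b| ≤ 1 := by rw [abs_of_nonneg hb.1]; exact hb.2.le
          gcongr
        _ = 3 := by norm_num
    · calc |a + b * gc| ≤ |a| + |b * gc| := abs_add_le _ _
        _ = |a| + |b| * |gc| := by rw [abs_mul]
        _ ≤ 1 + 1 * 1 := by
          have ha1 : |a| ≤ 1 := by rw [abs_of_nonneg ha.1]; exact ha.2.le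
          have hb1 : |b| ≤ 1 := by rw [abs_of_nonneg hb.1]; exact hb.2.le
          gcongr
        _ ≤ 3 := by norm_num
  have k1 := key _ _ h3 h4
  have k2 := key _ _ h5 h6
  rw [e1, e2] at k1
  rw [e3, e4] at k2
  rw [pi_norm_le_iff_of_nonneg (by linarith)]
  intro i
  fin_cases i
  · refine (Complex.norm_le_abs_re_add_abs_im _).trans ?_
    have a1 : |(p 0).re| ≤ t0 := by rw [abs_of_nonneg h1.1]; exact h1.2.le
    have a2 : |(p 0).im| ≤ 1 := by rw [abs_of_nonneg h2.1]; exact h2.2.le
    change |(p 0).re| + |(p 0).im| ≤ t0 + 7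
    linarith
  · refine (Complex.norm_le_abs_re_add_abs_im _).trans ?_
    change |(p 1).re| + |(p 1).im| ≤ t0 + 7
    linarith [k1.1, k2.1]
  · refine (Complex.norm_le_abs_re_add_abs_im _).trans ?_
    change |(p 2).re| + |(p 2).im| ≤ t0 + 7
    linarith [k1.2, k2.2]

/-- integration over `ℂ³` coordinate by coordinate -/
theorem lintegral_E3 (H : E3 → ENNReal) (hH : Measurable H) :
    ∫⁻ p : E3, H p = ∫⁻ a : ℂ, ∫⁻ x : ℂ, ∫⁻ y : ℂ, H ![a, x, y] := by
  have h1 := (volume_preserving_piFinSuccAbove (fun _ : Fin 3 => ℂ) 0).symm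
  have h2 := h1.lintegral_comp hH
  have h2' : ∫⁻ p : E3, H p = ∫⁻ z : ℂ × (Fin 2 → ℂ),
      H ((MeasurableEquiv.piFinSuccAbove (fun _ : Fin 3 => ℂ) 0).symm z) := h2.symm
  rw [h2']
  have hm : Measurable (fun z : ℂ × (Fin 2 → ℂ) =>
      H ((MeasurableEquiv.piFinSuccAbove (fun _ : Fin 3 => ℂ) 0).symm z)) :=
    hH.comp (MeasurableEquiv.measurable _)
  change ∫⁻ z : ℂ × (Fin 2 → ℂ), H ((MeasurableEquiv.piFinSuccAbove (fun _ : Fin 3 => ℂ) 0).symm z)
    ∂((volume : Measure ℂ).prod (volume : Measure (Fin 2 → ℂ))) = _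
  rw [lintegral_prod _ hm.aemeasurable]
  apply lintegral_congr
  intro a
  have h3 := (volume_preserving_finTwoArrow ℂ).symm
  have hm2 : Measurable (fun w : Fin 2 → ℂ =>
      H ((MeasurableEquiv.piFinSuccAbove (fun _ : Fin 3 => ℂ) 0).symm (a, w))) :=
    hm.comp measurable_prodMk_left
  have h4 := h3.lintegral_comp hm2
  rw [← h4]
  have hm3 : Measurable (fun z : ℂ × ℂ => H ((MeasurableEquiv.piFinSuccAbove (fun _ : Fin 3 => ℂ)
      0).symm (a, (MeasurableEquiv.finTwoArrow (α := ℂ)).symm z))) :=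
    hm2.comp (MeasurableEquiv.measurable _)
  change ∫⁻ z : ℂ × ℂ, H ((MeasurableEquiv.piFinSuccAbove (fun _ : Fin 3 => ℂ)
      0).symm (a, (MeasurableEquiv.finTwoArrow (α := ℂ)).symm z))
    ∂((volume : Measure ℂ).prod (volume : Measure ℂ)) = _
  rw [lintegral_prod _ hm3.aemeasurable]
  apply lintegral_congr
  intro x
  apply lintegral_congr
  intro y
  congr 1
  apply E3_ext
  · rfl
  · rfl
  · rfl

/-- integration over `ℂ` in real coordinates -/
theorem lintegral_C (F : ℂ → ENNReal) (hF : Measurable F) :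
    ∫⁻ a : ℂ, F a = ∫⁻ s : ℝ, ∫⁻ t : ℝ, F ⟨s, t⟩ := by
  have h1 := Complex.volume_preserving_equiv_real_prod.symm
  have h2 := h1.lintegral_comp hF
  rw [← h2]
  have hm : Measurable (fun z : ℝ × ℝ => F (Complex.measurableEquivRealProd.symm z)) :=
    hF.comp (MeasurableEquiv.measurable _)
  change ∫⁻ z : ℝ × ℝ, F (Complex.measurableEquivRealProd.symm z)
    ∂((volume : Measure ℝ).prod (volume : Measure ℝ)) = _
  rw [lintegral_prod _ hm.aemeasurable]
  rfl

/-- TARGET 4: unfolding plus Fubini -/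
theorem unfold_sheets (G : E3 → ENNReal) (hG : Measurable G)
    (him : ∀ p : E3, ∀ t : ℝ, G ![p 0 + t * Complex.I, p 1, p 2] = G p) :
    ∫⁻ p in Dom, ∑' j : Lat × ℤ, G ((⟨j.1, 0, j.2⟩ : Gam) • p) =
      ∫⁻ s : ℝ, ∫⁻ x : ℂ, ∫⁻ y : ℂ, G ![(s : ℂ), x, y] := by
  set S : Set E3 := {p | (p 0).im ∈ Ico (0:ℝ) 1} with hS
  have hSm : MeasurableSet S :=
    (Complex.measurable_im.comp (measurable_pi_apply 0)) measurableSet_Ico
  set H : E3 → ENNReal := S.indicator G with hH
  have hHm : Measurable H := hG.indicator hSm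
  have e1 : ∫⁻ p in Dom, ∑' j : Lat × ℤ, G ((⟨j.1, 0, j.2⟩ : Gam) • p)
      = ∫⁻ p in Dom, ∑' g : Gam, H (g • p) := by
    apply setLIntegral_congr_fun dom_measurable
    intro p hp
    simp only
    have hinj : Function.Injective (fun j : Lat × ℤ => (⟨j.1, 0, j.2⟩ : Gam)) := by
      intro j j' h
      have h1 := congrArg Gam.n h
      have h2 := congrArg Gam.m h
      exact Prod.ext h1 h2
    have him0 : ∀ g : Gam, ((g • p) 0).im = (p 0).im + g.k := by
      intro g
      rw [smul_apply_0]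
      simp
    have h1 := hinj.tsum_eq (f := fun g : Gam => H (g • p)) (by
      intro g hg
      rw [Function.mem_support] at hg
      have h2 : g • p ∈ S := by
        by_contra h3
        exact hg (indicator_of_notMem h3 _)
      have h3 : ((g • p) 0).im ∈ Ico (0:ℝ) 1 := h2
      rw [him0] at h3
      have h4 : g.k = 0 := by
        have h5 := hp.2.1
        have h6 : (g.k : ℝ) < 1 := by linarith [h3.2, h5.1]
        have h7 : (-1 : ℝ) < g.k := by linarith [h3.1, h5.2]
        have h8 : g.k < 1 := by exact_mod_cast h6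
        have h9 : -1 < g.k := by exact_mod_cast h7
        omega
      refine ⟨(g.n, g.m), ?_⟩
      ext1
      · rfl
      · exact h4.symm
      · rfl)
    rw [← h1]
    apply tsum_congr
    intro j
    have h2 : (⟨j.1, 0, j.2⟩ : Gam) • p ∈ S := by
      change (((⟨j.1, 0, j.2⟩ : Gam) • p) 0).im ∈ Ico (0:ℝ) 1
      rw [him0]
      simpa using hp.2.1
    exact (indicator_of_mem h2 G).symm
  have e2 : ∫⁻ p in Dom, ∑' g : Gam, H (g • p) = ∫⁻ p : E3, H p := by
    have hms : ∀ g : Gam, Measurable (fun p : E3 => H (g • p)) :=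
      fun g => hHm.comp (smul_measurePreserving g).measurable
    rw [lintegral_tsum (fun g => (hms g).aemeasurable)]
    rw [dom_fund.lintegral_eq_tsum' H]
    exact ((Equiv.inv Gam).tsum_eq (fun g => ∫⁻ p in Dom, H (g • p))).symm
  rw [e1, e2, lintegral_E3 H hHm]
  have hm3 : Measurable (fun z : ℂ × ℂ × ℂ => H ![z.1, z.2.1, z.2.2]) := by
    apply hHm.comp
    rw [measurable_pi_iff]
    intro i
    fin_cases i
    · exact measurable_fst
    · exact measurable_snd.fst
    · exact measurable_snd.snd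
  have hF : Measurable (fun a : ℂ => ∫⁻ x : ℂ, ∫⁻ y : ℂ, H ![a, x, y]) := by
    have h5 : Measurable (fun z : ℂ × ℂ => ∫⁻ y : ℂ, H ![z.1, z.2, y]) := by
      apply Measurable.lintegral_prod_right'
        (f := fun w : (ℂ × ℂ) × ℂ => H ![w.1.1, w.1.2, w.2])
      exact hm3.comp (measurable_fst.fst.prodMk (measurable_fst.snd.prodMk measurable_snd))
    exact Measurable.lintegral_prod_right' (f := fun z : ℂ × ℂ => ∫⁻ y : ℂ, H ![z.1, z.2, y]) h5
  rw [lintegral_C _ hF]
  apply lintegral_congr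
  intro s
  have e3 : ∀ t : ℝ, ∫⁻ x : ℂ, ∫⁻ y : ℂ, H ![(⟨s, t⟩ : ℂ), x, y]
      = (Ico (0:ℝ) 1).indicator (fun _ => ∫⁻ x : ℂ, ∫⁻ y : ℂ, G ![(s : ℂ), x, y]) t := by
    intro t
    have h6 : ∀ x y : ℂ, G ![(⟨s, t⟩ : ℂ), x, y] = G ![(s : ℂ), x, y] := by
      intro x y
      have h7 := him ![(s : ℂ), x, y] t
      simp only [Matrix.cons_val_zero, Matrix.cons_val_one, Matrix.cons_val] at h7
      rw [← h7]
      congr 2
      apply Complex.ext
      · simp
      · simp
    by_cases ht : t ∈ Ico (0:ℝ) 1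
    · rw [indicator_of_mem ht]
      apply lintegral_congr
      intro x
      apply lintegral_congr
      intro y
      have h8 : (![(⟨s, t⟩ : ℂ), x, y] : E3) ∈ S := ht
      rw [hH, indicator_of_mem h8, h6]
    · rw [indicator_of_notMem ht]
      have h9 : ∀ x y : ℂ, H ![(⟨s, t⟩ : ℂ), x, y] = 0 := by
        intro x y
        have h8 : (![(⟨s, t⟩ : ℂ), x, y] : E3) ∉ S := ht
        rw [hH, indicator_of_notMem h8]
      simp only [h9, lintegral_zero]
  rw [lintegral_congr e3, lintegral_indicator measurableSet_Ico, setLIntegral_const]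
  simp

end Pool.Agent.NKM
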