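import Pool.Agent.NKM.Mfd
import Pool.Agent.NKM.Defs
import Pool.Agent.NKM.UF
import Pool.Agent.NKM.Par

set_option autoImplicit false
open scoped Manifold ContDiff Topology ComplexConjugate
open MeasureTheory Set

namespace Pool.Agent.NKM

/-! end of the given facts -/

instance : MeasurableSpace X3 := borel X3
instance : BorelSpace X3 := ⟨rfl⟩



/-- the diagonal entries of the linear part -/
private noncomputable def dd (m : ℤ) : Fin 3 → ℝ := ![1, gr ^ m, gc ^ m]

private lemma lin_dd (m : ℤ) (v : E3) (j : Fin 3) : lin m v j = (dd m j : ℂ) * v j := by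
  fin_cases j
  · simp [dd]
  · simp [dd]
  · simp [dd]

private lemma gc_zpow_sq (m : ℤ) : gc ^ m * gc ^ m = Real.exp (-2 * (m * t0)) := by
  have h1 : gc ^ m * gc ^ m = (gr ^ m)⁻¹ * (gr ^ m)⁻¹ := by
    rw [← mul_zpow, ← mul_inv, ← mul_zpow, ← inv_zpow]
    congr 1
    have h2 : gc * gc = |gc| * |gc| := (abs_mul_abs_self gc).symm
    rw [h2, abs_gc, mul_inv]
  rw [h1, gr_zpow, ← Real.exp_neg, ← Real.exp_add]
  congr 1
  ring

private lemma hmat_dd (g : Gam) (p : E3) (j k : Fin 3) :
    hmat p j k = (dd g.m j : ℂ) * (dd g.m k : ℂ) * hmat (g • p) j k := by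
  have h0 : ((g • p) 0).re = (p 0).re + g.m * t0 := by
    rw [smul_apply_0]; simp
  have hgc := gc_zpow_sq g.m
  have hgr : gr ^ g.m * gr ^ g.m = Real.exp (2 * (g.m * t0)) := by
    rw [gr_zpow, ← Real.exp_add]; congr 1; ring
  by_cases hjk : j = k
  · subst hjk
    fin_cases j
    · simp [hmat, dd]
    · simp only [hmat, dd, Matrix.diagonal_apply_eq, h0, Fin.mk_one, Matrix.cons_val_one,
        Matrix.cons_val_zero]
      rw [← Complex.ofReal_mul, hgr, ← Complex.ofReal_mul, ← Real.exp_add]
      congr 2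
      ring
    · simp only [hmat, dd, Matrix.diagonal_apply_eq, h0, Fin.reduceFinMk, Matrix.cons_val]
      rw [← Complex.ofReal_mul, hgc, ← Complex.ofReal_mul, ← Real.exp_add]
      congr 2
      ring
  · simp [hmat, Matrix.diagonal_apply_ne _ hjk]

private lemma hermForm_lin (g : Gam) (p v : E3) :
    hermForm (hmat p) v = hermForm (hmat (g • p)) (lin g.m v) := by
  unfold hermForm
  refine Finset.sum_congr rfl fun j _ => Finset.sum_congr rfl fun k _ => ?_
  rw [hmat_dd g p j k, lin_dd, lin_dd, map_mul, Complex.conj_ofReal]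
  ring

private lemma hermForm_hmat (p v : E3) : (hermForm (hmat p) v).re =
    ‖v 0‖ ^ 2 + Real.exp (-2 * (p 0).re) * ‖v 1‖ ^ 2 + Real.exp (2 * (p 0).re) * ‖v 2‖ ^ 2 := by
  have hc : ∀ z : ℂ, z * (starRingEnd ℂ) z = ((‖z‖ ^ 2 : ℝ) : ℂ) := by
    intro z
    rw [Complex.mul_conj, Complex.normSq_eq_norm_sq]
  have h : hermForm (hmat p) v = ((‖v 0‖ ^ 2 + Real.exp (-2 * (p 0).re) * ‖v 1‖ ^ 2
      + Real.exp (2 * (p 0).re) * ‖v 2‖ ^ 2 : ℝ) : ℂ) := by
    have h1 : hermForm (hmat p) v = v 0 * (starRingEnd ℂ) (v 0)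
        + (Real.exp (-2 * (p 0).re) : ℂ) * (v 1 * (starRingEnd ℂ) (v 1))
        + (Real.exp (2 * (p 0).re) : ℂ) * (v 2 * (starRingEnd ℂ) (v 2)) := by
      simp only [hermForm, Fin.sum_univ_three, hmat, Matrix.diagonal_apply]
      simp
      ring
    rw [h1, hc, hc, hc]
    push_cast
    ring
  rw [h, Complex.ofReal_re]

private lemma symm_eq (e : OpenPartialHomeomorph X3 E3) (he : e ∈ atlas E3 X3) (q : E3) :
    e.symm q = pr q := by
  obtain ⟨x, rfl⟩ := QuotMfd.mem_atlas pr_cov e he
  rw [IsLocalHomeomorph.localInverseAt_symm]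

/-- TARGET: the metric on the quotient, with coefficient matrices `hmat p` in every chart -/
noncomputable def gmet : HermitianMetric 3 X3 where
  coeff := fun _ p => hmat p
  smooth := by
    intro e _ j k
    apply ContDiff.contDiffOn
    by_cases hjk : j = k
    · subst hjk
      have hre : ContDiff ℝ ∞ (fun p : E3 => (p 0).re) :=
        Complex.reCLM.contDiff.comp (contDiff_apply ℝ ℂ (0 : Fin 3))
      fin_cases j
      · simp only [hmat, Matrix.diagonal_apply_eq]
        exact contDiff_const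
      · have : (fun p : E3 => hmat p 1 1) = fun p => ((Real.exp (-2 * (p 0).re) : ℝ) : ℂ) := by
          funext p; simp [hmat]
        change ContDiff ℝ ∞ (fun p : E3 => hmat p 1 1)
        rw [this]
        exact Complex.ofRealCLM.contDiff.comp (Real.contDiff_exp.comp (contDiff_const.mul hre))
      · have : (fun p : E3 => hmat p 2 2) = fun p => ((Real.exp (2 * (p 0).re) : ℝ) : ℂ) := by
          funext p; simp [hmat]
        change ContDiff ℝ ∞ (fun p : E3 => hmat p 2 2)
        rw [this]
        exact Complex.ofRealCLM.contDiff.comp (Real.contDiff_exp.comp (contDiff_const.mul hre))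
    · simp only [hmat, Matrix.diagonal_apply_ne _ hjk]
      exact contDiff_const
  hermitian := by
    intro e _ p _
    ext j k
    rw [Matrix.conjTranspose_apply]
    by_cases hjk : j = k
    · subst hjk
      fin_cases j
      · simp [hmat]
      · simp [hmat, ← Complex.ofReal_exp]
      · simp [hmat, ← Complex.ofReal_exp]
    · simp [hmat, Matrix.diagonal_apply_ne _ hjk, Matrix.diagonal_apply_ne _ (Ne.symm hjk)]
  pos := by
    intro e _ p _ v hv
    change 0 < (hermForm (hmat p) v).re
    rw [hermForm_hmat]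
    have h1 := Real.exp_pos (-2 * (p 0).re)
    have h2 := Real.exp_pos (2 * (p 0).re)
    by_contra hle
    have hle := not_lt.mp hle
    apply hv
    have n0 : 0 ≤ ‖v 0‖ ^ 2 := by positivity
    have n1 : 0 ≤ Real.exp (-2 * (p 0).re) * ‖v 1‖ ^ 2 := by positivity
    have n2 : 0 ≤ Real.exp (2 * (p 0).re) * ‖v 2‖ ^ 2 := by positivity
    apply E3_ext
    · have : ‖v 0‖ ^ 2 = 0 := by linarith
      simpa using this
    · have : Real.exp (-2 * (p 0).re) * ‖v 1‖ ^ 2 = 0 := by linarith
      rcases mul_eq_zero.mp this with h | h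
      · exact absurd h h1.ne'
      · simpa using h
    · have : Real.exp (2 * (p 0).re) * ‖v 2‖ ^ 2 = 0 := by linarith
      rcases mul_eq_zero.mp this with h | h
      · exact absurd h h2.ne'
      · simpa using h
  compat := by
    intro e he e' he' p hp hpe' v
    have hsymm : ∀ q, e.symm q = pr q := symm_eq e he
    rw [hsymm] at hpe'
    obtain ⟨x', rfl⟩ := QuotMfd.mem_atlas pr_cov e' he'
    obtain ⟨g, hg⟩ := QuotMfd.localInverse_eq_smul pr_cov x' p hpe'
    have hfun : (fun q => (pr_cov.isCoveringMap.isLocalHomeomorph.localInverseAt x') (e.symm q))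
        = fun q => (pr_cov.isCoveringMap.isLocalHomeomorph.localInverseAt x') (pr q) := by
      funext q; rw [hsymm]
    have hg' : (fun q => (pr_cov.isCoveringMap.isLocalHomeomorph.localInverseAt x') (pr q))
        =ᶠ[𝓝 p] fun q => g • q := hg
    rw [hfun, hsymm, hg'.fderiv_eq, fderiv_smul_eq, hg.self_of_nhds]
    exact hermForm_lin g p v

private lemma second_smul (φ : E3 → ℝ) (hφ : ContDiff ℝ ∞ φ) (g : Gam)
    (hinv : ∀ p : E3, φ (g • p) = φ p) (p v w : E3) :
    secondDeriv φ p v w = secondDeriv φ (g • p) (lin g.m v) (lin g.m w) := by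
  unfold secondDeriv
  rw [iteratedFDeriv_two_apply, iteratedFDeriv_two_apply]
  simp only [Matrix.cons_val_zero, Matrix.cons_val_one]
  set A : E3 →L[ℝ] E3 := (lin g.m).restrictScalars ℝ with hA
  have hAv : ∀ u, lin g.m u = A u := fun u => rfl
  rw [hAv, hAv]
  have hT : ∀ u : E3, HasFDerivAt (fun u : E3 => g • u) A u :=
    fun u => (hasFDerivAt_smul g u).restrictScalars ℝ
  have hφd : ∀ u, HasFDerivAt φ (fderiv ℝ φ u) u :=
    fun u => (hφ.contDiffAt.differentiableAt (by simp)).hasFDerivAt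
  have hφ2 : ∀ u, HasFDerivAt (fderiv ℝ φ) (fderiv ℝ (fderiv ℝ φ) u) u := fun u =>
    ((hφ.fderiv_right (m := ∞) (by simp)).contDiffAt.differentiableAt (by simp)).hasFDerivAt
  have h1 : ∀ u, fderiv ℝ φ u = (fderiv ℝ φ (g • u)).comp A := by
    intro u
    have h2 : HasFDerivAt (fun u => φ (g • u)) ((fderiv ℝ φ (g • u)).comp A) u :=
      (hφd (g • u)).comp u (hT u)
    have h3 : (fun u => φ (g • u)) = φ := funext hinv
    rw [h3] at h2
    exact h2.fderiv
  have k1 := (hφ2 p).clm_apply (hasFDerivAt_const w p)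
  have k0 : HasFDerivAt (fun u => fderiv ℝ φ (g • u)) ((fderiv ℝ (fderiv ℝ φ) (g • p)).comp A) p :=
    (hφ2 (g • p)).comp p (hT p)
  have k2 := k0.clm_apply (hasFDerivAt_const (A w) p)
  have k3 : (fun u => (fderiv ℝ φ u) w) = fun u => (fderiv ℝ φ (g • u)) (A w) := by
    funext u
    rw [h1 u]; rfl
  rw [k3] at k1
  have k4 := k1.unique k2
  have k5 := congrArg (fun L : E3 →L[ℝ] ℝ => L v) k4
  simpa using k5

private lemma lin_single (m : ℤ) (j : Fin 3) (z : ℂ) :
    lin m (Pi.single j z) = (dd m j) • (Pi.single j z : E3) := by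
  funext i
  rw [lin_dd]
  by_cases hij : i = j
  · subst hij
    simp
  · simp [Pi.single_eq_of_ne hij]

private lemma second_bilin (φ : E3 → ℝ) (p v w : E3) (a b : ℝ) :
    secondDeriv φ p (a • v) (b • w) = a * b * secondDeriv φ p v w := by
  unfold secondDeriv
  rw [iteratedFDeriv_two_apply, iteratedFDeriv_two_apply]
  simp
  ring

private lemma levi_dd (φ : E3 → ℝ) (hφ : ContDiff ℝ ∞ φ) (g : Gam)
    (hinv : ∀ p : E3, φ (g • p) = φ p) (p : E3) (j k : Fin 3) :
    leviMatrix φ p j k = (dd g.m j : ℂ) * (dd g.m k : ℂ) * leviMatrix φ (g • p) j k := by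
  simp only [leviMatrix, Matrix.of_apply]
  rw [second_smul φ hφ g hinv p, second_smul φ hφ g hinv p, second_smul φ hφ g hinv p,
    second_smul φ hφ g hinv p]
  simp only [lin_single, second_bilin]
  push_cast
  ring

private lemma dd_prod_sq (m : ℤ) : ((∏ j, (dd m j : ℂ))) * (∏ j, (dd m j : ℂ)) = 1 := by
  have h : (∏ j, (dd m j : ℂ)) = ((gr ^ m * gc ^ m : ℝ) : ℂ) := by
    rw [Fin.prod_univ_three]
    simp [dd]
  rw [h, ← mul_zpow, gr_mul_gc, ← Complex.ofReal_mul, ← mul_zpow]
  norm_num

private lemma det_inv (φ : E3 → ℝ) (hφ : ContDiff ℝ ∞ φ) (g : Gam)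
    (hinv : ∀ p : E3, φ (g • p) = φ p) (p : E3) :
    (hmat p + leviMatrix φ p).det = (hmat (g • p) + leviMatrix φ (g • p)).det := by
  have h : hmat p + leviMatrix φ p = Matrix.diagonal (fun j => (dd g.m j : ℂ)) *
      (hmat (g • p) + leviMatrix φ (g • p)) * Matrix.diagonal (fun j => (dd g.m j : ℂ)) := by
    ext j k
    rw [Matrix.mul_diagonal, Matrix.diagonal_mul, Matrix.add_apply, Matrix.add_apply,
      hmat_dd g p j k, levi_dd φ hφ g hinv p j k]
    ring
  rw [h, Matrix.det_mul, Matrix.det_mul, Matrix.det_diagonal]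
  linear_combination ((hmat (g • p) + leviMatrix φ (g • p)).det) * dd_prod_sq g.m

open scoped Pointwise in
private lemma quot_int (dens : E3 → ENNReal) (hdinv : ∀ (g : Gam) (p : E3), dens (g • p) = dens p)
    (e : OpenPartialHomeomorph X3 E3) (he : e ∈ atlas E3 X3) (A : Set X3) (hA : MeasurableSet A)
    (hAe : A ⊆ e.source) : ∫⁻ p in pr ⁻¹' A ∩ Dom, dens p = ∫⁻ p in e '' A, dens p := by
  have hprm : Measurable pr := pr_cov.continuous.measurable
  have hsymm := symm_eq e he
  set B : Set E3 := e '' A with hB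
  have hBmem : ∀ b, b ∈ B ↔ b ∈ e.target ∧ pr b ∈ A := by
    intro b
    constructor
    · rintro ⟨a, ha, rfl⟩
      refine ⟨e.map_source (hAe ha), ?_⟩
      rw [← hsymm, e.left_inv (hAe ha)]
      exact ha
    · rintro ⟨hb, hbA⟩
      refine ⟨pr b, hbA, ?_⟩
      rw [← hsymm, e.right_inv hb]
  have hBeq : B = e.target ∩ pr ⁻¹' A := by
    ext b; exact hBmem b
  have hBm : MeasurableSet B := by
    rw [hBeq]; exact e.open_target.measurableSet.inter (hprm hA)
  have hinj : ∀ b ∈ B, ∀ b' ∈ B, pr b = pr b' → b = b' := by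
    intro b hb b' hb' h
    have h1 := ((hBmem b).mp hb).1
    have h2 := ((hBmem b').mp hb').1
    rw [← e.right_inv h1, ← e.right_inv h2, hsymm, hsymm, h]
  have hset : pr ⁻¹' A ∩ Dom = ⋃ g : Gam, (g • B) ∩ Dom := by
    ext p
    simp only [mem_inter_iff, mem_preimage, mem_iUnion]
    constructor
    · rintro ⟨hp, hpD⟩
      have h1 : e (pr p) ∈ B := ⟨pr p, hp, rfl⟩
      have h2 : pr (e (pr p)) = pr p := by
        rw [← hsymm, e.left_inv (hAe hp)]
      obtain ⟨g, hg⟩ := pr_cov.apply_eq_iff_mem_orbit.mp h2.symm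
      refine ⟨g, ?_, hpD⟩
      rw [← hg]
      exact smul_mem_smul_set h1
    · rintro ⟨g, hpB, hpD⟩
      obtain ⟨b, hb, rfl⟩ := hpB
      refine ⟨?_, hpD⟩
      have : pr (g • b) = pr b := pr_cov.map_smul g
      change pr (g • b) ∈ A
      rw [this]
      exact ((hBmem b).mp hb).2
  rw [hset, lintegral_iUnion]
  · rw [dom_fund.setLIntegral_eq_tsum' dens B]
    refine tsum_congr fun g => ?_
    refine lintegral_congr fun p => ?_
    rw [hdinv]
  · intro g
    exact (hBm.const_smul g).inter dom_measurable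
  · intro g g' hgg'
    rw [Function.onFun, Set.disjoint_left]
    rintro p ⟨⟨b, hb, hbp⟩, _⟩ ⟨⟨b', hb', hbp'⟩, _⟩
    apply hgg'
    have hbp1 : g • b = p := hbp
    have hbp2 : g' • b' = p := hbp'
    have h1 : pr b = pr b' := by
      rw [← pr_cov.map_smul g (e := b), ← pr_cov.map_smul g' (e := b'), hbp1, hbp2]
    have h2 := hinj b hb b' hb' h1
    subst h2
    exact IsCancelSMul.right_cancel _ _ _ (hbp1.trans hbp2.symm)

/-- TARGET: assembly -/
theorem assembly
    (core : ∀ η : ℝ, 0 < η → ∃ φ : E3 → ℝ, ContDiff ℝ ∞ φ ∧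
      (∀ (g : Gam) (p : E3), φ (g • p) = φ p) ∧
      (∀ p v : E3, 0 ≤ (hermForm (hmat p + leviMatrix φ p) v).re) ∧
      ∫⁻ p in Dom, ENNReal.ofReal ((hmat p + leviMatrix φ p).det.re) ≤ ENNReal.ofReal η) :
    infMass gmet = 0 := by
  have key : ∀ η : ℝ, 0 < η → infMass gmet ≤ ENNReal.ofReal 48 * ENNReal.ofReal η := by
    intro η hη
    obtain ⟨φ, hφ, hinv, hpsh, hint⟩ := core η hη
    -- the function on the quotient
    let φ' : X3 → ℝ := Quotient.lift φ (by
      rintro a b ⟨g, rfl⟩
      exact hinv g b)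
    have hφ' : ∀ p, φ' (pr p) = φ p := fun p => rfl
    have hfun : ∀ e ∈ atlas E3 X3, (fun q => φ' (e.symm q)) = φ := by
      intro e he
      funext q
      rw [symm_eq e he, hφ']
    have hpert : ∀ e ∈ atlas E3 X3, ∀ p, gmet.perturb φ' e p = hmat p + leviMatrix φ p := by
      intro e he p
      unfold HermitianMetric.perturb
      rw [hfun e he]
      rfl
    have hsm : IsSmoothPsh gmet φ' := by
      constructor
      · intro e he
        rw [hfun e he]
        exact hφ.contDiffOn
      · intro e he p _ v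
        rw [hpert e he]
        exact hpsh p v
    set dens : E3 → ENNReal := fun p =>
      ENNReal.ofReal (((3 : ℕ).factorial : ℝ) * 2 ^ 3 * ((hmat p + leviMatrix φ p).det.re))
      with hdens
    have hdinv : ∀ (g : Gam) (p : E3), dens (g • p) = dens p := by
      intro g p
      simp only [hdens]
      rw [det_inv φ hφ g (hinv g) p]
    let μ : Measure X3 := Measure.map pr ((volume.restrict Dom).withDensity dens)
    have hprm : Measurable pr := pr_cov.continuous.measurable
    have hμ : ∀ A : Set X3, MeasurableSet A → μ A = ∫⁻ p in pr ⁻¹' A ∩ Dom, dens p := by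
      intro A hA
      change Measure.map pr ((volume.restrict Dom).withDensity dens) A = _
      rw [Measure.map_apply hprm hA, withDensity_apply _ (hprm hA),
        Measure.restrict_restrict (hprm hA)]
    have hMA : IsMongeAmpere gmet φ' μ := by
      intro e he A hA hAe
      have hrhs : (fun p => ENNReal.ofReal (((3 : ℕ).factorial : ℝ) * 2 ^ 3 *
          (gmet.perturb φ' e p).det.re)) = dens := by
        funext p
        rw [hpert e he]
      rw [hμ A hA, hrhs]
      exact quot_int dens hdinv e he A hA hAe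
    have hmass : μ univ ≤ ENNReal.ofReal 48 * ENNReal.ofReal η := by
      rw [hμ univ MeasurableSet.univ, preimage_univ, univ_inter]
      have h1 : ∀ p, dens p = ENNReal.ofReal 48 * ENNReal.ofReal ((hmat p + leviMatrix φ p).det.re) := by
        intro p
        simp only [hdens]
        rw [ENNReal.ofReal_mul (by positivity)]
        congr 2
        norm_num [Nat.factorial]
      simp_rw [h1]
      rw [lintegral_const_mul' _ _ ENNReal.ofReal_ne_top]
      gcongr
    have hle : infMass gmet ≤ μ univ := sInf_le ⟨φ', hsm, μ, hMA, rfl⟩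
    exact hle.trans hmass
  refine nonpos_iff_eq_zero.mp ?_
  apply ENNReal.le_of_forall_pos_le_add
  intro ε hε _
  rw [zero_add]
  refine (key (ε / 48) (by positivity)).trans ?_
  rw [← ENNReal.ofReal_mul (by norm_num)]
  have : (48 : ℝ) * ((ε : ℝ) / 48) = ε := by ring
  rw [this, ENNReal.ofReal_coe_nnreal]

end Pool.Agent.NKM
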