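import Pool.Agent.NKM.Gam

set_option autoImplicit false
set_option linter.unusedSectionVars false
open scoped Manifold ContDiff Topology
open Set Real

namespace Pool.Agent.NKM

/-- linear part of the action -/
noncomputable def lin (m : ℤ) : E3 →L[ℂ] E3 :=
  ContinuousLinearMap.pi ![ContinuousLinearMap.proj 0,
    ((gr : ℂ) ^ m) • ContinuousLinearMap.proj 1, ((gc : ℂ) ^ m) • ContinuousLinearMap.proj 2]

@[simp] lemma lin_0 (m : ℤ) (v : E3) : lin m v 0 = v 0 := by simp [lin]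
@[simp] lemma lin_1 (m : ℤ) (v : E3) : lin m v 1 = (gr : ℂ) ^ m * v 1 := by simp [lin]
@[simp] lemma lin_2 (m : ℤ) (v : E3) : lin m v 2 = (gc : ℂ) ^ m * v 2 := by simp [lin]

lemma act_eq (g : Gam) (p : E3) :
    g • p = lin g.m p + ![((g.m : ℝ) * t0 : ℝ) + (g.k : ℂ) * Complex.I, E1 g.n, E2 g.n] := by
  rw [smul_def]
  apply E3_ext
  · simp [add_assoc]
  · simp
  · simp

lemma hasFDerivAt_smul (g : Gam) (p : E3) : HasFDerivAt (fun p : E3 => g • p) (lin g.m) p := by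
  have : (fun p : E3 => g • p) = fun p =>
      lin g.m p + ![((g.m : ℝ) * t0 : ℝ) + (g.k : ℂ) * Complex.I, E1 g.n, E2 g.n] := by
    ext1 p; exact act_eq g p
  rw [this]
  exact (lin g.m).hasFDerivAt.add_const _

lemma fderiv_smul_eq (g : Gam) (p : E3) : fderiv ℂ (fun p : E3 => g • p) p = lin g.m :=
  (hasFDerivAt_smul g p).fderiv

lemma contDiff_smul (g : Gam) : ContDiff ℂ ω (fun p : E3 => g • p) := by
  have : (fun p : E3 => g • p) = fun p =>
      lin g.m p + ![((g.m : ℝ) * t0 : ℝ) + (g.k : ℂ) * Complex.I, E1 g.n, E2 g.n] := by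
    ext1 p; exact act_eq g p
  rw [this]
  exact (lin g.m).contDiff.add contDiff_const

instance : ContinuousConstSMul Gam E3 := ⟨fun g => (contDiff_smul g).continuous⟩

instance : IsCancelSMul Gam E3 where
  left_cancel' g p p' h := by
    have := congrArg (fun x => g⁻¹ • x) h
    simpa using this
  right_cancel' g h p hgh := by
    have h0 := congrArg (fun x : E3 => x 0) hgh
    have h1 := congrArg (fun x : E3 => x 1) hgh
    simp only [smul_apply_0, smul_apply_1] at h0 h1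
    have hre := congrArg Complex.re h0
    have him := congrArg Complex.im h0
    simp at hre him
    have hm : g.m = h.m := by
      have hl := t0_pos
      rcases hre with h | h
      · exact h
      · exact absurd h hl.ne'
    have hk : g.k = h.k := him
    have hn : g.n = h.n := by
      rw [hm] at h1
      apply E1_injective
      exact add_left_cancel h1
    ext1
    · exact hn
    · exact hk
    · exact hm

lemma finite_lattice (R : ℝ) : Set.Finite {n : ℤ × ℤ | |e1 n| ≤ R ∧ |e2 n| ≤ R} := by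
  apply Set.Finite.subset (s := (Set.Icc (-⌈3 * R⌉) ⌈3 * R⌉) ×ˢ (Set.Icc (-⌈3 * R⌉) ⌈3 * R⌉))
  · exact (Set.finite_Icc _ _).prod (Set.finite_Icc _ _)
  · rintro ⟨a, b⟩ ⟨h1, h2⟩
    simp only [e1_apply, e2_apply] at h1 h2
    have h5 : gr - gc = √5 := Real.goldenRatio_sub_goldenConj
    have h52 : (2 : ℝ) ≤ √5 := by
      rw [show (2 : ℝ) = √4 by rw [show (4 : ℝ) = 2 ^ 2 by norm_num]; simp]
      exact Real.sqrt_le_sqrt (by norm_num)
    have hR : 0 ≤ R := (abs_nonneg _).trans h1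
    have hb : |(b : ℝ)| ≤ R := by
      have : |(b : ℝ)| * √5 ≤ 2 * R := by
        have h3 : (b : ℝ) * √5 = ((a : ℝ) + b * gr) - (a + b * gc) := by rw [← h5]; ring
        rw [← abs_of_pos (show (0 : ℝ) < √5 by positivity), ← abs_mul, h3]
        calc _ ≤ |(a : ℝ) + b * gr| + |(a : ℝ) + b * gc| := abs_sub _ _
          _ ≤ _ := by linarith
      nlinarith [abs_nonneg (b : ℝ)]
    have hg2 : gr < 2 := gr_lt_two
    have ha : |(a : ℝ)| ≤ 3 * R := by
      have h3 : (a : ℝ) = ((a : ℝ) + b * gr) - b * gr := by ring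
      calc |(a : ℝ)| = |((a : ℝ) + b * gr) - b * gr| := by rw [← h3]
        _ ≤ |(a : ℝ) + b * gr| + |b * gr| := abs_sub _ _
        _ ≤ R + R * 2 := by
          rw [abs_mul, abs_of_pos gr_pos]
          have hgp := gr_pos
          gcongr
        _ = 3 * R := by ring
    have ha' := abs_le.1 ha
    have hb' := abs_le.1 (hb.trans (by linarith : R ≤ 3 * R))
    have hc := Int.le_ceil (3 * R)
    simp only [Set.mem_prod, Set.mem_Icc]
    refine ⟨⟨?_, ?_⟩, ⟨?_, ?_⟩⟩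
    · have : (-(⌈3 * R⌉ : ℝ)) ≤ a := by linarith
      exact_mod_cast this
    · have : (a : ℝ) ≤ ⌈3 * R⌉ := by linarith
      exact_mod_cast this
    · have : (-(⌈3 * R⌉ : ℝ)) ≤ b := by linarith
      exact_mod_cast this
    · have : (b : ℝ) ≤ ⌈3 * R⌉ := by linarith
      exact_mod_cast this

lemma finite_Lat (R : ℝ) : Set.Finite {n : Lat | ‖E1 n‖ ≤ R ∧ ‖E2 n‖ ≤ R} := by
  apply Set.Finite.subset ((finite_lattice R).prod (finite_lattice R))
  rintro n ⟨h1, h2⟩
  simp only [Set.mem_prod, Set.mem_ofPred_eq]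
  rw [← E1_re, ← E1_im, ← E2_re, ← E2_im]
  exact ⟨⟨(Complex.abs_re_le_norm _).trans h1, (Complex.abs_re_le_norm _).trans h2⟩,
    ⟨(Complex.abs_im_le_norm _).trans h1, (Complex.abs_im_le_norm _).trans h2⟩⟩

lemma int_mem_Icc {k : ℤ} {R : ℝ} (h : |(k : ℝ)| ≤ R) : k ∈ Set.Icc (-⌈R⌉) ⌈R⌉ := by
  have h' := abs_le.1 h
  have hc := Int.le_ceil R
  constructor
  · have : (-(⌈R⌉ : ℝ)) ≤ k := by linarith
    exact_mod_cast this
  · have : (k : ℝ) ≤ ⌈R⌉ := by linarith
    exact_mod_cast this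

/-- only finitely many deck transformations move a bounded set near a bounded set -/
lemma finite_return (C : ℝ) : Set.Finite {g : Gam | ∃ p : E3, (∀ i, ‖p i‖ ≤ C) ∧
    (∀ i, ‖(g • p) i‖ ≤ C)} := by
  have hlog := t0_pos
  apply Set.Finite.subset (s := ⋃ m ∈ Set.Icc (-⌈2 * C / t0⌉) ⌈2 * C / t0⌉,
    (fun x : Lat × ℤ => (⟨x.1, x.2, m⟩ : Gam)) ''
      ({n : Lat | ‖E1 n‖ ≤ C + ‖(gr : ℂ) ^ m‖ * C + ‖(gc : ℂ) ^ m‖ * C ∧
        ‖E2 n‖ ≤ C + ‖(gr : ℂ) ^ m‖ * C + ‖(gc : ℂ) ^ m‖ * C} ×ˢ Set.Icc (-⌈2 * C⌉) ⌈2 * C⌉))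
  · apply (Set.finite_Icc _ _).biUnion
    intro m _
    exact ((finite_Lat _).prod (Set.finite_Icc _ _)).image _
  · rintro g ⟨p, kp, lp⟩
    have h0 := smul_apply_0 g p
    have h1 := smul_apply_1 g p
    have h2 := smul_apply_2 g p
    have k0 := kp 0
    have k1 := kp 1
    have k2 := kp 2
    have l0 := lp 0
    have l1 := lp 1
    have l2 := lp 2
    have hC0 : 0 ≤ C := (norm_nonneg _).trans k0
    have hre := congrArg Complex.re h0
    have him := congrArg Complex.im h0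
    simp at hre him
    have hm : |(g.m : ℝ)| ≤ 2 * C / t0 := by
      rw [le_div_iff₀ hlog]
      calc |(g.m : ℝ)| * t0 = |g.m * t0| := by
            rw [abs_mul, abs_of_pos hlog]
        _ = |((g • p) 0).re - (p 0).re| := by rw [hre]; ring_nf
        _ ≤ |((g • p) 0).re| + |(p 0).re| := abs_sub _ _
        _ ≤ 2 * C := by
          have := (Complex.abs_re_le_norm ((g • p) 0)).trans l0
          have := (Complex.abs_re_le_norm (p 0)).trans k0
          linarith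
    have hk : |(g.k : ℝ)| ≤ 2 * C := by
      calc |(g.k : ℝ)| = |((g • p) 0).im - (p 0).im| := by rw [him]; ring_nf
        _ ≤ |((g • p) 0).im| + |(p 0).im| := abs_sub _ _
        _ ≤ 2 * C := by
          have := (Complex.abs_im_le_norm ((g • p) 0)).trans l0
          have := (Complex.abs_im_le_norm (p 0)).trans k0
          linarith
    have hn1 : ‖E1 g.n‖ ≤ C + ‖(gr : ℂ) ^ g.m‖ * C + ‖(gc : ℂ) ^ g.m‖ * C := by
      calc ‖E1 g.n‖ = ‖(g • p) 1 - (gr : ℂ) ^ g.m * p 1‖ := by rw [h1]; ring_nf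
        _ ≤ ‖(g • p) 1‖ + ‖(gr : ℂ) ^ g.m * p 1‖ := norm_sub_le _ _
        _ = ‖(g • p) 1‖ + ‖(gr : ℂ) ^ g.m‖ * ‖p 1‖ := by rw [norm_mul]
        _ ≤ C + ‖(gr : ℂ) ^ g.m‖ * C := by gcongr
        _ ≤ _ := by
          have : 0 ≤ ‖(gc : ℂ) ^ g.m‖ * C := by positivity
          linarith
    have hn2 : ‖E2 g.n‖ ≤ C + ‖(gr : ℂ) ^ g.m‖ * C + ‖(gc : ℂ) ^ g.m‖ * C := by
      calc ‖E2 g.n‖ = ‖(g • p) 2 - (gc : ℂ) ^ g.m * p 2‖ := by rw [h2]; ring_nf
        _ ≤ ‖(g • p) 2‖ + ‖(gc : ℂ) ^ g.m * p 2‖ := norm_sub_le _ _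
        _ = ‖(g • p) 2‖ + ‖(gc : ℂ) ^ g.m‖ * ‖p 2‖ := by rw [norm_mul]
        _ ≤ C + ‖(gc : ℂ) ^ g.m‖ * C := by gcongr
        _ ≤ _ := by
          have : 0 ≤ ‖(gr : ℂ) ^ g.m‖ * C := by positivity
          linarith
    rw [Set.mem_iUnion₂]
    refine ⟨g.m, int_mem_Icc hm, (g.n, g.k), ⟨⟨hn1, hn2⟩, int_mem_Icc hk⟩, ?_⟩
    ext1 <;> rfl

instance : ProperlyDiscontinuousSMul Gam E3 where
  finite_disjoint_inter_image := by
    intro K L hK hL
    obtain ⟨C1, hC1⟩ := hK.isBounded.exists_norm_le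
    obtain ⟨C2, hC2⟩ := hL.isBounded.exists_norm_le
    set C := max C1 C2 with hC
    apply (finite_return C).subset
    rintro g ⟨p', ⟨p, hp, hgp⟩, hp'⟩
    have hgp' : g • p = p' := hgp
    refine ⟨p, fun i => (norm_le_pi_norm p i).trans ((hC1 p hp).trans (le_max_left _ _)),
      fun i => ?_⟩
    rw [hgp']
    exact (norm_le_pi_norm p' i).trans ((hC2 p' hp').trans (le_max_right _ _))

end Pool.Agent.NKM
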