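import Pool.Agent.NKM.OneVar

set_option autoImplicit false
open scoped ContDiff Topology
open MeasureTheory Set

namespace Pool.Agent.NKM

lemma mv {f f' : ℝ → ℝ} {s : Set ℝ} {C : ℝ} (hs : Convex ℝ s) (hd : ∀ x, HasDerivAt f (f' x) x)
    (hb : ∀ x ∈ s, |f' x| ≤ C) {a b : ℝ} (ha : a ∈ s) (hb' : b ∈ s) :
    |f a - f b| ≤ C * |a - b| :=
  hs.norm_image_sub_le_of_norm_hasDerivWithin_le (fun x _ => (hd x).hasDerivWithinAt) hb hb' ha

lemma sg_mono : Monotone sg := Real.smoothTransition.monotone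
lemma dsg_nonneg (t : ℝ) : 0 ≤ dsg t := sg_mono.deriv_nonneg
lemma dsg_of_nonpos {t : ℝ} (h : t ≤ 0) : dsg t = 0 := by
  have h1 : IsLocalMin sg t := Filter.Eventually.of_forall fun x => by
    rw [sg_of_nonpos h]; exact sg_nonneg x
  exact h1.deriv_eq_zero
lemma dsg_of_one_le {t : ℝ} (h : 1 ≤ t) : dsg t = 0 := by
  have h1 : IsLocalMax sg t := Filter.Eventually.of_forall fun x => by
    rw [sg_of_one_le h]; exact sg_le_one x
  exact h1.deriv_eq_zero
lemma exists_dsg_bound : ∃ C : ℝ, 1 ≤ C ∧ ∀ t, dsg t ≤ C := by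
  obtain ⟨M, hM⟩ := (isCompact_Icc (a := (0 : ℝ)) (b := 1)).exists_bound_of_continuousOn
    dsg_continuous.continuousOn
  refine ⟨max M 1, le_max_right _ _, fun t => ?_⟩
  by_cases h : t ∈ Icc (0 : ℝ) 1
  · exact ((le_abs_self _).trans (hM t h)).trans (le_max_left _ _)
  · rw [mem_Icc, not_and_or, not_le, not_le] at h
    rcases h with h | h
    · rw [dsg_of_nonpos h.le]; exact zero_le_one.trans (le_max_right _ _)
    · rw [dsg_of_one_le h.le]; exact zero_le_one.trans (le_max_right _ _)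
lemma support_dsg : Function.support dsg ⊆ Ioc (0 : ℝ) 1 := by
  intro t ht
  rw [Function.mem_support] at ht
  constructor
  · by_contra h; exact ht (dsg_of_nonpos (not_lt.1 h))
  · by_contra h; exact ht (dsg_of_one_le (not_le.1 h).le)
lemma lintegral_dsg : ∫⁻ t, ENNReal.ofReal (dsg t) = 1 := by
  have hcs : HasCompactSupport dsg := by
    refine HasCompactSupport.intro (isCompact_Icc (a := (0 : ℝ)) (b := 1)) ?_
    intro t ht
    by_contra h
    exact ht (Ioc_subset_Icc_self (support_dsg h))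
  have hint : Integrable dsg := dsg_continuous.integrable_of_hasCompactSupport hcs
  rw [← ofReal_integral_eq_lintegral_ofReal hint (Filter.Eventually.of_forall dsg_nonneg),
    ← intervalIntegral.integral_eq_integral_of_support_subset support_dsg,
    intervalIntegral.integral_eq_sub_of_hasDerivAt (fun x _ => hasDerivAt_sg x)
      (dsg_continuous.intervalIntegrable _ _), sg_of_one_le le_rfl, sg_of_nonpos le_rfl]
  simp
lemma hasDerivAt_S (t : ℝ) : HasDerivAt S (sg t) t :=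
  intervalIntegral.integral_hasDerivAt_right (sg_continuous.intervalIntegrable _ _)
    (sg_continuous.stronglyMeasurableAtFilter _ _) sg_continuous.continuousAt
lemma S_contDiff : ContDiff ℝ ∞ S := by
  rw [contDiff_infty_iff_deriv]
  refine ⟨fun t => (hasDerivAt_S t).differentiableAt, ?_⟩
  have : deriv S = sg := funext fun t => (hasDerivAt_S t).deriv
  rw [this]; exact sg_contDiff
lemma S_of_nonpos {t : ℝ} (h : t ≤ 0) : S t = 0 := by
  unfold S
  have : ∫ u in (0 : ℝ)..t, sg u = ∫ u in (0 : ℝ)..t, (0 : ℝ) := by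
    apply intervalIntegral.integral_congr
    intro u hu
    rw [uIcc_of_ge h] at hu
    exact sg_of_nonpos hu.2
  rw [this]; simp
lemma S_nonneg (t : ℝ) : 0 ≤ S t := by
  rcases le_total t 0 with h | h
  · rw [S_of_nonpos h]
  · exact intervalIntegral.integral_nonneg h fun u _ => sg_nonneg u
lemma S_le {t : ℝ} (h : 0 ≤ t) : S t ≤ t := by
  have h1 : S t ≤ ∫ _u in (0 : ℝ)..t, (1 : ℝ) :=
    intervalIntegral.integral_mono_on h (sg_continuous.intervalIntegrable _ _)
      (continuous_const.intervalIntegrable _ _) fun u _ => sg_le_one u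
  simpa using h1
lemma le_S (t : ℝ) : t - 1 ≤ S t := by
  rcases le_total t 1 with h | h
  · linarith [S_nonneg t]
  · have h1 : S 1 + ∫ u in (1 : ℝ)..t, sg u = S t :=
      intervalIntegral.integral_add_adjacent_intervals (sg_continuous.intervalIntegrable _ _)
        (sg_continuous.intervalIntegrable _ _)
    have h2 : ∫ u in (1 : ℝ)..t, sg u = ∫ _u in (1 : ℝ)..t, (1 : ℝ) := by
      apply intervalIntegral.integral_congr
      intro u hu
      rw [uIcc_of_le h] at hu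
      exact sg_of_one_le hu.1
    rw [h2] at h1
    simp only [intervalIntegral.integral_const, smul_eq_mul, mul_one] at h1
    linarith [S_nonneg 1]
lemma S_mono : Monotone S := by
  apply monotone_of_deriv_nonneg (fun t => (hasDerivAt_S t).differentiableAt)
  intro t
  rw [(hasDerivAt_S t).deriv]
  exact sg_nonneg t
lemma abs_S_sub_le (a b : ℝ) : |S a - S b| ≤ |a - b| := by
  have := mv (C := 1) convex_univ hasDerivAt_S
    (fun x _ => by rw [abs_of_nonneg (sg_nonneg x)]; exact sg_le_one x) (mem_univ a) (mem_univ b)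
  linarith
lemma S_continuous : Continuous S := S_contDiff.continuous
lemma hasDerivAt_S2 (t : ℝ) : HasDerivAt S2 (S t) t :=
  intervalIntegral.integral_hasDerivAt_right (S_continuous.intervalIntegrable _ _)
    (S_continuous.stronglyMeasurableAtFilter _ _) S_continuous.continuousAt
lemma S2_contDiff : ContDiff ℝ ∞ S2 := by
  rw [contDiff_infty_iff_deriv]
  refine ⟨fun t => (hasDerivAt_S2 t).differentiableAt, ?_⟩
  have : deriv S2 = S := funext fun t => (hasDerivAt_S2 t).deriv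
  rw [this]; exact S_contDiff
lemma hasDerivAt_div {ε : ℝ} (t : ℝ) : HasDerivAt (fun t : ℝ => t / ε) (1 / ε) t :=
  (hasDerivAt_id t).div_const ε
lemma hasDerivAt_P {ε : ℝ} (hε : 0 < ε) (t : ℝ) : HasDerivAt (P ε) (P1 ε t) t := by
  have h1 := ((hasDerivAt_S2 (t / ε)).comp t (hasDerivAt_div (ε := ε) t)).const_mul (ε ^ 2)
  have h2 : ε ^ 2 * (S (t / ε) * (1 / ε)) = P1 ε t := by
    unfold P1; field_simp
  rw [h2] at h1
  exact h1
lemma hasDerivAt_P1 {ε : ℝ} (hε : 0 < ε) (t : ℝ) : HasDerivAt (P1 ε) (P2 ε t) t := by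
  have h1 := ((hasDerivAt_S (t / ε)).comp t (hasDerivAt_div (ε := ε) t)).const_mul ε
  have h2 : ε * (sg (t / ε) * (1 / ε)) = P2 ε t := by
    unfold P2; field_simp
  rw [h2] at h1
  exact h1
lemma P_contDiff (ε : ℝ) : ContDiff ℝ ∞ (P ε) :=
  contDiff_const.mul (S2_contDiff.comp (contDiff_id.div_const ε))
lemma P1_contDiff (ε : ℝ) : ContDiff ℝ ∞ (P1 ε) :=
  contDiff_const.mul (S_contDiff.comp (contDiff_id.div_const ε))
lemma P2_contDiff (ε : ℝ) : ContDiff ℝ ∞ (P2 ε) :=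
  sg_contDiff.comp (contDiff_id.div_const ε)
lemma S2_of_nonpos {t : ℝ} (h : t ≤ 0) : S2 t = 0 := by
  unfold S2
  have : ∫ u in (0 : ℝ)..t, S u = ∫ u in (0 : ℝ)..t, (0 : ℝ) := by
    apply intervalIntegral.integral_congr
    intro u hu
    rw [uIcc_of_ge h] at hu
    exact S_of_nonpos hu.2
  rw [this]; simp
lemma S2_nonneg (t : ℝ) : 0 ≤ S2 t := by
  rcases le_total t 0 with h | h
  · rw [S2_of_nonpos h]
  · exact intervalIntegral.integral_nonneg h fun u _ => S_nonneg u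
lemma P_of_nonpos {ε t : ℝ} (hε : 0 < ε) (h : t ≤ 0) : P ε t = 0 := by
  unfold P; rw [S2_of_nonpos (div_nonpos_of_nonpos_of_nonneg h hε.le), mul_zero]
lemma P1_of_nonpos {ε t : ℝ} (hε : 0 < ε) (h : t ≤ 0) : P1 ε t = 0 := by
  unfold P1; rw [S_of_nonpos (div_nonpos_of_nonpos_of_nonneg h hε.le), mul_zero]
lemma P2_of_nonpos {ε t : ℝ} (hε : 0 < ε) (h : t ≤ 0) : P2 ε t = 0 :=
  sg_of_nonpos (div_nonpos_of_nonpos_of_nonneg h hε.le)
lemma P_nonneg {ε : ℝ} (hε : 0 < ε) (t : ℝ) : 0 ≤ P ε t :=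
  mul_nonneg (by positivity) (S2_nonneg _)
lemma P1_nonneg {ε : ℝ} (hε : 0 < ε) (t : ℝ) : 0 ≤ P1 ε t := mul_nonneg hε.le (S_nonneg _)
lemma P2_nonneg (ε t : ℝ) : 0 ≤ P2 ε t := sg_nonneg _
lemma P2_le_one (ε t : ℝ) : P2 ε t ≤ 1 := sg_le_one _
lemma P2_of_le {ε t : ℝ} (hε : 0 < ε) (h : ε ≤ t) : P2 ε t = 1 :=
  sg_of_one_le ((one_le_div hε).2 h)
lemma P1_le {ε t : ℝ} (hε : 0 < ε) (h : 0 ≤ t) : P1 ε t ≤ t := by
  unfold P1
  have h1 := mul_le_mul_of_nonneg_left (S_le (div_nonneg h hε.le)) hε.le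
  rwa [mul_div_cancel₀ _ hε.ne'] at h1
lemma P1_mono {ε : ℝ} (hε : 0 < ε) : Monotone (P1 ε) := by
  apply monotone_of_deriv_nonneg (fun t => (hasDerivAt_P1 hε t).differentiableAt)
  intro t
  rw [(hasDerivAt_P1 hε t).deriv]
  exact P2_nonneg ε t
lemma P_mono {ε : ℝ} (hε : 0 < ε) : Monotone (P ε) := by
  apply monotone_of_deriv_nonneg (fun t => (hasDerivAt_P hε t).differentiableAt)
  intro t
  rw [(hasDerivAt_P hε t).deriv]
  exact P1_nonneg hε t
lemma abs_P1_sub_le {ε : ℝ} (hε : 0 < ε) (a b : ℝ) : |P1 ε a - P1 ε b| ≤ |a - b| := by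
  have := mv (C := 1) convex_univ (hasDerivAt_P1 hε)
    (fun x _ => by rw [abs_of_nonneg (P2_nonneg ε x)]; exact P2_le_one ε x) (mem_univ a) (mem_univ b)
  linarith
lemma abs_P2_sub_le {ε C : ℝ} (hε : 0 < ε) (hC : ∀ t, dsg t ≤ C) (a b : ℝ) :
    |P2 ε a - P2 ε b| ≤ C / ε * |a - b| := by
  have h1 : ∀ t, HasDerivAt (P2 ε) (dsg (t / ε) * (1 / ε)) t := fun t =>
    (hasDerivAt_sg (t / ε)).comp t (hasDerivAt_div (ε := ε) t)
  refine mv convex_univ h1 (fun x _ => ?_) (mem_univ a) (mem_univ b)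
  rw [abs_of_nonneg (mul_nonneg (dsg_nonneg _) (by positivity)), mul_one_div]
  exact div_le_div_of_nonneg_right (hC _) hε.le
lemma P_le {ε t : ℝ} (hε : 0 < ε) (h : 0 ≤ t) : P ε t ≤ t ^ 2 / 2 := by
  have h1 : ∀ s : ℝ, 0 ≤ s → S2 s ≤ s ^ 2 / 2 := by
    intro s hs
    have h2 : S2 s ≤ ∫ u in (0 : ℝ)..s, u :=
      intervalIntegral.integral_mono_on hs (S_continuous.intervalIntegrable _ _)
        (continuous_id.intervalIntegrable _ _) fun u hu => S_le hu.1
    rw [integral_id] at h2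
    simpa using h2
  unfold P
  have h3 := mul_le_mul_of_nonneg_left (h1 _ (div_nonneg h hε.le)) (by positivity : 0 ≤ ε ^ 2)
  have h4 : ε ^ 2 * ((t / ε) ^ 2 / 2) = t ^ 2 / 2 := by field_simp
  rwa [h4] at h3
lemma le_P {ε t : ℝ} (hε : 0 < ε) (h : ε ≤ t) : (t - ε) ^ 2 / 2 ≤ P ε t := by
  have h1 : ∀ s : ℝ, 1 ≤ s → (s - 1) ^ 2 / 2 ≤ S2 s := by
    intro s hs
    have h0 : S2 1 + ∫ u in (1 : ℝ)..s, S u = S2 s :=
      intervalIntegral.integral_add_adjacent_intervals (S_continuous.intervalIntegrable _ _)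
        (S_continuous.intervalIntegrable _ _)
    have h2 : ∫ u in (1 : ℝ)..s, (u - 1) ≤ ∫ u in (1 : ℝ)..s, S u :=
      intervalIntegral.integral_mono_on hs
        ((continuous_id.sub continuous_const).intervalIntegrable _ _)
        (S_continuous.intervalIntegrable _ _) fun u _ => le_S u
    have h3 : ∫ u in (1 : ℝ)..s, (u - 1) = (s ^ 2 - 1 ^ 2) / 2 - (s - 1) := by
      rw [intervalIntegral.integral_sub (f := fun u : ℝ => u) (g := fun _ : ℝ => (1 : ℝ))
        (continuous_id.intervalIntegrable _ _) (continuous_const.intervalIntegrable _ _),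
        integral_id]
      simp
    rw [h3] at h2
    nlinarith [S2_nonneg 1]
  unfold P
  have h3 := mul_le_mul_of_nonneg_left (h1 _ ((one_le_div hε).2 h)) (by positivity : 0 ≤ ε ^ 2)
  have h4 : ε ^ 2 * ((t / ε - 1) ^ 2 / 2) = (t - ε) ^ 2 / 2 := by field_simp
  rwa [h4] at h3
lemma abs_P_sub_le {ε B : ℝ} (hε : 0 < ε) (hB : 0 ≤ B) {a b : ℝ} (ha : a ≤ B) (hb : b ≤ B) :
    |P ε a - P ε b| ≤ B * |a - b| := by
  refine mv (convex_Iic B) (hasDerivAt_P hε) (fun x hx => ?_) ha hb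
  rw [abs_of_nonneg (P1_nonneg hε x)]
  rcases le_total x 0 with h | h
  · rw [P1_of_nonpos hε h]; exact hB
  · exact (P1_le hε h).trans hx
lemma eta_of_nonpos {s : ℝ} (h : s ≤ 0) : eta s = -s := by
  unfold eta; rw [S_of_nonpos h]; ring
lemma neg_one_le_eta (s : ℝ) : -1 ≤ eta s := by
  unfold eta
  rcases le_total s 1 with h | h
  · linarith [S_nonneg s]
  · linarith [le_S s]
lemma sub_two_le_eta (s : ℝ) : s - 2 ≤ eta s := by
  unfold eta
  linarith [le_S s]
lemma hasDerivAt_eta (s : ℝ) : HasDerivAt eta (2 * sg s - 1) s :=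
  ((hasDerivAt_S s).const_mul 2).sub (hasDerivAt_id s)
lemma eta_contDiff : ContDiff ℝ ∞ eta := (contDiff_const.mul S_contDiff).sub contDiff_id

end Pool.Agent.NKM
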