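import Mathlib

set_option autoImplicit false
open MeasureTheory

namespace Pool.Agent.NKM

theorem riemann_line_cell (f f' : ℝ → ℝ) (hf : ∀ x, HasDerivAt f (f' x) x) (hf' : Continuous f')
    (c : ℝ) (hc : 0 < c) (a : ℝ) :
    |c * f a - ∫ x in a..(a + c), f x| ≤ c * ∫ x in a..(a + c), |f' x| := by
  have hfc : Continuous f := continuous_iff_continuousAt.mpr fun x => (hf x).continuousAt
  have hle : a ≤ a + c := by linarith
  have h1 : c * f a - ∫ x in a..(a + c), f x = ∫ x in a..(a + c), (f a - f x) := by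
    rw [intervalIntegral.integral_sub (intervalIntegrable_const)
      (hfc.intervalIntegrable _ _), intervalIntegral.integral_const]
    simp
  have h2 : ∀ x ∈ Set.uIoc a (a + c), ‖f a - f x‖ ≤ ∫ x in a..(a + c), |f' x| := by
    intro x hx
    rw [Set.uIoc_of_le hle] at hx
    have h3 : f x - f a = ∫ y in a..x, f' y :=
      (intervalIntegral.integral_eq_sub_of_hasDerivAt (fun y _ => hf y)
        (hf'.intervalIntegrable _ _)).symm
    rw [norm_sub_rev, h3, Real.norm_eq_abs]
    refine (intervalIntegral.abs_integral_le_integral_abs hx.1.le).trans ?_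
    apply intervalIntegral.integral_mono_interval le_rfl hx.1.le hx.2
      (Filter.Eventually.of_forall fun y => abs_nonneg _)
      (hf'.abs.intervalIntegrable _ _)
  have h4 := intervalIntegral.norm_integral_le_of_norm_le_const h2
  rw [h1, ← Real.norm_eq_abs]
  refine h4.trans (le_of_eq ?_)
  rw [add_sub_cancel_left, abs_of_pos hc]
  ring

theorem riemann_line_sum (g : ℝ → ℝ) (hg : Integrable g) (c : ℝ) (hc : 0 < c) (r0 : ℝ) :
    HasSum (fun M : ℤ => ∫ x in (r0 + M * c)..(r0 + M * c + c), g x) (∫ x, g x) := by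
  have hcov := iUnion_Ioc_add_zsmul hc r0
  have h := hasSum_integral_iUnion (μ := volume) (f := g)
    (s := fun n : ℤ => Set.Ioc (r0 + n • c) (r0 + (n + 1) • c))
    (fun i => measurableSet_Ioc) (Set.pairwise_disjoint_Ioc_add_zsmul r0 c)
    hg.integrableOn
  rw [hcov, Measure.restrict_univ] at h
  have hfun : (fun M : ℤ => ∫ x in (r0 + M * c)..(r0 + M * c + c), g x) =
      fun n : ℤ => ∫ x in Set.Ioc (r0 + n • c) (r0 + (n + 1) • c), g x := by
    funext M
    rw [intervalIntegral.integral_of_le (by linarith)]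
    have e1 : r0 + (M : ℝ) * c = r0 + M • c := by rw [zsmul_eq_mul]
    have e2 : r0 + (M : ℝ) * c + c = r0 + (M + 1) • c := by
      rw [zsmul_eq_mul]; push_cast; ring
    rw [e2, e1]
  rw [hfun]
  exact h

/-- Riemann sums over an arithmetic progression on the whole line -/
theorem riemann_line (f f' : ℝ → ℝ) (hf : ∀ x, HasDerivAt f (f' x) x) (hf' : Continuous f')
    (hi : Integrable f) (hi' : Integrable f') (c : ℝ) (hc : 0 < c) (r0 : ℝ) :
    Summable (fun M : ℤ => f (r0 + M * c)) ∧
      |c * ∑' M : ℤ, f (r0 + M * c) - ∫ x, f x| ≤ c * ∫ x, |f' x| := by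
  have hcell := fun M : ℤ => riemann_line_cell f f' hf hf' c hc (r0 + M * c)
  have s1 := riemann_line_sum f hi c hc r0
  have s2 := riemann_line_sum (fun x => |f x|) hi.abs c hc r0
  have s3 := riemann_line_sum (fun x => |f' x|) hi'.abs c hc r0
  have s3c := s3.mul_left c
  have hb : ∀ M : ℤ, ‖c * f (r0 + M * c)‖ ≤ (∫ x in (r0 + M * c)..(r0 + M * c + c), |f x|) +
      c * ∫ x in (r0 + M * c)..(r0 + M * c + c), |f' x| := by
    intro M
    have h1 := hcell M
    have h2 : |∫ x in (r0 + M * c)..(r0 + M * c + c), f x| ≤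
        ∫ x in (r0 + M * c)..(r0 + M * c + c), |f x| :=
      intervalIntegral.abs_integral_le_integral_abs (by linarith)
    rw [Real.norm_eq_abs]
    have h3 := abs_sub_abs_le_abs_sub (c * f (r0 + M * c))
      (∫ x in (r0 + M * c)..(r0 + M * c + c), f x)
    linarith
  have hsum : Summable (fun M : ℤ => c * f (r0 + M * c)) :=
    Summable.of_norm_bounded (s2.summable.add s3c.summable) hb
  have hsum' : Summable (fun M : ℤ => f (r0 + M * c)) :=
    (summable_mul_left_iff hc.ne').mp hsum
  refine ⟨hsum', ?_⟩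
  have h1 : HasSum (fun M : ℤ => c * f (r0 + M * c) -
      ∫ x in (r0 + M * c)..(r0 + M * c + c), f x)
      (c * ∑' M : ℤ, f (r0 + M * c) - ∫ x, f x) :=
    (hsum'.hasSum.mul_left c).sub s1
  have h2 : ‖c * ∑' M : ℤ, f (r0 + M * c) - ∫ x, f x‖ ≤ c * ∫ x, |f' x| := by
    rw [← h1.tsum_eq]
    refine tsum_of_norm_bounded s3c fun M => ?_
    rw [Real.norm_eq_abs]
    exact hcell M
  rwa [Real.norm_eq_abs] at h2

end Pool.Agent.NKM
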