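import Pool.Agent.NKM.Par
import Pool.Agent.NKM.OVF
import Pool.Agent.NKM.RS2

set_option autoImplicit false
open scoped Manifold ContDiff Topology ComplexConjugate
open MeasureTheory Set

namespace Pool.Agent.NKM

/-! TARGETS -/

lemma aux_tendsto (a b c : ℝ) :
    Filter.Tendsto (fun x : ℝ => -(Real.exp (-2 * x) * (a * x ^ 2 + b * x + c))) Filter.atTop (𝓝 0) := by
  have h (n : ℕ) : Filter.Tendsto (fun x : ℝ => x ^ n * Real.exp (-2 * x)) Filter.atTop (𝓝 0) := by
    have h1 := (Real.tendsto_pow_mul_exp_neg_atTop_nhds_zero n).mul (Real.tendsto_pow_mul_exp_neg_atTop_nhds_zero 0)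
    rw [mul_zero] at h1
    refine h1.congr (fun x => ?_)
    rw [show -2 * x = -x + -x by ring, Real.exp_add]
    ring
  have h2 := (((h 2).const_mul a).add ((h 1).const_mul b)).add ((h 0).const_mul c)
  have h3 := h2.neg
  simp only [mul_zero, add_zero, neg_zero] at h3
  refine h3.congr (fun x => ?_)
  ring

/-- model integral -/
lemma aux_int (a b c e : ℝ) (hnn : ∀ x, e < x → 0 ≤ 2 * a * (x - e) ^ 2 + (2 * b - 2 * a) * (x - e) + (2 * c - b)) :
    IntegrableOn (fun x : ℝ => Real.exp (-2 * x) * (2 * a * (x - e) ^ 2 + (2 * b - 2 * a) * (x - e) + (2 * c - b))) (Ioi e) ∧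
    ∫ x in Ioi e, Real.exp (-2 * x) * (2 * a * (x - e) ^ 2 + (2 * b - 2 * a) * (x - e) + (2 * c - b)) = Real.exp (-2 * e) * c := by
  have hd : ∀ x : ℝ, HasDerivAt (fun x : ℝ => -(Real.exp (-2 * x) * (a * (x - e) ^ 2 + b * (x - e) + c)))
      (Real.exp (-2 * x) * (2 * a * (x - e) ^ 2 + (2 * b - 2 * a) * (x - e) + (2 * c - b))) x := by
    intro x
    have h1 : HasDerivAt (fun x : ℝ => Real.exp (-2 * x)) (Real.exp (-2 * x) * (-2)) x := by
      have := ((hasDerivAt_id x).const_mul (-2)).exp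
      simpa using this
    have h2 : HasDerivAt (fun x : ℝ => a * (x - e) ^ 2 + b * (x - e) + c) (2 * a * (x - e) + b) x := by
      have h3 : HasDerivAt (fun x : ℝ => x - e) 1 x := (hasDerivAt_id x).sub_const e
      have h4 : HasDerivAt (fun x : ℝ => a * (x - e) ^ 2 + b * (x - e) + c) (a * (((2 : ℕ) : ℝ) * (x - e) ^ (2 - 1) * 1) + b * 1) x :=
        (((h3.pow 2).const_mul a).add (h3.const_mul b)).add_const c
      refine h4.congr_deriv ?_
      push_cast; ring
    have h6 : HasDerivAt (fun x : ℝ => -(Real.exp (-2 * x) * (a * (x - e) ^ 2 + b * (x - e) + c)))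
      (-((Real.exp (-2 * x) * (-2)) * (a * (x - e) ^ 2 + b * (x - e) + c) + Real.exp (-2 * x) * (2 * a * (x - e) + b))) x := (h1.mul h2).neg
    refine h6.congr_deriv ?_
    ring
  have ht : Filter.Tendsto (fun x : ℝ => -(Real.exp (-2 * x) * (a * (x - e) ^ 2 + b * (x - e) + c))) Filter.atTop (𝓝 0) := by
    refine (aux_tendsto a (b - 2 * a * e) (a * e ^ 2 - b * e + c)).congr (fun x => ?_)
    ring
  have hc : ContinuousWithinAt (fun x : ℝ => -(Real.exp (-2 * x) * (a * (x - e) ^ 2 + b * (x - e) + c))) (Ici e) e :=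
    (hd e).continuousAt.continuousWithinAt
  have hp : ∀ x ∈ Ioi e, 0 ≤ Real.exp (-2 * x) * (2 * a * (x - e) ^ 2 + (2 * b - 2 * a) * (x - e) + (2 * c - b)) :=
    fun x hx => mul_nonneg (Real.exp_pos _).le (hnn x hx)
  refine ⟨integrableOn_Ioi_deriv_of_nonneg hc (fun x _ => hd x) hp ht, ?_⟩
  rw [integral_Ioi_of_hasDerivAt_of_nonneg hc (fun x _ => hd x) hp ht]
  ring

/-- the profile and its derivative -/
noncomputable def ff (ε x : ℝ) : ℝ := Real.exp (-2 * x) * P ε x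
noncomputable def ff' (ε x : ℝ) : ℝ := Real.exp (-2 * x) * (P1 ε x - 2 * P ε x)

lemma ff_deriv {ε : ℝ} (hε : 0 < ε) (x : ℝ) : HasDerivAt (ff ε) (ff' ε x) x := by
  have h1 : HasDerivAt (fun x : ℝ => Real.exp (-2 * x)) (Real.exp (-2 * x) * (-2)) x := by
    have := ((hasDerivAt_id x).const_mul (-2)).exp
    simpa using this
  have h2 : HasDerivAt (ff ε) ((Real.exp (-2 * x) * (-2)) * P ε x + Real.exp (-2 * x) * P1 ε x) x := h1.mul (hasDerivAt_P hε x)
  refine h2.congr_deriv ?_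
  unfold ff'
  ring

lemma ff_cont {ε : ℝ} (hε : 0 < ε) : Continuous (ff ε) :=
  continuous_iff_continuousAt.mpr (fun x => (ff_deriv hε x).continuousAt)

lemma ff'_cont (ε : ℝ) : Continuous (ff' ε) := by
  unfold ff'
  have h1 := (P_contDiff ε).continuous
  have h2 := (P1_contDiff ε).continuous
  fun_prop

lemma ff_nonneg {ε : ℝ} (hε : 0 < ε) (x : ℝ) : 0 ≤ ff ε x := mul_nonneg (Real.exp_pos _).le (P_nonneg hε x)

lemma ff_le {ε : ℝ} (hε : 0 < ε) {x : ℝ} (hx : 0 ≤ x) : ff ε x ≤ Real.exp (-2 * x) * (x ^ 2 / 2) :=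
  mul_le_mul_of_nonneg_left (P_le hε hx) (Real.exp_pos _).le

lemma ff_zero {ε : ℝ} (hε : 0 < ε) {x : ℝ} (hx : x ≤ 0) : ff ε x = 0 := by
  unfold ff; rw [P_of_nonpos hε hx, mul_zero]

lemma ff'_zero {ε : ℝ} (hε : 0 < ε) {x : ℝ} (hx : x ≤ 0) : ff' ε x = 0 := by
  unfold ff'; rw [P_of_nonpos hε hx, P1_of_nonpos hε hx]; ring

lemma aux_A : IntegrableOn (fun x : ℝ => Real.exp (-2 * x) * (x ^ 2 / 2)) (Ioi 0) ∧
    ∫ x in Ioi (0:ℝ), Real.exp (-2 * x) * (x ^ 2 / 2) = 1 / 8 := by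
  have h := aux_int (1/4) (1/4) (1/8) 0 (fun x _ => by nlinarith [sq_nonneg x])
  have e : (fun x : ℝ => Real.exp (-2 * x) * (2 * (1/4) * (x - 0) ^ 2 + (2 * (1/4) - 2 * (1/4)) * (x - 0) + (2 * (1/8) - 1/4))) = fun x : ℝ => Real.exp (-2 * x) * (x ^ 2 / 2) := by
    funext x; ring
  rw [e] at h
  refine ⟨h.1, h.2.trans ?_⟩
  simp

lemma aux_B : IntegrableOn (fun x : ℝ => Real.exp (-2 * x) * (x ^ 2 + x)) (Ioi 0) ∧
    ∫ x in Ioi (0:ℝ), Real.exp (-2 * x) * (x ^ 2 + x) = 1 / 2 := by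
  have h := aux_int (1/2) 1 (1/2) 0 (fun x hx => by nlinarith [sq_nonneg x])
  have e : (fun x : ℝ => Real.exp (-2 * x) * (2 * (1/2) * (x - 0) ^ 2 + (2 * 1 - 2 * (1/2)) * (x - 0) + (2 * (1/2) - 1))) = fun x : ℝ => Real.exp (-2 * x) * (x ^ 2 + x) := by
    funext x; ring
  rw [e] at h
  refine ⟨h.1, h.2.trans ?_⟩
  simp

lemma ff_integrable {ε : ℝ} (hε : 0 < ε) : Integrable (ff ε) := by
  have h1 : IntegrableOn (ff ε) (Ioi 0) := by
    refine Integrable.mono' aux_A.1 (ff_cont hε).aestronglyMeasurable ?_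
    rw [ae_restrict_iff' measurableSet_Ioi]
    refine Filter.Eventually.of_forall (fun x hx => ?_)
    rw [Real.norm_eq_abs, abs_of_nonneg (ff_nonneg hε x)]
    exact ff_le hε (le_of_lt hx)
  have h2 : IntegrableOn (ff ε) (Iic 0) := by
    refine (integrableOn_zero : IntegrableOn (fun _ : ℝ => (0:ℝ)) (Iic (0:ℝ)) volume).congr_fun (fun x hx => ?_) measurableSet_Iic
    exact (ff_zero hε hx).symm
  rw [← integrableOn_univ, ← Iic_union_Ioi (a := (0:ℝ))]
  exact h2.union h1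

lemma ff'_abs_le {ε : ℝ} (hε : 0 < ε) {x : ℝ} (hx : 0 ≤ x) : |ff' ε x| ≤ Real.exp (-2 * x) * (x ^ 2 + x) := by
  unfold ff'
  rw [abs_mul, abs_of_pos (Real.exp_pos _)]
  apply mul_le_mul_of_nonneg_left _ (Real.exp_pos _).le
  rw [abs_le]
  have := P_le hε hx
  have := P_nonneg hε x
  have := P1_nonneg hε x
  have := P1_le hε hx
  constructor <;> nlinarith

lemma ff'_integrable {ε : ℝ} (hε : 0 < ε) : Integrable (ff' ε) := by
  have h1 : IntegrableOn (ff' ε) (Ioi 0) := by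
    refine Integrable.mono' aux_B.1 (ff'_cont ε).aestronglyMeasurable ?_
    rw [ae_restrict_iff' measurableSet_Ioi]
    refine Filter.Eventually.of_forall (fun x hx => ?_)
    rw [Real.norm_eq_abs]
    exact ff'_abs_le hε (le_of_lt hx)
  have h2 : IntegrableOn (ff' ε) (Iic 0) := by
    refine (integrableOn_zero : IntegrableOn (fun _ : ℝ => (0:ℝ)) (Iic (0:ℝ)) volume).congr_fun (fun x hx => ?_) measurableSet_Iic
    exact (ff'_zero hε hx).symm
  rw [← integrableOn_univ, ← Iic_union_Ioi (a := (0:ℝ))]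
  exact h2.union h1

lemma integral_ff' {ε : ℝ} (hε : 0 < ε) : ∫ x, |ff' ε x| ≤ 1 / 2 := by
  have h0 : ∫ x, |ff' ε x| = ∫ x in Ioi 0, |ff' ε x| := by
    rw [setIntegral_eq_integral_of_forall_compl_eq_zero]
    intro x hx
    rw [ff'_zero hε (not_lt.mp hx), abs_zero]
  rw [h0, ← aux_B.2]
  apply setIntegral_mono_on (ff'_integrable hε).abs.integrableOn aux_B.1 measurableSet_Ioi
  intro x hx
  exact ff'_abs_le hε (le_of_lt hx)

lemma If_bounds {ε : ℝ} (hε : 0 < ε) (hε' : ε ≤ 1 / 4) : 1 / 16 ≤ If ε ∧ If ε ≤ 1 / 8 := by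
  have h0 : If ε = ∫ x in Ioi 0, ff ε x := by
    unfold If
    rw [setIntegral_eq_integral_of_forall_compl_eq_zero]
    · rfl
    · intro x hx
      exact ff_zero hε (not_lt.mp hx)
  constructor
  · have h1 : ∫ x in Ioi ε, ff ε x ≤ If ε := by
      rw [h0]
      apply setIntegral_mono_set (ff_integrable hε).integrableOn (Filter.Eventually.of_forall (fun x => ff_nonneg hε x))
      exact (Ioi_subset_Ioi hε.le).eventuallyLE
    refine le_trans ?_ h1
    have h2 := aux_int (1/4) (1/4) (1/8) ε (fun x _ => by nlinarith [sq_nonneg (x - ε)])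
    have h3 : Real.exp (-2 * ε) * (1/8) ≤ ∫ x in Ioi ε, ff ε x := by
      rw [← h2.2]
      apply setIntegral_mono_on h2.1 (ff_integrable hε).integrableOn measurableSet_Ioi
      intro x hx
      unfold ff
      apply mul_le_mul_of_nonneg_left _ (Real.exp_pos _).le
      have := le_P hε (le_of_lt hx)
      linarith
    refine le_trans ?_ h3
    have h4 : (1:ℝ) - 1 / 2 ≤ Real.exp (-2 * ε) := by
      have := Real.add_one_le_exp (-2 * ε)
      linarith
    linarith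
  · rw [h0, ← aux_A.2]
    apply setIntegral_mono_on (ff_integrable hε).integrableOn aux_A.1 measurableSet_Ioi
    intro x hx
    exact ff_le hε (le_of_lt hx)

/-- ratio of the geometric tail -/
noncomputable def qq : ℝ := Real.exp (-t0)
lemma qq_pos : 0 < qq := Real.exp_pos _
lemma qq_lt : qq < 1 := by unfold qq; rw [Real.exp_lt_one_iff]; linarith [t0_pos]

noncomputable def gz (k : ℤ) : ℝ := if 0 ≤ k then qq ^ k.toNat else 0

lemma geo_int : HasSum gz (1 / (1 - qq)) := by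
  have h1 : HasSum (fun n : ℕ => gz (n : ℤ)) (1 / (1 - qq)) := by
    have h := hasSum_geometric_of_lt_one qq_pos.le qq_lt
    rw [one_div]
    have e : (fun n : ℕ => gz (n : ℤ)) = fun n : ℕ => qq ^ n := by
      funext n
      simp [gz]
    rw [e]; exact h
  have h2 : HasSum (fun n : ℕ => gz (-((n : ℤ) + 1))) 0 := by
    have e : (fun n : ℕ => gz (-((n : ℤ) + 1))) = fun n : ℕ => 0 := by
      funext n
      unfold gz
      rw [if_neg (by omega)]
    rw [e]; exact hasSum_zero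
  have := HasSum.of_nat_of_neg_add_one h1 h2
  simpa using this

/-- the one-sided exponential sum -/
noncomputable def hs (s : ℝ) (m : ℤ) : ℝ := if 0 < s + m * t0 then Real.exp (-(s + m * t0)) else 0

lemma hs_nonneg (s : ℝ) (m : ℤ) : 0 ≤ hs s m := by
  unfold hs; split_ifs
  · exact (Real.exp_pos _).le
  · exact le_rfl

lemma hs_le (s : ℝ) (k : ℤ) : hs s (k + (⌊-s / t0⌋ + 1)) ≤ gz k := by
  have ht := t0_pos
  set m0 : ℤ := ⌊-s / t0⌋ + 1 with hm0
  have h1 : 0 < s + m0 * t0 := by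
    have := Int.lt_floor_add_one (-s / t0)
    rw [div_lt_iff₀ ht] at this
    rw [hm0]; push_cast
    linarith
  have h2 : s + (m0 - 1) * t0 ≤ 0 := by
    have := Int.floor_le (-s / t0)
    rw [le_div_iff₀ ht] at this
    rw [hm0]; push_cast
    linarith
  unfold hs gz
  by_cases hk : 0 ≤ k
  · rw [if_pos hk]
    have hkr : (0:ℝ) ≤ k := by exact_mod_cast hk
    have h3 : qq ^ k.toNat = Real.exp (-(k * t0)) := by
      unfold qq
      rw [← Real.exp_nat_mul]
      congr 1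
      have : ((k.toNat : ℕ) : ℝ) = (k : ℝ) := by
        have h := Int.toNat_of_nonneg hk
        exact_mod_cast h
      rw [this]; ring
    rw [h3]
    split_ifs
    · apply Real.exp_le_exp.mpr
      push_cast
      linarith
    · exact (Real.exp_pos _).le
  · rw [if_neg hk]
    have hk1 : k ≤ -1 := by omega
    have hkr : (k:ℝ) ≤ -1 := by exact_mod_cast hk1
    rw [if_neg]
    push_cast
    nlinarith

lemma hs_summable (s : ℝ) : Summable (hs s) := by
  rw [← (Equiv.addRight (⌊-s / t0⌋ + 1)).summable_iff]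
  exact Summable.of_nonneg_of_le (fun k => hs_nonneg _ _) (fun k => hs_le s k) geo_int.summable

lemma hs_tsum (s : ℝ) : ∑' m, hs s m ≤ 1 / (1 - qq) := by
  have h1 : ∑' k : ℤ, hs s (k + (⌊-s / t0⌋ + 1)) = ∑' m, hs s m :=
    (Equiv.addRight (⌊-s / t0⌋ + 1)).tsum_eq (hs s)
  have h2 : Summable (fun k : ℤ => hs s (k + (⌊-s / t0⌋ + 1))) :=
    ((Equiv.addRight (⌊-s / t0⌋ + 1)).summable_iff (f := hs s)).mpr (hs_summable s)
  rw [← h1, ← geo_int.tsum_eq]
  exact Summable.tsum_le_tsum (fun k => hs_le s k) h2 geo_int.summable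

/-- the actual summand -/
noncomputable def actm (ε L s : ℝ) (m : ℤ) : ℝ := Real.exp (-2 * (L + s + m * t0)) * P ε (L - eta (s + m * t0))

lemma actm_diff {ε l L : ℝ} (hε : 0 < ε) (hl : 0 ≤ l) (hL : l ≤ L) (s : ℝ) (m : ℤ) :
    |actm ε L s m - ff ε (L + s + m * t0)| ≤ 3 * Real.exp (-l) * hs s m := by
  unfold actm hs
  set u := s + m * t0 with hu
  have e1 : L + s + m * t0 = L + u := by rw [hu]; ring
  rw [e1]
  by_cases hu0 : 0 < u
  · rw [if_pos hu0]
    set x := L + u with hx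
    have hx0 : 0 ≤ x := by linarith
    have a1 : P ε (L - eta u) ≤ (x + 1) ^ 2 / 2 := by
      have h1 : P ε (L - eta u) ≤ P ε (x + 1) := P_mono hε (by have := neg_one_le_eta u; linarith)
      exact h1.trans (P_le hε (by linarith))
    have a2 : P ε x ≤ (x + 1) ^ 2 / 2 := (P_mono hε (by linarith : x ≤ x + 1)).trans (P_le hε (by linarith))
    have a3 := P_nonneg hε (L - eta u)
    have a4 := P_nonneg hε x
    unfold ff
    rw [← mul_sub, abs_mul, abs_of_pos (Real.exp_pos _)]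
    have a5 : |P ε (L - eta u) - P ε x| ≤ (x + 1) ^ 2 / 2 := by
      rw [abs_le]; constructor <;> linarith
    have a6 : (x + 1) ^ 2 / 2 ≤ 3 * Real.exp x := by
      have h1 := Real.quadratic_le_exp_of_nonneg (x := x + 1) (by linarith)
      rw [Real.exp_add] at h1
      have h2 := Real.exp_one_lt_d9
      have h3 := Real.exp_pos x
      nlinarith
    calc Real.exp (-2 * x) * |P ε (L - eta u) - P ε x| ≤ Real.exp (-2 * x) * (3 * Real.exp x) :=
          mul_le_mul_of_nonneg_left (a5.trans a6) (Real.exp_pos _).le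
      _ = 3 * Real.exp (-x) := by
          rw [show -2 * x = -x + -x by ring, Real.exp_add]
          have : Real.exp (-x) * Real.exp x = 1 := by rw [← Real.exp_add]; simp
          linear_combination 3 * Real.exp (-x) * this
      _ ≤ 3 * Real.exp (-l) * Real.exp (-u) := by
          rw [mul_assoc, ← Real.exp_add]
          apply mul_le_mul_of_nonneg_left _ (by norm_num)
          apply Real.exp_le_exp.mpr
          linarith
  · rw [if_neg hu0]
    have : eta u = -u := eta_of_nonpos (not_lt.mp hu0)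
    rw [this]
    unfold ff
    simp

lemma Lv_ge (l : ℝ) (Pn : ℕ) (i : Fin Pn) : l ≤ Lv l Pn i := by
  unfold Lv
  have := t0_pos
  have : 0 ≤ (i : ℝ) * (t0 / Pn) := by positivity
  linarith

/-- the core estimate -/
lemma core {ε l : ℝ} (hε : 0 < ε) (hl : 0 ≤ l) (Pn : ℕ) (hP : 0 < Pn) (s : ℝ) :
    |(t0 / Pn) * (∑ i : Fin Pn, ∑' m : ℤ, actm ε (Lv l Pn i) s m) - If ε| ≤
      t0 / Pn * (1 / 2) + t0 * (3 * Real.exp (-l) * (1 / (1 - qq))) := by
  have ht := t0_pos
  have hPr : (0:ℝ) < Pn := by exact_mod_cast hP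
  have : NeZero Pn := ⟨hP.ne'⟩
  set c : ℝ := t0 / Pn with hc
  have hc0 : 0 < c := by positivity
  obtain ⟨hsum, hbd⟩ := riemann_line (ff ε) (ff' ε) (ff_deriv hε) (ff'_cont ε) (ff_integrable hε) (ff'_integrable hε) c hc0 (l + s)
  have hIf : ∫ x, ff ε x = If ε := rfl
  rw [hIf] at hbd
  have hbd2 : |c * ∑' M : ℤ, ff ε (l + s + M * c) - If ε| ≤ c * (1 / 2) :=
    hbd.trans (mul_le_mul_of_nonneg_left (integral_ff' hε) hc0.le)
  -- reindex
  have hpt : ∀ (i : Fin Pn) (m : ℤ), Lv l Pn i + s + m * t0 = l + s + ((m * Pn + (i : ℕ) : ℤ) : ℝ) * c := by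
    intro i m
    unfold Lv
    push_cast
    rw [hc]
    field_simp
    ring
  have hs2 : Summable (fun p : ℤ × Fin Pn => ff ε (l + s + ((p.1 * Pn + (p.2 : ℕ) : ℤ) : ℝ) * c)) := by
    have := ((Int.divModEquiv Pn).symm.summable_iff (f := fun M : ℤ => ff ε (l + s + M * c))).mpr hsum
    exact this
  have hs3 : Summable (fun p : Fin Pn × ℤ => ff ε (l + s + ((p.2 * Pn + (p.1 : ℕ) : ℤ) : ℝ) * c)) := by
    have := ((Equiv.prodComm (Fin Pn) ℤ).summable_iff (f := fun p : ℤ × Fin Pn => ff ε (l + s + ((p.1 * Pn + (p.2 : ℕ) : ℤ) : ℝ) * c))).mpr hs2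
    exact this
  have hs4 : ∀ i : Fin Pn, Summable (fun m : ℤ => ff ε (Lv l Pn i + s + m * t0)) := by
    intro i
    have := hs3.prod_factor i
    simp_rw [hpt]
    exact this
  have hre : ∑ i : Fin Pn, ∑' m : ℤ, ff ε (Lv l Pn i + s + m * t0) = ∑' M : ℤ, ff ε (l + s + M * c) := by
    simp_rw [hpt]
    rw [← tsum_fintype (L := .unconditional _)]
    rw [← hs3.tsum_prod]
    rw [← (Int.divModEquiv Pn).symm.tsum_eq (fun M : ℤ => ff ε (l + s + M * c))]
    rw [← (Equiv.prodComm (Fin Pn) ℤ).tsum_eq]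
    rfl
  have hdsum : ∀ i : Fin Pn, Summable (fun m : ℤ => actm ε (Lv l Pn i) s m - ff ε (Lv l Pn i + s + m * t0)) := by
    intro i
    apply Summable.of_norm_bounded (g := fun m => 3 * Real.exp (-l) * hs s m) ((hs_summable s).mul_left _)
    intro m
    rw [Real.norm_eq_abs]
    exact actm_diff hε hl (Lv_ge l Pn i) s m
  have hdbd : ∀ i : Fin Pn, |∑' m : ℤ, (actm ε (Lv l Pn i) s m - ff ε (Lv l Pn i + s + m * t0))| ≤ 3 * Real.exp (-l) * (1 / (1 - qq)) := by
    intro i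
    have h1 : |∑' m : ℤ, (actm ε (Lv l Pn i) s m - ff ε (Lv l Pn i + s + m * t0))| ≤ ∑' m : ℤ, 3 * Real.exp (-l) * hs s m := by
      have := tsum_of_norm_bounded (((hs_summable s).mul_left (3 * Real.exp (-l))).hasSum) (f := fun m : ℤ => actm ε (Lv l Pn i) s m - ff ε (Lv l Pn i + s + m * t0)) (fun m => by
        rw [Real.norm_eq_abs]
        exact actm_diff hε hl (Lv_ge l Pn i) s m)
      rwa [Real.norm_eq_abs] at this
    rw [tsum_mul_left] at h1
    exact h1.trans (mul_le_mul_of_nonneg_left (hs_tsum s) (by positivity))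
  have hsplit : ∀ i : Fin Pn, ∑' m : ℤ, actm ε (Lv l Pn i) s m =
      ∑' m : ℤ, (actm ε (Lv l Pn i) s m - ff ε (Lv l Pn i + s + m * t0)) + ∑' m : ℤ, ff ε (Lv l Pn i + s + m * t0) := by
    intro i
    rw [← (hdsum i).tsum_add (hs4 i)]
    congr 1
    funext m
    ring
  have hS : ∑ i : Fin Pn, ∑' m : ℤ, actm ε (Lv l Pn i) s m =
      ∑ i : Fin Pn, ∑' m : ℤ, (actm ε (Lv l Pn i) s m - ff ε (Lv l Pn i + s + m * t0)) + ∑' M : ℤ, ff ε (l + s + M * c) := by
    rw [← hre, ← Finset.sum_add_distrib]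
    exact Finset.sum_congr rfl (fun i _ => hsplit i)
  rw [hS]
  set D := ∑ i : Fin Pn, ∑' m : ℤ, (actm ε (Lv l Pn i) s m - ff ε (Lv l Pn i + s + m * t0)) with hD
  have hDb : |D| ≤ Pn * (3 * Real.exp (-l) * (1 / (1 - qq))) := by
    refine (Finset.abs_sum_le_sum_abs _ _).trans ?_
    refine (Finset.sum_le_sum (fun i _ => hdbd i)).trans ?_
    simp
  have hcP : c * Pn = t0 := by rw [hc]; field_simp
  have e3 : c * (D + ∑' M : ℤ, ff ε (l + s + M * c)) - If ε = (c * ∑' M : ℤ, ff ε (l + s + M * c) - If ε) + c * D := by ring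
  rw [e3]
  refine (abs_add_le _ _).trans ?_
  apply add_le_add hbd2
  rw [abs_mul, abs_of_pos hc0]
  calc c * |D| ≤ c * (Pn * (3 * Real.exp (-l) * (1 / (1 - qq)))) := mul_le_mul_of_nonneg_left hDb hc0.le
    _ = (c * Pn) * (3 * Real.exp (-l) * (1 / (1 - qq))) := by ring
    _ = _ := by rw [hcP]

/-- the limit background is uniformly close to `1 - 3ε` -/
theorem bg1 : ∃ l0 : ℕ, 2 ≤ l0 ∧ ∀ l : ℕ, l0 ≤ l → ∃ P0 : ℕ, ∀ Pn : ℕ, P0 ≤ Pn → ∀ s : ℝ,
    |binf (1 / (l : ℝ) ^ 2) l Pn s - (1 - 3 * (1 / (l : ℝ) ^ 2))| ≤ 1 / (l : ℝ) ^ 2 / 2 := by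
  have hq1 := qq_lt
  have hq0 := qq_pos
  have ht := t0_pos
  set K : ℝ := t0 * (3 * (1 / (1 - qq))) with hK
  have hK0 : 0 < K := by
    have : 0 < 1 - qq := by linarith
    positivity
  have hlim : Filter.Tendsto (fun x : ℝ => 16 * K * (x ^ 2 * Real.exp (-x))) Filter.atTop (𝓝 0) := by
    have := (Real.tendsto_pow_mul_exp_neg_atTop_nhds_zero 2).const_mul (16 * K)
    simpa using this
  have hlim2 := hlim.comp (tendsto_natCast_atTop_atTop (R := ℝ))
  have hev := (hlim2.eventually (gt_mem_nhds (show (0:ℝ) < 1 / 4 by norm_num)))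
  obtain ⟨l1, hl1⟩ := Filter.eventually_atTop.mp hev
  refine ⟨max l1 2, le_max_right _ _, fun l hl => ?_⟩
  have hl2 : 2 ≤ l := le_trans (le_max_right _ _) hl
  have hlr : (2:ℝ) ≤ l := by exact_mod_cast hl2
  have hsm := hl1 l (le_trans (le_max_left _ _) hl)
  simp only [Function.comp] at hsm
  obtain ⟨P0, hP0⟩ := exists_nat_gt (32 * (l:ℝ) ^ 2 * t0)
  refine ⟨P0 + 1, fun Pn hPn s => ?_⟩
  have hPn0 : 0 < Pn := by omega
  have hPr : (0:ℝ) < Pn := by exact_mod_cast hPn0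
  have hPr2 : 32 * (l:ℝ) ^ 2 * t0 < Pn := hP0.trans (by exact_mod_cast (by omega : P0 < Pn))
  set ε : ℝ := 1 / (l:ℝ) ^ 2 with hε
  have hε0 : 0 < ε := by positivity
  have hl4 : (4:ℝ) ≤ (l:ℝ) ^ 2 := by nlinarith
  have hε4 : ε ≤ 1 / 4 := by
    rw [hε]
    exact one_div_le_one_div_of_le (by norm_num) hl4
  obtain ⟨hI1, hI2⟩ := If_bounds hε0 hε4
  have hI0 : 0 < If ε := by linarith
  have hcore := core (ε := ε) (l := l) hε0 (by linarith) Pn hPn0 s
  have hbinf : binf ε l Pn s - (1 - 3 * ε) = ((1 - 3 * ε) / If ε) * ((t0 / Pn) * (∑ i : Fin Pn, ∑' m : ℤ, actm ε (Lv l Pn i) s m) - If ε) := by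
    unfold binf Amp actm
    field_simp
  rw [hbinf, abs_mul]
  have hb1 : |(1 - 3 * ε) / If ε| ≤ 16 := by
    rw [abs_of_nonneg (div_nonneg (by linarith) hI0.le), div_le_iff₀ hI0]
    linarith
  have hb2 : t0 / Pn * (1 / 2) ≤ ε / 64 := by
    rw [div_mul_eq_mul_div, div_le_iff₀ hPr, hε]
    rw [div_div, div_mul_eq_mul_div, le_div_iff₀ (by positivity)]
    nlinarith
  have hb3 : t0 * (3 * Real.exp (-l) * (1 / (1 - qq))) ≤ ε / 64 := by
    have e1 : t0 * (3 * Real.exp (-l) * (1 / (1 - qq))) = K * Real.exp (-l) := by rw [hK]; ring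
    rw [e1, hε, div_div, le_div_iff₀ (by positivity)]
    nlinarith
  calc |(1 - 3 * ε) / If ε| * |(t0 / Pn) * (∑ i : Fin Pn, ∑' m : ℤ, actm ε (Lv l Pn i) s m) - If ε| ≤ 16 * (ε / 64 + ε / 64) := by
        apply mul_le_mul hb1 (hcore.trans (add_le_add hb2 hb3)) (abs_nonneg _) (by norm_num)
    _ = ε / 2 := by ring

end Pool.Agent.NKM
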