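import Mathlib

set_option autoImplicit false
open MeasureTheory

namespace Pool.Agent.NKM

/-- Riemann sum over `ℤ⁴` of a Lipschitz function with bounded support (sup norm on `Fin 4 → ℝ`). -/
theorem cube_sum (K Rad : ℝ) (hK : 0 ≤ K) (hR : 0 ≤ Rad) (G : (Fin 4 → ℝ) → ℝ)
    (hG : ∀ u v, |G u - G v| ≤ K * dist u v) (c : Fin 4 → ℝ)
    (hs : ∀ u, Rad < dist u c → G u = 0) :
    |∑' ν : Fin 4 → ℤ, G (fun i => (ν i : ℝ)) - ∫ u, G u| ≤ K * (2 * Rad + 5) ^ 4 := by
  classical
  -- continuity and integrability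
  have hlip : LipschitzWith ⟨K, hK⟩ G := by
    apply LipschitzWith.of_dist_le_mul
    intro u v
    rw [Real.dist_eq]
    exact hG u v
  have hcont : Continuous G := hlip.continuous
  have hcs : HasCompactSupport G := by
    apply HasCompactSupport.of_support_subset_isCompact (isCompact_closedBall c Rad)
    intro u hu
    rw [Metric.mem_closedBall]
    by_contra h
    exact hu (hs u (not_le.mp h))
  have hint : Integrable G := hcont.integrable_of_hasCompactSupport hcs
  -- the cubes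
  let Q : (Fin 4 → ℤ) → Set (Fin 4 → ℝ) := fun ν =>
    Set.pi Set.univ (fun i => Set.Ico (ν i : ℝ) ((ν i : ℝ) + 1))
  let S : Finset (Fin 4 → ℤ) := Fintype.piFinset (fun i => Finset.Icc ⌈c i - Rad - 1⌉ ⌊c i + Rad⌋)
  have hQm : ∀ ν, MeasurableSet (Q ν) := fun ν =>
    MeasurableSet.univ_pi (fun i => measurableSet_Ico)
  have hQd : Pairwise (fun ν μ => Disjoint (Q ν) (Q μ)) := by
    intro ν μ hne
    rw [Set.disjoint_left]
    intro u hu hu'
    apply hne
    funext i
    have h1 := hu i (Set.mem_univ i)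
    have h2 := hu' i (Set.mem_univ i)
    have e1 : ⌊u i⌋ = ν i := Int.floor_eq_iff.mpr ⟨h1.1, h1.2⟩
    have e2 : ⌊u i⌋ = μ i := Int.floor_eq_iff.mpr ⟨h2.1, h2.2⟩
    rw [← e1, e2]
  have hself : ∀ ν : Fin 4 → ℤ, (fun i => (ν i : ℝ)) ∈ Q ν := by
    intro ν i _
    exact ⟨le_refl _, by linarith⟩
  -- if a point of the cube is in the support then the index is in S
  have hmem : ∀ (ν : Fin 4 → ℤ) (u : Fin 4 → ℝ), u ∈ Q ν → G u ≠ 0 → ν ∈ S := by
    intro ν u hu hGu
    have hd : dist u c ≤ Rad := by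
      by_contra h
      exact hGu (hs u (not_le.mp h))
    rw [Fintype.mem_piFinset]
    intro i
    rw [Finset.mem_Icc]
    have h1 := hu i (Set.mem_univ i)
    have h2 : dist (u i) (c i) ≤ Rad := (dist_le_pi_dist u c i).trans hd
    rw [Real.dist_eq, abs_le] at h2
    obtain ⟨h3, h4⟩ := h1
    constructor
    · apply Int.ceil_le.mpr
      linarith [h2.1]
    · apply Int.le_floor.mpr
      linarith [h2.2]
  -- the sum
  have hsum : ∑' ν : Fin 4 → ℤ, G (fun i => (ν i : ℝ)) = ∑ ν ∈ S, G (fun i => (ν i : ℝ)) := by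
    apply tsum_eq_sum
    intro ν hν
    by_contra h
    exact hν (hmem ν _ (hself ν) h)
  -- the integral
  have hI : ∫ u, G u = ∑ ν ∈ S, ∫ u in Q ν, G u := by
    rw [← integral_biUnion_finset S (fun ν _ => hQm ν) (fun ν _ μ _ hne => hQd hne)
      (fun ν _ => hint.integrableOn)]
    symm
    apply setIntegral_eq_integral_of_forall_compl_eq_zero
    intro u hu
    by_contra h
    apply hu
    have hq : u ∈ Q (fun i => ⌊u i⌋) := by
      intro i _
      exact ⟨Int.floor_le (u i), Int.lt_floor_add_one (u i)⟩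
    exact Set.mem_biUnion (Finset.mem_coe.mpr (hmem _ u hq h)) hq
  have hvol : ∀ ν, volume (Q ν) = 1 := by
    intro ν
    simp only [Q]
    rw [Real.volume_pi_Ico]
    simp
  have hterm : ∀ ν ∈ S, |G (fun i => (ν i : ℝ)) - ∫ u in Q ν, G u| ≤ K := by
    intro ν _
    have e1 : G (fun i => (ν i : ℝ)) = ∫ _u in Q ν, G (fun i => (ν i : ℝ)) := by
      rw [setIntegral_const]
      simp [Measure.real, hvol]
    have hfin : volume (Q ν) < ⊤ := by rw [hvol]; exact ENNReal.one_lt_top
    have hci : Integrable (fun _ : Fin 4 → ℝ => G (fun i => (ν i : ℝ))) (volume.restrict (Q ν)) := by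
      have h0 : IntegrableOn (fun _ : Fin 4 → ℝ => G (fun i => (ν i : ℝ))) (Q ν) volume :=
        integrableOn_const hfin.ne
      exact h0
    have hGi : Integrable G (volume.restrict (Q ν)) := hint.integrableOn
    rw [e1, ← integral_sub hci hGi]
    have h := norm_setIntegral_le_of_norm_le_const (μ := volume) (s := Q ν)
      (f := fun u => G (fun i => (ν i : ℝ)) - G u) (C := K) hfin (by
        intro u hu
        rw [Real.norm_eq_abs]
        refine (hG _ _).trans ?_
        have hd : dist (fun i => (ν i : ℝ)) u ≤ 1 := by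
          rw [dist_pi_le_iff zero_le_one]
          intro i
          have h1 := hu i (Set.mem_univ i)
          obtain ⟨h3, h4⟩ := h1
          rw [Real.dist_eq, abs_le]
          constructor <;> linarith
        calc K * dist (fun i => (ν i : ℝ)) u ≤ K * 1 := mul_le_mul_of_nonneg_left hd hK
          _ = K := mul_one K)
    rw [Real.norm_eq_abs] at h
    simpa [Measure.real, hvol] using h
  have hcard : (S.card : ℝ) ≤ (2 * Rad + 5) ^ 4 := by
    have h1 : S.card = ∏ i : Fin 4, (Finset.Icc ⌈c i - Rad - 1⌉ ⌊c i + Rad⌋).card :=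
      Fintype.card_piFinset _
    rw [h1, Nat.cast_prod]
    have h2 : ∀ i : Fin 4, ((Finset.Icc ⌈c i - Rad - 1⌉ ⌊c i + Rad⌋).card : ℝ) ≤ 2 * Rad + 5 := by
      intro i
      rw [Int.card_Icc]
      have h3 : (((⌊c i + Rad⌋ + 1 - ⌈c i - Rad - 1⌉).toNat : ℤ) : ℝ)
          = ((⌊c i + Rad⌋ + 1 - ⌈c i - Rad - 1⌉).toNat : ℝ) := by push_cast; rfl
      rw [← h3, Int.toNat_eq_max]
      push_cast
      apply max_le
      · have h4 := Int.floor_le (c i + Rad)
        have h5 := Int.le_ceil (c i - Rad - 1)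
        linarith
      · linarith
    calc ∏ i : Fin 4, ((Finset.Icc ⌈c i - Rad - 1⌉ ⌊c i + Rad⌋).card : ℝ)
        ≤ ∏ _i : Fin 4, (2 * Rad + 5) :=
          Finset.prod_le_prod (fun i _ => Nat.cast_nonneg _) (fun i _ => h2 i)
      _ = (2 * Rad + 5) ^ 4 := by simp
  rw [hsum, hI, ← Finset.sum_sub_distrib]
  calc |∑ ν ∈ S, (G (fun i => (ν i : ℝ)) - ∫ u in Q ν, G u)|
      ≤ ∑ ν ∈ S, |G (fun i => (ν i : ℝ)) - ∫ u in Q ν, G u| := Finset.abs_sum_le_sum_abs _ _
    _ ≤ ∑ _ν ∈ S, K := Finset.sum_le_sum hterm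
    _ = S.card * K := by rw [Finset.sum_const, nsmul_eq_mul]
    _ ≤ (2 * Rad + 5) ^ 4 * K := mul_le_mul_of_nonneg_right hcard hK
    _ = K * (2 * Rad + 5) ^ 4 := mul_comm _ _

end Pool.Agent.NKM
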