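import Pool.Agent.NKM.Gam
import Pool.Agent.NKM.RSa
set_option autoImplicit false
open MeasureTheory

namespace Pool.Agent.NKM

/-- the change of basis matrix -/
noncomputable def Amat : Matrix (Fin 4) (Fin 4) ℝ :=
  !![1, gr, 0, 0; 0, 0, 1, gr; 1, gc, 0, 0; 0, 0, 1, gc]

theorem gr_sub_gc_sq : (gr - gc) ^ 2 = 5 := by
  unfold gr gc
  rw [Real.goldenRatio_sub_goldenConj]
  exact Real.sq_sqrt (by norm_num)

theorem det_Amat : |Amat.det| = 5 := by
  have : Amat.det = -(gr - gc) ^ 2 := by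
    unfold Amat
    rw [Matrix.det_succ_row_zero]
    simp [Fin.sum_univ_succ, Matrix.det_fin_three, Matrix.submatrix, Fin.succAbove]
    ring
  rw [this, gr_sub_gc_sq]
  norm_num

/-- the measurable equivalence from four real coordinates to `ℂ × ℂ` -/
noncomputable def e4 : (Fin 4 → ℝ) ≃ᵐ ℂ × ℂ :=
  ((MeasurableEquiv.piCongrLeft (fun _ : Fin 4 => ℝ) (finSumFinEquiv (m := 2) (n := 2))).symm.trans
    (MeasurableEquiv.sumPiEquivProdPi (fun _ : Fin 2 ⊕ Fin 2 => ℝ))).trans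
    (MeasurableEquiv.prodCongr Complex.measurableEquivPi.symm Complex.measurableEquivPi.symm)

theorem e4_apply (u : Fin 4 → ℝ) :
    e4 u = ((u 0 : ℂ) + (u 1 : ℂ) * Complex.I, (u 2 : ℂ) + (u 3 : ℂ) * Complex.I) := rfl

theorem e4_pres : MeasurePreserving e4 := by
  have h1 := (volume_measurePreserving_piCongrLeft (fun _ : Fin 4 => ℝ)
    (finSumFinEquiv (m := 2) (n := 2))).symm
  have h2 := volume_measurePreserving_sumPiEquivProdPi (fun _ : Fin 2 ⊕ Fin 2 => ℝ)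
  have h3 := Complex.volume_preserving_equiv_pi.symm
  exact (h3.prod h3).comp (h2.comp h1)

/-- the lattice map on real coordinates -/
noncomputable def Lm (u : Fin 4 → ℝ) : ℂ × ℂ := e4 (Amat.mulVec u)

theorem Lm_apply (u : Fin 4 → ℝ) : Lm u =
    (((u 0 + u 1 * gr : ℝ) : ℂ) + ((u 2 + u 3 * gr : ℝ) : ℂ) * Complex.I,
      ((u 0 + u 1 * gc : ℝ) : ℂ) + ((u 2 + u 3 * gc : ℝ) : ℂ) * Complex.I) := by
  unfold Lm
  rw [e4_apply]
  simp [Amat, Matrix.mulVec, dotProduct, Fin.sum_univ_succ]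
  constructor <;> ring

theorem Lm_sub (u v : Fin 4 → ℝ) : Lm (u - v) = Lm u - Lm v := by
  simp only [Lm_apply, Pi.sub_apply, Prod.mk_sub_mk]
  ext <;> push_cast <;> ring

theorem int_Lm (F : ℂ × ℂ → ℝ) (t : ℝ) (ht : 0 < t) (a : ℂ × ℂ) :
    ∫ u, F (a + t • Lm u) = (1 / (5 * t ^ 4)) * ∫ p, F p := by
  have h0 : Amat.det ≠ 0 := by
    intro h
    have := det_Amat
    rw [h, abs_zero] at this
    norm_num at this
  have h1 : ∫ u, F (a + t • Lm u) = ∫ y, F (a + t • e4 y) ∂(Measure.map (Matrix.toLin' Amat) volume) := by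
    have hemb : MeasurableEmbedding (Matrix.toLin' Amat) := by
      have : IsUnit Amat.det := isUnit_iff_ne_zero.2 h0
      have hinj : Function.Injective (Matrix.toLin' Amat) := by
        have := Matrix.mulVec_injective_of_isUnit ((Matrix.isUnit_iff_isUnit_det Amat).2 this)
        exact this
      exact (Matrix.toLin' Amat).continuous_of_finiteDimensional.measurableEmbedding hinj
    rw [hemb.integral_map]
    rfl
  rw [h1, Real.map_matrix_volume_pi_eq_smul_volume_pi h0, integral_smul_measure,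
    e4_pres.integral_comp' (g := fun p => F (a + t • p))]
  have h2 : ∫ p : ℂ × ℂ, F (a + t • p) = (t ^ 4)⁻¹ * ∫ p, F p := by
    have inst : (volume : Measure (ℂ × ℂ)).IsAddHaarMeasure :=
      inferInstanceAs ((volume : Measure ℂ).prod (volume : Measure ℂ)).IsAddHaarMeasure
    have h3 := MeasureTheory.Measure.integral_comp_smul (volume : Measure (ℂ × ℂ))
      (fun y => F (a + y)) t
    rw [h3, integral_add_left_eq_self]
    have h4 : Module.finrank ℝ (ℂ × ℂ) = 4 := by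
      rw [Module.finrank_prod, Complex.finrank_real_complex]
    rw [h4, abs_of_pos (by positivity), smul_eq_mul]
  rw [h2, ENNReal.toReal_ofReal (abs_nonneg _), abs_inv, det_Amat, smul_eq_mul]
  field_simp

theorem abs_gr_le : |gr| ≤ 2 := by
  unfold gr
  rw [abs_of_pos Real.goldenRatio_pos]
  exact Real.goldenRatio_lt_two.le

theorem abs_gc_le : |gc| ≤ 1 := by
  unfold gc
  rw [abs_of_neg Real.goldenConj_neg]
  linarith [Real.neg_one_lt_goldenConj]

theorem gr_sub_gc : gr - gc = gr + |gc| := by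
  unfold gr gc
  rw [abs_of_neg Real.goldenConj_neg]
  ring

theorem two_le_gr_sub_gc : 2 ≤ gr - gc := by
  have h := gr_sub_gc_sq
  have h1 : 0 < gr - gc := by
    have h2 : gr > 0 := Real.goldenRatio_pos
    have h3 : gc < 0 := Real.goldenConj_neg
    linarith
  nlinarith

theorem norm_cplx_le (x y : ℝ) : ‖(x : ℂ) + (y : ℂ) * Complex.I‖ ≤ |x| + |y| := by
  refine (norm_add_le _ _).trans ?_
  rw [norm_mul, Complex.norm_I, mul_one, Complex.norm_real, Complex.norm_real]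
  rfl

theorem norm_Lm_le (u : Fin 4 → ℝ) : ‖Lm u‖ ≤ 6 * ‖u‖ := by
  have hu : ∀ i, |u i| ≤ ‖u‖ := fun i => norm_le_pi_norm u i
  have h0 := hu 0
  have h1 := hu 1
  have h2 := hu 2
  have h3 := hu 3
  have hn : 0 ≤ ‖u‖ := norm_nonneg u
  have m : ∀ (x y g : ℝ), |g| ≤ 2 → |x| ≤ ‖u‖ → |y| ≤ ‖u‖ → |x + y * g| ≤ 3 * ‖u‖ := by
    intro x y g hg hx hy
    have : |y * g| ≤ ‖u‖ * 2 := by
      rw [abs_mul]
      exact mul_le_mul hy hg (abs_nonneg _) hn
    linarith [abs_add_le x (y * g)]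
  rw [Lm_apply, Prod.norm_def]
  refine max_le ?_ ?_
  · refine (norm_cplx_le _ _).trans ?_
    linarith [m _ _ _ abs_gr_le h0 h1, m _ _ _ abs_gr_le h2 h3]
  · refine (norm_cplx_le _ _).trans ?_
    have hg : |gc| ≤ 2 := abs_gc_le.trans (by norm_num)
    linarith [m _ _ _ hg h0 h1, m _ _ _ hg h2 h3]

theorem real_inv (x y p q B : ℝ) (hp : x + y * gr = p) (hq : x + y * gc = q) (h1 : |p| ≤ B)
    (h2 : |q| ≤ B) : |x| ≤ B ∧ |y| ≤ B := by
  have hB : 0 ≤ B := (abs_nonneg _).trans h1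
  have hg := two_le_gr_sub_gc
  have hgpos : 0 < gr - gc := by linarith
  constructor
  · have hx : (gr - gc) * x = gr * q - gc * p := by rw [← hp, ← hq]; ring
    have h3 : |(gr - gc) * x| ≤ (gr - gc) * B := by
      rw [hx, gr_sub_gc]
      have h4 : |gr * q| ≤ gr * B := by
        have hgr : 0 < gr := Real.goldenRatio_pos
        rw [abs_mul, abs_of_pos hgr]
        exact mul_le_mul_of_nonneg_left h2 hgr.le
      have h5 : |gc * p| ≤ |gc| * B := by
        rw [abs_mul]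
        exact mul_le_mul_of_nonneg_left h1 (abs_nonneg _)
      linarith [abs_sub (gr * q) (gc * p)]
    rw [abs_mul, abs_of_pos hgpos] at h3
    exact le_of_mul_le_mul_left h3 hgpos
  · have hy : (gr - gc) * y = p - q := by rw [← hp, ← hq]; ring
    have h3 : |(gr - gc) * y| ≤ (gr - gc) * B := by
      rw [hy]
      have := abs_sub p q
      nlinarith
    rw [abs_mul, abs_of_pos hgpos] at h3
    exact le_of_mul_le_mul_left h3 hgpos

theorem norm_le_norm_Lm (u : Fin 4 → ℝ) : ‖u‖ ≤ ‖Lm u‖ := by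
  have h1 : ‖(Lm u).1‖ ≤ ‖Lm u‖ := norm_fst_le _
  have h2 : ‖(Lm u).2‖ ≤ ‖Lm u‖ := norm_snd_le _
  have r1 : (Lm u).1.re = u 0 + u 1 * gr := by rw [Lm_apply]; simp
  have i1 : (Lm u).1.im = u 2 + u 3 * gr := by rw [Lm_apply]; simp
  have r2 : (Lm u).2.re = u 0 + u 1 * gc := by rw [Lm_apply]; simp
  have i2 : (Lm u).2.im = u 2 + u 3 * gc := by rw [Lm_apply]; simp
  have a := real_inv _ _ _ _ ‖Lm u‖ r1.symm r2.symm ((Complex.abs_re_le_norm _).trans h1)
    ((Complex.abs_re_le_norm _).trans h2)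
  have b := real_inv _ _ _ _ ‖Lm u‖ i1.symm i2.symm ((Complex.abs_im_le_norm _).trans h1)
    ((Complex.abs_im_le_norm _).trans h2)
  rw [pi_norm_le_iff_of_nonneg (norm_nonneg _)]
  intro i
  fin_cases i
  · exact a.1
  · exact a.2
  · exact b.1
  · exact b.2

/-- the index equivalence -/
def idx : Lat ≃ (Fin 4 → ℤ) where
  toFun n := ![n.1.1, n.1.2, n.2.1, n.2.2]
  invFun m := ((m 0, m 1), (m 2, m 3))
  left_inv n := rfl
  right_inv m := by
    funext i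
    fin_cases i <;> rfl

theorem idx_Lm (ν : Lat) : Lm (fun i => ((idx ν i : ℤ) : ℝ)) = (E1 ν, E2 ν) := by
  rw [Lm_apply]
  show (((((ν.1.1 : ℤ) : ℝ) + ((ν.1.2 : ℤ) : ℝ) * gr : ℝ) : ℂ) +
      ((((ν.2.1 : ℤ) : ℝ) + ((ν.2.2 : ℤ) : ℝ) * gr : ℝ) : ℂ) * Complex.I,
      ((((ν.1.1 : ℤ) : ℝ) + ((ν.1.2 : ℤ) : ℝ) * gc : ℝ) : ℂ) +
      ((((ν.2.1 : ℤ) : ℝ) + ((ν.2.2 : ℤ) : ℝ) * gc : ℝ) : ℂ) * Complex.I) = _
  rfl

theorem exists_Lm (a : ℂ × ℂ) : ∃ c, Lm c = a := by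
  have h0 : Amat.det ≠ 0 := by
    intro h
    have := det_Amat
    rw [h, abs_zero] at this
    norm_num at this
  refine ⟨Amat⁻¹.mulVec (e4.symm a), ?_⟩
  unfold Lm
  rw [Matrix.mulVec_mulVec, Matrix.mul_nonsing_inv _ (isUnit_iff_ne_zero.2 h0), Matrix.one_mulVec,
    MeasurableEquiv.apply_symm_apply]

theorem Lm_smul (r : ℝ) (u : Fin 4 → ℝ) : Lm (r • u) = r • Lm u := by
  simp only [Lm_apply, Pi.smul_apply, Prod.smul_mk, smul_eq_mul, Complex.real_smul]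
  ext <;> push_cast <;> ring


/-- TARGET. Riemann sum over the scaled lattice `t (E1 ν, E2 ν)`, of covolume `5 t⁴`. -/
theorem lattice_sum (K Bd : ℝ) (hK : 0 ≤ K) (hB : 0 ≤ Bd) : ∃ C : ℝ, ∀ F : ℂ × ℂ → ℝ,
    (∀ p q, |F p - F q| ≤ K * dist p q) → (∀ p, Bd < ‖p‖ → F p = 0) →
    ∀ t : ℝ, 0 < t → t ≤ 1 → ∀ a : ℂ × ℂ,
      |∑' ν : Lat, F (a.1 + t * E1 ν, a.2 + t * E2 ν) - (1 / (5 * t ^ 4)) * ∫ p, F p|
        ≤ C / t ^ 3 := by
  refine ⟨6 * K * (2 * Bd + 5) ^ 4, fun F hF hs t ht ht1 a => ?_⟩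
  obtain ⟨c0, hc0⟩ := exists_Lm a
  have hG : ∀ u v : Fin 4 → ℝ, |F (a + t • Lm u) - F (a + t • Lm v)| ≤ (6 * K * t) * dist u v := by
    intro u v
    refine (hF _ _).trans ?_
    rw [dist_add_left, dist_smul₀, dist_eq_norm, ← Lm_sub, Real.norm_eq_abs, abs_of_pos ht,
      dist_eq_norm]
    have h1 := norm_Lm_le (u - v)
    have h2 : t * ‖Lm (u - v)‖ ≤ t * (6 * ‖u - v‖) := mul_le_mul_of_nonneg_left h1 ht.le
    calc K * (t * ‖Lm (u - v)‖) ≤ K * (t * (6 * ‖u - v‖)) := mul_le_mul_of_nonneg_left h2 hK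
      _ = 6 * K * t * ‖u - v‖ := by ring
  have hsupp : ∀ u : Fin 4 → ℝ, Bd / t < dist u (-(t⁻¹ • c0)) → F (a + t • Lm u) = 0 := by
    intro u hu
    refine hs _ (lt_of_lt_of_le ((div_lt_iff₀ ht).1 hu) ?_)
    have h1 : a + t • Lm u = t • Lm (u - -(t⁻¹ • c0)) := by
      rw [sub_neg_eq_add, ← hc0]
      have : Lm (u + t⁻¹ • c0) = Lm u + t⁻¹ • Lm c0 := by
        have h2 := Lm_sub u (-(t⁻¹ • c0))
        rw [sub_neg_eq_add] at h2
        have h3 : Lm (-(t⁻¹ • c0)) = -(t⁻¹ • Lm c0) := by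
          have h4 := Lm_smul (-t⁻¹) c0
          rw [neg_smul, neg_smul] at h4
          exact h4
        rw [h2, h3, sub_neg_eq_add]
      rw [this, smul_add, smul_smul, mul_inv_cancel₀ ht.ne', one_smul, add_comm]
    rw [h1, norm_smul, Real.norm_eq_abs, abs_of_pos ht, dist_eq_norm, mul_comm]
    exact mul_le_mul_of_nonneg_left (norm_le_norm_Lm _) ht.le
  have key := cube_sum (6 * K * t) (Bd / t) (by positivity) (by positivity)
    (fun u => F (a + t • Lm u)) hG (-(t⁻¹ • c0)) hsupp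
  rw [int_Lm F t ht a] at key
  have hsum : ∑' ν : Lat, F (a.1 + t * E1 ν, a.2 + t * E2 ν) =
      ∑' ν : Fin 4 → ℤ, F (a + t • Lm (fun i => (ν i : ℝ))) := by
    rw [← idx.tsum_eq]
    refine tsum_congr fun ν => ?_
    rw [idx_Lm]
    rfl
  rw [hsum]
  refine key.trans ?_
  have h5 : 2 * (Bd / t) + 5 ≤ (2 * Bd + 5) / t := by
    rw [le_div_iff₀ ht]
    have : (2 * (Bd / t) + 5) * t = 2 * Bd + 5 * t := by field_simp
    rw [this]; linarith
  have h6 : (2 * (Bd / t) + 5) ^ 4 ≤ ((2 * Bd + 5) / t) ^ 4 :=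
    pow_le_pow_left₀ (by positivity) h5 4
  calc 6 * K * t * (2 * (Bd / t) + 5) ^ 4 ≤ 6 * K * t * ((2 * Bd + 5) / t) ^ 4 :=
        mul_le_mul_of_nonneg_left h6 (by positivity)
    _ = 6 * K * (2 * Bd + 5) ^ 4 / t ^ 3 := by
        field_simp

end Pool.Agent.NKM
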