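import Pool.Agent.NKM.BG2a
import Pool.Agent.NKM.RSb

set_option autoImplicit false
open scoped Manifold ContDiff Topology ComplexConjugate
open MeasureTheory Set

namespace Pool.Agent.NKM



/-! TARGET -/



lemma j3632_box (R : ℝ) (p : ℤ × ℤ) (h1 : |e1 p| ≤ R) (h2 : |e2 p| ≤ R) :
    p ∈ (Icc (-⌈5*R⌉) ⌈5*R⌉ ×ˢ Icc (-⌈5*R⌉) ⌈5*R⌉ : Set (ℤ × ℤ)) := by
  rw [e1_apply] at h1
  rw [e2_apply] at h2
  have hR : 0 ≤ R := le_trans (abs_nonneg _) h1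
  have hg := one_lt_gr
  have hg2 := gr_lt_two
  have hc := gc_neg
  rw [abs_le] at h1 h2
  have hb : |(p.2:ℝ)| * (gr - gc) ≤ 2 * R := by
    have : |(p.2:ℝ)| * (gr - gc) = |(p.2:ℝ) * (gr - gc)| := by
      rw [abs_mul, abs_of_pos (by linarith : 0 < gr - gc)]
    rw [this, abs_le]
    constructor <;> nlinarith
  have hb' : |(p.2:ℝ)| ≤ 2 * R := by
    nlinarith [abs_nonneg (p.2:ℝ)]
  have hpg : |(p.2:ℝ) * gr| ≤ 4 * R := by
    rw [abs_mul, abs_of_pos gr_pos]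
    nlinarith [abs_nonneg (p.2:ℝ)]
  have ha : |(p.1:ℝ)| ≤ 5 * R := by
    rw [abs_le] at hpg ⊢
    constructor <;> linarith
  have hb2 : |(p.2:ℝ)| ≤ 5 * R := by linarith
  have hce : 5 * R ≤ (⌈5*R⌉ : ℝ) := Int.le_ceil _
  rw [abs_le] at ha hb2
  refine ⟨⟨?_, ?_⟩, ⟨?_, ?_⟩⟩
  · have : ((-⌈5*R⌉ : ℤ) : ℝ) ≤ (p.1 : ℝ) := by push_cast; linarith
    exact_mod_cast this
  · have : (p.1 : ℝ) ≤ ((⌈5*R⌉ : ℤ) : ℝ) := by linarith
    exact_mod_cast this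
  · have : ((-⌈5*R⌉ : ℤ) : ℝ) ≤ (p.2 : ℝ) := by push_cast; linarith
    exact_mod_cast this
  · have : (p.2 : ℝ) ≤ ((⌈5*R⌉ : ℤ) : ℝ) := by linarith
    exact_mod_cast this

lemma j3632_fin (R : ℝ) : {ν : Lat | ‖E1 ν‖ ≤ R ∧ ‖E2 ν‖ ≤ R}.Finite := by
  have hf : ((Icc (-⌈5*R⌉) ⌈5*R⌉ ×ˢ Icc (-⌈5*R⌉) ⌈5*R⌉ : Set (ℤ × ℤ))).Finite :=
    (Set.finite_Icc _ _).prod (Set.finite_Icc _ _)
  refine (hf.prod hf).subset ?_
  rintro ν ⟨h1, h2⟩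
  refine ⟨j3632_box R ν.1 ?_ ?_, j3632_box R ν.2 ?_ ?_⟩
  · rw [← E1_re]; exact (Complex.abs_re_le_norm _).trans h1
  · rw [← E2_re]; exact (Complex.abs_re_le_norm _).trans h2
  · rw [← E1_im]; exact (Complex.abs_im_le_norm _).trans h1
  · rw [← E2_im]; exact (Complex.abs_im_le_norm _).trans h2

lemma j3632_summable {F : ℂ × ℂ → ℝ} {Bd : ℝ} (hF : ∀ p, Bd < ‖p‖ → F p = 0) {t : ℝ}
    (ht : 0 < t) (a : ℂ × ℂ) :
    Summable (fun ν : Lat => F (a.1 + t * E1 ν, a.2 + t * E2 ν)) := by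
  apply summable_of_hasFiniteSupport
  apply (j3632_fin ((Bd + ‖a‖) / t)).subset
  intro ν hν
  rw [Function.mem_support] at hν
  have h1 : ‖((a.1 + t * E1 ν, a.2 + t * E2 ν) : ℂ × ℂ)‖ ≤ Bd := by
    by_contra h
    exact hν (hF _ (not_le.mp h))
  have h11 := (norm_fst_le ((a.1 + t * E1 ν, a.2 + t * E2 ν) : ℂ × ℂ)).trans h1
  have h12 := (norm_snd_le ((a.1 + t * E1 ν, a.2 + t * E2 ν) : ℂ × ℂ)).trans h1
  simp only at h11 h12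
  have ha1 := norm_fst_le a
  have ha2 := norm_snd_le a
  have e1' : ‖(t : ℂ) * E1 ν‖ = t * ‖E1 ν‖ := by
    rw [norm_mul, Complex.norm_real, Real.norm_eq_abs, abs_of_pos ht]
  have e2' : ‖(t : ℂ) * E2 ν‖ = t * ‖E2 ν‖ := by
    rw [norm_mul, Complex.norm_real, Real.norm_eq_abs, abs_of_pos ht]
  refine ⟨?_, ?_⟩
  · rw [le_div_iff₀ ht, mul_comm, ← e1']
    have : ‖(t : ℂ) * E1 ν‖ ≤ ‖a.1 + t * E1 ν‖ + ‖a.1‖ := by
      have := norm_sub_le (a.1 + (t : ℂ) * E1 ν) a.1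
      simpa using this
    linarith
  · rw [le_div_iff₀ ht, mul_comm, ← e2']
    have : ‖(t : ℂ) * E2 ν‖ ≤ ‖a.2 + t * E2 ν‖ + ‖a.2‖ := by
      have := norm_sub_le (a.2 + (t : ℂ) * E2 ν) a.2
      simpa using this
    linarith

lemma j3632_t (q : ℕ) : ((gc : ℂ) ^ (2 * q : ℤ)) = (((gr ^ (2 * q))⁻¹ : ℝ) : ℂ) := by
  have h : gc ^ (2 * q) = (gr ^ (2 * q))⁻¹ := by
    have h1 : gc = - gr⁻¹ := by
      have := gr_mul_gc
      field_simp [gr_ne]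
      linarith
    rw [h1, neg_pow, pow_mul (-1 : ℝ), neg_one_sq, one_pow, one_mul, inv_pow]
  rw [← h]
  push_cast
  norm_cast

lemma j3632_dl (q : ℕ) : dl q = ((gr ^ (2 * q))⁻¹) ^ 4 := by
  rw [dl, inv_pow, ← pow_mul]
  congr 2
  ring



/-- pointwise comparison of the summand -/
lemma j3632_point {ε κ c r : ℝ} (hε : 0 < ε) (hκ : 0 ≤ κ) (u b : ℂ) :
    Ff ε (c - κ) r (u, b) ≤ P1 ε (c - ‖u‖ ^ 2 - κ * S (Real.log (r / ‖b‖))) *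
        dsg (Real.log (r / ‖b‖)) / ‖b‖ ^ 2 ∧
    P1 ε (c - ‖u‖ ^ 2 - κ * S (Real.log (r / ‖b‖))) *
        dsg (Real.log (r / ‖b‖)) / ‖b‖ ^ 2 ≤ Ff ε c r (u, b) := by
  simp only [Ff, kf]
  rw [mul_div_assoc]
  have hk : 0 ≤ dsg (Real.log (r / ‖b‖)) / ‖b‖ ^ 2 := kf_nonneg r b
  set T := Real.log (r / ‖b‖) with hT
  rcases le_or_gt T 0 with h0 | h0
  · rw [dsg_of_nonpos h0]; simp
  rcases le_or_gt 1 T with h1 | h1
  · rw [dsg_of_one_le h1]; simp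
  have hS0 : 0 ≤ S T := S_nonneg T
  have hS1 : S T ≤ 1 := (S_le h0.le).trans h1.le
  have hk0 : 0 ≤ κ * S T := mul_nonneg hκ hS0
  have hk1 : κ * S T ≤ κ := by nlinarith
  constructor
  · apply mul_le_mul_of_nonneg_right _ hk
    exact P1_mono hε (by linarith)
  · apply mul_le_mul_of_nonneg_right _ hk
    exact P1_mono hε (by linarith)

theorem bg2 {ε L r κh e : ℝ} (hε : 0 < ε) (hL : 0 ≤ L) (hr : 0 < r) (hκh : 0 < κh)
    (he : 0 < e) : ∃ q0 : ℕ, ∀ q ≥ q0, ∀ κ : ℝ, 0 ≤ κ → κ ≤ κh * dl q → ∀ (a0 b0 : ℂ) (c0 : ℝ),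
      c0 ≤ L + 1 →
      |dl q * ∑' n : Lat, P1 ε (c0 - dl q * ‖a0 + E1 n‖ ^ 2 -
          κ * S (Real.log (r / ‖b0 + E2 n‖))) * dsg (Real.log (r / ‖b0 + E2 n‖)) /
            ‖b0 + E2 n‖ ^ 2 - 2 * Real.pi ^ 2 / 5 * P ε c0| ≤ e := by
  obtain ⟨K, hK, hKF⟩ := Ff_lipschitz (ε := ε) (C0 := L + 1) (r := r) hε (by linarith) hr
  obtain ⟨Bd, hBd, hBF⟩ := Ff_support (ε := ε) (C0 := L + 1) (r := r) hε (by linarith) hr
  obtain ⟨C, hC⟩ := lattice_sum K Bd hK hBd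
  set M : ℝ := |C| + 2 * Real.pi ^ 2 / 5 * ((L + 1) * κh) with hM
  have hM0 : 0 ≤ M := by positivity
  -- smallness
  have hlim : Filter.Tendsto (fun q : ℕ => M * (gr ^ (2 * q))⁻¹) Filter.atTop (𝓝 (M * 0)) := by
    apply Filter.Tendsto.const_mul
    have h1 : Filter.Tendsto (fun q : ℕ => ((gr ^ 2)⁻¹) ^ q) Filter.atTop (𝓝 0) := by
      apply tendsto_pow_atTop_nhds_zero_of_lt_one (by positivity)
      apply inv_lt_one_of_one_lt₀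
      have := one_lt_gr
      nlinarith
    refine h1.congr (fun q => ?_)
    rw [inv_pow, ← pow_mul]
  rw [mul_zero] at hlim
  obtain ⟨q0, hq0⟩ := Filter.eventually_atTop.mp (hlim.eventually_le_const he)
  refine ⟨q0, fun q hq κ hκ hκ2 a0 b0 c0 hc0 => ?_⟩
  have hsm := hq0 q hq
  have hgpos : 0 < gr ^ (2 * q) := pow_pos gr_pos _
  set t : ℝ := (gr ^ (2 * q))⁻¹ with ht
  have htpos : 0 < t := inv_pos.mpr hgpos
  have ht1 : t ≤ 1 := inv_le_one_of_one_le₀ (one_le_pow₀ one_lt_gr.le)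
  have hdl : dl q = t ^ 4 := j3632_dl q
  rw [hdl] at hκ2 ⊢
  -- reindexing
  have hre : (∑' n : Lat, P1 ε (c0 - t ^ 4 * ‖a0 + E1 n‖ ^ 2 -
          κ * S (Real.log (r / ‖b0 + E2 n‖))) * dsg (Real.log (r / ‖b0 + E2 n‖)) /
            ‖b0 + E2 n‖ ^ 2) =
      ∑' ν : Lat, P1 ε (c0 - ‖(t : ℂ) ^ 2 * a0 + t * E1 ν‖ ^ 2 -
          κ * S (Real.log (r / ‖b0 + t * E2 ν‖))) * dsg (Real.log (r / ‖b0 + t * E2 ν‖)) /
            ‖b0 + t * E2 ν‖ ^ 2 := by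
    rw [← Equiv.tsum_eq ((((2 * q : ℕ) : ℤ) • Phi : AddAut Lat) : AddAut Lat).toEquiv]
    apply tsum_congr
    intro ν
    have h1 : E1 ((((2 * q : ℕ) : ℤ) • Phi : AddAut Lat) ν) = (t : ℂ)⁻¹ * E1 ν := by
      rw [E1_zpow, ht]
      push_cast
      rw [inv_inv]
      norm_cast
    have h2 : E2 ((((2 * q : ℕ) : ℤ) • Phi : AddAut Lat) ν) = (t : ℂ) * E2 ν := by
      rw [E2_zpow, ht, ← j3632_t]
      push_cast
      rfl
    have hsc : t ^ 4 * ‖a0 + (t : ℂ)⁻¹ * E1 ν‖ ^ 2 = ‖(t : ℂ) ^ 2 * a0 + t * E1 ν‖ ^ 2 := by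
      have htc : (t : ℂ) ≠ 0 := by exact_mod_cast htpos.ne'
      have : (t : ℂ) ^ 2 * a0 + t * E1 ν = ((t ^ 2 : ℝ) : ℂ) * (a0 + (t : ℂ)⁻¹ * E1 ν) := by
        push_cast
        field_simp
      rw [this, norm_mul, Complex.norm_real, Real.norm_eq_abs, abs_of_pos (by positivity)]
      ring
    simp only [AddEquiv.toEquiv_eq_coe, EquivLike.coe_coe]
    rw [h1, h2, hsc]
  rw [hre]
  set a : ℂ × ℂ := ((t : ℂ) ^ 2 * a0, b0) with ha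
  have hc1 : c0 - κ ≤ L + 1 := by linarith
  have hU := hC (Ff ε c0 r) (hKF c0 hc0) (hBF c0 hc0) t htpos ht1 a
  have hLo := hC (Ff ε (c0 - κ) r) (hKF _ hc1) (hBF _ hc1) t htpos ht1 a
  rw [Ff_integral hε hr] at hU hLo
  have sU := j3632_summable (hBF c0 hc0) htpos a
  have sL := j3632_summable (hBF _ hc1) htpos a
  have hsum : Summable (fun ν : Lat => P1 ε (c0 - ‖(t : ℂ) ^ 2 * a0 + t * E1 ν‖ ^ 2 -
          κ * S (Real.log (r / ‖b0 + t * E2 ν‖))) * dsg (Real.log (r / ‖b0 + t * E2 ν‖)) /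
            ‖b0 + t * E2 ν‖ ^ 2) := by
    refine Summable.of_nonneg_of_le (fun ν => ?_) (fun ν => ?_) sU
    · have := P1_nonneg hε (c0 - ‖(t : ℂ) ^ 2 * a0 + t * E1 ν‖ ^ 2 -
          κ * S (Real.log (r / ‖b0 + t * E2 ν‖)))
      have h2 := dsg_nonneg (Real.log (r / ‖b0 + t * E2 ν‖))
      positivity
    · exact (j3632_point hε hκ _ _).2
  set SS := ∑' ν : Lat, P1 ε (c0 - ‖(t : ℂ) ^ 2 * a0 + t * E1 ν‖ ^ 2 -
          κ * S (Real.log (r / ‖b0 + t * E2 ν‖))) * dsg (Real.log (r / ‖b0 + t * E2 ν‖)) /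
            ‖b0 + t * E2 ν‖ ^ 2 with hSS
  have iU : SS ≤ ∑' ν : Lat, Ff ε c0 r (a.1 + t * E1 ν, a.2 + t * E2 ν) :=
    hsum.tsum_le_tsum (fun ν => (j3632_point hε hκ _ _).2) sU
  have iL : ∑' ν : Lat, Ff ε (c0 - κ) r (a.1 + t * E1 ν, a.2 + t * E2 ν) ≤ SS :=
    sL.tsum_le_tsum (fun ν => (j3632_point hε hκ _ _).1) hsum
  have hP := abs_P_sub_le (ε := ε) (B := L + 1) hε (by linarith) hc0 hc1
  have hP2 : P ε c0 - P ε (c0 - κ) ≤ (L + 1) * κ := by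
    have h3 : |c0 - (c0 - κ)| = κ := by rw [sub_sub_cancel, abs_of_nonneg hκ]
    rw [h3] at hP
    exact (le_abs_self _).trans hP
  -- multiply by `t ^ 4`
  have ht4 : 0 < t ^ 4 := by positivity
  have e1' : t ^ 4 * (C / t ^ 3) = C * t := by field_simp
  have e2' : ∀ x : ℝ, t ^ 4 * (1 / (5 * t ^ 4) * (2 * Real.pi ^ 2 * x)) =
      2 * Real.pi ^ 2 / 5 * x := by intro x; field_simp
  have hU2 := (abs_le.mp hU).2
  have hL2 := (abs_le.mp hLo).1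
  have hU3 : t ^ 4 * SS ≤ 2 * Real.pi ^ 2 / 5 * P ε c0 + C * t := by
    have h4 : SS ≤ 1 / (5 * t ^ 4) * (2 * Real.pi ^ 2 * P ε c0) + C / t ^ 3 := by linarith
    have h5 := mul_le_mul_of_nonneg_left h4 ht4.le
    rw [mul_add, e1', e2'] at h5
    exact h5
  have hL3 : 2 * Real.pi ^ 2 / 5 * P ε (c0 - κ) - C * t ≤ t ^ 4 * SS := by
    have h4 : 1 / (5 * t ^ 4) * (2 * Real.pi ^ 2 * P ε (c0 - κ)) - C / t ^ 3 ≤ SS := by linarith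
    have h5 := mul_le_mul_of_nonneg_left h4 ht4.le
    rw [mul_sub, e1', e2'] at h5
    exact h5
  have hCt : C * t ≤ |C| * t := mul_le_mul_of_nonneg_right (le_abs_self C) htpos.le
  have hpi : 0 ≤ 2 * Real.pi ^ 2 / 5 := by positivity
  have ht41 : t ^ 4 ≤ t := by
    calc t ^ 4 ≤ t ^ 1 := pow_le_pow_of_le_one htpos.le ht1 (by norm_num)
      _ = t := pow_one t
  have hκt : κ ≤ κh * t := hκ2.trans (mul_le_mul_of_nonneg_left ht41 hκh.le)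
  have hfin : 2 * Real.pi ^ 2 / 5 * ((L + 1) * κ) ≤ 2 * Real.pi ^ 2 / 5 * ((L + 1) * κh) * t := by
    have h6 : (L + 1) * κ ≤ (L + 1) * (κh * t) :=
      mul_le_mul_of_nonneg_left hκt (by linarith)
    have h7 := mul_le_mul_of_nonneg_left h6 hpi
    linarith
  have hMt : M * t = |C| * t + 2 * Real.pi ^ 2 / 5 * ((L + 1) * κh) * t := by rw [hM]; ring
  have hP3 := mul_le_mul_of_nonneg_left hP2 hpi
  have hnn : 0 ≤ 2 * Real.pi ^ 2 / 5 * ((L + 1) * κh) * t := by positivity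
  rw [abs_le]
  constructor
  · linarith
  · linarith

end Pool.Agent.NKM
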