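import Mathlib

set_option autoImplicit false
open MeasureTheory

namespace Pool.Agent.NKM

theorem lintegral_radial (g : ℝ → ENNReal) (hg : Measurable g) :
    ∫⁻ y : ℂ, g ‖y‖ =
      ENNReal.ofReal (2 * Real.pi) * ∫⁻ ρ in Set.Ioi (0 : ℝ), ENNReal.ofReal ρ * g ρ := by
  rw [← Complex.lintegral_comp_polarCoord_symm]
  have h1 : ∀ p ∈ polarCoord.target, ENNReal.ofReal p.1 • g ‖Complex.polarCoord.symm p‖ =
      (fun p : ℝ × ℝ => ENNReal.ofReal p.1 * g p.1) p := by
    intro p hp
    have hp1 : 0 < p.1 := by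
      rw [polarCoord_target] at hp
      exact hp.1
    rw [Complex.norm_polarCoord_symm, abs_of_pos hp1, smul_eq_mul]
  rw [setLIntegral_congr_fun polarCoord.open_target.measurableSet h1, polarCoord_target,
    Measure.volume_eq_prod, ← Measure.prod_restrict]
  have hm : Measurable (fun ρ : ℝ => ENNReal.ofReal ρ * g ρ) :=
    ENNReal.measurable_ofReal.mul hg
  have h2 := lintegral_prod_mul (μ := volume.restrict (Set.Ioi (0 : ℝ)))
    (ν := volume.restrict (Set.Ioo (-Real.pi) Real.pi)) (f := fun ρ : ℝ => ENNReal.ofReal ρ * g ρ)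
    (g := fun _ : ℝ => (1 : ENNReal)) hm.aemeasurable aemeasurable_const
  simp only [mul_one] at h2
  rw [h2, lintegral_const, Measure.restrict_apply MeasurableSet.univ, Set.univ_inter,
    Real.volume_Ioo, one_mul, mul_comm]
  congr 2
  ring

/-- log-polar coordinates -/
theorem lintegral_logpolar (r : ℝ) (hr : 0 < r) (f : ℝ → ENNReal) (hf : Measurable f) :
    ∫⁻ y : ℂ, f (Real.log (r / ‖y‖)) * ENNReal.ofReal (1 / ‖y‖ ^ 2) =
      ENNReal.ofReal (2 * Real.pi) * ∫⁻ T : ℝ, f T := by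
  have hg : Measurable (fun ρ : ℝ => f (Real.log (r / ρ)) * ENNReal.ofReal (1 / ρ ^ 2)) := by
    refine Measurable.mul (hf.comp (Real.measurable_log.comp ?_)) (ENNReal.measurable_ofReal.comp ?_)
    · exact measurable_const.div measurable_id
    · exact measurable_const.div (measurable_id.pow_const 2)
  rw [lintegral_radial (fun ρ : ℝ => f (Real.log (r / ρ)) * ENNReal.ofReal (1 / ρ ^ 2)) hg]
  congr 1
  have himg : (fun T : ℝ => r * Real.exp (-T)) '' Set.univ = Set.Ioi (0 : ℝ) := by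
    ext ρ
    simp only [Set.image_univ, Set.mem_range, Set.mem_Ioi]
    constructor
    · rintro ⟨T, rfl⟩
      positivity
    · intro h
      refine ⟨- Real.log (ρ / r), ?_⟩
      rw [neg_neg, Real.exp_log (by positivity)]
      field_simp
  rw [← himg, lintegral_image_eq_lintegral_abs_deriv_mul MeasurableSet.univ
    (f := fun T : ℝ => r * Real.exp (-T)) (f' := fun T : ℝ => r * (Real.exp (-T) * (-1)))]
  · rw [Measure.restrict_univ]
    refine lintegral_congr fun T => ?_
    have e1 : |r * (Real.exp (-T) * (-1))| = r * Real.exp (-T) := by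
      rw [show r * (Real.exp (-T) * (-1)) = -(r * Real.exp (-T)) by ring, abs_neg,
        abs_of_pos (by positivity)]
    have e2 : Real.log (r / (r * Real.exp (-T))) = T := by
      have : r / (r * Real.exp (-T)) = Real.exp T := by
        rw [Real.exp_neg]
        field_simp
      rw [this, Real.log_exp]
    rw [e1, e2]
    have hp : 0 < r * Real.exp (-T) := by positivity
    calc ENNReal.ofReal (r * Real.exp (-T)) * (ENNReal.ofReal (r * Real.exp (-T)) *
          (f T * ENNReal.ofReal (1 / (r * Real.exp (-T)) ^ 2)))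
        = f T * (ENNReal.ofReal (r * Real.exp (-T)) * (ENNReal.ofReal (r * Real.exp (-T)) *
            ENNReal.ofReal (1 / (r * Real.exp (-T)) ^ 2))) := by ring
      _ = f T * 1 := by
          rw [← ENNReal.ofReal_mul hp.le, ← ENNReal.ofReal_mul hp.le]
          have : r * Real.exp (-T) * (r * Real.exp (-T) * (1 / (r * Real.exp (-T)) ^ 2)) = 1 := by
            field_simp
          rw [this, ENNReal.ofReal_one]
      _ = f T := mul_one _
  · intro T _
    refine HasDerivAt.hasDerivWithinAt ?_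
    exact ((Real.hasDerivAt_exp (-T)).comp T (hasDerivAt_neg T)).const_mul r
  · intro a _ b _ hab
    have h : Real.exp (-a) = Real.exp (-b) := mul_left_cancel₀ hr.ne' hab
    have := Real.exp_injective h
    linarith

/-- squared-radius coordinates -/
theorem lintegral_sqnorm (f : ℝ → ENNReal) (hf : Measurable f) :
    ∫⁻ a : ℂ, f (‖a‖ ^ 2) = ENNReal.ofReal Real.pi * ∫⁻ t in Set.Ioi (0 : ℝ), f t := by
  have hg : Measurable (fun ρ : ℝ => f (ρ ^ 2)) := hf.comp (measurable_id.pow_const 2)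
  rw [lintegral_radial (fun ρ : ℝ => f (ρ ^ 2)) hg]
  have himg : (fun ρ : ℝ => ρ ^ 2) '' Set.Ioi (0 : ℝ) = Set.Ioi (0 : ℝ) := by
    ext t
    simp only [Set.mem_image, Set.mem_Ioi]
    constructor
    · rintro ⟨ρ, hρ, rfl⟩
      positivity
    · intro h
      exact ⟨Real.sqrt t, Real.sqrt_pos.2 h, Real.sq_sqrt h.le⟩
  have h2 : ∫⁻ t in Set.Ioi (0 : ℝ), f t =
      ∫⁻ ρ in Set.Ioi (0 : ℝ), ENNReal.ofReal (|2 * ρ|) * f (ρ ^ 2) := by
    conv_lhs => rw [← himg]
    rw [lintegral_image_eq_lintegral_abs_deriv_mul measurableSet_Ioi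
      (f := fun ρ : ℝ => ρ ^ 2) (f' := fun ρ : ℝ => 2 * ρ)]
    · intro ρ _
      refine HasDerivAt.hasDerivWithinAt ?_
      simpa using hasDerivAt_pow 2 ρ
    · intro a ha b hb hab
      exact (pow_left_inj₀ (le_of_lt ha) (le_of_lt hb) two_ne_zero).1 hab
  rw [h2]
  have h3 : ∫⁻ ρ in Set.Ioi (0 : ℝ), ENNReal.ofReal (|2 * ρ|) * f (ρ ^ 2) =
      ∫⁻ ρ in Set.Ioi (0 : ℝ), 2 * (ENNReal.ofReal ρ * f (ρ ^ 2)) := by
    refine setLIntegral_congr_fun measurableSet_Ioi ?_
    intro ρ hρ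
    have hρ' : (0 : ℝ) < ρ := hρ
    show ENNReal.ofReal (|2 * ρ|) * f (ρ ^ 2) = 2 * (ENNReal.ofReal ρ * f (ρ ^ 2))
    rw [abs_of_pos (by positivity), ENNReal.ofReal_mul (by norm_num), ENNReal.ofReal_ofNat,
      mul_assoc]
  have hm : Measurable (fun ρ : ℝ => ENNReal.ofReal ρ * f (ρ ^ 2)) :=
    ENNReal.measurable_ofReal.mul hg
  rw [h3, lintegral_const_mul _ hm, ← mul_assoc]
  congr 1
  rw [mul_comm 2 Real.pi, ENNReal.ofReal_mul Real.pi_pos.le, ENNReal.ofReal_ofNat]

end Pool.Agent.NKM
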