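import Pool.Agent.NKM.Par
import Pool.Agent.NKM.OVF
import Pool.Agent.NKM.POL

set_option autoImplicit false
open scoped Manifold ContDiff Topology ComplexConjugate
open MeasureTheory Set

namespace Pool.Agent.NKM

/-! TARGETS -/

lemma kf_nonneg (r : ℝ) (b : ℂ) : 0 ≤ kf r b :=
  div_nonneg (dsg_nonneg _) (sq_nonneg _)

lemma kf_far {r : ℝ} (hr : 0 < r) {b : ℂ} (hb : r ≤ ‖b‖) : kf r b = 0 := by
  have hb0 : 0 < ‖b‖ := hr.trans_le hb
  have h1 : Real.log (r / ‖b‖) ≤ 0 :=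
    Real.log_nonpos (div_nonneg hr.le hb0.le) ((div_le_one hb0).2 hb)
  rw [kf, dsg_of_nonpos h1, zero_div]

lemma kf_near {r : ℝ} (hr : 0 < r) {b : ℂ} (hb : ‖b‖ < r * Real.exp (-1)) : kf r b = 0 := by
  rcases eq_or_ne b 0 with rfl | hne
  · rw [kf, norm_zero, zero_pow two_ne_zero, div_zero]
  · have hb0 : 0 < ‖b‖ := norm_pos_iff.2 hne
    have h1 : 1 ≤ Real.log (r / ‖b‖) := by
      rw [Real.le_log_iff_exp_le (div_pos hr hb0), le_div_iff₀ hb0]
      have h2 : Real.exp 1 * Real.exp (-1) = 1 := by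
        rw [← Real.exp_add]
        norm_num
      calc Real.exp 1 * ‖b‖ ≤ Real.exp 1 * (r * Real.exp (-1)) := by gcongr
        _ = r * (Real.exp 1 * Real.exp (-1)) := by ring
        _ = r := by rw [h2, mul_one]
    rw [kf, dsg_of_one_le h1, zero_div]

lemma kf_contDiff {r : ℝ} (hr : 0 < r) : ContDiff ℝ 1 (kf r) := by
  rw [contDiff_iff_contDiffAt]
  intro b
  rcases eq_or_ne b 0 with rfl | hne
  · have h1 : kf r =ᶠ[𝓝 (0:ℂ)] fun _ => (0:ℝ) := by
      have hpos : 0 < r * Real.exp (-1) := by positivity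
      filter_upwards [Metric.ball_mem_nhds (0:ℂ) hpos] with b hb
      rw [mem_ball_zero_iff] at hb
      exact kf_near hr hb
    exact contDiffAt_const.congr_of_eventuallyEq h1
  · have hb0 : ‖b‖ ≠ 0 := norm_ne_zero_iff.2 hne
    have hn : ContDiffAt ℝ 1 (fun b : ℂ => ‖b‖) b := contDiffAt_norm ℝ hne
    have h1 : ContDiffAt ℝ 1 (fun b : ℂ => r / ‖b‖) b := contDiffAt_const.div hn hb0
    have h2 : ContDiffAt ℝ 1 (fun b : ℂ => Real.log (r / ‖b‖)) b :=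
      h1.log (div_ne_zero hr.ne' hb0)
    have h3 : ContDiffAt ℝ 1 (fun b : ℂ => dsg (Real.log (r / ‖b‖))) b := by
      have h4 : ContDiff ℝ 1 dsg := dsg_contDiff.of_le (by simp)
      exact h4.contDiffAt.comp b h2
    exact h3.div (hn.pow 2) (pow_ne_zero 2 hb0)

lemma kf_compact {r : ℝ} (hr : 0 < r) : HasCompactSupport (kf r) := by
  refine HasCompactSupport.intro (isCompact_closedBall (0:ℂ) r) fun b hb => ?_
  rw [mem_closedBall_zero_iff, not_le] at hb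
  exact kf_far hr hb.le

lemma kf_continuous {r : ℝ} (hr : 0 < r) : Continuous (kf r) := (kf_contDiff hr).continuous

lemma P1_min {ε C0 c : ℝ} (hε : 0 < ε) (hC0 : 0 ≤ C0) (hc : c ≤ C0) {x : ℝ} :
    P1 ε (c - x ^ 2) = P1 ε (c - (min x (Real.sqrt C0)) ^ 2) := by
  rcases le_total x (Real.sqrt C0) with h | h
  · rw [min_eq_left h]
  · rw [min_eq_right h, Real.sq_sqrt hC0]
    have h1 : C0 ≤ x ^ 2 := by
      calc C0 = Real.sqrt C0 ^ 2 := (Real.sq_sqrt hC0).symm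
        _ ≤ x ^ 2 := pow_le_pow_left₀ (Real.sqrt_nonneg _) h 2
    rw [P1_of_nonpos hε (by linarith), P1_of_nonpos hε (by linarith)]

lemma P1_lip {ε C0 c : ℝ} (hε : 0 < ε) (hC0 : 0 ≤ C0) (hc : c ≤ C0) {x y : ℝ} (hx : 0 ≤ x)
    (hy : 0 ≤ y) :
    |P1 ε (c - x ^ 2) - P1 ε (c - y ^ 2)| ≤ 2 * Real.sqrt C0 * |x - y| := by
  rw [P1_min hε hC0 hc, P1_min (x := y) hε hC0 hc]
  have hs := Real.sqrt_nonneg C0
  refine (abs_P1_sub_le hε _ _).trans ?_
  have h1 : c - (min x (Real.sqrt C0)) ^ 2 - (c - (min y (Real.sqrt C0)) ^ 2)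
      = -((min x (Real.sqrt C0) + min y (Real.sqrt C0)) * (min x (Real.sqrt C0) - min y (Real.sqrt C0))) := by
    ring
  rw [h1, abs_neg, abs_mul]
  have h2 : |min x (Real.sqrt C0) + min y (Real.sqrt C0)| ≤ 2 * Real.sqrt C0 := by
    have a1 : min x (Real.sqrt C0) ≤ Real.sqrt C0 := min_le_right _ _
    have a2 : min y (Real.sqrt C0) ≤ Real.sqrt C0 := min_le_right _ _
    have a3 : 0 ≤ min x (Real.sqrt C0) := le_min hx hs
    have a4 : 0 ≤ min y (Real.sqrt C0) := le_min hy hs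
    rw [abs_of_nonneg (by linarith)]
    linarith
  have h3 : |min x (Real.sqrt C0) - min y (Real.sqrt C0)| ≤ |x - y| := by
    have := abs_min_sub_min_le_max x (Real.sqrt C0) y (Real.sqrt C0)
    rw [sub_self, abs_zero, max_eq_left (abs_nonneg _)] at this
    exact this
  exact mul_le_mul h2 h3 (abs_nonneg _) (by positivity)

lemma P1_bd {ε C0 c : ℝ} (hε : 0 < ε) (hC0 : 0 ≤ C0) (hc : c ≤ C0) (x : ℝ) :
    |P1 ε (c - x ^ 2)| ≤ C0 := by
  rw [abs_of_nonneg (P1_nonneg hε _)]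
  exact (P1_mono hε (by nlinarith [sq_nonneg x] : c - x ^ 2 ≤ C0)).trans (P1_le hε hC0)

lemma Ff_lipschitz {ε C0 r : ℝ} (hε : 0 < ε) (hC0 : 0 ≤ C0) (hr : 0 < r) :
    ∃ K : ℝ, 0 ≤ K ∧ ∀ c ≤ C0, ∀ p q : ℂ × ℂ, |Ff ε c r p - Ff ε c r q| ≤ K * dist p q := by
  obtain ⟨KB, hKB⟩ := (kf_continuous hr).bounded_above_of_compact_support (kf_compact hr)
  obtain ⟨L, hL⟩ := ContDiff.lipschitzWith_of_hasCompactSupport (kf_compact hr) (kf_contDiff hr)
    one_ne_zero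
  have hKB0 : 0 ≤ KB := (norm_nonneg _).trans (hKB 0)
  have hs := Real.sqrt_nonneg C0
  refine ⟨2 * Real.sqrt C0 * KB + C0 * L, by positivity, fun c hc p q => ?_⟩
  have e : Ff ε c r p - Ff ε c r q =
      (P1 ε (c - ‖p.1‖ ^ 2) - P1 ε (c - ‖q.1‖ ^ 2)) * kf r p.2
        + P1 ε (c - ‖q.1‖ ^ 2) * (kf r p.2 - kf r q.2) := by
    simp only [Ff]
    ring
  rw [e]
  refine (abs_add_le _ _).trans ?_
  rw [abs_mul, abs_mul]
  have h1 : |P1 ε (c - ‖p.1‖ ^ 2) - P1 ε (c - ‖q.1‖ ^ 2)| ≤ 2 * Real.sqrt C0 * dist p q := by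
    refine (P1_lip hε hC0 hc (norm_nonneg _) (norm_nonneg _)).trans ?_
    have h2 : |‖p.1‖ - ‖q.1‖| ≤ dist p q := by
      refine (abs_norm_sub_norm_le _ _).trans ?_
      rw [← dist_eq_norm, Prod.dist_eq]
      exact le_max_left _ _
    exact mul_le_mul_of_nonneg_left h2 (by positivity)
  have h3 : |kf r p.2 - kf r q.2| ≤ L * dist p q := by
    have h4 := hL.dist_le_mul p.2 q.2
    rw [Real.dist_eq] at h4
    refine h4.trans ?_
    have h5 : dist p.2 q.2 ≤ dist p q := by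
      rw [Prod.dist_eq]
      exact le_max_right _ _
    exact mul_le_mul_of_nonneg_left h5 L.2
  have h6 : |kf r p.2| ≤ KB := hKB p.2
  have h7 := P1_bd hε hC0 hc ‖q.1‖
  have hd : 0 ≤ dist p q := dist_nonneg
  calc |P1 ε (c - ‖p.1‖ ^ 2) - P1 ε (c - ‖q.1‖ ^ 2)| * |kf r p.2|
        + |P1 ε (c - ‖q.1‖ ^ 2)| * |kf r p.2 - kf r q.2|
      ≤ (2 * Real.sqrt C0 * dist p q) * KB + C0 * (L * dist p q) := by
        have hL0 : (0:ℝ) ≤ L := L.2
        gcongr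
    _ = (2 * Real.sqrt C0 * KB + C0 * L) * dist p q := by ring

lemma Ff_support {ε C0 r : ℝ} (hε : 0 < ε) (hC0 : 0 ≤ C0) (hr : 0 < r) :
    ∃ Bd : ℝ, 0 ≤ Bd ∧ ∀ c ≤ C0, ∀ p : ℂ × ℂ, Bd < ‖p‖ → Ff ε c r p = 0 := by
  refine ⟨max (Real.sqrt C0) r, le_max_of_le_right hr.le, fun c hc p hp => ?_⟩
  rw [Prod.norm_def, lt_max_iff] at hp
  rcases hp with h | h
  · have h1 : Real.sqrt C0 ≤ ‖p.1‖ := (le_max_left _ _).trans h.le
    have h2 : C0 ≤ ‖p.1‖ ^ 2 := by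
      calc C0 = Real.sqrt C0 ^ 2 := (Real.sq_sqrt hC0).symm
        _ ≤ ‖p.1‖ ^ 2 := pow_le_pow_left₀ (Real.sqrt_nonneg _) h1 2
    rw [Ff, P1_of_nonpos hε (by linarith), zero_mul]
  · rw [Ff, kf_far hr ((le_max_right _ _).trans h.le), mul_zero]

lemma kf_integral {r : ℝ} (hr : 0 < r) : ∫ b : ℂ, kf r b = 2 * Real.pi := by
  rw [integral_eq_lintegral_of_nonneg_ae (Filter.Eventually.of_forall (kf_nonneg r))
    (kf_continuous hr).aestronglyMeasurable]
  have h1 : ∫⁻ b : ℂ, ENNReal.ofReal (kf r b) =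
      ∫⁻ y : ℂ, (fun T => ENNReal.ofReal (dsg T)) (Real.log (r / ‖y‖))
        * ENNReal.ofReal (1 / ‖y‖ ^ 2) := by
    refine lintegral_congr fun b => ?_
    rw [← ENNReal.ofReal_mul (dsg_nonneg _), kf, mul_one_div]
  rw [h1, lintegral_logpolar r hr (fun T => ENNReal.ofReal (dsg T))
    (ENNReal.measurable_ofReal.comp dsg_continuous.measurable), lintegral_dsg, mul_one,
    ENNReal.toReal_ofReal (by positivity)]

lemma P1_continuous (ε : ℝ) : Continuous (P1 ε) := (P1_contDiff ε).continuous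

lemma P1_lintegral {ε : ℝ} (hε : 0 < ε) (c : ℝ) :
    ∫⁻ t in Ioi (0:ℝ), ENNReal.ofReal (P1 ε (c - t)) = ENNReal.ofReal (P ε c) := by
  have hd : ∀ x ∈ Ici (0:ℝ), HasDerivAt (fun t => - P ε (c - t)) (P1 ε (c - x)) x := by
    intro x _
    have h2 := ((hasDerivAt_P hε (c - x)).comp_const_sub c x).neg
    rw [neg_neg] at h2
    exact h2
  have hp : ∀ x ∈ Ioi (0:ℝ), 0 ≤ P1 ε (c - x) := fun x _ => P1_nonneg hε _
  have hl : Filter.Tendsto (fun t => - P ε (c - t)) Filter.atTop (𝓝 0) := by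
    refine tendsto_const_nhds.congr' ?_
    filter_upwards [Filter.eventually_ge_atTop c] with t ht
    rw [P_of_nonpos hε (by linarith), neg_zero]
  have hi := integrableOn_Ioi_deriv_of_nonneg' hd hp hl
  have he := integral_Ioi_of_hasDerivAt_of_nonneg' hd hp hl
  rw [← ofReal_integral_eq_lintegral_ofReal hi (Filter.Eventually.of_forall fun x => P1_nonneg hε _),
    he]
  simp

lemma P1_integral {ε : ℝ} (hε : 0 < ε) (c : ℝ) :
    ∫ a : ℂ, P1 ε (c - ‖a‖ ^ 2) = Real.pi * P ε c := by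
  have hcont : Continuous fun a : ℂ => P1 ε (c - ‖a‖ ^ 2) :=
    (P1_continuous ε).comp (continuous_const.sub (continuous_norm.pow 2))
  rw [integral_eq_lintegral_of_nonneg_ae (Filter.Eventually.of_forall fun a => P1_nonneg hε _)
    hcont.aestronglyMeasurable]
  have h1 := lintegral_sqnorm (fun t => ENNReal.ofReal (P1 ε (c - t)))
    (ENNReal.measurable_ofReal.comp ((P1_continuous ε).comp (continuous_const.sub continuous_id)).measurable)
  rw [h1, P1_lintegral hε, ← ENNReal.ofReal_mul Real.pi_pos.le,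
    ENNReal.toReal_ofReal (mul_nonneg Real.pi_pos.le (P_nonneg hε c))]

lemma Ff_integral {ε c r : ℝ} (hε : 0 < ε) (hr : 0 < r) :
    ∫ p : ℂ × ℂ, Ff ε c r p = 2 * Real.pi ^ 2 * P ε c := by
  have h := integral_prod_mul (μ := (volume : Measure ℂ)) (ν := (volume : Measure ℂ))
    (fun a : ℂ => P1 ε (c - ‖a‖ ^ 2)) (fun b : ℂ => kf r b)
  rw [← Measure.volume_eq_prod] at h
  simp only [Ff]
  rw [h, P1_integral hε, kf_integral hr]
  ring

end Pool.Agent.NKM
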