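import Pool.Agent.NKM.Par
import Pool.Agent.NKM.OVF

set_option autoImplicit false
open scoped Manifold ContDiff Topology ComplexConjugate
open MeasureTheory Set

namespace Pool.Agent.NKM




lemma ns_alf {δ : ℝ} (hδ : 0 ≤ δ) (q v : E3) :
    ‖alf δ q v‖ ≤ 1 / 2 * ‖v 0‖ + δ * ‖q 1‖ * ‖v 1‖ := by
  unfold alf
  refine (norm_sub_le _ _).trans (add_le_add ?_ ?_)
  · rw [norm_mul, Complex.norm_real]
    apply mul_le_mul_of_nonneg_right _ (norm_nonneg _)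
    have h1 := sg_nonneg (q 0).re
    have h2 := sg_le_one (q 0).re
    rw [Real.norm_eq_abs, abs_le]
    constructor <;> linarith
  · rw [norm_mul, norm_mul, Complex.norm_real, Real.norm_of_nonneg hδ, RCLike.norm_conj]

lemma ns_u_le {L δ κ r : ℝ} (hκ : 0 ≤ κ) (q : E3) : uf L δ κ r q ≤ rho L δ q := by
  unfold uf
  have := mul_nonneg hκ (S_nonneg (Tf r q))
  linarith

/-- inactive sheets contribute nothing -/
lemma Nf_inactive {ε L δ κ r : ℝ} (hε : 0 < ε) (hκ : 0 ≤ κ) (hr : 0 < r) {q : E3}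
    (h : rho L δ q ≤ 0 ∨ r ≤ ‖q 2‖) (v : E3) :
    Nf ε L δ κ r q v = 0 ∧ Rf ε L δ κ r q = 0 := by
  have hu := ns_u_le (L := L) (δ := δ) (r := r) hκ q
  by_cases h2 : q 2 = 0
  · have hρ : rho L δ q ≤ 0 := by
      rcases h with h | h
      · exact h
      · rw [h2, norm_zero] at h; linarith
    constructor
    · unfold Nf
      rw [if_pos h2, P2_of_nonpos hε hρ, P1_of_nonpos hε hρ]; ring
    · unfold Rf
      rw [P1_of_nonpos hε (hu.trans hρ)]; simp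
  · rcases h with h | h
    · constructor
      · unfold Nf
        rw [if_neg h2, P2_of_nonpos hε h, P1_of_nonpos hε h, P2_of_nonpos hε (hu.trans h),
          P1_of_nonpos hε (hu.trans h)]; ring
      · unfold Rf
        rw [P1_of_nonpos hε (hu.trans h)]; simp
    · have hq2 : 0 < ‖q 2‖ := norm_pos_iff.2 h2
      have hT : Tf r q ≤ 0 := by
        unfold Tf
        apply Real.log_nonpos (by positivity)
        rw [div_le_one hq2]; exact h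
      have hur : uf L δ κ r q = rho L δ q := by
        unfold uf
        rw [S_of_nonpos hT, mul_zero, sub_zero]
      have hb : bet κ r q v = 0 := by
        unfold bet
        rw [sg_of_nonpos hT]; simp
      constructor
      · unfold Nf
        rw [if_neg h2, hur, hb, add_zero]; ring
      · unfold Rf
        rw [dsg_of_nonpos hT]; simp

/-- geometry of the active region -/
lemma active_bounds {L δ : ℝ} (hδ : 0 ≤ δ) {q : E3} (h : 0 < rho L δ q) :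
    -L < (q 0).re ∧ (q 0).re < L + 2 ∧ δ * ‖q 1‖ ^ 2 < L + 1 ∧ rho L δ q ≤ L + 1 := by
  unfold rho at *
  have h1 := neg_one_le_eta (q 0).re
  have h2 := sub_two_le_eta (q 0).re
  have h3 : -(q 0).re ≤ eta (q 0).re := by
    unfold eta
    have := S_nonneg (q 0).re
    linarith
  have h4 : 0 ≤ δ * ‖q 1‖ ^ 2 := by positivity
  refine ⟨by linarith, by linarith, by linarith, by linarith⟩

lemma ns_ar1 {a b V0 V1 V2 h W : ℝ} (ha : a ≤ (V0 + V1) / 2) (hb : b ≤ W * V2 / 2) (hb0 : 0 ≤ b)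
    (hV0 : 0 ≤ V0) (hV1 : 0 ≤ V1) (hW : 0 ≤ W) (hV : (V0 + V1) * V2 ≤ h) :
    2 * a * b ≤ W * (h / 2) := by
  have h5 : a * b ≤ ((V0 + V1) / 2) * (W * V2 / 2) :=
    mul_le_mul ha hb hb0 (by positivity)
  have h8 := mul_le_mul_of_nonneg_left hV hW
  have h9 : ((V0 + V1) / 2) * (W * V2 / 2) = W * ((V0 + V1) * V2) / 4 := by ring
  linarith

lemma ns_ar2 (V0 V1 V2 : ℝ) : (V0 + V1) * V2 ≤ V0 ^ 2 + V1 ^ 2 + V2 ^ 2 := by
  have h1 := sq_nonneg (V0 - V2)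
  have h2 := sq_nonneg (V1 - V2)
  have h3 := sq_nonneg V0
  have h4 := sq_nonneg V1
  have e1 : (V0 - V2) ^ 2 = V0 ^ 2 - 2 * (V0 * V2) + V2 ^ 2 := by ring
  have e2 : (V1 - V2) ^ 2 = V1 ^ 2 - 2 * (V1 * V2) + V2 ^ 2 := by ring
  have e3 : (V0 + V1) * V2 = V0 * V2 + V1 * V2 := by ring
  rw [e3]
  linarith

lemma ns_ar3 {a V0 V1 : ℝ} (V2 : ℝ) (ha0 : 0 ≤ a) (ha : a ≤ (V0 + V1) / 2) :
    a ^ 2 ≤ (V0 ^ 2 + V1 ^ 2 + V2 ^ 2) / 2 := by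
  have h5 : a ^ 2 ≤ ((V0 + V1) / 2) ^ 2 := pow_le_pow_left₀ ha0 ha 2
  have h6 := sq_nonneg (V0 - V1)
  have h7 := sq_nonneg V2
  have e1 : (V0 - V1) ^ 2 = V0 ^ 2 - 2 * (V0 * V1) + V1 ^ 2 := by ring
  have e2 : ((V0 + V1) / 2) ^ 2 = (V0 ^ 2 + 2 * (V0 * V1) + V1 ^ 2) / 4 := by ring
  linarith

lemma ns_ar4 {x a b : ℝ} (hx : 0 ≤ x) (ha : 0 ≤ a) (hb : 0 ≤ b) (h5 : x ≤ a + b)
    (h6 : a - b ≤ x) : |x ^ 2 - a ^ 2| ≤ 2 * a * b + b ^ 2 := by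
  have hab : 0 ≤ a * b := mul_nonneg ha hb
  rw [abs_le]
  constructor
  · by_cases h8 : a ≤ b
    · have h9 : a ^ 2 ≤ b ^ 2 := pow_le_pow_left₀ ha h8 2
      have h10 := sq_nonneg x
      linarith
    · push Not at h8
      have h9 : (a - b) ^ 2 ≤ x ^ 2 :=
        pow_le_pow_left₀ (by linarith) h6 2
      have h10 := sq_nonneg b
      have e : (a - b) ^ 2 = a ^ 2 - 2 * a * b + b ^ 2 := by ring
      linarith
  · have h9 : x ^ 2 ≤ (a + b) ^ 2 := pow_le_pow_left₀ hx h5 2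
    have e : (a + b) ^ 2 = a ^ 2 + 2 * a * b + b ^ 2 := by ring
    linarith

lemma ns_ar5 {b w E V2 h : ℝ} (hb0 : 0 ≤ b) (hb : b ≤ w * E * V2 / 2) (hw0 : 0 ≤ w) (hw1 : w ≤ 1)
    (hV2 : V2 ^ 2 ≤ h) : b ^ 2 ≤ w * E ^ 2 * h := by
  have h5 : b ^ 2 ≤ (w * E * V2 / 2) ^ 2 := pow_le_pow_left₀ hb0 hb 2
  have h7 : (w * E * V2 / 2) ^ 2 = w * w * (E ^ 2 * V2 ^ 2) / 4 := by ring
  have h9 : E ^ 2 * V2 ^ 2 ≤ E ^ 2 * h :=
    mul_le_mul_of_nonneg_left hV2 (sq_nonneg _)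
  have h10 : w * w ≤ w := by
    have := mul_le_mul_of_nonneg_left hw1 hw0
    linarith
  have h11 : 0 ≤ E ^ 2 * V2 ^ 2 := by positivity
  have h12 := mul_le_mul_of_nonneg_right h10 h11
  have h13 := mul_le_mul_of_nonneg_left h9 hw0
  have h14 : 0 ≤ w * (E ^ 2 * V2 ^ 2) := mul_nonneg hw0 h11
  have e : w * E ^ 2 * h = w * (E ^ 2 * h) := by ring
  rw [e]
  linarith

lemma ns_ar6 {X Y c1 c2 c3 w h : ℝ} (h5 : X ≤ (c1 * w) * (h / 2))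
    (h6 : Y ≤ 1 * (w * c2 * (h / 2) + w * c3 * h)) (h7 : 0 ≤ c1 * w * h) (h8 : 0 ≤ w * c2 * h) :
    X + Y ≤ w * (c1 + c2 + c3) * h := by
  have e : w * (c1 + c2 + c3) * h = c1 * w * h + w * c2 * h + w * c3 * h := by ring
  rw [e]
  have e1 : (c1 * w) * (h / 2) = c1 * w * h / 2 := by ring
  have e2 : w * c2 * (h / 2) = w * c2 * h / 2 := by ring
  rw [e1] at h5
  rw [e2] at h6
  linarith

lemma ns_c {ε L δ s : ℝ} (hε : 0 < ε) (hs : s < L + 2)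
    (hc : 4 * (1 + 1 / ε) * δ * (L + 1) * Real.exp (2 * (L + 2)) ≤ ε) :
    4 * (1 + 1 / ε) * δ * (L + 1) ≤ ε * Real.exp (-2 * s) := by
  have h1 : Real.exp (2 * (L + 2)) * Real.exp (-2 * (L + 2)) = 1 := by
    rw [← Real.exp_add]; simp
  have h2 : Real.exp (-2 * (L + 2)) ≤ Real.exp (-2 * s) := Real.exp_le_exp.2 (by linarith)
  calc 4 * (1 + 1 / ε) * δ * (L + 1) = (4 * (1 + 1 / ε) * δ * (L + 1) * Real.exp (2 * (L + 2))) *
        Real.exp (-2 * (L + 2)) := by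
          rw [mul_assoc (4 * (1 + 1 / ε) * δ * (L + 1)), h1, mul_one]
    _ ≤ ε * Real.exp (-2 * (L + 2)) := mul_le_mul_of_nonneg_right hc (Real.exp_pos _).le
    _ ≤ ε * Real.exp (-2 * s) := mul_le_mul_of_nonneg_left h2 hε.le

lemma ns_inv {ε : ℝ} (hε : 0 < ε) (hε' : ε ≤ 1 / 4) : 4 ≤ 1 / ε := by
  rw [le_div_iff₀ hε]; linarith

lemma ns_Q {δ : ℝ} (hδ : 0 ≤ δ) (q v : E3) :
    0 ≤ 1 / 2 * dsg (q 0).re * ‖v 0‖ ^ 2 + δ * ‖v 1‖ ^ 2 := by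
  have := dsg_nonneg (q 0).re
  positivity

/-- lower bound valid for every sheet (also near ones) -/
lemma Nf_lower {ε L δ κ r : ℝ} (hε : 0 < ε) (hε' : ε ≤ 1 / 4) (hL : 0 ≤ L) (hδ : 0 ≤ δ)
    (hκ : 0 ≤ κ) (hr : 0 < r)
    (hc : 4 * (1 + 1 / ε) * δ * (L + 1) * Real.exp (2 * (L + 2)) ≤ ε) (q v : E3) :
    -((1 - ε) * ‖v 0‖ ^ 2) - ε * Real.exp (-2 * (q 0).re) * ‖v 1‖ ^ 2 ≤
      Nf ε L δ κ r q v := by
  have hLHS : -((1 - ε) * ‖v 0‖ ^ 2) - ε * Real.exp (-2 * (q 0).re) * ‖v 1‖ ^ 2 ≤ 0 := by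
    have h1 : 0 ≤ (1 - ε) * ‖v 0‖ ^ 2 := mul_nonneg (by linarith) (sq_nonneg _)
    have h2 : 0 ≤ ε * Real.exp (-2 * (q 0).re) * ‖v 1‖ ^ 2 := by positivity
    linarith
  by_cases hρ : rho L δ q ≤ 0
  · rw [(Nf_inactive hε hκ hr (Or.inl hρ) v).1]; exact hLHS
  push Not at hρ
  obtain ⟨hs1, hs2, hq1, hρL⟩ := active_bounds hδ hρ
  have hu := ns_u_le (L := L) (δ := δ) (r := r) hκ q
  have hQ := ns_Q hδ q v
  have hθ : 0 ≤ 1 - 2 * ε := by linarith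
  have hbase : -(4 * (1 - 2 * ε) * ‖alf δ q v‖ ^ 2) ≤ Nf ε L δ κ r q v := by
    have hP2 := P2_le_one ε (rho L δ q)
    have hP20 := P2_nonneg ε (rho L δ q)
    have ha : P2 ε (rho L δ q) * ‖alf δ q v‖ ^ 2 ≤ ‖alf δ q v‖ ^ 2 := by
      have := mul_le_mul_of_nonneg_right hP2 (sq_nonneg ‖alf δ q v‖)
      linarith
    have h4 : 0 ≤ 4 * (1 - 2 * ε) := by linarith
    unfold Nf
    split_ifs with h2
    · have h3 := mul_nonneg (P1_nonneg hε (rho L δ q)) hQ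
      have h7 : -‖alf δ q v‖ ^ 2 ≤ -(P2 ε (rho L δ q) * ‖alf δ q v‖ ^ 2) +
          P1 ε (rho L δ q) * (1 / 2 * dsg (q 0).re * ‖v 0‖ ^ 2 + δ * ‖v 1‖ ^ 2) := by linarith
      have h8 := mul_le_mul_of_nonneg_left h7 h4
      linarith
    · have h3 := mul_nonneg (sub_nonneg.2 (P1_mono hε hu)) hQ
      have h5 := mul_nonneg (P2_nonneg ε (uf L δ κ r q)) (sq_nonneg ‖alf δ q v + bet κ r q v‖)
      have h7 : -‖alf δ q v‖ ^ 2 ≤ P2 ε (uf L δ κ r q) * ‖alf δ q v + bet κ r q v‖ ^ 2 -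
          P2 ε (rho L δ q) * ‖alf δ q v‖ ^ 2 + (P1 ε (rho L δ q) - P1 ε (uf L δ κ r q)) *
          (1 / 2 * dsg (q 0).re * ‖v 0‖ ^ 2 + δ * ‖v 1‖ ^ 2) := by linarith
      have h8 := mul_le_mul_of_nonneg_left h7 h4
      linarith
  refine le_trans ?_ hbase
  have half := ns_alf hδ q v
  have hc' := ns_c hε hs2 hc
  have hd : δ ^ 2 * ‖q 1‖ ^ 2 ≤ δ * (L + 1) := by
    have : δ ^ 2 * ‖q 1‖ ^ 2 = δ * (δ * ‖q 1‖ ^ 2) := by ring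
    rw [this]
    exact mul_le_mul_of_nonneg_left hq1.le hδ
  have h4a : 4 * ‖alf δ q v‖ ^ 2 ≤ (1 + ε) * ‖v 0‖ ^ 2 + (1 + 1 / ε) * (4 * (δ ^ 2 * ‖q 1‖ ^ 2)) *
      ‖v 1‖ ^ 2 := by
    obtain ⟨a, ha⟩ : ∃ a, a = ‖v 0‖ := ⟨_, rfl⟩
    obtain ⟨b, hb⟩ : ∃ b, b = δ * ‖q 1‖ * ‖v 1‖ := ⟨_, rfl⟩
    have e1 : (δ ^ 2 * ‖q 1‖ ^ 2) * ‖v 1‖ ^ 2 = b ^ 2 := by rw [hb]; ring
    rw [← ha, ← hb] at half
    have e2 : (1 + 1 / ε) * (4 * (δ ^ 2 * ‖q 1‖ ^ 2)) * ‖v 1‖ ^ 2 = (1 + 1 / ε) * (4 * b ^ 2) := by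
      rw [← e1]; ring
    rw [e2, ← ha]
    have h5 : ‖alf δ q v‖ ^ 2 ≤ (1 / 2 * a + b) ^ 2 := pow_le_pow_left₀ (norm_nonneg _) half 2
    have h6 : 0 ≤ (ε * a - 2 * b) ^ 2 / ε := by positivity
    have h7 : (ε * a - 2 * b) ^ 2 / ε = ε * a ^ 2 - 4 * a * b + 4 * b ^ 2 / ε := by
      field_simp; ring
    rw [h7] at h6
    have h8 : (1 + 1 / ε) * (4 * b ^ 2) = 4 * b ^ 2 + 4 * b ^ 2 / ε := by ring
    rw [h8]
    have h9 : (1 / 2 * a + b) ^ 2 = a ^ 2 / 4 + a * b + b ^ 2 := by ring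
    rw [h9] at h5
    linarith
  have h9 : (1 + 1 / ε) * (4 * (δ ^ 2 * ‖q 1‖ ^ 2)) ≤ ε * Real.exp (-2 * (q 0).re) := by
    refine le_trans ?_ hc'
    have h10 : 0 ≤ 1 + 1 / ε := by positivity
    calc (1 + 1 / ε) * (4 * (δ ^ 2 * ‖q 1‖ ^ 2)) ≤ (1 + 1 / ε) * (4 * (δ * (L + 1))) := by
          apply mul_le_mul_of_nonneg_left _ h10; linarith
      _ = _ := by ring
  have h11 : 4 * ‖alf δ q v‖ ^ 2 ≤ (1 + ε) * ‖v 0‖ ^ 2 + ε * Real.exp (-2 * (q 0).re) *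
      ‖v 1‖ ^ 2 := by
    have := mul_le_mul_of_nonneg_right h9 (sq_nonneg ‖v 1‖)
    linarith
  have h12 : 4 * (1 - 2 * ε) * ‖alf δ q v‖ ^ 2 ≤ (1 - 2 * ε) * ((1 + ε) * ‖v 0‖ ^ 2 +
      ε * Real.exp (-2 * (q 0).re) * ‖v 1‖ ^ 2) := by
    have := mul_le_mul_of_nonneg_left h11 hθ
    linarith
  have h13 : (1 - 2 * ε) * ((1 + ε) * ‖v 0‖ ^ 2) ≤ (1 - ε) * ‖v 0‖ ^ 2 := by
    have : (1 - 2 * ε) * ((1 + ε) * ‖v 0‖ ^ 2) = (1 - ε) * ‖v 0‖ ^ 2 - 2 * ε ^ 2 * ‖v 0‖ ^ 2 := by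
      ring
    rw [this]
    have : 0 ≤ 2 * ε ^ 2 * ‖v 0‖ ^ 2 := by positivity
    linarith
  have h14 : (1 - 2 * ε) * (ε * Real.exp (-2 * (q 0).re) * ‖v 1‖ ^ 2) ≤
      ε * Real.exp (-2 * (q 0).re) * ‖v 1‖ ^ 2 := by
    have : 0 ≤ ε * Real.exp (-2 * (q 0).re) * ‖v 1‖ ^ 2 := by positivity
    exact mul_le_of_le_one_left this (by linarith)
  linarith

set_option maxHeartbeats 4000000 in
/-- two sided bound for far sheets -/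
lemma Nf_far {ε L δ κ r Cs : ℝ} (hε : 0 < ε) (hε' : ε ≤ 1 / 4) (hL : 0 ≤ L) (hδ : 0 ≤ δ)
    (hκ : 0 < κ) (hr : 0 < r) (hr1 : r ≤ 1) (hCs : ∀ t, dsg t ≤ Cs) (hCs1 : 1 ≤ Cs)
    (hc : 4 * (1 + 1 / ε) * δ * (L + 1) * Real.exp (2 * (L + 2)) ≤ ε) (q v : E3)
    (h2 : q 2 ≠ 0) (hw : κ / ‖q 2‖ ≤ 1) (hact : 0 < rho L δ q) :
    |Nf ε L δ κ r q v| ≤ CF ε L Cs * (κ / ‖q 2‖) * hq q v := by
  have hq2 : 0 < ‖q 2‖ := norm_pos_iff.2 h2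
  have hCF : 0 ≤ CF ε L Cs := by unfold CF; positivity
  have hhq : 0 ≤ hq q v := by unfold hq; positivity
  have hw0 : 0 ≤ κ / ‖q 2‖ := by positivity
  by_cases hrq : r ≤ ‖q 2‖
  · rw [(Nf_inactive hε hκ.le hr (Or.inr hrq) v).1, abs_zero]
    positivity
  push Not at hrq
  obtain ⟨hs1, hs2, hq1, hρL⟩ := active_bounds hδ hact
  have hc' := ns_c hε hs2 hc
  have hinv := ns_inv hε hε'
  obtain ⟨w, hwdef⟩ : ∃ w, w = κ / ‖q 2‖ := ⟨_, rfl⟩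
  rw [← hwdef] at hw hw0 ⊢
  obtain ⟨s, hsdef⟩ : ∃ s, s = (q 0).re := ⟨_, rfl⟩
  have hT0 : 0 < Tf r q := by
    unfold Tf
    apply Real.log_pos
    rw [one_lt_div hq2]; exact hrq
  have hST : κ * S (Tf r q) ≤ w := by
    have h1 : S (Tf r q) ≤ Tf r q := S_le hT0.le
    have h3 : Tf r q ≤ r / ‖q 2‖ := by
      unfold Tf
      have := Real.log_le_sub_one_of_pos (show 0 < r / ‖q 2‖ by positivity)
      linarith
    have h4 : r / ‖q 2‖ ≤ 1 / ‖q 2‖ := div_le_div_of_nonneg_right hr1 hq2.le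
    rw [hwdef]
    calc κ * S (Tf r q) ≤ κ * (1 / ‖q 2‖) := mul_le_mul_of_nonneg_left (by linarith) hκ.le
      _ = κ / ‖q 2‖ := by ring
  have hdiff : |uf L δ κ r q - rho L δ q| ≤ w := by
    have : uf L δ κ r q - rho L δ q = -(κ * S (Tf r q)) := by unfold uf; ring
    rw [this, abs_neg, abs_of_nonneg (mul_nonneg hκ.le (S_nonneg _))]
    exact hST
  have hP2d : |P2 ε (uf L δ κ r q) - P2 ε (rho L δ q)| ≤ Cs / ε * w :=
    (abs_P2_sub_le hε hCs _ _).trans (mul_le_mul_of_nonneg_left hdiff (by positivity))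
  have hP1d : |P1 ε (rho L δ q) - P1 ε (uf L δ κ r q)| ≤ w := by
    rw [abs_sub_comm]
    exact (abs_P1_sub_le hε _ _).trans hdiff
  -- variables
  obtain ⟨a, hadef⟩ : ∃ a, a = ‖alf δ q v‖ := ⟨_, rfl⟩
  obtain ⟨b, hbdef⟩ : ∃ b, b = ‖bet κ r q v‖ := ⟨_, rfl⟩
  obtain ⟨V0, hV0⟩ : ∃ V0, V0 = ‖v 0‖ := ⟨_, rfl⟩
  obtain ⟨V1, hV1⟩ : ∃ V1, V1 = Real.exp (-s) * ‖v 1‖ := ⟨_, rfl⟩
  obtain ⟨V2, hV2⟩ : ∃ V2, V2 = Real.exp s * ‖v 2‖ := ⟨_, rfl⟩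
  have hV00 : 0 ≤ V0 := by rw [hV0]; positivity
  have hV10 : 0 ≤ V1 := by rw [hV1]; positivity
  have hV20 : 0 ≤ V2 := by rw [hV2]; positivity
  have ha0 : 0 ≤ a := by rw [hadef]; positivity
  have hb0 : 0 ≤ b := by rw [hbdef]; positivity
  have hqeq : hq q v = V0 ^ 2 + V1 ^ 2 + V2 ^ 2 := by
    unfold hq
    rw [hV0, hV1, hV2, mul_pow, mul_pow, ← hsdef, ← Real.exp_nat_mul, ← Real.exp_nat_mul]
    congr 3
    · congr 1; push_cast; ring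
  have hexps : 0 < Real.exp (-2 * s) := Real.exp_pos _
  rw [← hsdef] at hc' hs1 hs2
  have hdL : 0 ≤ δ * (L + 1) := by positivity
  have hdl2 : 4 * δ * (L + 1) ≤ Real.exp (-2 * s) := by
    have h5 : 4 * δ * (L + 1) * (1 + 1 / ε) ≤ ε * Real.exp (-2 * s) := by linarith
    have h6 : 4 * δ * (L + 1) ≤ 4 * δ * (L + 1) * (1 + 1 / ε) := by
      apply le_mul_of_one_le_right (by positivity)
      have : 0 ≤ 1 / ε := by positivity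
      linarith
    have h7 : ε * Real.exp (-2 * s) ≤ Real.exp (-2 * s) :=
      mul_le_of_le_one_left hexps.le (by linarith)
    linarith
  have hse : Real.exp (-2 * s) = Real.exp (-s) ^ 2 := by
    rw [← Real.exp_nat_mul]; congr 1; push_cast; ring
  have hdq : δ * ‖q 1‖ ≤ Real.exp (-s) / 2 := by
    apply le_of_sq_le_sq _ (by positivity)
    have h5 : (δ * ‖q 1‖) ^ 2 = δ * (δ * ‖q 1‖ ^ 2) := by ring
    have h6 : δ * (δ * ‖q 1‖ ^ 2) ≤ δ * (L + 1) := mul_le_mul_of_nonneg_left hq1.le hδ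
    rw [h5, div_pow, ← hse]
    linarith
  have halfle : a ≤ (V0 + V1) / 2 := by
    have h5 := ns_alf hδ q v
    rw [← hadef, ← hV0] at h5
    have h6 : δ * ‖q 1‖ * ‖v 1‖ ≤ Real.exp (-s) / 2 * ‖v 1‖ :=
      mul_le_mul_of_nonneg_right hdq (norm_nonneg _)
    have h7 : Real.exp (-s) / 2 * ‖v 1‖ = V1 / 2 := by rw [hV1]; ring
    linarith
  have hble : b ≤ w * Real.exp L * V2 / 2 := by
    rw [hbdef]
    unfold bet
    rw [norm_div, norm_mul, Complex.norm_real, Real.norm_of_nonneg (mul_nonneg hκ.le (sg_nonneg _)),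
      norm_mul]
    have h5 : ‖(2:ℂ)‖ = 2 := by simp
    rw [h5]
    have h6 : κ * sg (Tf r q) ≤ κ := by
      exact mul_le_of_le_one_right hκ.le (sg_le_one (Tf r q))
    have h7 : ‖v 2‖ ≤ Real.exp L * V2 := by
      rw [hV2, ← mul_assoc, ← Real.exp_add]
      have : 1 ≤ Real.exp (L + s) := Real.one_le_exp (by linarith)
      exact le_mul_of_one_le_left (norm_nonneg _) this
    calc κ * sg (Tf r q) * ‖v 2‖ / (2 * ‖q 2‖) ≤ κ * ‖v 2‖ / (2 * ‖q 2‖) := by gcongr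
      _ = w * ‖v 2‖ / 2 := by rw [hwdef]; field_simp
      _ ≤ w * (Real.exp L * V2) / 2 := by gcongr
      _ = _ := by ring
  have ha2 : a ^ 2 ≤ hq q v / 2 := by
    rw [hqeq]
    exact ns_ar3 V2 ha0 halfle
  have hab : 2 * a * b ≤ w * Real.exp L * (hq q v / 2) :=
    ns_ar1 halfle hble hb0 hV00 hV10 (by positivity) (by rw [hqeq]; exact ns_ar2 V0 V1 V2)
  have hb2 : b ^ 2 ≤ w * Real.exp (2 * L) * hq q v := by
    have h6 : Real.exp (2 * L) = Real.exp L ^ 2 := by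
      rw [← Real.exp_nat_mul]; congr 1
    rw [h6]
    refine ns_ar5 hb0 hble hw0 hw ?_
    rw [hqeq]
    have := sq_nonneg V0
    have := sq_nonneg V1
    linarith
  have hsqd : |‖alf δ q v + bet κ r q v‖ ^ 2 - a ^ 2| ≤ 2 * a * b + b ^ 2 := by
    refine ns_ar4 (norm_nonneg _) ha0 hb0 ?_ ?_
    · rw [hadef, hbdef]; exact norm_add_le _ _
    · have := norm_sub_norm_le (alf δ q v) (-(bet κ r q v))
      rw [norm_neg, sub_neg_eq_add] at this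
      rw [hadef, hbdef]; exact this
  have hA : |P2 ε (uf L δ κ r q) * ‖alf δ q v + bet κ r q v‖ ^ 2 - P2 ε (rho L δ q) * a ^ 2| ≤
      w * (Cs / ε + Real.exp L + Real.exp (2 * L)) * hq q v := by
    have e : P2 ε (uf L δ κ r q) * ‖alf δ q v + bet κ r q v‖ ^ 2 - P2 ε (rho L δ q) * a ^ 2 =
      (P2 ε (uf L δ κ r q) - P2 ε (rho L δ q)) * a ^ 2 +
      P2 ε (uf L δ κ r q) * (‖alf δ q v + bet κ r q v‖ ^ 2 - a ^ 2) := by ring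
    rw [e]
    refine (abs_add_le _ _).trans ?_
    rw [abs_mul, abs_mul, abs_of_nonneg (sq_nonneg a), abs_of_nonneg (P2_nonneg _ _)]
    have h5 : |P2 ε (uf L δ κ r q) - P2 ε (rho L δ q)| * a ^ 2 ≤ (Cs / ε * w) * (hq q v / 2) :=
      mul_le_mul hP2d ha2 (sq_nonneg _) (by positivity)
    have h6 : P2 ε (uf L δ κ r q) * |‖alf δ q v + bet κ r q v‖ ^ 2 - a ^ 2| ≤
        1 * (w * Real.exp L * (hq q v / 2) + w * Real.exp (2 * L) * hq q v) :=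
      mul_le_mul (P2_le_one _ _) (hsqd.trans (add_le_add hab hb2)) (abs_nonneg _) zero_le_one
    have h7 : 0 ≤ Cs / ε * w * hq q v := by positivity
    have h8 : 0 ≤ w * Real.exp L * hq q v := by positivity
    exact ns_ar6 h5 h6 h7 h8
  have hQle : 1 / 2 * dsg (q 0).re * ‖v 0‖ ^ 2 + δ * ‖v 1‖ ^ 2 ≤ (Cs + 1) * hq q v := by
    have h5 : δ * ‖v 1‖ ^ 2 ≤ V1 ^ 2 := by
      rw [hV1, mul_pow, ← hse]
      apply mul_le_mul_of_nonneg_right _ (sq_nonneg _)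
      have := mul_nonneg hδ hL
      linarith
    have h6 : 1 / 2 * dsg (q 0).re * ‖v 0‖ ^ 2 ≤ Cs * V0 ^ 2 := by
      rw [← hV0]
      apply mul_le_mul_of_nonneg_right _ (sq_nonneg _)
      have := hCs (q 0).re
      linarith
    rw [hqeq]
    linarith [mul_nonneg (by linarith : (0:ℝ) ≤ Cs) (sq_nonneg V1),
      mul_nonneg (by linarith : (0:ℝ) ≤ Cs) (sq_nonneg V2), sq_nonneg V0, sq_nonneg V2]
  have hQ0 := ns_Q hδ q v
  have hB : |(P1 ε (rho L δ q) - P1 ε (uf L δ κ r q)) *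
      (1 / 2 * dsg (q 0).re * ‖v 0‖ ^ 2 + δ * ‖v 1‖ ^ 2)| ≤ w * ((Cs + 1) * hq q v) := by
    rw [abs_mul, abs_of_nonneg hQ0]
    exact mul_le_mul hP1d hQle hQ0 hw0
  unfold Nf
  rw [if_neg h2, ← hadef, abs_mul, abs_of_nonneg (by linarith : (0:ℝ) ≤ 4 * (1 - 2 * ε))]
  obtain ⟨X, hX⟩ : ∃ X, X = P2 ε (uf L δ κ r q) * ‖alf δ q v + bet κ r q v‖ ^ 2 -
    P2 ε (rho L δ q) * a ^ 2 := ⟨_, rfl⟩
  obtain ⟨Y, hY⟩ : ∃ Y, Y = (P1 ε (rho L δ q) - P1 ε (uf L δ κ r q)) *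
      (1 / 2 * dsg (q 0).re * ‖v 0‖ ^ 2 + δ * ‖v 1‖ ^ 2) := ⟨_, rfl⟩
  rw [← hX] at hA
  rw [← hY] at hB
  rw [← hX, ← hY]
  have hsum := (abs_add_le X Y).trans (add_le_add hA hB)
  calc _ ≤ 4 * |X + Y| := by
        apply mul_le_mul_of_nonneg_right _ (abs_nonneg _)
        linarith
    _ ≤ 4 * (w * (Cs / ε + Real.exp L + Real.exp (2 * L)) * hq q v + w * ((Cs + 1) * hq q v)) :=
        mul_le_mul_of_nonneg_left hsum (by norm_num)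
    _ = CF ε L Cs * w * hq q v := by unfold CF; ring

/-- upper bound in the direction of the sheet -/
lemma Nf_upper_x {ε L δ κ r : ℝ} (hε : 0 < ε) (hε' : ε ≤ 1 / 4) (hL : 0 ≤ L) (hδ : 0 ≤ δ)
    (hκ : 0 ≤ κ) (hr : 0 < r)
    (hc : 4 * (1 + 1 / ε) * δ * (L + 1) * Real.exp (2 * (L + 2)) ≤ ε) (q v : E3)
    (h0 : v 0 = 0) (h2 : v 2 = 0) :
    Nf ε L δ κ r q v ≤ ε * Real.exp (-2 * (q 0).re) * ‖v 1‖ ^ 2 := by
  by_cases hρ : rho L δ q ≤ 0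
  · rw [(Nf_inactive hε hκ hr (Or.inl hρ) v).1]; positivity
  push Not at hρ
  obtain ⟨hs1, hs2, hq1, hρL⟩ := active_bounds hδ hρ
  have hc' := ns_c hε hs2 hc
  have hinv := ns_inv hε hε'
  have hu := ns_u_le (L := L) (δ := δ) (r := r) hκ q
  have hQe : 1 / 2 * dsg (q 0).re * ‖v 0‖ ^ 2 + δ * ‖v 1‖ ^ 2 = δ * ‖v 1‖ ^ 2 := by
    rw [h0]; simp
  have hb : bet κ r q v = 0 := by unfold bet; rw [h2]; simp
  have hn : 0 ≤ ‖v 1‖ ^ 2 := sq_nonneg _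
  have ha : ‖alf δ q v‖ ^ 2 ≤ δ * (L + 1) * ‖v 1‖ ^ 2 := by
    have h3 := ns_alf hδ q v
    rw [h0, norm_zero, mul_zero, zero_add] at h3
    have h4 := pow_le_pow_left₀ (norm_nonneg _) h3 2
    have h5 : (δ * ‖q 1‖ * ‖v 1‖) ^ 2 = δ * (δ * ‖q 1‖ ^ 2) * ‖v 1‖ ^ 2 := by ring
    rw [h5] at h4
    refine h4.trans ?_
    apply mul_le_mul_of_nonneg_right _ hn
    exact mul_le_mul_of_nonneg_left hq1.le hδ
  have hP1ρ : P1 ε (rho L δ q) ≤ L + 1 := (P1_le hε hρ.le).trans hρL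
  have hP1b : P1 ε (rho L δ q) * (δ * ‖v 1‖ ^ 2) ≤ (L + 1) * (δ * ‖v 1‖ ^ 2) :=
    mul_le_mul_of_nonneg_right hP1ρ (by positivity)
  have hdL : 0 ≤ δ * (L + 1) := by positivity
  have hfin : 8 * (δ * (L + 1)) * ‖v 1‖ ^ 2 ≤ ε * Real.exp (-2 * (q 0).re) * ‖v 1‖ ^ 2 := by
    apply mul_le_mul_of_nonneg_right _ hn
    refine le_trans ?_ hc'
    have : 4 * (1 + 1 / ε) * δ * (L + 1) = 4 * (1 + 1 / ε) * (δ * (L + 1)) := by ring
    rw [this]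
    apply mul_le_mul_of_nonneg_right _ hdL
    linarith
  have hPP : 0 ≤ P1 ε (rho L δ q) * (δ * ‖v 1‖ ^ 2) :=
    mul_nonneg (P1_nonneg hε _) (by positivity)
  refine le_trans ?_ hfin
  unfold Nf
  rw [hQe, hb, add_zero]
  split_ifs with h
  · have h5 := mul_nonneg (P2_nonneg ε (rho L δ q)) (sq_nonneg ‖alf δ q v‖)
    have h6 : -(P2 ε (rho L δ q) * ‖alf δ q v‖ ^ 2) + P1 ε (rho L δ q) * (δ * ‖v 1‖ ^ 2) ≤
        (L + 1) * (δ * ‖v 1‖ ^ 2) := by linarith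
    have h7 : 0 ≤ (L + 1) * (δ * ‖v 1‖ ^ 2) := by positivity
    calc _ ≤ 4 * (1 - 2 * ε) * ((L + 1) * (δ * ‖v 1‖ ^ 2)) :=
          mul_le_mul_of_nonneg_left h6 (by linarith)
      _ ≤ 8 * ((L + 1) * (δ * ‖v 1‖ ^ 2)) := by
          apply mul_le_mul_of_nonneg_right _ h7
          linarith
      _ = _ := by ring
  · have h5 := mul_nonneg (P2_nonneg ε (rho L δ q)) (sq_nonneg ‖alf δ q v‖)
    have h6 : P2 ε (uf L δ κ r q) * ‖alf δ q v‖ ^ 2 ≤ 1 * (δ * (L + 1) * ‖v 1‖ ^ 2) :=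
      mul_le_mul (P2_le_one _ _) ha (sq_nonneg _) zero_le_one
    have h8 : 0 ≤ P1 ε (uf L δ κ r q) * (δ * ‖v 1‖ ^ 2) :=
      mul_nonneg (P1_nonneg hε _) (by positivity)
    have h7 : 0 ≤ (L + 1) * (δ * ‖v 1‖ ^ 2) := by positivity
    have h9 : P2 ε (uf L δ κ r q) * ‖alf δ q v‖ ^ 2 - P2 ε (rho L δ q) * ‖alf δ q v‖ ^ 2 +
        (P1 ε (rho L δ q) - P1 ε (uf L δ κ r q)) * (δ * ‖v 1‖ ^ 2) ≤
        2 * ((L + 1) * (δ * ‖v 1‖ ^ 2)) := by linarith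
    calc _ ≤ 4 * (1 - 2 * ε) * (2 * ((L + 1) * (δ * ‖v 1‖ ^ 2))) :=
          mul_le_mul_of_nonneg_left h9 (by linarith)
      _ ≤ 4 * (2 * ((L + 1) * (δ * ‖v 1‖ ^ 2))) := by
          apply mul_le_mul_of_nonneg_right _ (by positivity)
          linarith
      _ = _ := by ring

end Pool.Agent.NKM
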