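import Pool.Agent.NKM.Sheet

set_option autoImplicit false
open scoped Manifold ContDiff Topology ComplexConjugate
open MeasureTheory Set

namespace Pool.Agent.NKM

/-! auxiliary -/

lemma sd_eq {n : ℕ} (f : (Fin n → ℂ) → ℝ) (p v w : Fin n → ℂ) :
    secondDeriv f p v w = fderiv ℝ (fderiv ℝ f) p v w := by
  unfold secondDeriv
  rw [iteratedFDeriv_two_apply]
  simp

lemma sd_symm {n : ℕ} {f : (Fin n → ℂ) → ℝ} {p : Fin n → ℂ} (hf : ContDiffAt ℝ 2 f p)
    (v w : Fin n → ℂ) : secondDeriv f p v w = secondDeriv f p w v := by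
  rw [sd_eq, sd_eq]
  exact hf.isSymmSndFDerivAt (by simp) v w

lemma vec_expand {n : ℕ} (v : Fin n → ℂ) :
    v = ∑ j, ((v j).re • (Pi.single j (1 : ℂ) : Fin n → ℂ)
      + (v j).im • (Pi.single j Complex.I : Fin n → ℂ)) := by
  funext k
  rw [Finset.sum_apply]
  rw [Finset.sum_eq_single k]
  · simp [Complex.re_add_im]
  · intro j _ hj
    simp [Pi.single_apply, hj.symm]
  · intro h; exact absurd (Finset.mem_univ k) h

lemma bil_expand {n : ℕ} (D : (Fin n → ℂ) →L[ℝ] (Fin n → ℂ) →L[ℝ] ℝ) (v w : Fin n → ℂ) :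
    D v w = ∑ j, ∑ k, ((v j).re * (w k).re * D (Pi.single j 1) (Pi.single k 1)
      + (v j).re * (w k).im * D (Pi.single j 1) (Pi.single k Complex.I)
      + (v j).im * (w k).re * D (Pi.single j Complex.I) (Pi.single k 1)
      + (v j).im * (w k).im * D (Pi.single j Complex.I) (Pi.single k Complex.I)) := by
  have h1 : D v = ∑ j, ((v j).re • D (Pi.single j 1) + (v j).im • D (Pi.single j Complex.I)) := by
    conv_lhs => rw [vec_expand v]
    rw [map_sum]
    simp only [map_add, map_smul]
  rw [h1]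
  simp only [_root_.sum_apply]
  apply Finset.sum_congr rfl
  intro j _
  have h2 : ∀ L : (Fin n → ℂ) →L[ℝ] ℝ, L w = ∑ k, ((w k).re * L (Pi.single k 1)
      + (w k).im * L (Pi.single k Complex.I)) := by
    intro L
    conv_lhs => rw [vec_expand w]
    rw [map_sum]
    simp only [map_add, map_smul, smul_eq_mul]
  rw [h2]
  apply Finset.sum_congr rfl
  intro k _
  simp only [_root_.add_apply, _root_.smul_apply, smul_eq_mul]
  ring

lemma leviQ_expand {n : ℕ} (f : (Fin n → ℂ) → ℝ) (p v : Fin n → ℂ) :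
    leviQ f p v = ∑ j, ∑ k,
      ((((v j).re * (v k).re + (v j).im * (v k).im) *
        (secondDeriv f p (Pi.single j 1) (Pi.single k 1) +
          secondDeriv f p (Pi.single j Complex.I) (Pi.single k Complex.I))
      + ((v j).re * (v k).im - (v j).im * (v k).re) *
        (secondDeriv f p (Pi.single j 1) (Pi.single k Complex.I) -
          secondDeriv f p (Pi.single j Complex.I) (Pi.single k 1))) / 4) := by
  unfold leviQ
  simp only [sd_eq]
  rw [bil_expand (fderiv ℝ (fderiv ℝ f) p) v v,
    bil_expand (fderiv ℝ (fderiv ℝ f) p) (Complex.I • v) (Complex.I • v),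
    ← Finset.sum_add_distrib, Finset.sum_div]
  apply Finset.sum_congr rfl
  intro j _
  rw [← Finset.sum_add_distrib, Finset.sum_div]
  apply Finset.sum_congr rfl
  intro k _
  have h1 : ∀ l, ((Complex.I • v) l).re = -(v l).im := by intro l; simp
  have h2 : ∀ l, ((Complex.I • v) l).im = (v l).re := by intro l; simp
  rw [h1, h1, h2, h2]
  ring

/-! TARGETS: all lemmas of this section -/

lemma hermForm_levi {n : ℕ} {f : (Fin n → ℂ) → ℝ} {p : Fin n → ℂ} (hf : ContDiffAt ℝ 2 f p)
    (v : Fin n → ℂ) : hermForm (leviMatrix f p) v = ((leviQ f p v : ℝ) : ℂ) := by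
  apply Complex.ext
  · rw [Complex.ofReal_re, leviQ_expand]
    unfold hermForm leviMatrix
    simp only [Matrix.of_apply, Complex.re_sum]
    apply Finset.sum_congr rfl
    intro j _
    apply Finset.sum_congr rfl
    intro k _
    simp only [Complex.mul_re, Complex.mul_im, Complex.conj_re, Complex.conj_im, Complex.add_re,
      Complex.add_im, Complex.ofReal_re, Complex.ofReal_im, Complex.I_re, Complex.I_im,
      Complex.div_ofNat_re, Complex.div_ofNat_im]
    ring
  · rw [Complex.ofReal_im]
    unfold hermForm leviMatrix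
    simp only [Matrix.of_apply, Complex.im_sum]
    set F : Fin n → Fin n → ℝ := fun j k =>
      ((((secondDeriv f p (Pi.single j 1) (Pi.single k 1) +
        secondDeriv f p (Pi.single j Complex.I) (Pi.single k Complex.I) : ℝ) : ℂ) +
      ((secondDeriv f p (Pi.single j 1) (Pi.single k Complex.I) -
        secondDeriv f p (Pi.single j Complex.I) (Pi.single k 1) : ℝ) : ℂ) * Complex.I) / 4 * v j *
          conj (v k)).im with hF
    have hanti : ∀ j k, F j k = - F k j := by
      intro j k
      have s1 := sd_symm hf (Pi.single j 1) (Pi.single k 1)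
      have s2 := sd_symm hf (Pi.single j Complex.I) (Pi.single k Complex.I)
      have s3 := sd_symm hf (Pi.single j 1) (Pi.single k Complex.I)
      have s4 := sd_symm hf (Pi.single j Complex.I) (Pi.single k 1)
      simp only [hF]
      rw [s1, s2, s3, s4]
      simp only [Complex.mul_re, Complex.mul_im, Complex.conj_re, Complex.conj_im, Complex.add_re,
        Complex.add_im, Complex.ofReal_re, Complex.ofReal_im, Complex.I_re, Complex.I_im,
        Complex.div_ofNat_re, Complex.div_ofNat_im]
      ring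
    have h1 : ∑ j, ∑ k, F j k = - ∑ j, ∑ k, F j k := by
      conv_lhs => rw [Finset.sum_comm]
      rw [← Finset.sum_neg_distrib]
      apply Finset.sum_congr rfl
      intro j _
      rw [← Finset.sum_neg_distrib]
      apply Finset.sum_congr rfl
      intro k _
      rw [hanti k j]
    have : ∑ j, ∑ k, F j k = 0 := by linarith
    exact this

lemma levi_isHermitian {n : ℕ} {f : (Fin n → ℂ) → ℝ} {p : Fin n → ℂ}
    (hf : ContDiffAt ℝ 2 f p) : (leviMatrix f p).IsHermitian := by
  ext j k
  rw [Matrix.conjTranspose_apply]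
  unfold leviMatrix
  simp only [Matrix.of_apply]
  rw [sd_symm hf (Pi.single k 1) (Pi.single j 1), sd_symm hf (Pi.single k Complex.I) (Pi.single j Complex.I),
    sd_symm hf (Pi.single k 1) (Pi.single j Complex.I), sd_symm hf (Pi.single k Complex.I) (Pi.single j 1)]
  apply Complex.ext <;>
  simp only [Complex.star_def, Complex.mul_re, Complex.mul_im, Complex.conj_re, Complex.conj_im, Complex.add_re,
        Complex.add_im, Complex.ofReal_re, Complex.ofReal_im, Complex.I_re, Complex.I_im,
        Complex.div_ofNat_re, Complex.div_ofNat_im] <;> ring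

lemma leviQ_congr {n : ℕ} {f g : (Fin n → ℂ) → ℝ} {p : Fin n → ℂ} (h : f =ᶠ[𝓝 p] g)
    (v : Fin n → ℂ) : leviQ f p v = leviQ g p v := by
  have h2 := (h.iteratedFDeriv ℝ 2).eq_of_nhds
  unfold leviQ secondDeriv
  rw [h2]

lemma leviQ_sum {n : ℕ} {ι : Type} (s : Finset ι) {f : ι → (Fin n → ℂ) → ℝ} {p : Fin n → ℂ}
    (hf : ∀ i ∈ s, ContDiffAt ℝ 2 (f i) p) (v : Fin n → ℂ) :
    leviQ (fun q => ∑ i ∈ s, f i q) p v = ∑ i ∈ s, leviQ (f i) p v := by
  unfold leviQ secondDeriv
  rw [iteratedFDeriv_fun_sum_apply hf]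
  simp only [_root_.sum_apply]
  rw [← Finset.sum_add_distrib, Finset.sum_div]

lemma leviQ_affine {n : ℕ} {f : (Fin n → ℂ) → ℝ} (hf : ContDiff ℝ 2 f)
    (A : (Fin n → ℂ) →L[ℂ] (Fin n → ℂ)) (b p v : Fin n → ℂ) :
    leviQ (fun q => f (A q + b)) p v = leviQ f (A p + b) (A v) := by
  have key : ∀ v w, secondDeriv (fun q => f (A q + b)) p v w = secondDeriv f (A p + b) (A v) (A w) := by
    intro v w
    unfold secondDeriv
    have h1 : (fun q => f (A q + b)) = (fun y => f (y + b)) ∘ (A.restrictScalars ℝ) := rfl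
    have hf2 : ContDiff ℝ 2 (fun y => f (y + b)) := hf.comp (contDiff_id.add contDiff_const)
    rw [h1, ContinuousLinearMap.iteratedFDeriv_comp_right (A.restrictScalars ℝ) hf2 p (i := 2) le_rfl,
      iteratedFDeriv_comp_add_right]
    rw [ContinuousMultilinearMap.compContinuousLinearMap_apply]
    simp only [ContinuousLinearMap.coe_restrictScalars']
    congr 1
    funext i
    fin_cases i <;> rfl
  unfold leviQ
  rw [key, key, map_smul]

/-- chain rule for a function of one real variable -/
lemma leviQ_comp {n : ℕ} {f : (Fin n → ℂ) → ℝ} {p : Fin n → ℂ} (hf : ContDiffAt ℝ 2 f p)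
    {g g' g'' : ℝ → ℝ} (hg : ContDiffAt ℝ 2 g (f p)) (h1 : ∀ t, HasDerivAt g (g' t) t)
    (h2 : HasDerivAt g' (g'' (f p)) (f p)) (v : Fin n → ℂ) :
    leviQ (fun q => g (f q)) p v =
      g'' (f p) * (((fderiv ℝ f p v) ^ 2 + (fderiv ℝ f p (Complex.I • v)) ^ 2) / 4) +
        g' (f p) * leviQ f p v := by
  have hfd : ∀ᶠ q in 𝓝 p, DifferentiableAt ℝ f q := by
    have := (hf.of_le (by norm_num : (1 : WithTop ℕ∞) ≤ 2)).eventually (by simp)
    filter_upwards [this] with q hq
    exact hq.differentiableAt (by norm_num)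
  have hfp : HasFDerivAt f (fderiv ℝ f p) p := (hf.differentiableAt (by norm_num)).hasFDerivAt
  have hD : HasFDerivAt (fderiv ℝ f) (fderiv ℝ (fderiv ℝ f) p) p := by
    have := hf.fderiv_right (m := 1) (by norm_num)
    exact (this.differentiableAt (by norm_num)).hasFDerivAt
  have heq : fderiv ℝ (fun q => g (f q)) =ᶠ[𝓝 p] fun q => g' (f q) • fderiv ℝ f q := by
    filter_upwards [hfd] with q hq
    exact ((h1 (f q)).comp_hasFDerivAt q hq.hasFDerivAt).fderiv
  have hgf : HasFDerivAt (fun q => g' (f q)) (g'' (f p) • fderiv ℝ f p) p :=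
    h2.comp_hasFDerivAt p hfp
  have hprod := hgf.fun_smul hD
  have key : ∀ w, secondDeriv (fun q => g (f q)) p w w
      = g'' (f p) * (fderiv ℝ f p w) ^ 2 + g' (f p) * secondDeriv f p w w := by
    intro w
    rw [sd_eq, sd_eq, heq.fderiv_eq, hprod.fderiv]
    simp only [_root_.add_apply, _root_.smul_apply,
      ContinuousLinearMap.smulRight_apply, smul_eq_mul]
    ring
  unfold leviQ
  rw [key, key]
  ring

end Pool.Agent.NKM
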