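import Pool.Agent.NKM.Sheet
import Pool.Agent.NKM.LQ
import Pool.Agent.NKM.Act

set_option autoImplicit false
open scoped Manifold ContDiff Topology ComplexConjugate
open MeasureTheory Set

namespace Pool.Agent.NKM

/-! TARGETS -/

lemma gact663_0 (j : Lat × ℤ) (p : E3) : gact j p 0 = p 0 + ((j.2 : ℝ) * t0 : ℝ) := by
  unfold gact
  rw [smul_apply_0]
  simp

lemma finite_box663 (B C : ℝ) : Set.Finite {j : Lat × ℤ | ∃ p : E3, (∀ i, ‖p i‖ ≤ C) ∧
    |(gact j p 0).re| ≤ B ∧ ‖gact j p 1‖ ≤ B ∧ ‖gact j p 2‖ ≤ B} := by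
  have hinj : Function.Injective (fun j : Lat × ℤ => (⟨j.1, 0, j.2⟩ : Gam)) := by
    intro j j' h
    have h1 := congrArg Gam.n h
    have h2 := congrArg Gam.m h
    exact Prod.ext h1 h2
  refine ((finite_return (|B| + |C|)).preimage hinj.injOn).subset ?_
  rintro j ⟨p, hp, h0, h1, h2⟩
  have hB := le_abs_self B
  have hC := le_abs_self C
  have hB0 := abs_nonneg B
  have hC0 := abs_nonneg C
  refine ⟨p, fun i => (hp i).trans (by linarith), fun i => ?_⟩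
  have him : (gact j p 0).im = (p 0).im := by
    rw [gact663_0]
    simp
  have h0' : ‖gact j p 0‖ ≤ |B| + |C| := by
    refine (Complex.norm_le_abs_re_add_abs_im _).trans ?_
    rw [him]
    have := (Complex.abs_im_le_norm (p 0)).trans (hp 0)
    linarith
  fin_cases i
  · exact h0'
  · exact h1.trans (by linarith)
  · exact h2.trans (by linarith)

/-- only finitely many translates meet a box -/
lemma finite_active (B : ℝ) (p : E3) : Set.Finite {j : Lat × ℤ | |(gact j p 0).re| ≤ B ∧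
    ‖gact j p 1‖ ≤ B ∧ ‖gact j p 2‖ ≤ B} :=
  (finite_box663 B ‖p‖).subset fun j hj => ⟨p, fun i => norm_le_pi_norm p i, hj⟩

/-- local finiteness -/
lemma local663 (B : ℝ) (p : E3) : ∃ s : Finset (Lat × ℤ), ∀ q ∈ Metric.ball p 1, ∀ j ∉ s,
    ¬ (|(gact j q 0).re| ≤ B ∧ ‖gact j q 1‖ ≤ B ∧ ‖gact j q 2‖ ≤ B) := by
  refine ⟨(finite_box663 B (‖p‖ + 1)).toFinset, fun q hq j hj h => hj ?_⟩
  rw [Set.Finite.mem_toFinset]
  refine ⟨q, fun i => (norm_le_pi_norm q i).trans ?_, h⟩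
  rw [Metric.mem_ball, dist_eq_norm] at hq
  have : ‖q‖ ≤ ‖q - p‖ + ‖p‖ := by
    have := norm_add_le (q - p) p
    rwa [sub_add_cancel] at this
  linarith

lemma PS663_eq {W : E3 → ℝ} {B : ℝ}
    (hs : ∀ p, W p ≠ 0 → |(p 0).re| ≤ B ∧ ‖p 1‖ ≤ B ∧ ‖p 2‖ ≤ B) (p : E3) :
    ∃ s : Finset (Lat × ℤ), PS W =ᶠ[𝓝 p] (fun q => ∑ j ∈ s, W (gact j q)) ∧
      ∀ j ∉ s, ¬ (|(gact j p 0).re| ≤ B ∧ ‖gact j p 1‖ ≤ B ∧ ‖gact j p 2‖ ≤ B) := by
  obtain ⟨s, hs'⟩ := local663 B p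
  refine ⟨s, ?_, fun j hj => hs' p (Metric.mem_ball_self one_pos) j hj⟩
  filter_upwards [Metric.ball_mem_nhds p one_pos] with q hq
  unfold PS
  apply tsum_eq_sum
  intro j hj
  by_contra hne
  exact hs' q hq j hj (hs _ hne)

lemma gact663_contDiff (j : Lat × ℤ) : ContDiff ℝ ∞ (gact j) := by
  have h := contDiff_smul (⟨j.1, 0, j.2⟩ : Gam)
  exact (h.restrict_scalars ℝ).of_le (by exact le_top)

lemma PS_contDiff {W : E3 → ℝ} {B : ℝ} (hW : ContDiff ℝ ∞ W)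
    (hs : ∀ p, W p ≠ 0 → |(p 0).re| ≤ B ∧ ‖p 1‖ ≤ B ∧ ‖p 2‖ ≤ B) : ContDiff ℝ ∞ (PS W) := by
  rw [contDiff_iff_contDiffAt]
  intro p
  obtain ⟨s, hs1, _⟩ := PS663_eq hs p
  refine ContDiffAt.congr_of_eventuallyEq ?_ hs1
  exact (ContDiff.sum fun j _ => hW.comp (gact663_contDiff j)).contDiffAt

lemma PS_inv {W : E3 → ℝ}
    (hper : ∀ p : E3, ∀ t : ℝ, W ![p 0 + t * Complex.I, p 1, p 2] = W p)
    (g : Gam) (p : E3) : PS W (g • p) = PS W p := by
  let e : Lat × ℤ ≃ Lat × ℤ :=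
    { toFun := fun j => (j.1 + (j.2 • Phi : AddAut Lat) g.n, j.2 + g.m)
      invFun := fun j => (j.1 - ((j.2 - g.m) • Phi : AddAut Lat) g.n, j.2 - g.m)
      left_inv := fun j => by
        refine Prod.ext ?_ ?_
        · simp only [add_sub_cancel_right]
        · simp only [add_sub_cancel_right]
      right_inv := fun j => by
        refine Prod.ext ?_ ?_
        · simp only [sub_add_cancel]
        · simp only [sub_add_cancel] }
  have key : ∀ j, W (gact j (g • p)) = W (gact (e j) p) := by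
    intro j
    rw [← hper (gact (e j) p) (g.k : ℝ)]
    congr 1
    have h1 : gact j (g • p) = ((⟨j.1, 0, j.2⟩ : Gam) * g) • p := by
      unfold gact
      rw [mul_smul]
    rw [h1]
    apply E3_ext
    · rw [smul_apply_0]
      simp only [Gam.mul_m, Gam.mul_k, Matrix.cons_val_zero, gact663_0]
      simp [e]
    · rw [smul_apply_1]
      unfold gact
      simp only [Matrix.cons_val_one, Matrix.cons_val_zero]
      rw [smul_apply_1]
      simp [e]
    · rw [smul_apply_2]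
      unfold gact
      simp only [Matrix.cons_val_two, Matrix.tail_cons, Matrix.head_cons]
      rw [smul_apply_2]
      simp [e]
  unfold PS
  rw [tsum_congr key]
  exact e.tsum_eq (fun j => W (gact j p))

/-- the Levi form vanishes off the support box -/
lemma leviQ_eq_zero {W : E3 → ℝ} {B : ℝ}
    (hs : ∀ p, W p ≠ 0 → |(p 0).re| ≤ B ∧ ‖p 1‖ ≤ B ∧ ‖p 2‖ ≤ B) (p v : E3)
    (hp : ¬ (|(p 0).re| ≤ B ∧ ‖p 1‖ ≤ B ∧ ‖p 2‖ ≤ B)) : leviQ W p v = 0 := by
  have hcl : IsClosed {q : E3 | |(q 0).re| ≤ B ∧ ‖q 1‖ ≤ B ∧ ‖q 2‖ ≤ B} := by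
    refine IsClosed.and ?_ (IsClosed.and ?_ ?_)
    · exact isClosed_le ((Complex.continuous_re.comp (continuous_apply 0)).abs) continuous_const
    · exact isClosed_le (continuous_apply 1).norm continuous_const
    · exact isClosed_le (continuous_apply 2).norm continuous_const
  have hev : W =ᶠ[𝓝 p] (fun q => ∑ j ∈ (∅ : Finset Unit), (fun _ _ => (0:ℝ)) j q) := by
    filter_upwards [hcl.isOpen_compl.mem_nhds hp] with q hq
    rw [Finset.sum_empty]
    by_contra hne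
    exact hq (hs q hne)
  rw [leviQ_congr hev, leviQ_sum (∅ : Finset Unit) (fun i hi => by simp at hi) v, Finset.sum_empty]

lemma PS_levi {W : E3 → ℝ} {B : ℝ} (hW : ContDiff ℝ ∞ W)
    (hs : ∀ p, W p ≠ 0 → |(p 0).re| ≤ B ∧ ‖p 1‖ ≤ B ∧ ‖p 2‖ ≤ B) (p v : E3) :
    leviQ (PS W) p v = ∑' j : Lat × ℤ, leviQ W (gact j p) (lin j.2 v) := by
  obtain ⟨s, hs1, hs2⟩ := PS663_eq hs p
  have h2inf : (2 : WithTop ℕ∞) ≤ ((⊤ : ℕ∞) : WithTop ℕ∞) := by
    show ((2 : ℕ∞) : WithTop ℕ∞) ≤ ((⊤ : ℕ∞) : WithTop ℕ∞)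
    exact WithTop.coe_le_coe.2 le_top
  have hW2 : ContDiff ℝ 2 W := hW.of_le h2inf
  have h2 : ∀ j, ContDiff ℝ 2 (fun q => W (gact j q)) := fun j =>
    hW2.comp ((gact663_contDiff j).of_le h2inf)
  rw [leviQ_congr hs1, leviQ_sum s (fun j _ => (h2 j).contDiffAt) v,
    tsum_eq_sum (s := s) (fun j hj => leviQ_eq_zero hs _ _ (hs2 j hj))]
  refine Finset.sum_congr rfl fun j _ => ?_
  have e : ∀ q, gact j q = lin j.2 q + ![((j.2 : ℝ) * t0 : ℝ) + ((0 : ℤ) : ℂ) * Complex.I,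
      E1 j.1, E2 j.1] := fun q => act_eq (⟨j.1, 0, j.2⟩ : Gam) q
  have e1 : (fun q => W (gact j q)) = fun q => W (lin j.2 q +
      ![((j.2 : ℝ) * t0 : ℝ) + ((0 : ℤ) : ℂ) * Complex.I, E1 j.1, E2 j.1]) := by
    funext q; rw [e]
  rw [e1, leviQ_affine hW2, e p]

end Pool.Agent.NKM
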