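import Pool.Agent.NKM.BG2
import Pool.Agent.NKM.BG1
import Pool.Agent.NKM.FR
import Pool.Agent.NKM.PS

set_option autoImplicit false
open scoped Manifold ContDiff Topology ComplexConjugate
open MeasureTheory Set

namespace Pool.Agent.NKM

/-! TARGETS -/

lemma spt_re (τ : ℝ) (j : Lat × ℤ) (p : E3) : (spt τ j p 0).re = (p 0).re + j.2 * t0 := by
  simp only [spt, gact, Pi.sub_apply, smul_apply_0]
  simp

lemma spt_1 (τ : ℝ) (j : Lat × ℤ) (p : E3) :
    spt τ j p 1 = (((gr : ℂ) ^ j.2 * p 1 - (τ : ℂ)) + E1 j.1) := by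
  simp only [spt, gact, Pi.sub_apply, smul_apply_1]
  simp
  ring

lemma spt_2 (τ : ℝ) (j : Lat × ℤ) (p : E3) :
    spt τ j p 2 = (((gc : ℂ) ^ j.2 * p 2 - (τ : ℂ)) + E2 j.1) := by
  simp only [spt, gact, Pi.sub_apply, smul_apply_2]
  simp
  ring

lemma gact_0_re (τ : ℝ) (j : Lat × ℤ) (p : E3) : (gact j p 0).re = (spt τ j p 0).re := by
  simp [spt]

lemma gact_1_norm (τ : ℝ) (j : Lat × ℤ) (p : E3) : ‖gact j p 1‖ ≤ ‖spt τ j p 1‖ + |τ| := by
  have h : gact j p 1 = spt τ j p 1 + (τ : ℂ) := by simp [spt]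
  rw [h]
  refine (norm_add_le _ _).trans ?_
  rw [Complex.norm_real, Real.norm_eq_abs]

lemma gact_2_norm (τ : ℝ) (j : Lat × ℤ) (p : E3) : ‖gact j p 2‖ ≤ ‖spt τ j p 2‖ + |τ| := by
  have h : gact j p 2 = spt τ j p 2 + (τ : ℂ) := by simp [spt]
  rw [h]
  refine (norm_add_le _ _).trans ?_
  rw [Complex.norm_real, Real.norm_eq_abs]

lemma Rf_support_finite {ε L δ κ r τ : ℝ} (hε : 0 < ε) (hδ : 0 < δ) (hκ : 0 ≤ κ) (hr : 0 < r)
    (p : E3) : (Function.support (fun j : Lat × ℤ => Rf ε L δ κ r (spt τ j p) *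
      Real.exp (-2 * (spt τ j p 0).re))).Finite := by
  apply (finite_active (|L| + 2 + (1 + |(L + 1) / δ|) + |τ| + r) p).subset
  intro j hj
  rw [Function.mem_support] at hj
  have hR : Rf ε L δ κ r (spt τ j p) ≠ 0 := left_ne_zero_of_mul hj
  have h1 : ¬ (rho L δ (spt τ j p) ≤ 0 ∨ r ≤ ‖spt τ j p 2‖) := fun h =>
    hR (Nf_inactive (L := L) (δ := δ) hε hκ hr h 0).2
  push Not at h1
  obtain ⟨h1, h2⟩ := h1
  obtain ⟨b1, b2, b3, b4⟩ := active_bounds hδ.le h1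
  have hL := le_abs_self L
  have hL0 := abs_nonneg L
  have hτ := abs_nonneg τ
  have hq := abs_nonneg ((L + 1) / δ)
  have hq' := le_abs_self ((L + 1) / δ)
  have hn : ‖spt τ j p 1‖ ≤ 1 + |(L + 1) / δ| := by
    have h3 : ‖spt τ j p 1‖ ^ 2 < (L + 1) / δ := by
      rw [lt_div_iff₀ hδ]; linarith
    nlinarith [norm_nonneg (spt τ j p 1)]
  refine ⟨?_, ?_, ?_⟩
  · rw [gact_0_re τ, abs_le]
    constructor <;> linarith
  · have := gact_1_norm τ j p
    linarith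
  · have := gact_2_norm τ j p
    linarith

/-- the background sum is close to its limit, uniformly in the point -/
theorem bg3 {ε ell r : ℝ} {Pn pp : ℕ} (hε : 0 < ε) (hε' : ε ≤ 1 / 4) (hell : 0 ≤ ell)
    (hPn : 0 < Pn) (hr : 0 < r)
    (hb : ∀ s : ℝ, |binf ε ell Pn s - (1 - 3 * ε)| ≤ ε / 2) :
    ∃ q0 : ℕ, ∀ q ≥ q0, ∀ p : E3,
      1 - 4 * ε ≤ ∑ i : Fin Pn, ∑' j : Lat × ℤ,
        Rf ε (Lv ell Pn i) (dl q) (kap ε ell Pn q i) r (spt (((i : ℝ) + 1) / pp) j p) *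
          Real.exp (-2 * (spt (((i : ℝ) + 1) / pp) j p 0).re) ∧
      ∑ i : Fin Pn, ∑' j : Lat × ℤ,
        Rf ε (Lv ell Pn i) (dl q) (kap ε ell Pn q i) r (spt (((i : ℝ) + 1) / pp) j p) *
          Real.exp (-2 * (spt (((i : ℝ) + 1) / pp) j p 0).re) ≤ 1 - 2 * ε := by
  have ht0 := t0_pos
  have hPn' : (0 : ℝ) < Pn := by exact_mod_cast hPn
  have hIf : 0 < If ε := by linarith [(If_bounds hε hε').1]
  have hA : 0 < Amp ε Pn := by
    unfold Amp
    have : 0 < 1 - 3 * ε := by linarith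
    positivity
  have hpi := Real.pi_pos
  have hLv : ∀ i : Fin Pn, 0 ≤ Lv ell Pn i ∧ Lv ell Pn i ≤ ell + t0 := by
    intro i
    unfold Lv
    have hi : (i : ℝ) ≤ Pn := by exact_mod_cast i.2.le
    have hi0 : (0 : ℝ) ≤ i := Nat.cast_nonneg _
    have hd : (i : ℝ) * (t0 / Pn) ≤ t0 := by
      calc (i : ℝ) * (t0 / Pn) ≤ Pn * (t0 / Pn) := by gcongr
        _ = t0 := by field_simp
    constructor
    · positivity
    · linarith
  set N : ℝ := (2 * (ell + t0) + 2) / t0 + 1 with hN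
  have hNpos : 0 < N := by positivity
  set c5 : ℝ := 5 / (2 * Real.pi ^ 2) with hc5
  have hc5pos : 0 < c5 := by positivity
  set e : ℝ := (ε / 2) / (Amp ε Pn * c5 * N * Pn + 1) with he
  have hepos : 0 < e := by positivity
  have heb : Amp ε Pn * c5 * e * N * Pn ≤ ε / 2 := by
    have hK : 0 < Amp ε Pn * c5 * N * Pn := by positivity
    have h1 : e * (Amp ε Pn * c5 * N * Pn + 1) = ε / 2 := by
      rw [he]; field_simp
    nlinarith
  have h12 : 0 < 1 - 2 * ε := by linarith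
  have hq : ∀ i : Fin Pn, ∃ q0 : ℕ, ∀ q ≥ q0, ∀ κ : ℝ, 0 ≤ κ →
      κ ≤ (Amp ε Pn * Real.exp (-2 * Lv ell Pn i) * 5 / (2 * Real.pi ^ 2 * (1 - 2 * ε))) * dl q →
      ∀ (a0 b0 : ℂ) (c0 : ℝ), c0 ≤ Lv ell Pn i + 1 →
      |dl q * ∑' n : Lat, P1 ε (c0 - dl q * ‖a0 + E1 n‖ ^ 2 -
          κ * S (Real.log (r / ‖b0 + E2 n‖))) * dsg (Real.log (r / ‖b0 + E2 n‖)) /
            ‖b0 + E2 n‖ ^ 2 - 2 * Real.pi ^ 2 / 5 * P ε c0| ≤ e := fun i =>
    bg2 hε (hLv i).1 hr (by positivity) hepos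
  choose f hf using hq
  refine ⟨Finset.univ.sup f, fun q hq p => ?_⟩
  have hdl : 0 < dl q := by
    have := gr_pos
    unfold dl; positivity
  set s : ℝ := (p 0).re with hs
  -- one family
  have key : ∀ i : Fin Pn, |(∑' j : Lat × ℤ,
        Rf ε (Lv ell Pn i) (dl q) (kap ε ell Pn q i) r (spt (((i : ℝ) + 1) / pp) j p) *
          Real.exp (-2 * (spt (((i : ℝ) + 1) / pp) j p 0).re)) -
      Amp ε Pn * ∑' m : ℤ, Real.exp (-2 * (Lv ell Pn i + s + m * t0)) *
        P ε (Lv ell Pn i - eta (s + m * t0))| ≤ Amp ε Pn * c5 * e * N := by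
    intro i
    have hfi := hf i q (le_trans (Finset.le_sup (Finset.mem_univ i)) hq)
    obtain ⟨hL0, hLm⟩ := hLv i
    set L : ℝ := Lv ell Pn i with hL
    set τ : ℝ := ((i : ℝ) + 1) / pp with hτ
    set κ : ℝ := kap ε ell Pn q i with hκd
    have hκeq : κ = (Amp ε Pn * Real.exp (-2 * L) * 5 / (2 * Real.pi ^ 2 * (1 - 2 * ε))) * dl q := by
      rw [hκd]; unfold kap; rw [← hL]; ring
    have hκ0 : 0 ≤ κ := by rw [hκeq]; positivity
    have hfin := Rf_support_finite (L := L) (τ := τ) hε hdl hκ0 hr p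
    have hsum : Summable (fun j : Lat × ℤ => Rf ε L (dl q) κ r (spt τ j p) *
      Real.exp (-2 * (spt τ j p 0).re)) := summable_of_hasFiniteSupport hfin
    have hsum' : Summable (fun x : ℤ × Lat => Rf ε L (dl q) κ r (spt τ (x.2, x.1) p) *
      Real.exp (-2 * (spt τ (x.2, x.1) p 0).re)) :=
      ((Equiv.prodComm ℤ Lat).summable_iff
        (f := (fun j : Lat × ℤ => Rf ε L (dl q) κ r (spt τ j p) *
      Real.exp (-2 * (spt τ j p 0).re)))).2 hsum
    have h1 : (∑' j : Lat × ℤ, Rf ε L (dl q) κ r (spt τ j p) *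
      Real.exp (-2 * (spt τ j p 0).re)) = ∑' m : ℤ, ∑' n : Lat,
        Rf ε L (dl q) κ r (spt τ (n, m) p) * Real.exp (-2 * (spt τ (n, m) p 0).re) := by
      rw [← (Equiv.prodComm ℤ Lat).tsum_eq]
      exact hsum'.tsum_prod
    -- inner sum
    set X : ℤ → ℝ := fun m => ∑' n : Lat, P1 ε ((L - eta (s + m * t0)) -
        dl q * ‖((gr : ℂ) ^ m * p 1 - (τ : ℂ)) + E1 n‖ ^ 2 -
          κ * S (Real.log (r / ‖((gc : ℂ) ^ m * p 2 - (τ : ℂ)) + E2 n‖))) *
            dsg (Real.log (r / ‖((gc : ℂ) ^ m * p 2 - (τ : ℂ)) + E2 n‖)) /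
            ‖((gc : ℂ) ^ m * p 2 - (τ : ℂ)) + E2 n‖ ^ 2 with hX
    have h2 : ∀ m : ℤ, (∑' n : Lat,
        Rf ε L (dl q) κ r (spt τ (n, m) p) * Real.exp (-2 * (spt τ (n, m) p 0).re)) =
        Amp ε Pn * Real.exp (-2 * (L + s + m * t0)) * c5 * (dl q * X m) := by
      intro m
      have h3 : ∀ n : Lat, Rf ε L (dl q) κ r (spt τ (n, m) p) *
          Real.exp (-2 * (spt τ (n, m) p 0).re) =
          ((1 - 2 * ε) * κ * Real.exp (-2 * (s + m * t0))) *
          (P1 ε ((L - eta (s + m * t0)) -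
        dl q * ‖((gr : ℂ) ^ m * p 1 - (τ : ℂ)) + E1 n‖ ^ 2 -
          κ * S (Real.log (r / ‖((gc : ℂ) ^ m * p 2 - (τ : ℂ)) + E2 n‖))) *
            dsg (Real.log (r / ‖((gc : ℂ) ^ m * p 2 - (τ : ℂ)) + E2 n‖)) /
            ‖((gc : ℂ) ^ m * p 2 - (τ : ℂ)) + E2 n‖ ^ 2) := by
        intro n
        unfold Rf uf rho Tf
        rw [spt_re, spt_1, spt_2, ← hs]
        ring
      rw [tsum_congr h3, tsum_mul_left, hκeq]
      have h4 : Real.exp (-2 * (L + s + m * t0)) = Real.exp (-2 * L) * Real.exp (-2 * (s + m * t0)) := by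
        rw [← Real.exp_add]; congr 1; ring
      rw [h4, hX, hc5, hκeq]
      field_simp
    rw [h1, tsum_congr h2, ← tsum_mul_left]
    -- restrict to a finite set
    set M : Finset ℤ := Finset.Icc ⌈(-L - s) / t0⌉ ⌊(L + 2 - s) / t0⌋ with hM
    have hout : ∀ m ∉ M, L - eta (s + m * t0) ≤ 0 := by
      intro m hm
      rw [hM, Finset.mem_Icc, not_and_or] at hm
      rcases hm with hm | hm
      · rw [Int.ceil_le, not_le, lt_div_iff₀ ht0] at hm
        rw [eta_of_nonpos (by linarith)]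
        linarith
      · rw [Int.le_floor, not_le, div_lt_iff₀ ht0] at hm
        have := sub_two_le_eta (s + m * t0)
        linarith
    have hout1 : ∀ m ∉ M, Amp ε Pn * Real.exp (-2 * (L + s + m * t0)) * c5 * (dl q * X m) = 0 := by
      intro m hm
      have h0 := hout m hm
      have hX0 : X m = 0 := by
        rw [hX]
        have : ∀ n : Lat, P1 ε ((L - eta (s + m * t0)) -
        dl q * ‖((gr : ℂ) ^ m * p 1 - (τ : ℂ)) + E1 n‖ ^ 2 -
          κ * S (Real.log (r / ‖((gc : ℂ) ^ m * p 2 - (τ : ℂ)) + E2 n‖))) *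
            dsg (Real.log (r / ‖((gc : ℂ) ^ m * p 2 - (τ : ℂ)) + E2 n‖)) /
            ‖((gc : ℂ) ^ m * p 2 - (τ : ℂ)) + E2 n‖ ^ 2 = 0 := by
          intro n
          rw [P1_of_nonpos hε]
          · simp
          · have h5 : 0 ≤ dl q * ‖((gr : ℂ) ^ m * p 1 - (τ : ℂ)) + E1 n‖ ^ 2 := by positivity
            have h6 := mul_nonneg hκ0
              (S_nonneg (Real.log (r / ‖((gc : ℂ) ^ m * p 2 - (τ : ℂ)) + E2 n‖)))
            linarith
        simp only [this]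
        exact tsum_zero
      rw [hX0]; ring
    have hout2 : ∀ m ∉ M, Amp ε Pn * (Real.exp (-2 * (L + s + m * t0)) *
        P ε (L - eta (s + m * t0))) = 0 := by
      intro m hm
      rw [P_of_nonpos hε (hout m hm)]; ring
    rw [tsum_eq_sum hout1, tsum_eq_sum hout2, ← Finset.sum_sub_distrib]
    refine (Finset.abs_sum_le_sum_abs _ _).trans ?_
    have hterm : ∀ m ∈ M, |Amp ε Pn * Real.exp (-2 * (L + s + m * t0)) * c5 * (dl q * X m) -
        Amp ε Pn * (Real.exp (-2 * (L + s + m * t0)) * P ε (L - eta (s + m * t0)))| ≤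
        Amp ε Pn * c5 * e := by
      intro m hm
      rw [hM, Finset.mem_Icc] at hm
      have hm1 := hm.1
      rw [Int.ceil_le, div_le_iff₀ ht0] at hm1
      have hexp : Real.exp (-2 * (L + s + m * t0)) ≤ 1 := by
        rw [Real.exp_le_one_iff]; linarith
      have hcm : L - eta (s + m * t0) ≤ L + 1 := by
        have := neg_one_le_eta (s + m * t0)
        linarith
      have h7 := hfi κ hκ0 (by rw [hκeq]) ((gr : ℂ) ^ m * p 1 - (τ : ℂ))
        ((gc : ℂ) ^ m * p 2 - (τ : ℂ)) _ hcm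
      have h8 : Amp ε Pn * Real.exp (-2 * (L + s + m * t0)) * c5 * (dl q * X m) -
        Amp ε Pn * (Real.exp (-2 * (L + s + m * t0)) * P ε (L - eta (s + m * t0))) =
        (Amp ε Pn * c5 * Real.exp (-2 * (L + s + m * t0))) * (dl q * X m -
          2 * Real.pi ^ 2 / 5 * P ε (L - eta (s + m * t0))) := by
        rw [hc5]; field_simp
      rw [h8, abs_mul, abs_of_pos (by positivity)]
      calc Amp ε Pn * c5 * Real.exp (-2 * (L + s + m * t0)) * |dl q * X m -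
          2 * Real.pi ^ 2 / 5 * P ε (L - eta (s + m * t0))|
          ≤ Amp ε Pn * c5 * 1 * e := by
            gcongr
        _ = Amp ε Pn * c5 * e := by ring
    refine (Finset.sum_le_sum hterm).trans ?_
    rw [Finset.sum_const, nsmul_eq_mul, mul_comm]
    have hcard : (M.card : ℝ) ≤ N := by
      rw [hM, Int.card_Icc]
      have ha := Int.le_ceil ((-L - s) / t0)
      have hb' := Int.floor_le ((L + 2 - s) / t0)
      have hdiff : (L + 2 - s) / t0 - (-L - s) / t0 = (2 * L + 2) / t0 := by ring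
      have hle : (2 * L + 2) / t0 ≤ (2 * (ell + t0) + 2) / t0 := by gcongr
      have hnn : ((⌊(L + 2 - s) / t0⌋ + 1 - ⌈(-L - s) / t0⌉).toNat : ℝ) ≤
          max (((⌊(L + 2 - s) / t0⌋ + 1 - ⌈(-L - s) / t0⌉ : ℤ)) : ℝ) 0 := by
        have : ((⌊(L + 2 - s) / t0⌋ + 1 - ⌈(-L - s) / t0⌉).toNat : ℤ) =
            max (⌊(L + 2 - s) / t0⌋ + 1 - ⌈(-L - s) / t0⌉) 0 := Int.toNat_eq_max _
        exact_mod_cast this.le
      refine hnn.trans (max_le ?_ hNpos.le)
      push_cast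
      linarith
    have hpos : 0 ≤ Amp ε Pn * c5 * e := by positivity
    exact mul_le_mul_of_nonneg_left hcard hpos
  have hB : |(∑ i : Fin Pn, ∑' j : Lat × ℤ,
        Rf ε (Lv ell Pn i) (dl q) (kap ε ell Pn q i) r (spt (((i : ℝ) + 1) / pp) j p) *
          Real.exp (-2 * (spt (((i : ℝ) + 1) / pp) j p 0).re)) - binf ε ell Pn s| ≤ ε / 2 := by
    unfold binf
    rw [Finset.mul_sum, ← Finset.sum_sub_distrib]
    refine (Finset.abs_sum_le_sum_abs _ _).trans ?_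
    refine (Finset.sum_le_sum (fun i _ => key i)).trans ?_
    rw [Finset.sum_const, nsmul_eq_mul, Finset.card_univ, Fintype.card_fin]
    linarith
  have hbs := abs_le.1 (hb s)
  have hB' := abs_le.1 hB
  constructor <;> linarith [hbs.1, hbs.2, hB'.1, hB'.2]

end Pool.Agent.NKM
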