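import Pool.Agent.NKM.Defs

set_option autoImplicit false
open scoped ComplexConjugate

namespace Pool.Agent.NKM

theorem nk_herm2 (A : Matrix (Fin 3) (Fin 3) ℂ) (hA : A.IsHermitian) (x y : ℂ) :
    (hermForm A ![x, 0, y]).re = (A 0 0).re * ‖x‖ ^ 2 + (A 2 2).re * ‖y‖ ^ 2
      + 2 * (A 0 2 * x * conj y).re := by
  have h20 : A 2 0 = conj (A 0 2) := by
    have := hA.apply 2 0
    rw [← this]; simp
  have h00 : (A 0 0).im = 0 := by
    have := congrArg Complex.im (hA.apply 0 0)
    simp at this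
    linarith
  have h22 : (A 2 2).im = 0 := by
    have := congrArg Complex.im (hA.apply 2 2)
    simp at this
    linarith
  unfold hermForm
  simp only [Fin.sum_univ_three, Matrix.cons_val_zero, Matrix.cons_val_one, Matrix.cons_val, h20]
  rw [Complex.sq_norm, Complex.sq_norm, Complex.normSq_apply, Complex.normSq_apply]
  simp only [Complex.add_re, Complex.mul_re, Complex.mul_im, Complex.conj_re, Complex.conj_im,
    Complex.zero_re, Complex.zero_im, h00, h22]
  ring

theorem nk_psd2 {a d : ℝ} {b : ℂ}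
    (h : ∀ x y : ℂ, 0 ≤ a * ‖x‖ ^ 2 + d * ‖y‖ ^ 2 + 2 * (b * x * conj y).re) :
    0 ≤ a ∧ 0 ≤ d ∧ ‖b‖ ^ 2 ≤ a * d := by
  have ha : 0 ≤ a := by simpa using h 1 0
  have hd : 0 ≤ d := by simpa using h 0 1
  refine ⟨ha, hd, ?_⟩
  have h1 : ∀ t : ℝ, 0 ≤ (a * ‖b‖ ^ 2) * (t * t) + (-2 * ‖b‖ ^ 2) * t + d := by
    intro t
    have h2 := h (-(t : ℂ) * conj b) 1
    have h3 : (b * (-(t : ℂ) * conj b) * conj 1).re = - t * ‖b‖ ^ 2 := by
      rw [Complex.sq_norm, Complex.normSq_apply]
      simp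
      ring
    rw [h3] at h2
    have h4 : ‖(-(t : ℂ) * conj b)‖ ^ 2 = t * t * ‖b‖ ^ 2 := by
      rw [norm_mul, norm_neg, Complex.norm_real, Complex.norm_conj, mul_pow, Real.norm_eq_abs,
        sq_abs]
      ring
    rw [h4, norm_one] at h2
    nlinarith
  have h2 := discrim_le_zero h1
  unfold discrim at h2
  by_cases hb : ‖b‖ = 0
  · rw [hb]; nlinarith
  · have hb2 : 0 < ‖b‖ ^ 2 := by positivity
    by_contra hc
    push Not at hc
    nlinarith

/-- Fischer inequality for the block `{1}`, `{0,2}` -/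
theorem fischer (A : Matrix (Fin 3) (Fin 3) ℂ) (hA : A.IsHermitian)
    (hp : ∀ v : Fin 3 → ℂ, 0 ≤ (hermForm A v).re) :
    A.det.re ≤ (A 1 1).re * ((A 0 0).re * (A 2 2).re - ‖A 0 2‖ ^ 2) := by
  have h20 : A 2 0 = conj (A 0 2) := by
    have := hA.apply 2 0
    rw [← this]; simp
  have h10 : A 1 0 = conj (A 0 1) := by
    have := hA.apply 1 0
    rw [← this]; simp
  have h21 : A 2 1 = conj (A 1 2) := by
    have := hA.apply 2 1
    rw [← this]; simp
  have h00 : (A 0 0).im = 0 := by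
    have := congrArg Complex.im (hA.apply 0 0)
    simp at this
    linarith
  have h11 : (A 1 1).im = 0 := by
    have := congrArg Complex.im (hA.apply 1 1)
    simp at this
    linarith
  have h22 : (A 2 2).im = 0 := by
    have := congrArg Complex.im (hA.apply 2 2)
    simp at this
    linarith
  have h1 := hp ![-(conj (A 1 2)), 0, A 0 1]
  rw [nk_herm2 A hA] at h1
  rw [Matrix.det_fin_three, h20, h10, h21]
  rw [norm_neg, Complex.norm_conj, Complex.sq_norm, Complex.sq_norm, Complex.normSq_apply,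
    Complex.normSq_apply] at h1
  rw [Complex.sq_norm, Complex.normSq_apply]
  simp only [Complex.add_re, Complex.sub_re, Complex.mul_re, Complex.mul_im, Complex.conj_re,
    Complex.conj_im, Complex.neg_re, Complex.neg_im, h00, h11, h22] at h1 ⊢
  nlinarith

/-- Monotonicity of the determinant of the `{0,2}` block. `B` dominates `A` as a form on the plane
`v 1 = 0`; both are Hermitian and `A` is nonnegative there. -/
theorem block_mono (A B : Matrix (Fin 3) (Fin 3) ℂ) (hA : A.IsHermitian) (hB : B.IsHermitian)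
    (hp : ∀ v : Fin 3 → ℂ, v 1 = 0 → 0 ≤ (hermForm A v).re)
    (hAB : ∀ v : Fin 3 → ℂ, v 1 = 0 → (hermForm A v).re ≤ (hermForm B v).re) :
    (A 0 0).re * (A 2 2).re - ‖A 0 2‖ ^ 2 ≤ (B 0 0).re * (B 2 2).re - ‖B 0 2‖ ^ 2 := by
  have h1 := nk_psd2 (a := (A 0 0).re) (d := (A 2 2).re) (b := A 0 2) (by
    intro x y
    have := hp ![x, 0, y] (by simp)
    rwa [nk_herm2 A hA] at this)
  have h2 := nk_psd2 (a := (B 0 0).re - (A 0 0).re) (d := (B 2 2).re - (A 2 2).re)
    (b := B 0 2 - A 0 2) (by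
    intro x y
    have := hAB ![x, 0, y] (by simp)
    rw [nk_herm2 A hA, nk_herm2 B hB] at this
    have e : ((B 0 2 - A 0 2) * x * conj y).re = (B 0 2 * x * conj y).re
        - (A 0 2 * x * conj y).re := by
      rw [← Complex.sub_re]; congr 1; ring
    rw [e]
    linarith)
  obtain ⟨ha, hd, hb⟩ := h1
  obtain ⟨ha', hd', hb'⟩ := h2
  have h3 : ‖B 0 2‖ ≤ ‖A 0 2‖ + ‖B 0 2 - A 0 2‖ := by
    have := norm_add_le (A 0 2) (B 0 2 - A 0 2)
    simpa using this
  set a := (A 0 0).re
  set d := (A 2 2).re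
  set a' := (B 0 0).re - a with ha'd
  set d' := (B 2 2).re - d with hd'd
  set p := ‖A 0 2‖
  set q := ‖B 0 2 - A 0 2‖
  have hp0 : 0 ≤ p := norm_nonneg _
  have hq0 : 0 ≤ q := norm_nonneg _
  have h4 : 2 * (p * q) ≤ a * d' + a' * d := by
    apply le_of_sq_le_sq _ (by positivity)
    have h5 : p ^ 2 * q ^ 2 ≤ (a * d) * (a' * d') := mul_le_mul hb hb' (by positivity) (by positivity)
    nlinarith [sq_nonneg (a * d' - a' * d)]
  have h5 : ‖B 0 2‖ ^ 2 ≤ (p + q) ^ 2 := pow_le_pow_left₀ (norm_nonneg _) h3 2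
  have e1 : (B 0 0).re = a + a' := by rw [ha'd]; ring
  have e2 : (B 2 2).re = d + d' := by rw [hd'd]; ring
  rw [e1, e2]
  nlinarith

/-- diagonal entries of a nonnegative form are nonnegative -/
theorem diag_nonneg (A : Matrix (Fin 3) (Fin 3) ℂ)
    (hp : ∀ v : Fin 3 → ℂ, 0 ≤ (hermForm A v).re) (j : Fin 3) : 0 ≤ (A j j).re := by
  have h := hp (Pi.single j 1)
  have h2 : hermForm A (Pi.single j 1) = A j j := by
    unfold hermForm
    rw [Finset.sum_eq_single j]
    · rw [Finset.sum_eq_single j]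
      · simp
      · intro k _ hk
        simp [hk]
      · simp
    · intro k _ hk
      apply Finset.sum_eq_zero
      intro l _
      simp [hk]
    · simp
  rwa [h2] at h

end Pool.Agent.NKM
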