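import Mathlib

set_option autoImplicit false

namespace Pool.Agent.NKM

open MeasureTheory Set Metric
open scoped ENNReal NNReal

theorem int_ball (ρ : ℝ) (hρ : 0 ≤ ρ) :
    ∫⁻ w in ball (0 : ℂ) ρ, ENNReal.ofReal (1 / ‖w‖) ≤ ENNReal.ofReal (2 * Real.pi * ρ) := by
  rw [← lintegral_indicator measurableSet_ball, ← Complex.lintegral_comp_polarCoord_symm]
  have h1 : ∀ p ∈ Complex.polarCoord.target, ENNReal.ofReal p.1 •
      (ball (0 : ℂ) ρ).indicator (fun w => ENNReal.ofReal (1 / ‖w‖)) (Complex.polarCoord.symm p) ≤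
      (Ioo (0 : ℝ) ρ ×ˢ Ioo (-Real.pi) Real.pi).indicator (fun _ => (1 : ℝ≥0∞)) p := by
    rintro ⟨r, θ⟩ hp
    rw [Complex.polarCoord_target] at hp
    have hr : 0 < r := hp.1
    have hn : ‖Complex.polarCoord.symm (r, θ)‖ = r := by
      rw [Complex.norm_polarCoord_symm, abs_of_pos hr]
    by_cases hb : Complex.polarCoord.symm (r, θ) ∈ ball (0 : ℂ) ρ
    · rw [indicator_of_mem hb, hn]
      have hr2 : r < ρ := by
        rw [mem_ball_zero_iff, hn] at hb; exact hb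
      rw [indicator_of_mem (show (r, θ) ∈ Ioo (0 : ℝ) ρ ×ˢ Ioo (-Real.pi) Real.pi from
        ⟨⟨hr, hr2⟩, hp.2⟩), smul_eq_mul, ← ENNReal.ofReal_mul hr.le, mul_one_div_cancel hr.ne']
      simp
    · rw [indicator_of_notMem hb, smul_zero]
      exact bot_le
  have hmt : MeasurableSet Complex.polarCoord.target := by
    rw [Complex.polarCoord_target]
    exact measurableSet_Ioi.prod measurableSet_Ioo
  refine (setLIntegral_mono' hmt h1).trans ?_
  refine (setLIntegral_le_lintegral _ _).trans ?_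
  rw [lintegral_indicator (measurableSet_Ioo.prod measurableSet_Ioo), setLIntegral_one,
    Measure.volume_eq_prod, Measure.prod_prod, Real.volume_Ioo, Real.volume_Ioo,
    ← ENNReal.ofReal_mul (by linarith)]
  apply ENNReal.ofReal_le_ofReal
  ring_nf
  exact le_rfl

/-- packing: points that are `2d`-separated and satisfy `d ≤ |υ| ≤ R` have `∑ 1/|υ| ≤ C R/d²`. -/
theorem packing : ∃ C : ℝ, 0 < C ∧ ∀ (ι : Type) (s : Finset ι) (υ : ι → ℂ) (d R : ℝ),
    0 < d → d ≤ R → (∀ i ∈ s, ∀ j ∈ s, i ≠ j → 2 * d ≤ ‖υ i - υ j‖) →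
    (∀ i ∈ s, d ≤ ‖υ i‖) → (∀ i ∈ s, ‖υ i‖ ≤ R) →
    ∑ i ∈ s, 1 / ‖υ i‖ ≤ C * R / d ^ 2 := by
  refine ⟨24, by norm_num, ?_⟩
  intro ι s υ d R hd hdR hsep hlow hup
  have hR : 0 < R := lt_of_lt_of_le hd hdR
  have hdisj : (s : Set ι).PairwiseDisjoint (fun i => ball (υ i) (d / 2)) := by
    intro i hi j hj hij
    apply ball_disjoint_ball
    rw [dist_eq_norm]
    have := hsep i hi j hj hij
    linarith
  have hsub : ⋃ i ∈ s, ball (υ i) (d / 2) ⊆ ball (0 : ℂ) (R + d) := by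
    intro w hw
    obtain ⟨i, hi, hw⟩ := mem_iUnion₂.1 hw
    rw [mem_ball_zero_iff]
    rw [mem_ball, dist_eq_norm] at hw
    have h1 : ‖w‖ ≤ ‖w - υ i‖ + ‖υ i‖ := by
      have := norm_add_le (w - υ i) (υ i)
      rwa [sub_add_cancel] at this
    have := hup i hi
    linarith
  have h1 : ∀ i ∈ s, ENNReal.ofReal (1 / ‖υ i‖ * (Real.pi * (d / 2) ^ 2)) ≤
      ∫⁻ w in ball (υ i) (d / 2), ENNReal.ofReal (3 / 2) * ENNReal.ofReal (1 / ‖w‖) := by
    intro i hi
    have hvi : 0 < ‖υ i‖ := lt_of_lt_of_le hd (hlow i hi)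
    have e1 : ENNReal.ofReal (1 / ‖υ i‖ * (Real.pi * (d / 2) ^ 2)) =
        ∫⁻ _w in ball (υ i) (d / 2), ENNReal.ofReal (1 / ‖υ i‖) := by
      rw [setLIntegral_const, Complex.volume_ball, ENNReal.ofReal_mul (by positivity)]
      congr 1
      rw [mul_comm Real.pi, ENNReal.ofReal_mul (by positivity), ENNReal.ofReal_pow (by positivity)]
      congr 1
      rw [ENNReal.ofReal, Real.toNNReal_of_nonneg Real.pi_pos.le]
      rfl
    rw [e1]
    refine setLIntegral_mono' measurableSet_ball fun w hw => ?_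
    rw [← ENNReal.ofReal_mul (by norm_num)]
    apply ENNReal.ofReal_le_ofReal
    rw [mem_ball, dist_eq_norm] at hw
    have h2 : ‖w‖ ≤ ‖w - υ i‖ + ‖υ i‖ := by
      have := norm_add_le (w - υ i) (υ i)
      rwa [sub_add_cancel] at this
    have h3 : ‖υ i‖ ≤ ‖w - υ i‖ + ‖w‖ := by
      have := norm_sub_le w (w - υ i)
      rw [sub_sub_cancel] at this
      linarith
    have h4 := hlow i hi
    have hw0 : 0 < ‖w‖ := by linarith
    rw [mul_one_div, div_le_div_iff₀ hvi hw0]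
    linarith
  have h2 : ENNReal.ofReal (∑ i ∈ s, 1 / ‖υ i‖ * (Real.pi * (d / 2) ^ 2)) ≤
      ENNReal.ofReal (3 / 2 * (2 * Real.pi * (R + d))) := by
    rw [ENNReal.ofReal_sum_of_nonneg (fun i _ => by positivity)]
    refine (Finset.sum_le_sum h1).trans ?_
    rw [← lintegral_biUnion_finset hdisj (fun i _ => measurableSet_ball)]
    refine (lintegral_mono_set hsub).trans ?_
    rw [lintegral_const_mul' _ _ ENNReal.ofReal_ne_top, ENNReal.ofReal_mul (by norm_num)]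
    gcongr
    exact int_ball (R + d) (by linarith)
  have h3 : ∑ i ∈ s, 1 / ‖υ i‖ * (Real.pi * (d / 2) ^ 2) ≤ 3 / 2 * (2 * Real.pi * (R + d)) :=
    (ENNReal.ofReal_le_ofReal_iff (by positivity)).1 h2
  rw [← Finset.sum_mul] at h3
  have hpi := Real.pi_pos
  rw [le_div_iff₀ (by positivity)]
  have h4 : (∑ i ∈ s, 1 / ‖υ i‖) * (Real.pi * (d / 2) ^ 2) =
      Real.pi / 4 * ((∑ i ∈ s, 1 / ‖υ i‖) * d ^ 2) := by ring
  rw [h4] at h3
  have h5 : Real.pi / 4 * ((∑ i ∈ s, 1 / ‖υ i‖) * d ^ 2) ≤ Real.pi / 4 * (24 * R) := by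
    refine h3.trans ?_
    nlinarith
  exact le_of_mul_le_mul_left h5 (by positivity)

end Pool.Agent.NKM
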