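import Pool.Agent.NKM.SEP
import Pool.Agent.NKM.FR
import Pool.Agent.NKM.OVF
import Pool.Agent.NKM.PK

set_option autoImplicit false
open scoped Manifold ContDiff Topology ComplexConjugate
open MeasureTheory Set

namespace Pool.Agent.NKM

/-! TARGET -/

lemma norm_gr_zpow_neg (m : ℤ) : ‖(gr : ℂ) ^ (-m)‖ = Real.exp (-(m * t0)) := by
  rw [norm_zpow, norm_gr, gr_zpow]; push_cast; ring_nf

lemma norm_gc_zpow_neg (m : ℤ) : ‖(gc : ℂ) ^ (-m)‖ = Real.exp (m * t0) := by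
  rw [norm_zpow, norm_gc, inv_zpow', neg_neg, gr_zpow]

lemma spt_re (τ : ℝ) (j : Lat × ℤ) (p : E3) : (spt τ j p 0).re = (p 0).re + j.2 * t0 := by
  have h := smul_apply_0 (⟨j.1, 0, j.2⟩ : Gam) p
  have : spt τ j p 0 = ((⟨j.1, 0, j.2⟩ : Gam) • p) 0 := by simp [spt, gact]
  rw [this, h]
  simp

/-- bounds of an active sheet -/
lemma active_norms {L Lm δ r τ : ℝ} (hδ : 0 < δ) (hLm : L ≤ Lm) {j : Lat × ℤ} {p : E3}
    (h : 0 < rho L δ (spt τ j p)) (h2 : ‖spt τ j p 2‖ < r) :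
    -Lm < (p 0).re + j.2 * t0 ∧ (p 0).re + j.2 * t0 < Lm + 2 ∧
    ‖(gr : ℂ) ^ (-j.2) * spt τ j p 1‖ ≤ Real.exp (p 0).re * (Real.exp Lm * Real.sqrt ((Lm + 1) / δ)) ∧
    Real.exp (p 0).re * ‖(gc : ℂ) ^ (-j.2) * spt τ j p 2‖ = Real.exp ((p 0).re + j.2 * t0) * ‖spt τ j p 2‖ := by
  obtain ⟨h3, h4, h5, h6⟩ := active_bounds hδ.le h
  rw [spt_re] at h3 h4
  refine ⟨by linarith, by linarith, ?_, ?_⟩
  · rw [norm_mul, norm_gr_zpow_neg]
    have h7 : ‖spt τ j p 1‖ ≤ Real.sqrt ((Lm + 1) / δ) := by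
      apply Real.le_sqrt_of_sq_le
      rw [le_div_iff₀ hδ]
      linarith
    have h8 : Real.exp (-(j.2 * t0)) ≤ Real.exp (p 0).re * Real.exp Lm := by
      rw [← Real.exp_add]
      apply Real.exp_le_exp.mpr
      linarith
    calc Real.exp (-(j.2 * t0)) * ‖spt τ j p 1‖
        ≤ (Real.exp (p 0).re * Real.exp Lm) * Real.sqrt ((Lm + 1) / δ) := by
          apply mul_le_mul h8 h7 (norm_nonneg _) (by positivity)
      _ = _ := by ring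
  · rw [norm_mul, norm_gc_zpow_neg, Real.exp_add]; ring

/-- at most one near sheet, and the far sheets have small total weight -/
theorem far_near (Pn : ℕ) (Lm κh : ℝ) (hLm : 0 ≤ Lm) (hκh : 0 < κh) :
    ∃ pp : ℕ, 0 < pp ∧ ∃ C2 : ℝ, 0 < C2 ∧ ∀ δ r : ℝ, 0 < δ → δ ≤ 1 → 0 < r → r ≤ 1 →
      ∀ L κ : Fin Pn → ℝ, (∀ i, 0 ≤ L i ∧ L i ≤ Lm) → (∀ i, 0 < κ i ∧ κ i ≤ κh * δ) →
      ∀ (p : E3) (J : Finset (Fin Pn × (Lat × ℤ))), ∃ near : Finset (Fin Pn × (Lat × ℤ)),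
        near ⊆ J ∧ near.card ≤ 1 ∧
        (∀ j ∈ J \ near,
          0 < rho (L j.1) δ (spt (((j.1 : ℝ) + 1) / pp) j.2 p) →
          ‖spt (((j.1 : ℝ) + 1) / pp) j.2 p 2‖ < r →
          spt (((j.1 : ℝ) + 1) / pp) j.2 p 2 ≠ 0) ∧
        ∑ j ∈ (J \ near).filter (fun j =>
            0 < rho (L j.1) δ (spt (((j.1 : ℝ) + 1) / pp) j.2 p) ∧
            ‖spt (((j.1 : ℝ) + 1) / pp) j.2 p 2‖ < r),
          κ j.1 / ‖spt (((j.1 : ℝ) + 1) / pp) j.2 p 2‖ ≤ C2 * r := by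
  have ht0 := t0_pos
  set J0 : ℕ := ⌈(2 * Lm + 2) / t0⌉₊ with hJ0
  obtain ⟨pp, hpp, hsep⟩ := separation Pn J0
  obtain ⟨C, hC, hpack⟩ := packing
  have hppR : (0 : ℝ) < pp := by exact_mod_cast hpp
  refine ⟨pp, hpp, κh * Real.exp (Lm + 2) * C * Real.exp (Lm + 2) * (16 * Real.exp Lm ^ 2 * (Lm + 1) * (pp : ℝ) ^ 4),
    by positivity, ?_⟩
  intro δ r hδ hδ1 hr hr1 L κ hL hκ p J
  set X : ℝ := Real.exp Lm * Real.sqrt ((Lm + 1) / δ) with hX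
  have hXpos : 0 < X := by rw [hX]; positivity
  have hX2 : X ^ 2 = Real.exp Lm ^ 2 * ((Lm + 1) / δ) := by
    rw [hX, mul_pow, Real.sq_sqrt (by positivity)]
  set d : ℝ := 1 / (4 * X * (pp : ℝ) ^ 2) with hd
  have hdpos : 0 < d := by rw [hd]; positivity
  set s : ℝ := (p 0).re with hs
  set υ : Fin Pn × (Lat × ℤ) → ℂ := fun j => (Real.exp s : ℂ) *
    ((gc : ℂ) ^ (-j.2.2) * spt (((j.1 : ℝ) + 1) / pp) j.2 p 2) with hυ
  have hυn : ∀ j, ‖υ j‖ = Real.exp s * ‖(gc : ℂ) ^ (-j.2.2) * spt (((j.1 : ℝ) + 1) / pp) j.2 p 2‖ := by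
    intro j
    simp only [hυ]
    rw [norm_mul, Complex.norm_real, Real.norm_eq_abs, abs_of_pos (Real.exp_pos s)]
  have hυd : ∀ j k, ‖υ j - υ k‖ = Real.exp s * ‖(gc : ℂ) ^ (-j.2.2) * spt (((j.1 : ℝ) + 1) / pp) j.2 p 2
      - (gc : ℂ) ^ (-k.2.2) * spt (((k.1 : ℝ) + 1) / pp) k.2 p 2‖ := by
    intro j k
    simp only [hυ]
    rw [← mul_sub, norm_mul, Complex.norm_real, Real.norm_eq_abs, abs_of_pos (Real.exp_pos s)]
  -- separation of active sheets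
  have hsepa : ∀ j k : Fin Pn × (Lat × ℤ), j ≠ k →
      (0 < rho (L j.1) δ (spt (((j.1 : ℝ) + 1) / pp) j.2 p) ∧ ‖spt (((j.1 : ℝ) + 1) / pp) j.2 p 2‖ < r) →
      (0 < rho (L k.1) δ (spt (((k.1 : ℝ) + 1) / pp) k.2 p) ∧ ‖spt (((k.1 : ℝ) + 1) / pp) k.2 p 2‖ < r) →
      2 * d ≤ ‖υ j - υ k‖ := by
    rintro j k hjk ⟨hj1, hj2⟩ ⟨hk1, hk2⟩
    obtain ⟨a1, a2, a3, a4⟩ := active_norms hδ (hL j.1).2 hj1 hj2
    obtain ⟨b1, b2, b3, b4⟩ := active_norms hδ (hL k.1).2 hk1 hk2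
    have hm : |j.2.2 - k.2.2| ≤ (J0 : ℤ) := by
      have h1 : |((j.2.2 - k.2.2 : ℤ) : ℝ)| * t0 ≤ 2 * Lm + 2 := by
        have h0 : |((j.2.2 - k.2.2 : ℤ) : ℝ)| * t0 = |((j.2.2 - k.2.2 : ℤ) : ℝ) * t0| := by
          rw [abs_mul, abs_of_pos ht0]
        rw [h0, abs_le]
        push_cast
        constructor <;> linarith
      have h2 : |((j.2.2 - k.2.2 : ℤ) : ℝ)| ≤ (2 * Lm + 2) / t0 := by
        rwa [le_div_iff₀ ht0]
      have h3 : |((j.2.2 - k.2.2 : ℤ) : ℝ)| ≤ (J0 : ℝ) := h2.trans (Nat.le_ceil _)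
      have h4 : ((|j.2.2 - k.2.2| : ℤ) : ℝ) ≤ ((J0 : ℤ) : ℝ) := by
        push_cast at h3 ⊢
        exact h3
      exact_mod_cast h4
    have hse := hsep j.1 k.1 j.2 k.2 (by
      intro h; apply hjk; exact Prod.ext (congrArg Prod.fst h) (congrArg Prod.snd h)) hm p
    rw [hυd]
    set A := ‖(gr : ℂ) ^ (-j.2.2) * spt (((j.1 : ℝ) + 1) / pp) j.2 p 1 -
          (gr : ℂ) ^ (-k.2.2) * spt (((k.1 : ℝ) + 1) / pp) k.2 p 1‖ with hA
    set B := ‖(gc : ℂ) ^ (-j.2.2) * spt (((j.1 : ℝ) + 1) / pp) j.2 p 2 -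
          (gc : ℂ) ^ (-k.2.2) * spt (((k.1 : ℝ) + 1) / pp) k.2 p 2‖ with hB
    have hAle : A ≤ 2 * (Real.exp s * X) := by
      calc A ≤ _ + _ := norm_sub_le _ _
        _ ≤ Real.exp s * X + Real.exp s * X := add_le_add a3 b3
        _ = _ := by ring
    have hB0 : 0 ≤ B := norm_nonneg _
    have h1 : 1 / (pp : ℝ) ^ 2 ≤ 2 * (Real.exp s * X) * B := hse.trans (mul_le_mul_of_nonneg_right hAle hB0)
    have h2 : 2 * d = 1 / (pp : ℝ) ^ 2 / (2 * X) := by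
      rw [hd]; field_simp; norm_num
    rw [h2, div_le_iff₀ (by positivity)]
    linarith
  refine ⟨J.filter (fun j => (0 < rho (L j.1) δ (spt (((j.1 : ℝ) + 1) / pp) j.2 p) ∧
      ‖spt (((j.1 : ℝ) + 1) / pp) j.2 p 2‖ < r) ∧ ‖υ j‖ < d), Finset.filter_subset _ _, ?_, ?_, ?_⟩
  · rw [Finset.card_le_one]
    intro j hj k hk
    by_contra hne
    have hj' := (Finset.mem_filter.mp hj).2
    have hk' := (Finset.mem_filter.mp hk).2
    have h1 := hsepa j k hne hj'.1 hk'.1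
    have h2 := norm_sub_le (υ j) (υ k)
    linarith [hj'.2, hk'.2]
  · intro j hj hj1 hj2 h0
    have hj' := Finset.mem_sdiff.mp hj
    apply hj'.2
    refine Finset.mem_filter.mpr ⟨hj'.1, ⟨hj1, hj2⟩, ?_⟩
    rw [hυn, h0, mul_zero, norm_zero, mul_zero]
    exact hdpos
  · set F := (J \ J.filter (fun j => (0 < rho (L j.1) δ (spt (((j.1 : ℝ) + 1) / pp) j.2 p) ∧
      ‖spt (((j.1 : ℝ) + 1) / pp) j.2 p 2‖ < r) ∧ ‖υ j‖ < d)).filter (fun j =>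
            0 < rho (L j.1) δ (spt (((j.1 : ℝ) + 1) / pp) j.2 p) ∧
            ‖spt (((j.1 : ℝ) + 1) / pp) j.2 p 2‖ < r) with hF
    have hFa : ∀ j ∈ F, (0 < rho (L j.1) δ (spt (((j.1 : ℝ) + 1) / pp) j.2 p) ∧
            ‖spt (((j.1 : ℝ) + 1) / pp) j.2 p 2‖ < r) ∧ d ≤ ‖υ j‖ := by
      intro j hj
      have h1 := Finset.mem_filter.mp hj
      have h2 := Finset.mem_sdiff.mp h1.1
      refine ⟨h1.2, ?_⟩
      by_contra hlt
      push Not at hlt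
      exact h2.2 (Finset.mem_filter.mpr ⟨h2.1, h1.2, hlt⟩)
    have hFn : ∀ j ∈ F, ‖υ j‖ = Real.exp (s + j.2.2 * t0) * ‖spt (((j.1 : ℝ) + 1) / pp) j.2 p 2‖ ∧
        s + j.2.2 * t0 < Lm + 2 := by
      intro j hj
      obtain ⟨⟨h1, h2⟩, h3⟩ := hFa j hj
      obtain ⟨a1, a2, a3, a4⟩ := active_norms hδ (hL j.1).2 h1 h2
      exact ⟨by rw [hυn, a4], a2⟩
    have hFR : ∀ j ∈ F, ‖υ j‖ ≤ Real.exp (Lm + 2) * r := by
      intro j hj
      rw [(hFn j hj).1]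
      exact mul_le_mul (Real.exp_le_exp.mpr (hFn j hj).2.le) (hFa j hj).1.2.le (norm_nonneg _) (Real.exp_pos _).le
    rcases F.eq_empty_or_nonempty with hFe | ⟨j0, hj0⟩
    · rw [hFe, Finset.sum_empty]; positivity
    have hdR : d ≤ Real.exp (Lm + 2) * r := (hFa j0 hj0).2.trans (hFR j0 hj0)
    have hp := hpack _ F υ d (Real.exp (Lm + 2) * r) hdpos hdR
      (fun j hj k hk hjk => hsepa j k hjk (hFa j hj).1 (hFa k hk).1) (fun j hj => (hFa j hj).2) hFR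
    have hterm : ∀ j ∈ F, κ j.1 / ‖spt (((j.1 : ℝ) + 1) / pp) j.2 p 2‖ ≤
        κh * δ * Real.exp (Lm + 2) * (1 / ‖υ j‖) := by
      intro j hj
      have h1 := (hFa j hj).2
      have h2 : 0 < ‖υ j‖ := hdpos.trans_le h1
      have h3 := (hFn j hj).1
      have h4 : 0 < ‖spt (((j.1 : ℝ) + 1) / pp) j.2 p 2‖ := by
        rw [h3] at h2
        exact pos_of_mul_pos_right h2 (Real.exp_pos _).le
      have h5 : κ j.1 / ‖spt (((j.1 : ℝ) + 1) / pp) j.2 p 2‖ = κ j.1 * Real.exp (s + j.2.2 * t0) * (1 / ‖υ j‖) := by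
        rw [h3]
        have := Real.exp_pos (s + j.2.2 * t0)
        field_simp
      rw [h5]
      apply mul_le_mul_of_nonneg_right _ (by positivity)
      exact mul_le_mul (hκ j.1).2 (Real.exp_le_exp.mpr (hFn j hj).2.le) (Real.exp_pos _).le (by positivity)
    calc ∑ j ∈ F, κ j.1 / ‖spt (((j.1 : ℝ) + 1) / pp) j.2 p 2‖
        ≤ ∑ j ∈ F, κh * δ * Real.exp (Lm + 2) * (1 / ‖υ j‖) := Finset.sum_le_sum hterm
      _ = κh * δ * Real.exp (Lm + 2) * ∑ j ∈ F, (1 / ‖υ j‖) := by rw [Finset.mul_sum]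
      _ ≤ κh * δ * Real.exp (Lm + 2) * (C * (Real.exp (Lm + 2) * r) / d ^ 2) := by
          apply mul_le_mul_of_nonneg_left hp (by positivity)
      _ = _ := by
          have hd2 : 1 / d ^ 2 = 16 * X ^ 2 * (pp : ℝ) ^ 4 := by
            rw [hd]; field_simp; norm_num
          have : κh * δ * Real.exp (Lm + 2) * (C * (Real.exp (Lm + 2) * r) / d ^ 2)
              = κh * δ * Real.exp (Lm + 2) * (C * (Real.exp (Lm + 2) * r)) * (1 / d ^ 2) := by ring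
          rw [this, hd2, hX2]
          field_simp

end Pool.Agent.NKM
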