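import Pool.Agent.NKM.Glue3

set_option autoImplicit false
open scoped Manifold ContDiff Topology ComplexConjugate
open MeasureTheory Set

namespace Pool.Agent.NKM

lemma cube_le_exp {L : ℝ} (hL : 0 ≤ L) :
    Real.exp (-2 * L) * (L + 1) ^ 3 ≤ 17 * Real.exp (-L) := by
  have h1 : (L + 1) ^ 3 / 6 ≤ Real.exp (L + 1) := by
    have := Real.pow_div_factorial_le_exp (L + 1) (by linarith) 3
    norm_num [Nat.factorial] at this
    linarith
  have h2 : Real.exp (L + 1) = Real.exp L * Real.exp 1 := Real.exp_add _ _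
  have h3 : Real.exp 1 < 2.7182818286 := Real.exp_one_lt_d9
  have h4 := Real.exp_pos L
  have h5 : (L + 1) ^ 3 ≤ 17 * Real.exp L := by
    rw [h2] at h1
    nlinarith
  have h6 : Real.exp (-2 * L) * Real.exp L = Real.exp (-L) := by
    rw [← Real.exp_add]; congr 1; ring
  calc Real.exp (-2 * L) * (L + 1) ^ 3 ≤ Real.exp (-2 * L) * (17 * Real.exp L) := by
        gcongr
    _ = 17 * Real.exp (-L) := by rw [← h6]; ring

/-- bound for the mass of one family -/
lemma family_bound {ε ell Cs : ℝ} {Pn q : ℕ} (hε : 0 < ε) (hε' : ε ≤ 1 / 4) (hell : 0 ≤ ell)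
    (hCs1 : 1 ≤ Cs) (i : Fin Pn) :
    (2 * Real.pi ^ 2 * kap ε ell Pn q i / dl q) *
        ((ε + 4 * ε) * (Real.exp (2 * Lv ell Pn i) + (Lv ell Pn i + 1) ^ 2) +
          (2 + 2 * Cs * (Lv ell Pn i + 1)) * (Lv ell Pn i + 1) ^ 2) ≤
      160 / Pn * (90 * ε + 34 * (1 + Cs) * Real.exp (-ell)) := by
  set L := Lv ell Pn i with hL
  have hL0 : 0 ≤ L := Lv_nonneg hell i
  have hLe : ell ≤ L := Lv_ge ell Pn i
  have hPn : 0 < (Pn : ℝ) := by
    have : 0 < Pn := i.pos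
    exact_mod_cast this
  have hd := dl_pos q
  have hθ : 0 < 1 - 2 * ε := by linarith
  have hpi := Real.pi_pos
  have e1 : 2 * Real.pi ^ 2 * kap ε ell Pn q i / dl q =
      Amp ε Pn * Real.exp (-2 * L) * 5 / (1 - 2 * ε) := by
    unfold kap
    rw [← hL]
    field_simp
  have hAmp : 0 < Amp ε Pn := Amp_pos hε hε' i.pos
  have hAmp2 : Amp ε Pn ≤ 16 / Pn := by
    unfold Amp
    have hI := (If_bounds hε hε').1
    have hI0 : 0 < If ε := by linarith
    have ht := t0_pos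
    have ht1 := t0_le_one
    have h1 : t0 / Pn * (1 - 3 * ε) / If ε ≤ t0 / Pn * 1 / (1 / 16) := by
      gcongr
      linarith
    refine h1.trans ?_
    have h2 : t0 / Pn * 1 / (1 / 16) = 16 * t0 / Pn := by ring
    rw [h2]
    gcongr
    linarith
  have hexp := Real.exp_pos (-2 * L)
  have hc3 := cube_le_exp hL0
  have hcL : Real.exp (-L) ≤ Real.exp (-ell) := by gcongr
  have hone : Real.exp (-2 * L) * Real.exp (2 * L) = 1 := by
    rw [← Real.exp_add]; simp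
  have hsq : Real.exp (-2 * L) * (L + 1) ^ 2 ≤ 17 := by
    have h1 : Real.exp (-2 * L) * (L + 1) ^ 2 ≤ Real.exp (-2 * L) * (L + 1) ^ 3 := by
      gcongr
      · linarith
      · norm_num
    have h2 : Real.exp (-L) ≤ 1 := by
      rw [Real.exp_le_one_iff]; linarith
    linarith
  have hcub : Real.exp (-2 * L) * ((2 + 2 * Cs * (L + 1)) * (L + 1) ^ 2) ≤
      34 * (1 + Cs) * Real.exp (-ell) := by
    have h1 : (2 + 2 * Cs * (L + 1)) * (L + 1) ^ 2 ≤ (2 + 2 * Cs) * (L + 1) ^ 3 := by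
      have : (2 + 2 * Cs * (L + 1)) ≤ (2 + 2 * Cs) * (L + 1) := by nlinarith
      calc (2 + 2 * Cs * (L + 1)) * (L + 1) ^ 2 ≤ ((2 + 2 * Cs) * (L + 1)) * (L + 1) ^ 2 := by
            gcongr
        _ = _ := by ring
    calc Real.exp (-2 * L) * ((2 + 2 * Cs * (L + 1)) * (L + 1) ^ 2) ≤
        Real.exp (-2 * L) * ((2 + 2 * Cs) * (L + 1) ^ 3) := by gcongr
      _ = (2 + 2 * Cs) * (Real.exp (-2 * L) * (L + 1) ^ 3) := by ring
      _ ≤ (2 + 2 * Cs) * (17 * Real.exp (-ell)) := by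
        apply mul_le_mul_of_nonneg_left _ (by linarith)
        linarith
      _ = _ := by ring
  rw [e1]
  have hinner : Real.exp (-2 * L) * ((ε + 4 * ε) * (Real.exp (2 * L) + (L + 1) ^ 2) +
          (2 + 2 * Cs * (L + 1)) * (L + 1) ^ 2) ≤
      90 * ε + 34 * (1 + Cs) * Real.exp (-ell) := by
    have h1 : Real.exp (-2 * L) * ((ε + 4 * ε) * (Real.exp (2 * L) + (L + 1) ^ 2) +
          (2 + 2 * Cs * (L + 1)) * (L + 1) ^ 2) =
        5 * ε * (Real.exp (-2 * L) * Real.exp (2 * L) + Real.exp (-2 * L) * (L + 1) ^ 2) +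
          Real.exp (-2 * L) * ((2 + 2 * Cs * (L + 1)) * (L + 1) ^ 2) := by ring
    rw [h1, hone]
    nlinarith
  have hin0 : 0 ≤ Real.exp (-2 * L) * ((ε + 4 * ε) * (Real.exp (2 * L) + (L + 1) ^ 2) +
          (2 + 2 * Cs * (L + 1)) * (L + 1) ^ 2) := by
    have := Real.exp_pos (2 * L)
    positivity
  have hfac : Amp ε Pn * 5 / (1 - 2 * ε) ≤ 160 / Pn := by
    rw [div_le_div_iff₀ hθ hPn]
    have h2 : Amp ε Pn * Pn ≤ 16 := by
      rwa [le_div_iff₀ hPn] at hAmp2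
    nlinarith
  calc Amp ε Pn * Real.exp (-2 * L) * 5 / (1 - 2 * ε) *
        ((ε + 4 * ε) * (Real.exp (2 * L) + (L + 1) ^ 2) +
          (2 + 2 * Cs * (L + 1)) * (L + 1) ^ 2)
      = (Amp ε Pn * 5 / (1 - 2 * ε)) * (Real.exp (-2 * L) * ((ε + 4 * ε) *
          (Real.exp (2 * L) + (L + 1) ^ 2) + (2 + 2 * Cs * (L + 1)) * (L + 1) ^ 2)) := by ring
    _ ≤ 160 / Pn * (90 * ε + 34 * (1 + Cs) * Real.exp (-ell)) := by
      gcongr

/-- the analytic core -/
theorem analytic_core (η : ℝ) (hη : 0 < η) : ∃ φ : E3 → ℝ, ContDiff ℝ ∞ φ ∧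
      (∀ (g : Gam) (p : E3), φ (g • p) = φ p) ∧
      (∀ p v : E3, 0 ≤ (hermForm (hmat p + leviMatrix φ p) v).re) ∧
      ∫⁻ p in Dom, ENNReal.ofReal ((hmat p + leviMatrix φ p).det.re) ≤ ENNReal.ofReal η := by
  obtain ⟨Cs, hCs1, hCs⟩ := exists_dsg_bound
  obtain ⟨l0, hl0, hbg⟩ := bg1
  set V : ℝ := (volume Dom).toReal with hV
  have hV0 : 0 ≤ V := ENNReal.toReal_nonneg
  set C0 : ℝ := 12 * V * (3 + 6 * Cs) + 320 * (124 + 34 * Cs) with hC0
  have hC0pos : 0 < C0 := by positivity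
  obtain ⟨l1, hl1⟩ := exists_nat_ge (C0 / η)
  set l : ℕ := max l0 l1 with hl
  have hll0 : l0 ≤ l := le_max_left _ _
  have hll1 : (l1 : ℝ) ≤ l := by exact_mod_cast le_max_right _ _
  have hl2 : (2 : ℝ) ≤ l := by exact_mod_cast hl0.trans hll0
  have hlpos : (0 : ℝ) < l := by linarith
  obtain ⟨P0, hP0⟩ := hbg l hll0
  set Pn : ℕ := P0 + 1 with hPn
  set ε : ℝ := 1 / (l : ℝ) ^ 2 with hεdef
  have hε : 0 < ε := by positivity
  have hε' : ε ≤ 1 / 4 := by
    rw [hεdef]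
    apply one_div_le_one_div_of_le (by norm_num)
    nlinarith
  have hb := hP0 Pn (Nat.le_succ _)
  have hθ : 0 < 1 - 2 * ε := by linarith
  have hAmp : 0 < Amp ε Pn := Amp_pos hε hε' (Nat.succ_pos _)
  have hpi := Real.pi_pos
  set κh : ℝ := Amp ε Pn * 5 / (2 * Real.pi ^ 2 * (1 - 2 * ε)) with hκh
  have hκhpos : 0 < κh := by positivity
  have hkap : ∀ (q : ℕ) (i : Fin Pn), kap ε l Pn q i ≤ κh * dl q := by
    intro q i
    have hd := dl_pos q
    have h1 : Real.exp (-2 * Lv l Pn i) ≤ 1 := by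
      rw [Real.exp_le_one_iff]
      have := Lv_nonneg (ell := (l : ℝ)) hlpos.le i
      linarith
    unfold kap
    rw [hκh]
    calc Amp ε Pn * Real.exp (-2 * Lv l Pn i) * (5 * dl q) / (2 * Real.pi ^ 2 * (1 - 2 * ε))
        ≤ Amp ε Pn * 1 * (5 * dl q) / (2 * Real.pi ^ 2 * (1 - 2 * ε)) := by gcongr
      _ = _ := by ring
  obtain ⟨pp, hpp, C2, hC2, hfn⟩ := far_near Pn ((l : ℝ) + 1) κh (by linarith) hκhpos
  have hCF : 0 < CF ε (l + 1) Cs := by
    unfold CF; positivity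
  set r : ℝ := min 1 (ε / (CF ε (l + 1) Cs * C2)) with hr
  have hrpos : 0 < r := lt_min one_pos (by positivity)
  have hr1 : r ≤ 1 := min_le_left _ _
  have hC2r : CF ε (l + 1) Cs * (C2 * r) ≤ ε := by
    have h1 : r ≤ ε / (CF ε (l + 1) Cs * C2) := min_le_right _ _
    rw [le_div_iff₀ (by positivity)] at h1
    linarith
  obtain ⟨q0, hq0⟩ := bg3 (pp := pp) hε hε' hlpos.le (Nat.succ_pos P0) hrpos hb
  have hev : ∀ᶠ q in Filter.atTop,
      4 * (1 + 1 / ε) * dl q * ((l : ℝ) + 1 + 1) * Real.exp (2 * ((l : ℝ) + 1 + 2)) ≤ ε := by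
    have h1 : Filter.Tendsto (fun q : ℕ => 4 * (1 + 1 / ε) * dl q * ((l : ℝ) + 1 + 1) *
        Real.exp (2 * ((l : ℝ) + 1 + 2))) Filter.atTop (𝓝 (4 * (1 + 1 / ε) * 0 *
          ((l : ℝ) + 1 + 1) * Real.exp (2 * ((l : ℝ) + 1 + 2)))) :=
      ((dl_tendsto.const_mul _).mul_const _).mul_const _
    rw [mul_zero, zero_mul, zero_mul] at h1
    exact (h1.eventually (gt_mem_nhds hε)).mono fun q hq => hq.le
  obtain ⟨q1, hq1⟩ := Filter.eventually_atTop.1 hev
  set q : ℕ := max q0 q1 with hq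
  have hc := hq1 q (le_max_right _ _)
  have hB := hq0 q (le_max_left _ _)
  have hfar := hfn (dl q) r (dl_pos q) (dl_le_one q) hrpos hr1 (Lv l Pn) (kap ε l Pn q)
    (fun i => ⟨Lv_nonneg hlpos.le i, Lv_le i⟩)
    (fun i => ⟨kap_pos hε hε' i.pos i, hkap q i⟩)
  have hpw := phi_pointwise (pp := pp) hε hε' hlpos.le hrpos hr1 hCs hCs1 hc hfar hC2r hB
  refine ⟨phi ε l r Pn pp q, phi_contDiff hε hε' hlpos.le hrpos, fun g p => phi_inv g p,
    fun p v => (hpw p).1 v, ?_⟩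
  have hA : 0 ≤ 12 * ε * (3 + 2 * Cs * ((l : ℝ) + 1 + 1)) := by positivity
  have hmass := phi_mass (pp := pp) hε hε' hlpos.le hrpos hCs hCs1 hA
    (fun p => (hmat p + leviMatrix (phi ε l r Pn pp q) p).det.re) (fun p => (hpw p).2)
  refine hmass.trans ?_
  have hVfin : volume Dom = ENNReal.ofReal V := by
    rw [hV, ENNReal.ofReal_toReal vol_dom_lt_top.ne]
  set B : ℝ := 160 / Pn * (90 * ε + 34 * (1 + Cs) * Real.exp (-(l : ℝ))) with hBdef
  have hB0 : 0 ≤ B := by positivity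
  have hPnpos : (0 : ℝ) < Pn := by
    have : 0 < Pn := Nat.succ_pos P0
    exact_mod_cast this
  calc _ ≤ ENNReal.ofReal (12 * ε * (3 + 2 * Cs * ((l : ℝ) + 1 + 1))) * ENNReal.ofReal V +
        2 * ∑ i : Fin Pn, ENNReal.ofReal B := by
        rw [hVfin]
        gcongr with i _
        exact family_bound hε hε' hlpos.le hCs1 i
    _ = ENNReal.ofReal (12 * ε * (3 + 2 * Cs * ((l : ℝ) + 1 + 1)) * V + 2 * (Pn * B)) := by
        rw [ENNReal.ofReal_add (by positivity) (by positivity), ENNReal.ofReal_mul hA,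
          ENNReal.ofReal_mul (p := (2 : ℝ)) (by norm_num), ENNReal.ofReal_mul hPnpos.le]
        congr 1
        simp
    _ ≤ ENNReal.ofReal η := by
        apply ENNReal.ofReal_le_ofReal
        have hexp : Real.exp (-(l : ℝ)) ≤ 1 / l := by
          rw [Real.exp_neg, ← one_div]
          apply one_div_le_one_div_of_le hlpos
          linarith [Real.add_one_le_exp (l : ℝ)]
        have h1 : (Pn : ℝ) * B = 160 * (90 * ε + 34 * (1 + Cs) * Real.exp (-(l : ℝ))) := by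
          rw [hBdef]; field_simp
        have hεl : ε ≤ 1 / l := by
          rw [hεdef]
          apply one_div_le_one_div_of_le hlpos
          nlinarith
        have h2 : (Pn : ℝ) * B ≤ 160 * (124 + 34 * Cs) / l := by
          rw [h1]
          have : 90 * ε + 34 * (1 + Cs) * Real.exp (-(l : ℝ)) ≤
              90 * (1 / l) + 34 * (1 + Cs) * (1 / l) := by gcongr
          calc _ ≤ 160 * (90 * (1 / (l : ℝ)) + 34 * (1 + Cs) * (1 / l)) := by linarith
            _ = _ := by ring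
        have h3 : 12 * ε * (3 + 2 * Cs * ((l : ℝ) + 1 + 1)) * V ≤
            12 * V * (3 + 6 * Cs) / l := by
          have h4 : ε * (3 + 2 * Cs * ((l : ℝ) + 1 + 1)) ≤ (3 + 6 * Cs) / l := by
            rw [hεdef, div_mul_eq_mul_div, one_mul, div_le_div_iff₀ (by positivity) hlpos]
            have h5 : 3 + 2 * Cs * ((l : ℝ) + 1 + 1) ≤ (3 + 6 * Cs) * l := by nlinarith
            nlinarith
          calc 12 * ε * (3 + 2 * Cs * ((l : ℝ) + 1 + 1)) * V
              = 12 * V * (ε * (3 + 2 * Cs * ((l : ℝ) + 1 + 1))) := by ring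
            _ ≤ 12 * V * ((3 + 6 * Cs) / l) := by gcongr
            _ = _ := by ring
        have h6 : C0 / l ≤ η := by
          rw [div_le_iff₀ hlpos]
          have : C0 / η ≤ l := hl1.trans hll1
          rw [div_le_iff₀ hη] at this
          linarith
        calc _ ≤ 12 * V * (3 + 6 * Cs) / l + 2 * (160 * (124 + 34 * Cs) / l) := by linarith
          _ = C0 / l := by rw [hC0]; ring
          _ ≤ η := h6

end Pool.Agent.NKM
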