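import Mathlib

set_option autoImplicit false
set_option linter.unusedSectionVars false
set_option linter.unusedVariables false
open scoped Manifold ContDiff Topology
open Set Real

namespace Pool.Agent.NKM

/-- the model space `ℂ³` with coordinates `(z, x, y)` -/
abbrev E3 := Fin 3 → ℂ

/-- golden ratio -/
noncomputable def gr : ℝ := Real.goldenRatio
/-- conjugate golden ratio -/
noncomputable def gc : ℝ := Real.goldenConj

lemma gr_sq : gr ^ 2 = gr + 1 := Real.goldenRatio_sq
lemma gc_sq : gc ^ 2 = gc + 1 := Real.goldenConj_sq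
lemma gr_add_gc : gr + gc = 1 := Real.goldenRatio_add_goldenConj
lemma gr_mul_gc : gr * gc = -1 := Real.goldenRatio_mul_goldenConj
lemma one_lt_gr : 1 < gr := Real.one_lt_goldenRatio
lemma gr_lt_two : gr < 2 := Real.goldenRatio_lt_two
lemma gc_neg : gc < 0 := Real.goldenConj_neg

/-- the translation length -/
noncomputable def t0 : ℝ := Real.log gr

/-- The lattice `ℤ[φ] + i ℤ[φ]`; `((a,b),(c,d))` stands for `(a + bφ) + i (c + dφ)`. -/
abbrev Lat := (ℤ × ℤ) × (ℤ × ℤ)

/-- multiplication by the golden ratio on `ℤ[φ]`, with the pair `(a,b)` standing for `a + bφ` -/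
def mulPhi : AddAut (ℤ × ℤ) where
  toFun n := (n.2, n.1 + n.2)
  invFun n := (n.2 - n.1, n.1)
  left_inv n := by ext <;> simp
  right_inv n := by ext <;> simp
  map_add' n m := by ext <;> simp; ring

@[simp] lemma mulPhi_apply (n : ℤ × ℤ) : mulPhi n = (n.2, n.1 + n.2) := rfl

/-- first real embedding -/
noncomputable def e1 : (ℤ × ℤ) →+ ℝ where
  toFun n := n.1 + n.2 * gr
  map_zero' := by simp
  map_add' n m := by push_cast [Prod.fst_add, Prod.snd_add]; ring

/-- second real embedding -/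
noncomputable def e2 : (ℤ × ℤ) →+ ℝ where
  toFun n := n.1 + n.2 * gc
  map_zero' := by simp
  map_add' n m := by push_cast [Prod.fst_add, Prod.snd_add]; ring

lemma e1_apply (n : ℤ × ℤ) : e1 n = n.1 + n.2 * gr := rfl
lemma e2_apply (n : ℤ × ℤ) : e2 n = n.1 + n.2 * gc := rfl

lemma e1_mulPhi (n : ℤ × ℤ) : e1 (mulPhi n) = gr * e1 n := by
  have h := gr_sq
  simp only [e1_apply, mulPhi_apply]
  push_cast
  linear_combination (-(n.2 : ℝ)) * h

lemma e2_mulPhi (n : ℤ × ℤ) : e2 (mulPhi n) = gc * e2 n := by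
  have h := gc_sq
  simp only [e2_apply, mulPhi_apply]
  push_cast
  linear_combination (-(n.2 : ℝ)) * h

lemma gr_pos : 0 < gr := Real.goldenRatio_pos
lemma gr_ne : gr ≠ 0 := Real.goldenRatio_ne_zero
lemma gc_ne : gc ≠ 0 := Real.goldenConj_ne_zero
lemma gr_ne' : (gr : ℂ) ≠ 0 := by exact_mod_cast gr_ne
lemma gc_ne' : (gc : ℂ) ≠ 0 := by exact_mod_cast gc_ne

/-- multiplication by the golden ratio on `Lat` -/
def Phi : AddAut Lat where
  toFun n := (mulPhi n.1, mulPhi n.2)
  invFun n := (AddEquiv.symm mulPhi n.1, AddEquiv.symm mulPhi n.2)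
  left_inv n := Prod.ext (AddEquiv.symm_apply_apply mulPhi n.1)
    (AddEquiv.symm_apply_apply mulPhi n.2)
  right_inv n := Prod.ext (AddEquiv.apply_symm_apply mulPhi n.1)
    (AddEquiv.apply_symm_apply mulPhi n.2)
  map_add' n m := Prod.ext (map_add mulPhi n.1 m.1) (map_add mulPhi n.2 m.2)

/-- first complex embedding of the lattice -/
noncomputable def E1 : Lat →+ ℂ where
  toFun n := (e1 n.1 : ℂ) + (e1 n.2 : ℂ) * Complex.I
  map_zero' := by simp
  map_add' n m := by simp [map_add]; ring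

/-- second complex embedding of the lattice -/
noncomputable def E2 : Lat →+ ℂ where
  toFun n := (e2 n.1 : ℂ) + (e2 n.2 : ℂ) * Complex.I
  map_zero' := by simp
  map_add' n m := by simp [map_add]; ring

lemma E1_apply (n : Lat) : E1 n = (e1 n.1 : ℂ) + (e1 n.2 : ℂ) * Complex.I := rfl
lemma E2_apply (n : Lat) : E2 n = (e2 n.1 : ℂ) + (e2 n.2 : ℂ) * Complex.I := rfl

lemma E1_Phi (n : Lat) : E1 (Phi n) = gr * E1 n := by
  have h : Phi n = (mulPhi n.1, mulPhi n.2) := rfl
  rw [h, E1_apply, E1_apply]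
  simp only [e1_mulPhi]
  push_cast; ring

lemma E2_Phi (n : Lat) : E2 (Phi n) = gc * E2 n := by
  have h : Phi n = (mulPhi n.1, mulPhi n.2) := rfl
  rw [h, E2_apply, E2_apply]
  simp only [e2_mulPhi]
  push_cast; ring

lemma E1_zpow (m : ℤ) (n : Lat) : E1 ((m • Phi : AddAut Lat) n) = (gr : ℂ) ^ m * E1 n := by
  induction m using Int.induction_on generalizing n with
  | zero => simp
  | succ k ih =>
    rw [add_zsmul, one_zsmul, AddAut.add_apply, ih, E1_Phi, zpow_add_one₀ gr_ne']; ring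
  | pred k ih =>
    rw [zpow_sub_one₀ gr_ne', sub_zsmul, one_zsmul, AddAut.add_apply, ih]
    have h := E1_Phi ((-Phi : AddAut Lat) n)
    rw [AddAut.apply_neg_self] at h
    rw [h, mul_assoc, inv_mul_cancel_left₀ gr_ne']

lemma E2_zpow (m : ℤ) (n : Lat) : E2 ((m • Phi : AddAut Lat) n) = (gc : ℂ) ^ m * E2 n := by
  induction m using Int.induction_on generalizing n with
  | zero => simp
  | succ k ih =>
    rw [add_zsmul, one_zsmul, AddAut.add_apply, ih, E2_Phi, zpow_add_one₀ gc_ne']; ring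
  | pred k ih =>
    rw [zpow_sub_one₀ gc_ne', sub_zsmul, one_zsmul, AddAut.add_apply, ih]
    have h := E2_Phi ((-Phi : AddAut Lat) n)
    rw [AddAut.apply_neg_self] at h
    rw [h, mul_assoc, inv_mul_cancel_left₀ gc_ne']

lemma e1_injective : Function.Injective e1 := by
  rw [injective_iff_map_eq_zero]
  intro n hn
  have hirr : Irrational gr := Real.goldenRatio_irrational
  rw [e1_apply] at hn
  by_cases h2 : n.2 = 0
  · have : (n.1 : ℝ) = 0 := by simpa [h2] using hn
    ext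
    · simpa using this
    · simpa using h2
  · exfalso
    have h2' : (n.2 : ℝ) ≠ 0 := by exact_mod_cast h2
    apply hirr
    refine ⟨-(n.1 : ℚ) / n.2, ?_⟩
    push_cast
    rw [div_eq_iff h2']
    linarith

lemma e2_injective : Function.Injective e2 := by
  rw [injective_iff_map_eq_zero]
  intro n hn
  have hirr : Irrational gc := Real.goldenConj_irrational
  rw [e2_apply] at hn
  by_cases h2 : n.2 = 0
  · have : (n.1 : ℝ) = 0 := by simpa [h2] using hn
    ext
    · simpa using this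
    · simpa using h2
  · exfalso
    have h2' : (n.2 : ℝ) ≠ 0 := by exact_mod_cast h2
    apply hirr
    refine ⟨-(n.1 : ℚ) / n.2, ?_⟩
    push_cast
    rw [div_eq_iff h2']
    linarith

lemma E1_re (n : Lat) : (E1 n).re = e1 n.1 := by simp [E1_apply]
lemma E1_im (n : Lat) : (E1 n).im = e1 n.2 := by simp [E1_apply]
lemma E2_re (n : Lat) : (E2 n).re = e2 n.1 := by simp [E2_apply]
lemma E2_im (n : Lat) : (E2 n).im = e2 n.2 := by simp [E2_apply]

lemma E1_injective : Function.Injective E1 := by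
  intro n m h
  have h1 := congrArg Complex.re h
  have h2 := congrArg Complex.im h
  rw [E1_re, E1_re] at h1
  rw [E1_im, E1_im] at h2
  exact Prod.ext (e1_injective h1) (e1_injective h2)

lemma E2_injective : Function.Injective E2 := by
  intro n m h
  have h1 := congrArg Complex.re h
  have h2 := congrArg Complex.im h
  rw [E2_re, E2_re] at h1
  rw [E2_im, E2_im] at h2
  exact Prod.ext (e2_injective h1) (e2_injective h2)

/-- norm form: `|E1 n| |E2 n| ≥ 1` for `n ≠ 0`. -/
lemma one_le_norm (n : Lat) (hn : n ≠ 0) : 1 ≤ ‖E1 n‖ * ‖E2 n‖ := by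
  have h1 : E1 n ≠ 0 := by
    intro h; exact hn (E1_injective (by rw [h, map_zero]))
  have h2 : E2 n ≠ 0 := by
    intro h; exact hn (E2_injective (by rw [h, map_zero]))
  obtain ⟨⟨a, b⟩, ⟨c, d⟩⟩ := n
  -- product is a Gaussian integer
  have hprod : E1 ((a, b), (c, d)) * E2 ((a, b), (c, d)) =
      (((a ^ 2 + a * b - b ^ 2 - (c ^ 2 + c * d - d ^ 2) : ℤ) : ℝ) : ℂ) +
      (((2 * a * c + a * d + b * c - 2 * b * d : ℤ) : ℝ) : ℂ) * Complex.I := by
    have hs' : gr + gc = 1 := gr_add_gc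
    have hp' : gr * gc = -1 := gr_mul_gc
    apply Complex.ext
    · rw [Complex.mul_re, E1_re, E1_im, E2_re, E2_im, Complex.add_re, Complex.ofReal_re,
        Complex.re_ofReal_mul, Complex.I_re, mul_zero, add_zero]
      simp only [e1_apply, e2_apply]
      push_cast
      linear_combination ((a : ℝ) * b - c * d) * hs' + ((b : ℝ) ^ 2 - d ^ 2) * hp'
    · rw [Complex.mul_im, E1_re, E1_im, E2_re, E2_im, Complex.add_im, Complex.ofReal_im,
        Complex.im_ofReal_mul, Complex.I_im, mul_one, zero_add]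
      simp only [e1_apply, e2_apply]
      push_cast
      linear_combination ((a : ℝ) * d + b * c) * hs' + (2 * (b : ℝ) * d) * hp'
  rw [← norm_mul]
  have hne : E1 ((a, b), (c, d)) * E2 ((a, b), (c, d)) ≠ 0 := mul_ne_zero h1 h2
  rw [hprod] at hne ⊢
  set u : ℤ := a ^ 2 + a * b - b ^ 2 - (c ^ 2 + c * d - d ^ 2) with hu
  set w : ℤ := 2 * a * c + a * d + b * c - 2 * b * d with hw
  have hsq : ‖(((u : ℝ) : ℂ) + ((w : ℝ) : ℂ) * Complex.I)‖ ^ 2 = ((u ^ 2 + w ^ 2 : ℤ) : ℝ) := by
    rw [← Complex.normSq_eq_norm_sq, Complex.normSq_add_mul_I]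
    push_cast; ring
  have hpos : 1 ≤ u ^ 2 + w ^ 2 := by
    by_contra hlt
    push Not at hlt
    have hu2 : 0 ≤ u ^ 2 := sq_nonneg _
    have hw2 : 0 ≤ w ^ 2 := sq_nonneg _
    have hu0 : u = 0 := by
      have : u ^ 2 = 0 := by omega
      exact pow_eq_zero_iff (by norm_num) |>.1 this
    have hw0 : w = 0 := by
      have : w ^ 2 = 0 := by omega
      exact pow_eq_zero_iff (by norm_num) |>.1 this
    apply hne
    rw [hu0, hw0]; simp
  have h3 : (1 : ℝ) ≤ ‖(((u : ℝ) : ℂ) + ((w : ℝ) : ℂ) * Complex.I)‖ ^ 2 := by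
    rw [hsq]; exact_mod_cast hpos
  nlinarith [norm_nonneg (((u : ℝ) : ℂ) + ((w : ℝ) : ℂ) * Complex.I)]

/-- The deck group `(ℤ[φ] + iℤ[φ]) × ℤ ⋊ ℤ`. -/
@[ext] structure Gam where
  /-- lattice translation -/
  n : Lat
  /-- imaginary translation -/
  k : ℤ
  /-- suspension coordinate -/
  m : ℤ

namespace Gam

instance : Mul Gam := ⟨fun g h =>
  ⟨g.n + (g.m • Phi : AddAut Lat) h.n, g.k + h.k, g.m + h.m⟩⟩
instance : One Gam := ⟨⟨0, 0, 0⟩⟩
instance : Inv Gam := ⟨fun g =>
  ⟨-((-g.m) • Phi : AddAut Lat) g.n, -g.k, -g.m⟩⟩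

@[simp] lemma mul_n (g h : Gam) : (g * h).n = g.n + (g.m • Phi : AddAut Lat) h.n := rfl
@[simp] lemma mul_k (g h : Gam) : (g * h).k = g.k + h.k := rfl
@[simp] lemma mul_m (g h : Gam) : (g * h).m = g.m + h.m := rfl
@[simp] lemma one_n : (1 : Gam).n = 0 := rfl
@[simp] lemma one_k : (1 : Gam).k = 0 := rfl
@[simp] lemma one_m : (1 : Gam).m = 0 := rfl
@[simp] lemma inv_n (g : Gam) : (g⁻¹).n = -((-g.m) • Phi : AddAut Lat) g.n := rfl
@[simp] lemma inv_k (g : Gam) : (g⁻¹).k = -g.k := rfl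
@[simp] lemma inv_m (g : Gam) : (g⁻¹).m = -g.m := rfl

instance : Group Gam := Group.ofLeftAxioms
  (by
    intro g h l
    ext1
    · simp [add_zsmul, AddAut.add_apply, map_add, add_assoc]
    · simp [add_assoc]
    · simp [add_assoc])
  (by
    intro g
    ext1 <;> simp)
  (by
    intro g
    ext1
    · simp
    · simp
    · simp)

end Gam

/-- the action on the model space, as a function -/
noncomputable def act (g : Gam) (p : E3) : E3 :=
  ![p 0 + ((g.m : ℝ) * t0 : ℝ) + (g.k : ℂ) * Complex.I, (gr : ℂ) ^ g.m * p 1 + E1 g.n,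
    (gc : ℂ) ^ g.m * p 2 + E2 g.n]

@[simp] lemma act_0 (g : Gam) (p : E3) :
    act g p 0 = p 0 + ((g.m : ℝ) * t0 : ℝ) + (g.k : ℂ) * Complex.I := by simp [act]
@[simp] lemma act_1 (g : Gam) (p : E3) : act g p 1 = (gr : ℂ) ^ g.m * p 1 + E1 g.n := by
  simp [act]
@[simp] lemma act_2 (g : Gam) (p : E3) : act g p 2 = (gc : ℂ) ^ g.m * p 2 + E2 g.n := by
  simp [act]

lemma E3_ext {p q : E3} (h0 : p 0 = q 0) (h1 : p 1 = q 1) (h2 : p 2 = q 2) : p = q := by
  ext i
  fin_cases i
  · exact h0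
  · exact h1
  · exact h2

noncomputable instance : MulAction Gam E3 where
  smul := act
  one_smul p := by
    apply E3_ext
    · change act 1 p 0 = _; simp
    · change act 1 p 1 = _; simp
    · change act 1 p 2 = _; simp
  mul_smul g h p := by
    have hg := gr_ne'
    have hc := gc_ne'
    apply E3_ext
    · change act (g * h) p 0 = act g (act h p) 0
      simp; ring
    · change act (g * h) p 1 = act g (act h p) 1
      simp only [act_1, Gam.mul_n, Gam.mul_m, map_add, E1_zpow, zpow_add₀ hg]; ring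
    · change act (g * h) p 2 = act g (act h p) 2
      simp only [act_2, Gam.mul_n, Gam.mul_m, map_add, E2_zpow, zpow_add₀ hc]; ring

lemma smul_def (g : Gam) (p : E3) : g • p = act g p := rfl

lemma smul_apply_0 (g : Gam) (p : E3) :
    (g • p) 0 = p 0 + ((g.m : ℝ) * t0 : ℝ) + (g.k : ℂ) * Complex.I := act_0 g p
lemma smul_apply_1 (g : Gam) (p : E3) : (g • p) 1 = (gr : ℂ) ^ g.m * p 1 + E1 g.n := act_1 g p
lemma smul_apply_2 (g : Gam) (p : E3) : (g • p) 2 = (gc : ℂ) ^ g.m * p 2 + E2 g.n := act_2 g p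

lemma t0_pos : 0 < t0 := Real.log_pos one_lt_gr

lemma abs_gc : |gc| = gr⁻¹ := by
  rw [abs_of_neg gc_neg]
  exact Real.inv_goldenRatio.symm

lemma norm_gc : ‖(gc : ℂ)‖ = gr⁻¹ := by
  rw [Complex.norm_real, Real.norm_eq_abs, abs_gc]

lemma norm_gr : ‖(gr : ℂ)‖ = gr := by
  rw [Complex.norm_real, Real.norm_eq_abs, abs_of_pos gr_pos]

lemma gr_zpow (m : ℤ) : gr ^ m = Real.exp (m * t0) := by
  rw [t0, mul_comm, Real.exp_mul, Real.exp_log gr_pos, Real.rpow_intCast]

end Pool.Agent.NKM
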