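import Pool.Agent.NKM.FR
import Pool.Agent.NKM.DT
import Pool.Agent.NKM.Act

set_option autoImplicit false
open scoped Manifold ContDiff Topology ComplexConjugate
open MeasureTheory Set

namespace Pool.Agent.NKM

lemma Th_nonneg {ε om L δ κ r : ℝ} (hε : 0 < ε) (hε' : ε ≤ 1 / 4) (hom : 0 ≤ om) (q : E3) :
    0 ≤ Th ε om L δ κ r q := by
  have h1 := P2_nonneg ε (uf L δ κ r q)
  have h2 := P2_nonneg ε (rho L δ q)
  have h3 := P2_le_one ε (rho L δ q)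
  have h4 := P1_nonneg hε (rho L δ q)
  have h5 := dsg_nonneg (q 0).re
  have h6 := sg_nonneg (q 0).re
  have h7 := sg_le_one (q 0).re
  have hθ : (0 : ℝ) ≤ 1 - 2 * ε := by linarith
  have hθ1 : 1 - 2 * ε ≤ 1 := by linarith
  have h8 : (1 / 2 - sg (q 0).re) ^ 2 ≤ 1 / 4 := by nlinarith
  have h9 : 4 * (1 - 2 * ε) * P2 ε (rho L δ q) * (1 / 2 - sg (q 0).re) ^ 2 ≤ 1 := by
    calc 4 * (1 - 2 * ε) * P2 ε (rho L δ q) * (1 / 2 - sg (q 0).re) ^ 2
        ≤ 4 * 1 * 1 * (1 / 4) := by gcongr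
      _ = 1 := by norm_num
  have h10 : 0 ≤ 2 * (1 - 2 * ε) * P1 ε (rho L δ q) * dsg (q 0).re := by positivity
  unfold Th
  apply mul_nonneg
  · linarith
  · unfold Gp
    positivity

lemma norm_gr_zpow_sq (m : ℤ) : ‖(gr : ℂ) ^ m‖ ^ 2 = Real.exp (2 * ((m : ℝ) * t0)) := by
  rw [norm_zpow, norm_gr, gr_zpow, ← Real.exp_nat_mul]
  norm_num

lemma norm_gc_zpow_sq (m : ℤ) : ‖(gc : ℂ) ^ m‖ ^ 2 = Real.exp (-(2 * ((m : ℝ) * t0))) := by
  rw [norm_zpow, norm_gc, inv_zpow, gr_zpow, ← Real.exp_neg, ← Real.exp_nat_mul]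
  norm_num

/-- linear part of the deck transformation, applied to a vector -/
lemma hq_lin (p q v : E3) (m : ℤ) (h : (q 0).re = (p 0).re + m * t0) :
    hq q (lin m v) = hq p v := by
  unfold hq
  rw [lin_0, lin_1, lin_2, norm_mul, norm_mul, mul_pow, mul_pow, norm_gr_zpow_sq,
    norm_gc_zpow_sq, h]
  have e1 : Real.exp (-2 * ((p 0).re + (m : ℝ) * t0)) * Real.exp (2 * ((m : ℝ) * t0)) =
      Real.exp (-2 * (p 0).re) := by
    rw [← Real.exp_add]; congr 1; ring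
  have e2 : Real.exp (2 * ((p 0).re + (m : ℝ) * t0)) * Real.exp (-(2 * ((m : ℝ) * t0))) =
      Real.exp (2 * (p 0).re) := by
    rw [← Real.exp_add]; congr 1; ring
  linear_combination ‖v 1‖ ^ 2 * e1 + ‖v 2‖ ^ 2 * e2



lemma hermForm_hmat (p v : E3) : hermForm (hmat p) v = ((hq p v : ℝ) : ℂ) := by
  have h : ∀ z : ℂ, z * conj z = ((‖z‖ ^ 2 : ℝ) : ℂ) := by
    intro z; rw [Complex.mul_conj, Complex.normSq_eq_norm_sq]
  simp only [hermForm, hmat, hq, Fin.sum_univ_three, Matrix.diagonal_apply]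
  simp only [mul_assoc, h]
  simp

/-- the comparison matrix -/
noncomputable def Bmat (A1 K a β : ℝ) (b : ℂ) : Matrix (Fin 3) (Fin 3) ℂ :=
  !![((A1 + K * a ^ 2 : ℝ) : ℂ), 0, ((K * a : ℝ) : ℂ) * conj b; 0, 0, 0;
    ((K * a : ℝ) : ℂ) * b, 0, ((β + K * ‖b‖ ^ 2 : ℝ) : ℂ)]

lemma Bmat_herm (A1 K a β : ℝ) (b : ℂ) : (Bmat A1 K a β b).IsHermitian := by
  ext i j
  fin_cases i <;> fin_cases j <;> simp [Bmat, Matrix.conjTranspose_apply]

lemma Bmat_form (A1 K a β : ℝ) (b : ℂ) (v : Fin 3 → ℂ) (hv : v 1 = 0) :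
    (hermForm (Bmat A1 K a β b) v).re =
      A1 * ‖v 0‖ ^ 2 + β * ‖v 2‖ ^ 2 + K * ‖(a : ℂ) * v 0 + b * v 2‖ ^ 2 := by
  simp only [hermForm, Bmat, Fin.sum_univ_three, hv]
  simp only [Complex.sq_norm, Complex.normSq_apply]
  have ha : ((a : ℂ) ^ 2).re = a ^ 2 := by rw [← Complex.ofReal_pow, Complex.ofReal_re]
  simp [ha]
  ring

lemma Bmat_block (A1 K a β : ℝ) (b : ℂ) :
    ((Bmat A1 K a β b) 0 0).re * ((Bmat A1 K a β b) 2 2).re - ‖(Bmat A1 K a β b) 0 2‖ ^ 2 =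
      A1 * β + A1 * (K * ‖b‖ ^ 2) + β * (K * a ^ 2) := by
  have h0 : (Bmat A1 K a β b) 0 0 = ((A1 + K * a ^ 2 : ℝ) : ℂ) := by simp [Bmat]
  have h2 : (Bmat A1 K a β b) 2 2 = ((β + K * ‖b‖ ^ 2 : ℝ) : ℂ) := by simp [Bmat]
  have h02 : (Bmat A1 K a β b) 0 2 = ((K * a : ℝ) : ℂ) * conj b := by simp [Bmat]
  rw [h0, h2, h02, Complex.ofReal_re, Complex.ofReal_re, norm_mul, mul_pow, Complex.norm_real,
    Real.norm_eq_abs, sq_abs, RCLike.norm_conj]
  ring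

lemma CF_nonneg {ε L Cs : ℝ} (hε : 0 < ε) (hCs : 0 ≤ Cs) : 0 ≤ CF ε L Cs := by
  unfold CF; positivity

lemma CF_mono {ε L Lm Cs : ℝ} (h : L ≤ Lm) : CF ε L Cs ≤ CF ε Lm Cs := by
  unfold CF; gcongr

/-- upper bound of the near sheet on the plane `v 1 = 0` -/
lemma Nf_near {ε L δ κ r : ℝ} (hε : 0 < ε) (hε' : ε ≤ 1 / 4) (q w : E3) (h1 : w 1 = 0) (g v2 : ℂ)
    (h2 : w 2 = g * v2) :
    Nf ε L δ κ r q w ≤ 4 * (1 - 2 * ε) * P2 ε (uf L δ κ r q) *
      ‖((1 / 2 - sg (q 0).re : ℝ) : ℂ) * w 0 +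
        (((κ * sg (Tf r q) : ℝ) : ℂ) * g / (2 * q 2)) * v2‖ ^ 2 +
      (-(4 * (1 - 2 * ε) * P2 ε (rho L δ q) * (1 / 2 - sg (q 0).re) ^ 2) +
        2 * (1 - 2 * ε) * P1 ε (rho L δ q) * dsg (q 0).re) * ‖w 0‖ ^ 2 := by
  have k1 := P2_nonneg ε (uf L δ κ r q)
  have k4 := P1_nonneg hε (uf L δ κ r q)
  have k5 := dsg_nonneg (q 0).re
  have hθ : (0 : ℝ) ≤ 1 - 2 * ε := by linarith
  have half : alf δ q w = ((1 / 2 - sg (q 0).re : ℝ) : ℂ) * w 0 := by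
    unfold alf; rw [h1]; simp
  have hbet : bet κ r q w = (((κ * sg (Tf r q) : ℝ) : ℂ) * g / (2 * q 2)) * v2 := by
    unfold bet; rw [h2]; ring
  have hnal : ‖alf δ q w‖ ^ 2 = (1 / 2 - sg (q 0).re) ^ 2 * ‖w 0‖ ^ 2 := by
    rw [half, norm_mul, mul_pow, Complex.norm_real, Real.norm_eq_abs, sq_abs]
  have h11 : ‖w 1‖ ^ 2 = 0 := by rw [h1]; simp
  rw [← half, ← hbet]
  unfold Nf
  split_ifs with hq
  · rw [hnal, h11]
    have : 0 ≤ 4 * (1 - 2 * ε) * P2 ε (uf L δ κ r q) * ‖alf δ q w + bet κ r q w‖ ^ 2 := by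
      positivity
    nlinarith
  · rw [hnal, h11]
    have : 0 ≤ (1 - 2 * ε) * P1 ε (uf L δ κ r q) * dsg (q 0).re * ‖w 0‖ ^ 2 := by
      positivity
    nlinarith

set_option maxHeartbeats 4000000 in
/-- MAIN TARGET: pointwise positivity and determinant bound. `J` indexes the sheets, `near` the
(at most one) near sheet, `lam` the matrix of `ω + i∂∂̄φ`. -/
theorem pointwise {ι : Type} [DecidableEq ι] (J near : Finset ι) (hnJ : near ⊆ J)
    (hcard : near.card ≤ 1)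
    {ε Lm δ r Cs om1 : ℝ} (hLm : 0 ≤ Lm) (L κ : ι → ℝ) (q : ι → E3) (m : ι → ℤ) (p : E3)
    (hε : 0 < ε) (hε' : ε ≤ 1 / 4) (hδ : 0 ≤ δ) (hr : 0 < r) (hr1 : r ≤ 1)
    (hCs : ∀ t, dsg t ≤ Cs) (hCs1 : 1 ≤ Cs)
    (hL : ∀ j ∈ J, 0 ≤ L j ∧ L j ≤ Lm) (hκ : ∀ j ∈ J, 0 < κ j)
    (hc : 4 * (1 + 1 / ε) * δ * (Lm + 1) * Real.exp (2 * (Lm + 2)) ≤ ε)
    (hq0 : ∀ j ∈ J, ((q j) 0).re = (p 0).re + m j * t0)
    (hfar : ∀ j ∈ J \ near, 0 < rho (L j) δ (q j) → ‖q j 2‖ < r →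
      q j 2 ≠ 0 ∧ κ j / ‖q j 2‖ ≤ 1)
    (hsum : ∑ j ∈ (J \ near).filter (fun j => 0 < rho (L j) δ (q j) ∧ ‖q j 2‖ < r),
      κ j / ‖q j 2‖ ≤ om1)
    (hom : CF ε Lm Cs * om1 ≤ ε)
    (hB1 : 1 - 5 * ε ≤ ∑ j ∈ J, Rf ε (L j) δ (κ j) r (q j) * Real.exp (-2 * ((q j) 0).re))
    (hB2 : ∑ j ∈ J, Rf ε (L j) δ (κ j) r (q j) * Real.exp (-2 * ((q j) 0).re) ≤ 1 - 2 * ε)
    (lam : Matrix (Fin 3) (Fin 3) ℂ) (hH : lam.IsHermitian)
    (hform : ∀ v, (hermForm lam v).re = hq p v + ∑ j ∈ J,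
      (Nf ε (L j) δ (κ j) r (q j) (lin (m j) v) -
        Rf ε (L j) δ (κ j) r (q j) * ‖lin (m j) v 2‖ ^ 2)) :
    (∀ v, 0 ≤ (hermForm lam v).re) ∧
      lam.det.re ≤ 12 * ε * (3 + 2 * Cs * (Lm + 1)) +
        2 * ∑ j ∈ J, Th ε ε (L j) δ (κ j) r (q j) := by
  have hCs0 : (0 : ℝ) ≤ Cs := by linarith
  have hθ : (0 : ℝ) ≤ 1 - 2 * ε := by linarith
  -- the exponentials
  have hexp1 : ∀ j ∈ J, ∀ v : E3, Real.exp (-2 * (q j 0).re) * ‖lin (m j) v 1‖ ^ 2 =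
      Real.exp (-2 * (p 0).re) * ‖v 1‖ ^ 2 := by
    intro j hj v
    rw [lin_1, norm_mul, mul_pow, norm_gr_zpow_sq, hq0 j hj]
    have e : Real.exp (-2 * ((p 0).re + (m j : ℝ) * t0)) * Real.exp (2 * ((m j : ℝ) * t0)) =
        Real.exp (-2 * (p 0).re) := by
      rw [← Real.exp_add]; congr 1; ring
    linear_combination ‖v 1‖ ^ 2 * e
  have hexp2 : ∀ j ∈ J, ∀ v : E3, ‖lin (m j) v 2‖ ^ 2 =
      Real.exp (-2 * (q j 0).re) * (Real.exp (2 * (p 0).re) * ‖v 2‖ ^ 2) := by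
    intro j hj v
    rw [lin_2, norm_mul, mul_pow, norm_gc_zpow_sq, hq0 j hj]
    have e : Real.exp (-(2 * ((m j : ℝ) * t0))) =
        Real.exp (-2 * ((p 0).re + (m j : ℝ) * t0)) * Real.exp (2 * (p 0).re) := by
      rw [← Real.exp_add]; congr 1; ring
    linear_combination ‖v 2‖ ^ 2 * e
  have hhq : ∀ j ∈ J, ∀ v, hq (q j) (lin (m j) v) = hq p v :=
    fun j hj v => hq_lin p (q j) v (m j) (hq0 j hj)
  have hhq0 : ∀ v, 0 ≤ hq p v := by intro v; unfold hq; positivity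
  have hcj : ∀ j ∈ J, 4 * (1 + 1 / ε) * δ * (L j + 1) * Real.exp (2 * (L j + 2)) ≤ ε := by
    intro j hj
    obtain ⟨l1, l2⟩ := hL j hj
    have hLm : 0 ≤ Lm + 1 := by linarith
    refine le_trans ?_ hc
    gcongr
  obtain ⟨N, hN⟩ : ∃ N : ι → E3 → ℝ, ∀ j v, N j v = Nf ε (L j) δ (κ j) r (q j) (lin (m j) v) :=
    ⟨_, fun _ _ => rfl⟩
  obtain ⟨B, hB⟩ : ∃ B : ℝ, B = ∑ j ∈ J, Rf ε (L j) δ (κ j) r (q j) *
      Real.exp (-2 * ((q j) 0).re) := ⟨_, rfl⟩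
  rw [← hB] at hB1 hB2
  have hform' : ∀ v, (hermForm lam v).re = hq p v - B * (Real.exp (2 * (p 0).re) * ‖v 2‖ ^ 2) +
      ∑ j ∈ J, N j v := by
    intro v
    rw [hform v, Finset.sum_sub_distrib]
    have e1 : ∑ j ∈ J, Rf ε (L j) δ (κ j) r (q j) * ‖lin (m j) v 2‖ ^ 2 =
        B * (Real.exp (2 * (p 0).re) * ‖v 2‖ ^ 2) := by
      rw [hB, Finset.sum_mul]
      refine Finset.sum_congr rfl fun j hj => ?_
      rw [hexp2 j hj v]; ring
    rw [e1]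
    simp only [← hN]
    ring
  have hfarsum : ∀ v, |∑ j ∈ J \ near, N j v| ≤ ε * hq p v := by
    intro v
    have hb : ∀ j ∈ J \ near, |N j v| ≤
        if (0 < rho (L j) δ (q j) ∧ ‖q j 2‖ < r) then CF ε Lm Cs * hq p v * (κ j / ‖q j 2‖) else 0 := by
      intro j hj
      have hjJ : j ∈ J := (Finset.mem_sdiff.1 hj).1
      split_ifs with hact
      · obtain ⟨f1, f2⟩ := hfar j hj hact.1 hact.2
        have := Nf_far (v := lin (m j) v) hε hε' (hL j hjJ).1 hδ (hκ j hjJ) hr hr1 hCs hCs1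
          (hcj j hjJ) (q j) f1 f2 hact.1
        rw [hN, ← hhq j hjJ v]
        refine this.trans ?_
        have c1 : CF ε (L j) Cs ≤ CF ε Lm Cs := CF_mono (hL j hjJ).2
        have c2 : 0 ≤ κ j / ‖q j 2‖ := div_nonneg (hκ j hjJ).le (norm_nonneg _)
        have c3 : 0 ≤ hq (q j) (lin (m j) v) := by rw [hhq j hjJ]; exact hhq0 v
        calc CF ε (L j) Cs * (κ j / ‖q j 2‖) * hq (q j) (lin (m j) v)
            ≤ CF ε Lm Cs * (κ j / ‖q j 2‖) * hq (q j) (lin (m j) v) := by gcongr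
          _ = _ := by ring
      · have hin : rho (L j) δ (q j) ≤ 0 ∨ r ≤ ‖q j 2‖ := by
          by_contra hc'
          push Not at hc'
          exact hact hc'
        rw [hN, (Nf_inactive hε (hκ j hjJ).le hr hin _).1, abs_zero]
    refine (Finset.abs_sum_le_sum_abs _ _).trans ((Finset.sum_le_sum hb).trans ?_)
    rw [← Finset.sum_filter, ← Finset.mul_sum]
    have c0 := CF_nonneg (L := Lm) hε hCs0
    calc CF ε Lm Cs * hq p v * _ ≤ CF ε Lm Cs * hq p v * om1 := by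
          apply mul_le_mul_of_nonneg_left hsum
          exact mul_nonneg c0 (hhq0 v)
      _ = (CF ε Lm Cs * om1) * hq p v := by ring
      _ ≤ ε * hq p v := mul_le_mul_of_nonneg_right hom (hhq0 v)
  have hsplit : ∀ v, ∑ j ∈ J, N j v = ∑ j ∈ J \ near, N j v + ∑ j ∈ near, N j v :=
    fun v => (Finset.sum_sdiff hnJ).symm
  have hnear : near = ∅ ∨ ∃ j0 ∈ J, near = {j0} := by
    rcases Nat.le_one_iff_eq_zero_or_eq_one.1 hcard with h | h
    · left; exact Finset.card_eq_zero.1 h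
    · right
      obtain ⟨j0, hj0⟩ := Finset.card_eq_one.1 h
      exact ⟨j0, hnJ (by rw [hj0]; simp), hj0⟩
  have hnearlow : ∀ v : E3, -((1 - ε) * ‖v 0‖ ^ 2) - ε * (Real.exp (-2 * (p 0).re) * ‖v 1‖ ^ 2) ≤
      ∑ j ∈ near, N j v := by
    intro v
    rcases hnear with h | ⟨j0, hj0, h⟩
    · rw [h, Finset.sum_empty]
      have : 0 ≤ (1 - ε) * ‖v 0‖ ^ 2 := mul_nonneg (by linarith) (by positivity)
      have : 0 ≤ ε * (Real.exp (-2 * (p 0).re) * ‖v 1‖ ^ 2) := by positivity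
      linarith
    · rw [h, Finset.sum_singleton, hN]
      have := Nf_lower (v := lin (m j0) v) hε hε' (hL j0 hj0).1 hδ (hκ j0 hj0).le hr (hcj j0 hj0) (q j0)
      rw [mul_assoc ε, hexp1 j0 hj0 v, lin_0] at this
      exact this
  have hnearx : ∀ v : E3, v 0 = 0 → v 2 = 0 →
      ∑ j ∈ near, N j v ≤ ε * (Real.exp (-2 * (p 0).re) * ‖v 1‖ ^ 2) := by
    intro v h0 h2
    rcases hnear with h | ⟨j0, hj0, h⟩
    · rw [h, Finset.sum_empty]; positivity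
    · rw [h, Finset.sum_singleton, hN]
      have := Nf_upper_x (v := lin (m j0) v) hε hε' (hL j0 hj0).1 hδ (hκ j0 hj0).le hr (hcj j0 hj0) (q j0)
        (by rw [lin_0, h0]) (by rw [lin_2, h2, mul_zero])
      rw [mul_assoc ε, hexp1 j0 hj0 v] at this
      exact this
  have hpos : ∀ v, 0 ≤ (hermForm lam v).re := by
    intro v
    rw [hform' v, hsplit v]
    have h1 := (abs_le.1 (hfarsum v)).1
    have h2 := hnearlow v
    have e : hq p v = ‖v 0‖ ^ 2 + Real.exp (-2 * (p 0).re) * ‖v 1‖ ^ 2 +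
      Real.exp (2 * (p 0).re) * ‖v 2‖ ^ 2 := rfl
    have x0 : 0 ≤ ‖v 0‖ ^ 2 := by positivity
    have x1 : 0 ≤ Real.exp (-2 * (p 0).re) * ‖v 1‖ ^ 2 := by positivity
    have x2 : 0 ≤ Real.exp (2 * (p 0).re) * ‖v 2‖ ^ 2 := by positivity
    rw [e] at h1 ⊢
    nlinarith [mul_nonneg hθ x1, mul_nonneg (by linarith : 0 ≤ 1 - ε - B) x2]
  refine ⟨hpos, ?_⟩
  -- determinant
  have hfis := fischer lam hH hpos
  set M : ℝ := (lam 0 0).re * (lam 2 2).re - ‖lam 0 2‖ ^ 2 with hM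
  have hM0 : 0 ≤ M := by
    have h := block_mono 0 lam Matrix.isHermitian_zero hH (by intro v _; simp [hermForm])
      (by intro v _; simpa [hermForm] using hpos v)
    simpa [hM] using h
  have hl11 : (lam 1 1).re ≤ 2 * Real.exp (-2 * (p 0).re) := by
    have e1 : (hermForm lam (Pi.single 1 1)).re = (lam 1 1).re := by
      simp [hermForm, Fin.sum_univ_three, Pi.single_apply]
    have h0 : (Pi.single (1 : Fin 3) (1 : ℂ) : E3) 0 = 0 := by simp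
    have h1 : (Pi.single (1 : Fin 3) (1 : ℂ) : E3) 1 = 1 := by simp
    have h2 : (Pi.single (1 : Fin 3) (1 : ℂ) : E3) 2 = 0 := by simp
    rw [← e1, hform', hsplit]
    have k1 := (abs_le.1 (hfarsum (Pi.single (1 : Fin 3) (1 : ℂ)))).2
    have k2 := hnearx (Pi.single (1 : Fin 3) (1 : ℂ)) h0 h2
    have e : hq p (Pi.single (1 : Fin 3) (1 : ℂ)) = Real.exp (-2 * (p 0).re) := by
      unfold hq; rw [h0, h1, h2]; simp
    rw [e] at k1 ⊢
    rw [h1] at k2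
    rw [h2]
    simp only [norm_one, norm_zero, one_pow, mul_one] at k2 ⊢
    have hE := Real.exp_pos (-2 * (p 0).re)
    nlinarith
  have hdet : lam.det.re ≤ 2 * (Real.exp (-2 * (p 0).re) * M) := by
    refine hfis.trans ?_
    calc (lam 1 1).re * M ≤ (2 * Real.exp (-2 * (p 0).re)) * M :=
          mul_le_mul_of_nonneg_right hl11 hM0
      _ = _ := by ring
  have hEE : Real.exp (-2 * (p 0).re) * Real.exp (2 * (p 0).re) = 1 := by
    rw [← Real.exp_add]; simp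
  have hE := Real.exp_pos (-2 * (p 0).re)
  have hTh : ∀ j ∈ J, 0 ≤ Th ε ε (L j) δ (κ j) r (q j) := fun j _ => Th_nonneg hε hε' hε.le _
  have hβ0 : 0 ≤ 1 + ε - B := by linarith
  have hβ1 : 1 + ε - B ≤ 6 * ε := by linarith
  rcases hnear with h | ⟨j0, hj0, h⟩
  · -- no near sheet
    have hMle : M ≤ (1 + ε) * (Real.exp (2 * (p 0).re) * (1 + ε - B)) := by
      have h2 := block_mono lam (Bmat (1 + ε) 0 0 (Real.exp (2 * (p 0).re) * (1 + ε - B)) 0) hH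
        (Bmat_herm _ _ _ _ _) (fun v _ => hpos v) ?_
      · rw [Bmat_block, ← hM] at h2
        simp only [zero_mul, mul_zero, add_zero] at h2
        exact h2
      · intro v hv
        rw [Bmat_form _ _ _ _ _ v hv, hform', hsplit, h, Finset.sum_empty]
        have k1 := (abs_le.1 (hfarsum v)).2
        rw [h] at k1
        have e : hq p v = ‖v 0‖ ^ 2 + Real.exp (2 * (p 0).re) * ‖v 2‖ ^ 2 := by
          unfold hq; rw [hv]; simp
        rw [e] at k1 ⊢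
        nlinarith
    have h3 : Real.exp (-2 * (p 0).re) * M ≤ (1 + ε) * (6 * ε) := by
      calc Real.exp (-2 * (p 0).re) * M
          ≤ Real.exp (-2 * (p 0).re) * ((1 + ε) * (Real.exp (2 * (p 0).re) * (1 + ε - B))) := by
            gcongr
        _ = (Real.exp (-2 * (p 0).re) * Real.exp (2 * (p 0).re)) * ((1 + ε) * (1 + ε - B)) := by ring
        _ = (1 + ε) * (1 + ε - B) := by rw [hEE, one_mul]
        _ ≤ _ := by gcongr
    have h4 : 0 ≤ ∑ j ∈ J, Th ε ε (L j) δ (κ j) r (q j) := Finset.sum_nonneg hTh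
    have : 0 ≤ ε * (Cs * (Lm + 1)) := by positivity
    nlinarith
  · -- one near sheet
    obtain ⟨a, ha⟩ : ∃ a : ℝ, a = 1 / 2 - sg (q j0 0).re := ⟨_, rfl⟩
    obtain ⟨K, hK⟩ : ∃ K : ℝ, K = 4 * (1 - 2 * ε) * P2 ε (uf (L j0) δ (κ j0) r (q j0)) := ⟨_, rfl⟩
    obtain ⟨b, hb⟩ : ∃ b : ℂ, b = ((κ j0 * sg (Tf r (q j0)) : ℝ) : ℂ) * (gc : ℂ) ^ (m j0) / (2 * q j0 2) :=
      ⟨_, rfl⟩
    obtain ⟨A1, hA1⟩ : ∃ A1 : ℝ, A1 = 1 + ε - 4 * (1 - 2 * ε) * P2 ε (rho (L j0) δ (q j0)) *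
      (1 / 2 - sg (q j0 0).re) ^ 2 + 2 * (1 - 2 * ε) * P1 ε (rho (L j0) δ (q j0)) *
      dsg (q j0 0).re := ⟨_, rfl⟩
    have hMle : M ≤ A1 * (Real.exp (2 * (p 0).re) * (1 + ε - B)) + A1 * (K * ‖b‖ ^ 2) +
        (Real.exp (2 * (p 0).re) * (1 + ε - B)) * (K * a ^ 2) := by
      have h2 := block_mono lam (Bmat A1 K a (Real.exp (2 * (p 0).re) * (1 + ε - B)) b) hH
        (Bmat_herm _ _ _ _ _) (fun v _ => hpos v) ?_
      · rw [Bmat_block] at h2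
        exact h2
      · intro v hv
        have k2 := Nf_near (L := L j0) (δ := δ) (κ := κ j0) (r := r) hε hε' (q j0) (lin (m j0) v)
          (by rw [lin_1, hv, mul_zero]) ((gc : ℂ) ^ (m j0)) (v 2) (lin_2 _ _)
        rw [← hb, ← hK, ← ha, lin_0, ← hN] at k2
        rw [Bmat_form _ _ _ _ _ v hv, hform', hsplit, h, Finset.sum_singleton]
        have k1 := (abs_le.1 (hfarsum v)).2
        rw [h] at k1
        have e : hq p v = ‖v 0‖ ^ 2 + Real.exp (2 * (p 0).re) * ‖v 2‖ ^ 2 := by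
          unfold hq; rw [hv]; simp
        rw [e] at k1 ⊢
        rw [hA1, ← ha]
        nlinarith
    have hsg0 := sg_nonneg (q j0 0).re
    have hsg1 := sg_le_one (q j0 0).re
    have ha2 : a ^ 2 ≤ 1 / 4 := by rw [ha]; nlinarith
    have hK0 : 0 ≤ K := by
      rw [hK]; exact mul_nonneg (by linarith) (P2_nonneg _ _)
    have hK4 : K ≤ 4 := by
      rw [hK]
      calc 4 * (1 - 2 * ε) * P2 ε (uf (L j0) δ (κ j0) r (q j0)) ≤ 4 * 1 * 1 := by
            have := P2_le_one ε (uf (L j0) δ (κ j0) r (q j0))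
            have := P2_nonneg ε (uf (L j0) δ (κ j0) r (q j0))
            gcongr
            linarith
        _ = 4 := by norm_num
    have hKa : K * a ^ 2 ≤ 1 := by
      calc K * a ^ 2 ≤ 4 * (1 / 4) := by gcongr
        _ = 1 := by norm_num
    have hP1 : P1 ε (rho (L j0) δ (q j0)) ≤ Lm + 1 := by
      rcases le_or_gt (rho (L j0) δ (q j0)) 0 with hr0 | hr0
      · rw [P1_of_nonpos hε hr0]; linarith
      · have h5 := (active_bounds hδ hr0).2.2.2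
        have h6 := P1_le hε hr0.le
        linarith [(hL j0 hj0).2]
    have hP10 := P1_nonneg hε (rho (L j0) δ (q j0))
    have hd0 := dsg_nonneg (q j0 0).re
    have hd1 := hCs (q j0 0).re
    have hA1le : A1 ≤ 2 + 2 * Cs * (Lm + 1) := by
      have h7 : 2 * (1 - 2 * ε) * P1 ε (rho (L j0) δ (q j0)) * dsg (q j0 0).re ≤
          2 * 1 * (Lm + 1) * Cs := by
        gcongr
        linarith
      have h8 : 0 ≤ 4 * (1 - 2 * ε) * P2 ε (rho (L j0) δ (q j0)) *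
          (1 / 2 - sg (q j0 0).re) ^ 2 := by
        have := P2_nonneg ε (rho (L j0) δ (q j0))
        positivity
      rw [hA1]
      linarith
    have hA10 : 0 ≤ A1 := by
      have h8 : 4 * (1 - 2 * ε) * P2 ε (rho (L j0) δ (q j0)) *
          (1 / 2 - sg (q j0 0).re) ^ 2 ≤ 1 := by
        rw [← ha]
        calc 4 * (1 - 2 * ε) * P2 ε (rho (L j0) δ (q j0)) * a ^ 2 ≤ 4 * 1 * 1 * (1 / 4) := by
              have := P2_le_one ε (rho (L j0) δ (q j0))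
              have := P2_nonneg ε (rho (L j0) δ (q j0))
              gcongr
              linarith
          _ = 1 := by norm_num
      have h9 : 0 ≤ 2 * (1 - 2 * ε) * P1 ε (rho (L j0) δ (q j0)) * dsg (q j0 0).re := by
        positivity
      rw [hA1]
      linarith
    have hG : Real.exp (-2 * (p 0).re) * (K * ‖b‖ ^ 2) = Gp ε (L j0) δ (κ j0) r (q j0) := by
      have hbn : ‖b‖ ^ 2 = (κ j0) ^ 2 * sg (Tf r (q j0)) ^ 2 * Real.exp (-(2 * (m j0 * t0))) /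
          (4 * ‖q j0 2‖ ^ 2) := by
        rw [hb, norm_div, norm_mul, norm_mul, div_pow, mul_pow, mul_pow, norm_gc_zpow_sq,
          Complex.norm_real, Real.norm_eq_abs, sq_abs, mul_pow, Complex.norm_ofNat]
        norm_num
      unfold Gp
      rw [hbn, hK, hq0 j0 hj0]
      have e3 : Real.exp (-2 * ((p 0).re + m j0 * t0)) =
          Real.exp (-2 * (p 0).re) * Real.exp (-(2 * (m j0 * t0))) := by
        rw [← Real.exp_add]; congr 1; ring
      rw [e3]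
      by_cases hq2 : ‖q j0 2‖ = 0
      · rw [hq2]; simp
      · field_simp
        try ring
    have hThj : Th ε ε (L j0) δ (κ j0) r (q j0) = A1 * Gp ε (L j0) δ (κ j0) r (q j0) := by
      unfold Th; rw [hA1]
    have h3 : Real.exp (-2 * (p 0).re) * M ≤ 6 * ε * (A1 + 1) + Th ε ε (L j0) δ (κ j0) r (q j0) := by
      calc Real.exp (-2 * (p 0).re) * M
          ≤ Real.exp (-2 * (p 0).re) * (A1 * (Real.exp (2 * (p 0).re) * (1 + ε - B)) +
            A1 * (K * ‖b‖ ^ 2) + (Real.exp (2 * (p 0).re) * (1 + ε - B)) * (K * a ^ 2)) := by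
            gcongr
        _ = (Real.exp (-2 * (p 0).re) * Real.exp (2 * (p 0).re)) * ((1 + ε - B) * (A1 + K * a ^ 2)) +
            A1 * (Real.exp (-2 * (p 0).re) * (K * ‖b‖ ^ 2)) := by ring
        _ = (1 + ε - B) * (A1 + K * a ^ 2) + Th ε ε (L j0) δ (κ j0) r (q j0) := by
            rw [hEE, one_mul, hG, hThj]
        _ ≤ 6 * ε * (A1 + 1) + Th ε ε (L j0) δ (κ j0) r (q j0) := by
            gcongr
    have h4 : Th ε ε (L j0) δ (κ j0) r (q j0) ≤ ∑ j ∈ J, Th ε ε (L j) δ (κ j) r (q j) :=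
      Finset.single_le_sum (f := fun j => Th ε ε (L j) δ (κ j) r (q j)) hTh hj0
    have h5 : 6 * ε * (A1 + 1) ≤ 6 * ε * (3 + 2 * Cs * (Lm + 1)) := by
      apply mul_le_mul_of_nonneg_left _ (by positivity)
      linarith
    linarith

end Pool.Agent.NKM
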