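import Pool.Agent.NKM.Par
import Pool.Agent.NKM.OVF
import Pool.Agent.NKM.POL

set_option autoImplicit false
open scoped Manifold ContDiff Topology ComplexConjugate
open MeasureTheory Set

namespace Pool.Agent.NKM

/-! TARGETS -/

lemma rho_measurable (L δ : ℝ) : Measurable (rho L δ) := by
  unfold rho
  have h0 : Measurable (fun q : E3 => (q 0).re) := Complex.measurable_re.comp (measurable_pi_apply 0)
  have h1 : Measurable (fun q : E3 => ‖q 1‖) := (measurable_pi_apply 1).norm
  have he : Measurable (fun q : E3 => eta (q 0).re) := eta_contDiff.continuous.measurable.comp h0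
  exact (measurable_const.sub he).sub (measurable_const.mul (h1.pow_const 2))

lemma Tf_measurable (r : ℝ) : Measurable (Tf r) := by
  unfold Tf
  have h2 : Measurable (fun q : E3 => ‖q 2‖) := (measurable_pi_apply 2).norm
  exact Real.measurable_log.comp (measurable_const.div h2)

lemma uf_measurable (L δ κ r : ℝ) : Measurable (uf L δ κ r) := by
  unfold uf
  exact (rho_measurable L δ).sub (measurable_const.mul
    (S_contDiff.continuous.measurable.comp (Tf_measurable r)))

lemma Gp_measurable (ε L δ κ r : ℝ) : Measurable (Gp ε L δ κ r) := by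
  unfold Gp
  have h0 : Measurable (fun q : E3 => (q 0).re) := Complex.measurable_re.comp (measurable_pi_apply 0)
  have h2 : Measurable (fun q : E3 => ‖q 2‖) := (measurable_pi_apply 2).norm
  have hP : Measurable (fun q : E3 => P2 ε (uf L δ κ r q)) :=
    (P2_contDiff ε).continuous.measurable.comp (uf_measurable L δ κ r)
  have hs : Measurable (fun q : E3 => sg (Tf r q)) :=
    sg_continuous.measurable.comp (Tf_measurable r)
  exact (((((Real.measurable_exp.comp (measurable_const.mul h0)).mul measurable_const).mul hP).mul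
    measurable_const).mul (hs.pow_const 2)).div (h2.pow_const 2)

lemma Th_measurable (ε om L δ κ r : ℝ) : Measurable (Th ε om L δ κ r) := by
  unfold Th
  have h0 : Measurable (fun q : E3 => (q 0).re) := Complex.measurable_re.comp (measurable_pi_apply 0)
  have hP : Measurable (fun q : E3 => P2 ε (rho L δ q)) :=
    (P2_contDiff ε).continuous.measurable.comp (rho_measurable L δ)
  have hP1 : Measurable (fun q : E3 => P1 ε (rho L δ q)) :=
    (P1_contDiff ε).continuous.measurable.comp (rho_measurable L δ)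
  have hs : Measurable (fun q : E3 => sg (q 0).re) := sg_continuous.measurable.comp h0
  have hds : Measurable (fun q : E3 => dsg (q 0).re) := dsg_continuous.measurable.comp h0
  exact ((measurable_const.sub ((measurable_const.mul hP).mul
    ((measurable_const.sub hs).pow_const 2))).add ((measurable_const.mul hP1).mul hds)).mul
    (Gp_measurable ε L δ κ r)

/-- one-dimensional integral -/
lemma lintegral_P2 {ε κ : ℝ} (hε : 0 < ε) (hκ : 0 < κ) (ρ : ℝ) :
    ∫⁻ T : ℝ, ENNReal.ofReal (P2 ε (ρ - κ * S T) * (κ * sg T)) ≤ ENNReal.ofReal (P1 ε ρ) := by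
  set B : ℝ := max 0 (ρ / κ + 1) with hB
  have hB0 : 0 ≤ B := le_max_left _ _
  set h : ℝ → ℝ := fun T => P2 ε (ρ - κ * S T) * (κ * sg T) with hh
  have hnn : ∀ T, 0 ≤ h T := fun T =>
    mul_nonneg (P2_nonneg _ _) (mul_nonneg hκ.le (sg_nonneg _))
  have hcont : Continuous h := by
    have h1 : Continuous (fun T => P2 ε (ρ - κ * S T)) :=
      (P2_contDiff ε).continuous.comp (continuous_const.sub
        (continuous_const.mul S_contDiff.continuous))
    exact h1.mul (continuous_const.mul sg_continuous)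
  have hsupp : ∀ T, T ∉ Ioc 0 B → h T = 0 := by
    intro T hT
    rw [mem_Ioc, not_and_or, not_lt, not_le] at hT
    rcases hT with hT | hT
    · simp [hh, sg_of_nonpos hT]
    · have h1 : ρ / κ + 1 ≤ T := (le_max_right _ _).trans hT.le
      have h2 : ρ / κ ≤ S T := by linarith [le_S T]
      have h3 : ρ - κ * S T ≤ 0 := by
        rw [div_le_iff₀ hκ] at h2
        linarith
      simp [hh, P2_of_nonpos hε h3]
  have h1 : (∫⁻ T : ℝ, ENNReal.ofReal (h T)) = ∫⁻ T in Ioc 0 B, ENNReal.ofReal (h T) := by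
    rw [← lintegral_indicator measurableSet_Ioc]
    apply lintegral_congr
    intro T
    by_cases hT : T ∈ Ioc 0 B
    · rw [indicator_of_mem hT]
    · rw [indicator_of_notMem hT, hsupp T hT, ENNReal.ofReal_zero]
  have hder : ∀ T, HasDerivAt (fun T => - P1 ε (ρ - κ * S T)) (h T) T := by
    intro T
    have h2 : HasDerivAt (fun T => ρ - κ * S T) (-(κ * sg T)) T := by
      have := ((hasDerivAt_S T).const_mul κ).const_sub ρ
      exact this
    have h3 := ((hasDerivAt_P1 hε (ρ - κ * S T)).comp T h2).neg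
    refine HasDerivAt.congr_deriv h3 ?_
    simp only [hh]
    ring
  have h2 : (∫ T in (0:ℝ)..B, h T) = - P1 ε (ρ - κ * S B) - - P1 ε (ρ - κ * S 0) :=
    intervalIntegral.integral_eq_sub_of_hasDerivAt (fun T _ => hder T)
      (hcont.intervalIntegrable _ _)
  rw [h1, ← ofReal_integral_eq_lintegral_ofReal]
  · apply ENNReal.ofReal_le_ofReal
    rw [← intervalIntegral.integral_of_le hB0, h2, S_of_nonpos le_rfl]
    have := P1_nonneg hε (ρ - κ * S B)
    have e : ρ - κ * 0 = ρ := by ring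
    rw [e]
    linarith
  · exact (hcont.integrableOn_Icc).mono_set Ioc_subset_Icc_self
  · exact Filter.Eventually.of_forall hnn

/-- integral over the fibre variable `y` -/
lemma lintegral_Gp {ε L δ κ r : ℝ} (hε : 0 < ε) (hε' : ε ≤ 1 / 4) (hκ : 0 < κ) (hr : 0 < r)
    (s : ℝ) (x : ℂ) :
    ∫⁻ y : ℂ, ENNReal.ofReal (Gp ε L δ κ r ![(s : ℂ), x, y]) ≤
      ENNReal.ofReal (2 * Real.pi * κ * Real.exp (-2 * s) *
        P1 ε (L - eta s - δ * ‖x‖ ^ 2)) := by
  set ρ : ℝ := L - eta s - δ * ‖x‖ ^ 2 with hρ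
  set f : ℝ → ENNReal := fun T => ENNReal.ofReal (κ * Real.exp (-2 * s)) *
    ENNReal.ofReal (P2 ε (ρ - κ * S T) * (κ * sg T)) with hf
  have hfm : Measurable f := by
    apply Measurable.const_mul
    apply Measurable.ennreal_ofReal
    have h1 : Continuous (fun T => P2 ε (ρ - κ * S T)) :=
      (P2_contDiff ε).continuous.comp (continuous_const.sub
        (continuous_const.mul S_contDiff.continuous))
    exact (h1.mul (continuous_const.mul sg_continuous)).measurable
  have hpt : ∀ y : ℂ, ENNReal.ofReal (Gp ε L δ κ r ![(s : ℂ), x, y]) ≤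
      f (Real.log (r / ‖y‖)) * ENNReal.ofReal (1 / ‖y‖ ^ 2) := by
    intro y
    have e0 : (![(s : ℂ), x, y] : E3) 0 = s := rfl
    have e1 : (![(s : ℂ), x, y] : E3) 1 = x := rfl
    have e2 : (![(s : ℂ), x, y] : E3) 2 = y := rfl
    simp only [hf, Gp, uf, rho, Tf, e0, e1, e2, Complex.ofReal_re]
    rw [← hρ]
    set T := Real.log (r / ‖y‖) with hT
    rw [← ENNReal.ofReal_mul (by positivity), ← ENNReal.ofReal_mul (by
      have := P2_nonneg ε (ρ - κ * S T)
      have := sg_nonneg T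
      positivity)]
    apply ENNReal.ofReal_le_ofReal
    have hP := P2_nonneg ε (ρ - κ * S T)
    have hs := sg_nonneg T
    have hs1 := sg_le_one T
    have hsq : sg T ^ 2 ≤ sg T := by nlinarith
    have hθ : 1 - 2 * ε ≤ 1 := by linarith
    have hθ0 : 0 ≤ 1 - 2 * ε := by linarith
    have hE := (Real.exp_pos (-2 * s)).le
    rw [div_eq_mul_inv, one_div]
    apply mul_le_mul_of_nonneg_right _ (by positivity)
    calc Real.exp (-2 * s) * (1 - 2 * ε) * P2 ε (ρ - κ * S T) * κ ^ 2 * sg T ^ 2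
        ≤ Real.exp (-2 * s) * 1 * P2 ε (ρ - κ * S T) * κ ^ 2 * sg T := by gcongr
      _ = κ * Real.exp (-2 * s) * (P2 ε (ρ - κ * S T) * (κ * sg T)) := by ring
  calc ∫⁻ y : ℂ, ENNReal.ofReal (Gp ε L δ κ r ![(s : ℂ), x, y])
      ≤ ∫⁻ y : ℂ, f (Real.log (r / ‖y‖)) * ENNReal.ofReal (1 / ‖y‖ ^ 2) := lintegral_mono hpt
    _ = ENNReal.ofReal (2 * Real.pi) * ∫⁻ T : ℝ, f T := lintegral_logpolar r hr f hfm
    _ = ENNReal.ofReal (2 * Real.pi) * (ENNReal.ofReal (κ * Real.exp (-2 * s)) *
          ∫⁻ T : ℝ, ENNReal.ofReal (P2 ε (ρ - κ * S T) * (κ * sg T))) := by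
        rw [hf, lintegral_const_mul' _ _ ENNReal.ofReal_ne_top]
    _ ≤ ENNReal.ofReal (2 * Real.pi) * (ENNReal.ofReal (κ * Real.exp (-2 * s)) *
          ENNReal.ofReal (P1 ε ρ)) := by
        gcongr
        exact lintegral_P2 hε hκ ρ
    _ = ENNReal.ofReal (2 * Real.pi * κ * Real.exp (-2 * s) * P1 ε ρ) := by
        rw [← ENNReal.ofReal_mul (by positivity), ← ENNReal.ofReal_mul (by positivity)]
        congr 1
        ring

lemma sq_le_exp {t : ℝ} (ht : 0 ≤ t) : t ^ 2 ≤ Real.exp t := by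
  have h1 : 1 + t / 2 + (t / 2) ^ 2 / 2 ≤ Real.exp (t / 2) :=
    Real.quadratic_le_exp_of_nonneg (by linarith)
  have h2 : t ≤ Real.exp (t / 2) := by nlinarith [sq_nonneg (t - 2)]
  have h3 : Real.exp t = Real.exp (t / 2) ^ 2 := by
    rw [← Real.exp_nat_mul]
    congr 1
    push_cast
    ring
  rw [h3]
  exact pow_le_pow_left₀ ht h2 2

/-- pointwise bound of the density after the fibre integration -/
lemma A_P1_le {ε om L δ Cs : ℝ} (hε : 0 < ε) (hε' : ε ≤ 1 / 4) (hom : 0 ≤ om)
    (hom' : om ≤ 1) (hL : 0 ≤ L) (hδ : 0 < δ) (hCs1 : 1 ≤ Cs)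
    (hCs : ∀ t, dsg t ≤ Cs) (s ρ : ℝ) (hρ0 : 0 < ρ) (hρ : ρ ≤ L - eta s) :
    (1 + om - 4 * (1 - 2 * ε) * P2 ε ρ * (1 / 2 - sg s) ^ 2 +
      2 * (1 - 2 * ε) * P1 ε ρ * dsg s) * P1 ε ρ ≤
      (om + 2 * ε) * (L - eta s) + 2 * ε +
        (if 0 < s ∧ s < 1 then (2 + 2 * Cs * (L + 1)) * (L - eta s) else 0) := by
  have hP1 := P1_nonneg hε ρ
  have hP1' := P1_le hε hρ0.le
  have hP2 := P2_nonneg ε ρ
  have hg0 : 0 < L - eta s := lt_of_lt_of_le hρ0 hρ
  split_ifs with hs
  · have h1 : L - eta s ≤ L + 1 := by linarith [neg_one_le_eta s]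
    have h2 : 0 ≤ 4 * (1 - 2 * ε) * P2 ε ρ * (1 / 2 - sg s) ^ 2 := by
      have : 0 ≤ 1 - 2 * ε := by linarith
      positivity
    have hd0 := dsg_nonneg s
    have h3 : 2 * (1 - 2 * ε) * P1 ε ρ * dsg s ≤ 2 * Cs * (L + 1) := by
      have a1 : P1 ε ρ ≤ L + 1 := by linarith
      calc 2 * (1 - 2 * ε) * P1 ε ρ * dsg s ≤ 2 * 1 * (L + 1) * Cs := by
            gcongr
            · linarith
            · exact hCs s
        _ = 2 * Cs * (L + 1) := by ring
    have h4 : (1 + om - 4 * (1 - 2 * ε) * P2 ε ρ * (1 / 2 - sg s) ^ 2 +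
      2 * (1 - 2 * ε) * P1 ε ρ * dsg s) * P1 ε ρ ≤ (2 + 2 * Cs * (L + 1)) * (L - eta s) := by
      have b1 : (1 + om - 4 * (1 - 2 * ε) * P2 ε ρ * (1 / 2 - sg s) ^ 2 +
        2 * (1 - 2 * ε) * P1 ε ρ * dsg s) ≤ 2 + 2 * Cs * (L + 1) := by linarith
      calc _ ≤ (2 + 2 * Cs * (L + 1)) * P1 ε ρ := mul_le_mul_of_nonneg_right b1 hP1
        _ ≤ (2 + 2 * Cs * (L + 1)) * (L - eta s) := by
            apply mul_le_mul_of_nonneg_left (hP1'.trans hρ)
            positivity
    have h5 : 0 ≤ (om + 2 * ε) * (L - eta s) + 2 * ε := by positivity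
    linarith
  · have hs' : s ≤ 0 ∨ 1 ≤ s := by
      by_contra h
      rw [not_or, not_le, not_le] at h
      exact hs h
    have ha : (1 / 2 - sg s) ^ 2 = 1 / 4 := by
      rcases hs' with h | h
      · rw [sg_of_nonpos h]; norm_num
      · rw [sg_of_one_le h]; norm_num
    have hd : dsg s = 0 := by
      rcases hs' with h | h
      · exact dsg_of_nonpos h
      · exact dsg_of_one_le h
    rw [ha, hd]
    by_cases hρε : ε ≤ ρ
    · rw [P2_of_le hε hρε]
      have : (om + 2 * ε) * P1 ε ρ ≤ (om + 2 * ε) * (L - eta s) :=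
        mul_le_mul_of_nonneg_left (hP1'.trans hρ) (by positivity)
      nlinarith
    · rw [not_le] at hρε
      have h1 : (1 + om - 4 * (1 - 2 * ε) * P2 ε ρ * (1 / 4) + 2 * (1 - 2 * ε) * P1 ε ρ * 0) ≤ 2 := by
        have : 0 ≤ (1 - 2 * ε) * P2 ε ρ := mul_nonneg (by linarith) hP2
        nlinarith
      have h2 : (1 + om - 4 * (1 - 2 * ε) * P2 ε ρ * (1 / 4) +
        2 * (1 - 2 * ε) * P1 ε ρ * 0) * P1 ε ρ ≤ 2 * P1 ε ρ := mul_le_mul_of_nonneg_right h1 hP1
      have h3 : 0 ≤ (om + 2 * ε) * (L - eta s) := by positivity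
      linarith

/-- the function of `s` after both integrations -/
lemma inner_le {ε om L δ κ r Cs : ℝ} (hε : 0 < ε) (hε' : ε ≤ 1 / 4) (hom : 0 ≤ om)
    (hom' : om ≤ 1) (hL : 0 ≤ L) (hδ : 0 < δ) (hκ : 0 < κ) (hr : 0 < r) (hCs1 : 1 ≤ Cs)
    (hCs : ∀ t, dsg t ≤ Cs) (s : ℝ) :
    ∫⁻ x : ℂ, ∫⁻ y : ℂ, ENNReal.ofReal (Th ε om L δ κ r ![(s : ℂ), x, y]) ≤
      ENNReal.ofReal ((2 * Real.pi ^ 2 * κ / δ) * (Real.exp (-2 * s) *
        ((om + 2 * ε) * max (L - eta s) 0 + 2 * ε +
        (if 0 < s ∧ s < 1 then (2 + 2 * Cs * (L + 1)) * max (L - eta s) 0 else 0)) *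
          max (L - eta s) 0)) := by
  set g : ℝ := max (L - eta s) 0 with hg
  have hg0 : 0 ≤ g := le_max_right _ _
  set K : ℝ := (om + 2 * ε) * g + 2 * ε +
        (if 0 < s ∧ s < 1 then (2 + 2 * Cs * (L + 1)) * g else 0) with hK
  have hK0 : 0 ≤ K := by
    have : 0 ≤ (if 0 < s ∧ s < 1 then (2 + 2 * Cs * (L + 1)) * g else 0) := by
      split_ifs
      · positivity
      · exact le_rfl
    positivity
  set f : ℝ → ENNReal := (Iio (g / δ)).indicator
    (fun _ => ENNReal.ofReal (2 * Real.pi * κ * Real.exp (-2 * s) * K)) with hf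
  have hfm : Measurable f := measurable_const.indicator measurableSet_Iio
  have hpt : ∀ x : ℂ, ∫⁻ y : ℂ, ENNReal.ofReal (Th ε om L δ κ r ![(s : ℂ), x, y]) ≤
      f (‖x‖ ^ 2) := by
    intro x
    set ρ : ℝ := L - eta s - δ * ‖x‖ ^ 2 with hρ
    set A : ℝ := (1 + om - 4 * (1 - 2 * ε) * P2 ε ρ * (1 / 2 - sg s) ^ 2 +
      2 * (1 - 2 * ε) * P1 ε ρ * dsg s) with hA
    have hP1 := P1_nonneg hε ρ
    have hA0 : 0 ≤ A := by
      have h1 := P2_le_one ε ρ
      have h1' := P2_nonneg ε ρ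
      have h2 := sg_nonneg s
      have h3 := sg_le_one s
      have h4 : (1 / 2 - sg s) ^ 2 ≤ 1 / 4 := by nlinarith
      have h5 : 4 * (1 - 2 * ε) * P2 ε ρ * (1 / 2 - sg s) ^ 2 ≤ 4 * 1 * 1 * (1 / 4) := by
        gcongr
        · linarith
      have h6 : 0 ≤ 2 * (1 - 2 * ε) * P1 ε ρ * dsg s := by
        have := dsg_nonneg s
        have : 0 ≤ 1 - 2 * ε := by linarith
        positivity
      rw [hA]
      linarith
    have hTh : ∀ y : ℂ, ENNReal.ofReal (Th ε om L δ κ r ![(s : ℂ), x, y]) =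
        ENNReal.ofReal A * ENNReal.ofReal (Gp ε L δ κ r ![(s : ℂ), x, y]) := by
      intro y
      rw [← ENNReal.ofReal_mul hA0]
      rfl
    calc ∫⁻ y : ℂ, ENNReal.ofReal (Th ε om L δ κ r ![(s : ℂ), x, y])
        = ENNReal.ofReal A * ∫⁻ y : ℂ, ENNReal.ofReal (Gp ε L δ κ r ![(s : ℂ), x, y]) := by
          simp only [hTh]
          rw [lintegral_const_mul' _ _ ENNReal.ofReal_ne_top]
      _ ≤ ENNReal.ofReal A * ENNReal.ofReal (2 * Real.pi * κ * Real.exp (-2 * s) * P1 ε ρ) := by
          gcongr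
          exact lintegral_Gp hε hε' hκ hr s x
      _ = ENNReal.ofReal (2 * Real.pi * κ * Real.exp (-2 * s) * (A * P1 ε ρ)) := by
          rw [← ENNReal.ofReal_mul hA0]
          congr 1
          ring
      _ ≤ f (‖x‖ ^ 2) := by
          by_cases hρ0 : 0 < ρ
          · have hge : L - eta s ≤ g := le_max_left _ _
            have hx2 : 0 ≤ δ * ‖x‖ ^ 2 := by positivity
            have hgpos : 0 < L - eta s := by rw [hρ] at hρ0; linarith
            have hmem : ‖x‖ ^ 2 ∈ Iio (g / δ) := by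
              rw [mem_Iio, lt_div_iff₀ hδ]
              rw [hρ] at hρ0
              linarith
            rw [hf, indicator_of_mem hmem]
            apply ENNReal.ofReal_le_ofReal
            apply mul_le_mul_of_nonneg_left _ (by positivity)
            have h1 := A_P1_le hε hε' hom hom' hL hδ hCs1 hCs s ρ hρ0 (by rw [hρ]; linarith)
            have hgeq : g = L - eta s := max_eq_left hgpos.le
            rw [hK, hgeq]
            exact h1
          · rw [P1_of_nonpos hε (not_lt.1 hρ0)]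
            simp
  calc ∫⁻ x : ℂ, ∫⁻ y : ℂ, ENNReal.ofReal (Th ε om L δ κ r ![(s : ℂ), x, y])
      ≤ ∫⁻ x : ℂ, f (‖x‖ ^ 2) := lintegral_mono hpt
    _ = ENNReal.ofReal Real.pi * ∫⁻ t in Set.Ioi (0 : ℝ), f t := lintegral_sqnorm f hfm
    _ = ENNReal.ofReal Real.pi * (ENNReal.ofReal (2 * Real.pi * κ * Real.exp (-2 * s) * K) *
          ENNReal.ofReal (g / δ)) := by
        congr 1
        rw [hf, lintegral_indicator measurableSet_Iio, Measure.restrict_restrict measurableSet_Iio,
          setLIntegral_const]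
        congr 1
        have : Iio (g / δ) ∩ Ioi 0 = Ioo 0 (g / δ) := by
          ext t
          simp only [mem_inter_iff, mem_Iio, mem_Ioi, mem_Ioo]
          tauto
        rw [this, Real.volume_Ioo, sub_zero]
    _ = ENNReal.ofReal ((2 * Real.pi ^ 2 * κ / δ) * (Real.exp (-2 * s) * K * g)) := by
        rw [← ENNReal.ofReal_mul (by positivity), ← ENNReal.ofReal_mul (by positivity)]
        congr 1
        ring

/-- total mass of one sheet -/
theorem lintegral_Th {ε om L δ κ r Cs : ℝ} (hε : 0 < ε) (hε' : ε ≤ 1 / 4) (hom : 0 ≤ om)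
    (hom' : om ≤ 1) (hL : 0 ≤ L) (hδ : 0 < δ) (hκ : 0 < κ) (hr : 0 < r) (hCs1 : 1 ≤ Cs)
    (hCs : ∀ t, dsg t ≤ Cs) :
    ∫⁻ s : ℝ, ∫⁻ x : ℂ, ∫⁻ y : ℂ, ENNReal.ofReal (Th ε om L δ κ r ![(s : ℂ), x, y]) ≤
      ENNReal.ofReal ((2 * Real.pi ^ 2 * κ / δ) *
        ((om + 4 * ε) * (Real.exp (2 * L) + (L + 1) ^ 2) +
          (2 + 2 * Cs * (L + 1)) * (L + 1) ^ 2)) := by
  set c : ℝ := 2 * Real.pi ^ 2 * κ / δ with hc
  have hc0 : 0 ≤ c := by positivity
  set D : ℝ := (2 + 2 * Cs * (L + 1)) * (L + 1) ^ 2 with hD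
  have hD0 : 0 ≤ D := by positivity
  -- majorant
  set F1 : ℝ → ENNReal := (Ioc (-L) 0).indicator
    (fun s => ENNReal.ofReal (c * (om + 4 * ε)) * ENNReal.ofReal (Real.exp (L - s))) with hF1
  set F2 : ℝ → ENNReal := (Ioi (0:ℝ)).indicator
    (fun s => ENNReal.ofReal (c * (om + 4 * ε) * (L + 1) ^ 2) * ENNReal.ofReal (Real.exp (-s))) with hF2
  set F3 : ℝ → ENNReal := (Ioo (0:ℝ) 1).indicator (fun _ => ENNReal.ofReal (c * D)) with hF3
  have hF1m : Measurable F1 := by
    apply Measurable.indicator _ measurableSet_Ioc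
    fun_prop
  have hF2m : Measurable F2 := by
    apply Measurable.indicator _ measurableSet_Ioi
    fun_prop
  have hpt : ∀ s : ℝ, ∫⁻ x : ℂ, ∫⁻ y : ℂ, ENNReal.ofReal (Th ε om L δ κ r ![(s : ℂ), x, y]) ≤
      F1 s + F2 s + F3 s := by
    intro s
    refine (inner_le hε hε' hom hom' hL hδ hκ hr hCs1 hCs s).trans ?_
    rw [← hc]
    rcases le_or_gt s 0 with hs | hs
    · rw [if_neg (fun h => absurd h.1 (not_lt.2 hs)), eta_of_nonpos hs]
      by_cases hsL : -L < s
      · have hmem : s ∈ Ioc (-L) 0 := ⟨hsL, hs⟩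
        have h1 : F1 s = ENNReal.ofReal (c * (om + 4 * ε) * Real.exp (L - s)) := by
          rw [hF1, indicator_of_mem hmem, ← ENNReal.ofReal_mul (by positivity)]
        refine le_trans ?_ (le_trans (le_of_eq h1.symm) (by rw [add_assoc]; exact le_self_add))
        apply ENNReal.ofReal_le_ofReal
        rw [mul_assoc c]
        apply mul_le_mul_of_nonneg_left _ hc0
        have ht : 0 ≤ L + s := by linarith
        rw [max_eq_left (by linarith : (0:ℝ) ≤ L - -s)]
        have e1 : L - -s = L + s := by ring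
        rw [e1]
        have e2 : Real.exp (-2 * s) * Real.exp (L + s) = Real.exp (L - s) := by
          rw [← Real.exp_add]; congr 1; ring
        have q1 : (L + s) ^ 2 ≤ Real.exp (L + s) := sq_le_exp ht
        have q2 : (L + s) ≤ Real.exp (L + s) := by linarith [Real.add_one_le_exp (L + s)]
        rw [← e2]
        have hE := Real.exp_pos (-2 * s)
        calc Real.exp (-2 * s) * ((om + 2 * ε) * (L + s) + 2 * ε + 0) * (L + s)
            = Real.exp (-2 * s) * ((om + 2 * ε) * (L + s) ^ 2 + 2 * ε * (L + s)) := by ring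
          _ ≤ Real.exp (-2 * s) * ((om + 2 * ε) * Real.exp (L + s) + 2 * ε * Real.exp (L + s)) := by
              gcongr
          _ = (om + 4 * ε) * (Real.exp (-2 * s) * Real.exp (L + s)) := by ring
      · have : L - -s ≤ 0 := by linarith
        rw [max_eq_right this]
        simp
    · have hgle : max (L - eta s) 0 ≤ L + 1 := max_le (by linarith [neg_one_le_eta s]) (by linarith)
      have hg0 : 0 ≤ max (L - eta s) 0 := le_max_right _ _
      set g := max (L - eta s) 0 with hg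
      have hE0 := Real.exp_pos (-2 * s)
      have hE : Real.exp (-2 * s) ≤ Real.exp (-s) := Real.exp_le_exp.2 (by linarith)
      have hE1 : Real.exp (-2 * s) ≤ 1 := Real.exp_le_one_iff.2 (by linarith)
      have hL1 : (1:ℝ) ≤ L + 1 := by linarith
      have h2 : F2 s = ENNReal.ofReal (c * ((om + 4 * ε) * (L + 1) ^ 2 * Real.exp (-s))) := by
        rw [hF2, indicator_of_mem (show s ∈ Ioi (0:ℝ) from hs), ← ENNReal.ofReal_mul (by positivity)]
        congr 1
        ring
      have key1 : Real.exp (-2 * s) * ((om + 2 * ε) * g + 2 * ε) * g ≤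
          (om + 4 * ε) * (L + 1) ^ 2 * Real.exp (-s) := by
        calc Real.exp (-2 * s) * ((om + 2 * ε) * g + 2 * ε) * g
            = ((om + 2 * ε) * g ^ 2 + 2 * ε * g) * Real.exp (-2 * s) := by ring
          _ ≤ ((om + 2 * ε) * (L + 1) ^ 2 + 2 * ε * (L + 1)) * Real.exp (-s) := by gcongr
          _ ≤ ((om + 2 * ε) * (L + 1) ^ 2 + 2 * ε * (L + 1) ^ 2) * Real.exp (-s) := by
              gcongr
              nlinarith
          _ = (om + 4 * ε) * (L + 1) ^ 2 * Real.exp (-s) := by ring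
      by_cases hs1 : s < 1
      · have h3 : F3 s = ENNReal.ofReal (c * D) := by
          rw [hF3, indicator_of_mem (show s ∈ Ioo (0:ℝ) 1 from ⟨hs, hs1⟩)]
        rw [if_pos ⟨hs, hs1⟩, show F1 s + F2 s + F3 s = F1 s + (F2 s + F3 s) from add_assoc _ _ _,
          h2, h3, ← ENNReal.ofReal_add (by positivity) (by positivity)]
        refine le_trans ?_ le_add_self
        apply ENNReal.ofReal_le_ofReal
        rw [← mul_add]
        apply mul_le_mul_of_nonneg_left _ hc0
        have key2 : Real.exp (-2 * s) * ((2 + 2 * Cs * (L + 1)) * g) * g ≤ D := by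
          calc Real.exp (-2 * s) * ((2 + 2 * Cs * (L + 1)) * g) * g
              = Real.exp (-2 * s) * ((2 + 2 * Cs * (L + 1)) * g ^ 2) := by ring
            _ ≤ 1 * ((2 + 2 * Cs * (L + 1)) * (L + 1) ^ 2) := by gcongr
            _ = D := by rw [hD]; ring
        calc Real.exp (-2 * s) * ((om + 2 * ε) * g + 2 * ε + (2 + 2 * Cs * (L + 1)) * g) * g
            = Real.exp (-2 * s) * ((om + 2 * ε) * g + 2 * ε) * g +
              Real.exp (-2 * s) * ((2 + 2 * Cs * (L + 1)) * g) * g := by ring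
          _ ≤ _ := add_le_add key1 key2
      · rw [if_neg (fun h => hs1 h.2), add_zero]
        refine le_trans ?_ (le_self_add : F1 s + F2 s ≤ F1 s + F2 s + F3 s)
        refine le_trans ?_ (le_add_self : F2 s ≤ F1 s + F2 s)
        rw [h2]
        apply ENNReal.ofReal_le_ofReal
        exact mul_le_mul_of_nonneg_left key1 hc0
  have I1 : ∫⁻ s, F1 s ≤ ENNReal.ofReal (c * (om + 4 * ε) * Real.exp (2 * L)) := by
    rw [hF1, lintegral_indicator measurableSet_Ioc, lintegral_const_mul' _ _ ENNReal.ofReal_ne_top,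
      ENNReal.ofReal_mul (p := c * (om + 4 * ε)) (by positivity)]
    gcongr
    rw [← ofReal_integral_eq_lintegral_ofReal]
    · apply ENNReal.ofReal_le_ofReal
      rw [← intervalIntegral.integral_of_le (by linarith)]
      have hder : ∀ s : ℝ, HasDerivAt (fun s => - Real.exp (L - s)) (Real.exp (L - s)) s := by
        intro s
        have h1 : HasDerivAt (fun s => L - s) (-1) s := by
          simpa using (hasDerivAt_id s).const_sub L
        have h2 := (h1.exp).neg
        refine HasDerivAt.congr_deriv h2 ?_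
        ring
      rw [intervalIntegral.integral_eq_sub_of_hasDerivAt (fun s _ => hder s)
        (by apply Continuous.intervalIntegrable; fun_prop)]
      have e1 : L - -L = 2 * L := by ring
      rw [e1]
      have := Real.exp_pos (L - 0)
      linarith
    · exact (Continuous.integrableOn_Icc (by fun_prop)).mono_set Ioc_subset_Icc_self
    · exact Filter.Eventually.of_forall fun s => (Real.exp_pos _).le
  have I2 : ∫⁻ s, F2 s ≤ ENNReal.ofReal (c * (om + 4 * ε) * (L + 1) ^ 2) := by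
    rw [hF2, lintegral_indicator measurableSet_Ioi, lintegral_const_mul' _ _ ENNReal.ofReal_ne_top,
      ← ofReal_integral_eq_lintegral_ofReal, integral_exp_neg_Ioi_zero]
    · simp
    · have := (integrableOn_exp_neg_Ioi 0)
      exact this
    · exact Filter.Eventually.of_forall fun s => (Real.exp_pos _).le
  have I3 : ∫⁻ s, F3 s ≤ ENNReal.ofReal (c * D) := by
    rw [hF3, lintegral_indicator measurableSet_Ioo, setLIntegral_const, Real.volume_Ioo]
    simp
  calc ∫⁻ s : ℝ, ∫⁻ x : ℂ, ∫⁻ y : ℂ, ENNReal.ofReal (Th ε om L δ κ r ![(s : ℂ), x, y])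
      ≤ ∫⁻ s, (F1 s + F2 s + F3 s) := lintegral_mono hpt
    _ = (∫⁻ s, F1 s) + (∫⁻ s, F2 s) + ∫⁻ s, F3 s := by
        rw [lintegral_add_left (f := fun s => F1 s + F2 s) (hF1m.add hF2m), lintegral_add_left hF1m]
    _ ≤ ENNReal.ofReal (c * (om + 4 * ε) * Real.exp (2 * L)) +
          ENNReal.ofReal (c * (om + 4 * ε) * (L + 1) ^ 2) + ENNReal.ofReal (c * D) := by
        gcongr
    _ = _ := by
        rw [← ENNReal.ofReal_add (by positivity) (by positivity),
          ← ENNReal.ofReal_add (by positivity) (by positivity)]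
        congr 1
        ring

end Pool.Agent.NKM
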