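import Pool.Agent.NKM.SL
import Pool.Agent.NKM.PS
import Pool.Agent.NKM.PW
import Pool.Agent.NKM.FAR
import Pool.Agent.NKM.BG3
import Pool.Agent.NKM.TI
import Pool.Agent.NKM.UF

set_option autoImplicit false
open scoped Manifold ContDiff Topology ComplexConjugate
open MeasureTheory Set

namespace Pool.Agent.NKM

/-- offset of the family `i` -/
noncomputable def tau {Pn : ℕ} (pp : ℕ) (i : Fin Pn) : ℝ := ((i : ℝ) + 1) / pp

/-- shifted sheet potential of the family `i` -/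
noncomputable def Wi (ε ell r : ℝ) (Pn pp q : ℕ) (i : Fin Pn) (p : E3) : ℝ :=
  Wf ε (Lv ell Pn i) (dl q) (kap ε ell Pn q i) r (p - ![0, (tau pp i : ℂ), (tau pp i : ℂ)])

/-- the total potential -/
noncomputable def phi (ε ell r : ℝ) (Pn pp q : ℕ) (p : E3) : ℝ :=
  ∑ i : Fin Pn, PS (Wi ε ell r Pn pp q i) p

lemma two_le_infty : (2 : WithTop ℕ∞) ≤ ∞ := WithTop.coe_le_coe.2 (le_top : (2 : ℕ∞) ≤ ⊤)

lemma dl_pos (q : ℕ) : 0 < dl q := by
  have := gr_pos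
  unfold dl; positivity

lemma dl_le_one (q : ℕ) : dl q ≤ 1 := by
  unfold dl
  exact inv_le_one_of_one_le₀ (one_le_pow₀ one_lt_gr.le)

lemma dl_tendsto : Filter.Tendsto dl Filter.atTop (𝓝 0) := by
  have h1 : Filter.Tendsto (fun q : ℕ => ((gr ^ 8)⁻¹) ^ q) Filter.atTop (𝓝 0) := by
    apply tendsto_pow_atTop_nhds_zero_of_lt_one
    · have := gr_pos; positivity
    · apply inv_lt_one_of_one_lt₀
      exact one_lt_pow₀ one_lt_gr (by norm_num)
  refine h1.congr fun q => ?_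
  unfold dl
  rw [inv_pow, ← pow_mul]

lemma Amp_pos {ε : ℝ} {Pn : ℕ} (hε : 0 < ε) (hε' : ε ≤ 1 / 4) (hPn : 0 < Pn) :
    0 < Amp ε Pn := by
  have h1 := (If_bounds hε hε').1
  have h2 : 0 < If ε := by linarith
  have h3 := t0_pos
  have h4 : 0 < 1 - 3 * ε := by linarith
  unfold Amp; positivity

lemma kap_pos {ε ell : ℝ} {Pn q : ℕ} (hε : 0 < ε) (hε' : ε ≤ 1 / 4) (hPn : 0 < Pn)
    (i : Fin Pn) : 0 < kap ε ell Pn q i := by
  have h1 := Amp_pos hε hε' hPn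
  have h2 := dl_pos q
  have h3 : 0 < 1 - 2 * ε := by linarith
  unfold kap; positivity

lemma Lv_nonneg {ell : ℝ} (hell : 0 ≤ ell) {Pn : ℕ} (i : Fin Pn) : 0 ≤ Lv ell Pn i := by
  have := t0_pos
  unfold Lv; positivity

lemma t0_le_one : t0 ≤ 1 := by
  unfold t0
  have h := Real.log_le_sub_one_of_pos gr_pos
  have := gr_lt_two
  linarith

lemma Lv_le {ell : ℝ} {Pn : ℕ} (i : Fin Pn) : Lv ell Pn i ≤ ell + 1 := by
  have h0 := t0_pos
  have h1 := t0_le_one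
  have hPn : 0 < (Pn : ℝ) := by
    have : 0 < Pn := i.pos
    exact_mod_cast this
  unfold Lv
  have h2 : (i : ℝ) ≤ Pn := by
    have := i.is_lt.le
    exact_mod_cast this
  have h3 : (i : ℝ) * (t0 / Pn) ≤ t0 := by
    rw [mul_div_assoc', div_le_iff₀ hPn]
    nlinarith
  linarith

lemma spt_apply_0 (τ : ℝ) (j : Lat × ℤ) (p : E3) :
    (spt τ j p 0).re = (p 0).re + j.2 * t0 := by
  have h : spt τ j p 0 = gact j p 0 - 0 := rfl
  rw [h, gact, smul_apply_0]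
  simp

/-- support box of the shifted sheet potential -/
lemma Wi_support {ε ell r : ℝ} {Pn pp q : ℕ} (hε : 0 < ε) (hε' : ε ≤ 1 / 4) (hell : 0 ≤ ell)
    (hr : 0 < r) (i : Fin Pn) (p : E3)
    (h : ¬ (|(p 0).re| ≤ ell + 3 + √((ell + 2) / dl q) + r + Pn + 1 ∧
      ‖p 1‖ ≤ ell + 3 + √((ell + 2) / dl q) + r + Pn + 1 ∧
      ‖p 2‖ ≤ ell + 3 + √((ell + 2) / dl q) + r + Pn + 1)) :
    rho (Lv ell Pn i) (dl q) (p - ![0, (tau pp i : ℂ), (tau pp i : ℂ)]) ≤ 0 ∨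
      r ≤ ‖(p - ![0, (tau pp i : ℂ), (tau pp i : ℂ)]) 2‖ := by
  by_contra hcon
  push Not at hcon
  obtain ⟨h1, h2⟩ := hcon
  have hδ := dl_pos q
  obtain ⟨a1, a2, a3, -⟩ := active_bounds hδ.le h1
  have hL := Lv_le (ell := ell) i
  have hL0 := Lv_nonneg hell i
  have hsq : 0 ≤ √((ell + 2) / dl q) := Real.sqrt_nonneg _
  have htau : ‖(tau pp i : ℂ)‖ ≤ Pn := by
    rw [Complex.norm_real, Real.norm_eq_abs]
    have hpos : 0 ≤ tau pp i := by unfold tau; positivity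
    rw [abs_of_nonneg hpos]
    unfold tau
    have hi : (i : ℝ) + 1 ≤ Pn := by
      have := i.is_lt
      exact_mod_cast this
    rcases Nat.eq_zero_or_pos pp with hp | hp
    · rw [hp]; simp
    · have hp1 : (1 : ℝ) ≤ pp := by exact_mod_cast hp
      calc ((i : ℝ) + 1) / pp ≤ ((i : ℝ) + 1) / 1 := by gcongr
        _ ≤ Pn := by simpa using hi
  have e0 : (p - ![0, (tau pp i : ℂ), (tau pp i : ℂ)]) 0 = p 0 := by simp
  have e1' : (p - ![0, (tau pp i : ℂ), (tau pp i : ℂ)]) 1 = p 1 - tau pp i := by simp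
  have e2' : (p - ![0, (tau pp i : ℂ), (tau pp i : ℂ)]) 2 = p 2 - tau pp i := by simp
  rw [e0] at a1 a2
  rw [e1'] at a3
  rw [e2'] at h2
  apply h
  have hPn0 : (0 : ℝ) ≤ Pn := Nat.cast_nonneg _
  refine ⟨?_, ?_, ?_⟩
  · rw [abs_le]; constructor <;> linarith
  · have hx : ‖p 1 - tau pp i‖ ≤ √((ell + 2) / dl q) := by
      apply Real.le_sqrt_of_sq_le
      rw [le_div_iff₀ hδ]
      nlinarith
    have : ‖p 1‖ ≤ ‖p 1 - tau pp i‖ + ‖(tau pp i : ℂ)‖ := by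
      have := norm_add_le (p 1 - tau pp i) (tau pp i : ℂ)
      simpa using this
    linarith
  · have : ‖p 2‖ ≤ ‖p 2 - tau pp i‖ + ‖(tau pp i : ℂ)‖ := by
      have := norm_add_le (p 2 - tau pp i) (tau pp i : ℂ)
      simpa using this
    linarith

section fixed

variable {ε ell r : ℝ} {Pn pp q : ℕ}

lemma Wi_contDiff (hε : 0 < ε) (hε' : ε ≤ 1 / 4) (hr : 0 < r) (i : Fin Pn) :
    ContDiff ℝ ∞ (Wi ε ell r Pn pp q i) := by
  have h := Wf_contDiff (L := Lv ell Pn i) (r := r) hε (dl_pos q).le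
    (kap_pos (ell := ell) (q := q) hε hε' i.pos i) hr
  exact h.comp (contDiff_id.sub contDiff_const)

lemma Wi_supp (hε : 0 < ε) (hε' : ε ≤ 1 / 4) (hell : 0 ≤ ell) (hr : 0 < r) (i : Fin Pn)
    (p : E3) (h : Wi ε ell r Pn pp q i p ≠ 0) :
    |(p 0).re| ≤ ell + 3 + √((ell + 2) / dl q) + r + Pn + 1 ∧
      ‖p 1‖ ≤ ell + 3 + √((ell + 2) / dl q) + r + Pn + 1 ∧
      ‖p 2‖ ≤ ell + 3 + √((ell + 2) / dl q) + r + Pn + 1 := by
  by_contra hcon
  apply h
  exact Wf_eq_zero hε (kap_pos hε hε' i.pos i).le hr (Wi_support hε hε' hell hr i p hcon)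

lemma Wi_per (i : Fin Pn) (p : E3) (t : ℝ) :
    Wi ε ell r Pn pp q i ![p 0 + t * Complex.I, p 1, p 2] = Wi ε ell r Pn pp q i p := by
  unfold Wi Wf uf rho Tf
  simp

lemma phi_contDiff (hε : 0 < ε) (hε' : ε ≤ 1 / 4) (hell : 0 ≤ ell) (hr : 0 < r) :
    ContDiff ℝ ∞ (phi ε ell r Pn pp q) := by
  unfold phi
  apply ContDiff.sum
  intro i _
  exact PS_contDiff (Wi_contDiff hε hε' hr i) (Wi_supp hε hε' hell hr i)

lemma phi_inv (g : Gam) (p : E3) : phi ε ell r Pn pp q (g • p) = phi ε ell r Pn pp q p := by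
  unfold phi
  apply Finset.sum_congr rfl
  intro i _
  exact PS_inv (Wi_per i) g p

lemma leviQ_Wi (hε : 0 < ε) (hε' : ε ≤ 1 / 4) (hr : 0 < r) (i : Fin Pn) (p v : E3) :
    leviQ (Wi ε ell r Pn pp q i) p v =
      Nf ε (Lv ell Pn i) (dl q) (kap ε ell Pn q i) r
        (p - ![0, (tau pp i : ℂ), (tau pp i : ℂ)]) v -
      Rf ε (Lv ell Pn i) (dl q) (kap ε ell Pn q i) r
        (p - ![0, (tau pp i : ℂ), (tau pp i : ℂ)]) * ‖v 2‖ ^ 2 := by
  have hk := kap_pos (ell := ell) (q := q) hε hε' i.pos i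
  have hW := Wf_contDiff (L := Lv ell Pn i) (r := r) hε (dl_pos q).le hk hr
  rw [← leviQ_Wf hε (dl_pos q).le hk hr]
  have h := leviQ_affine (hW.of_le two_le_infty)
    (ContinuousLinearMap.id ℂ E3) (-![0, (tau pp i : ℂ), (tau pp i : ℂ)]) p v
  simp only [ContinuousLinearMap.id_apply, ← sub_eq_add_neg] at h
  exact h

/-- the finite set of relevant deck transformations -/
noncomputable def Sfin (ε ell r : ℝ) (Pn q : ℕ) (p : E3) : Finset (Lat × ℤ) :=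
  (finite_active (ell + 3 + √((ell + 2) / dl q) + r + Pn + 1) p).toFinset

lemma inactive_of_not_mem (hε : 0 < ε) (hε' : ε ≤ 1 / 4) (hell : 0 ≤ ell) (hr : 0 < r)
    (i : Fin Pn) (p : E3) {j : Lat × ℤ} (hj : j ∉ Sfin ε ell r Pn q p) :
    rho (Lv ell Pn i) (dl q) (spt (tau pp i) j p) ≤ 0 ∨ r ≤ ‖spt (tau pp i) j p 2‖ := by
  apply Wi_support hε hε' hell hr i (gact j p)
  intro hcon
  apply hj
  rw [Sfin, Set.Finite.mem_toFinset]
  exact hcon

lemma leviQ_phi (hε : 0 < ε) (hε' : ε ≤ 1 / 4) (hell : 0 ≤ ell) (hr : 0 < r) (p v : E3) :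
    leviQ (phi ε ell r Pn pp q) p v =
      ∑ j ∈ (Finset.univ : Finset (Fin Pn)) ×ˢ Sfin ε ell r Pn q p,
        (Nf ε (Lv ell Pn j.1) (dl q) (kap ε ell Pn q j.1) r (spt (tau pp j.1) j.2 p)
          (lin j.2.2 v) -
        Rf ε (Lv ell Pn j.1) (dl q) (kap ε ell Pn q j.1) r (spt (tau pp j.1) j.2 p) *
          ‖lin j.2.2 v 2‖ ^ 2) := by
  have h1 : leviQ (phi ε ell r Pn pp q) p v =
      ∑ i : Fin Pn, leviQ (PS (Wi ε ell r Pn pp q i)) p v := by
    unfold phi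
    apply leviQ_sum
    intro i _
    have := PS_contDiff (Wi_contDiff (ell := ell) (pp := pp) (q := q) hε hε' hr i)
      (Wi_supp hε hε' hell hr i)
    exact (this.of_le two_le_infty).contDiffAt
  rw [h1, Finset.sum_product]
  apply Finset.sum_congr rfl
  intro i _
  rw [PS_levi (Wi_contDiff hε hε' hr i) (Wi_supp hε hε' hell hr i)]
  rw [tsum_eq_sum (s := Sfin ε ell r Pn q p)]
  · apply Finset.sum_congr rfl
    intro j _
    rw [leviQ_Wi hε hε' hr]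
    rfl
  · intro j hj
    rw [leviQ_Wi hε hε' hr]
    have h2 := inactive_of_not_mem (pp := pp) hε hε' hell hr i p hj
    have h3 := Nf_inactive hε (kap_pos (ell := ell) (q := q) hε hε' i.pos i).le hr h2
      (lin j.2 v)
    have e : gact j p - ![0, (tau pp i : ℂ), (tau pp i : ℂ)] = spt (tau pp i) j p := rfl
    rw [e, h3.1, h3.2]
    simp

end fixed

end Pool.Agent.NKM
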