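import Pool.Agent.NKM.Glue

set_option autoImplicit false
open scoped Manifold ContDiff Topology ComplexConjugate
open MeasureTheory Set

namespace Pool.Agent.NKM

lemma hmat_isHermitian (p : E3) : (hmat p).IsHermitian := by
  rw [hmat, Matrix.isHermitian_diagonal_iff]
  intro i
  fin_cases i
  · simp [isSelfAdjoint_iff]
  · simp only [isSelfAdjoint_iff]
    exact Complex.conj_ofReal _
  · simp only [isSelfAdjoint_iff]
    exact Complex.conj_ofReal _

lemma hermForm_add {n : ℕ} (A B : Matrix (Fin n) (Fin n) ℂ) (v : Fin n → ℂ) :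
    hermForm (A + B) v = hermForm A v + hermForm B v := by
  unfold hermForm
  rw [← Finset.sum_add_distrib]
  apply Finset.sum_congr rfl
  intro j _
  rw [← Finset.sum_add_distrib]
  apply Finset.sum_congr rfl
  intro k _
  rw [Matrix.add_apply]; ring

/-- pointwise conclusion for the total potential -/
theorem phi_pointwise {ε ell r Cs C2 : ℝ} {Pn pp q : ℕ} (hε : 0 < ε) (hε' : ε ≤ 1 / 4)
    (hell : 0 ≤ ell) (hr : 0 < r) (hr1 : r ≤ 1) (hCs : ∀ t, dsg t ≤ Cs) (hCs1 : 1 ≤ Cs)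
    (hc : 4 * (1 + 1 / ε) * dl q * (ell + 1 + 1) * Real.exp (2 * (ell + 1 + 2)) ≤ ε)
    (hfar : ∀ (p : E3) (J : Finset (Fin Pn × (Lat × ℤ))),
      ∃ near : Finset (Fin Pn × (Lat × ℤ)),
        near ⊆ J ∧ near.card ≤ 1 ∧
        (∀ j ∈ J \ near,
          0 < rho (Lv ell Pn j.1) (dl q) (spt (((j.1 : ℝ) + 1) / pp) j.2 p) →
          ‖spt (((j.1 : ℝ) + 1) / pp) j.2 p 2‖ < r →
          spt (((j.1 : ℝ) + 1) / pp) j.2 p 2 ≠ 0) ∧
        ∑ j ∈ (J \ near).filter (fun j =>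
            0 < rho (Lv ell Pn j.1) (dl q) (spt (((j.1 : ℝ) + 1) / pp) j.2 p) ∧
            ‖spt (((j.1 : ℝ) + 1) / pp) j.2 p 2‖ < r),
          kap ε ell Pn q j.1 / ‖spt (((j.1 : ℝ) + 1) / pp) j.2 p 2‖ ≤ C2 * r)
    (hC2 : CF ε (ell + 1) Cs * (C2 * r) ≤ ε)
    (hB : ∀ p : E3,
      1 - 4 * ε ≤ ∑ i : Fin Pn, ∑' j : Lat × ℤ,
        Rf ε (Lv ell Pn i) (dl q) (kap ε ell Pn q i) r (spt (((i : ℝ) + 1) / pp) j p) *
          Real.exp (-2 * (spt (((i : ℝ) + 1) / pp) j p 0).re) ∧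
      ∑ i : Fin Pn, ∑' j : Lat × ℤ,
        Rf ε (Lv ell Pn i) (dl q) (kap ε ell Pn q i) r (spt (((i : ℝ) + 1) / pp) j p) *
          Real.exp (-2 * (spt (((i : ℝ) + 1) / pp) j p 0).re) ≤ 1 - 2 * ε)
    (p : E3) :
    (∀ v, 0 ≤ (hermForm (hmat p + leviMatrix (phi ε ell r Pn pp q) p) v).re) ∧
      (hmat p + leviMatrix (phi ε ell r Pn pp q) p).det.re ≤
        12 * ε * (3 + 2 * Cs * (ell + 1 + 1)) +
        2 * ∑ j ∈ (Finset.univ : Finset (Fin Pn)) ×ˢ Sfin ε ell r Pn q p,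
          Th ε ε (Lv ell Pn j.1) (dl q) (kap ε ell Pn q j.1) r (spt (tau pp j.1) j.2 p) := by
  classical
  set J : Finset (Fin Pn × (Lat × ℤ)) :=
    (Finset.univ : Finset (Fin Pn)) ×ˢ Sfin ε ell r Pn q p with hJ
  obtain ⟨near, hnJ, hcard, hne, hsum⟩ := hfar p J
  have hphi := phi_contDiff (Pn := Pn) (pp := pp) (q := q) hε hε' hell hr
  have hphi2 : ContDiffAt ℝ 2 (phi ε ell r Pn pp q) p := (hphi.of_le two_le_infty).contDiffAt
  have hkpos : ∀ i : Fin Pn, 0 < kap ε ell Pn q i := fun i => kap_pos hε hε' i.pos i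
  -- background sums as finite sums
  have hBsum : ∑ j ∈ J, Rf ε (Lv ell Pn j.1) (dl q) (kap ε ell Pn q j.1) r
        (spt (tau pp j.1) j.2 p) * Real.exp (-2 * ((spt (tau pp j.1) j.2 p) 0).re) =
      ∑ i : Fin Pn, ∑' j : Lat × ℤ,
        Rf ε (Lv ell Pn i) (dl q) (kap ε ell Pn q i) r (spt (((i : ℝ) + 1) / pp) j p) *
          Real.exp (-2 * (spt (((i : ℝ) + 1) / pp) j p 0).re) := by
    rw [hJ, Finset.sum_product]
    apply Finset.sum_congr rfl
    intro i _
    rw [tsum_eq_sum (s := Sfin ε ell r Pn q p)]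
    · rfl
    · intro j hj
      have h2 := inactive_of_not_mem (pp := pp) hε hε' hell hr i p hj
      have h3 := Nf_inactive hε (hkpos i).le hr h2 0
      have h4 := h3.2
      unfold tau at h4
      rw [h4, zero_mul]
  have hCFpos : 1 ≤ CF ε (ell + 1) Cs := by
    unfold CF
    have h1 : 0 ≤ Cs / ε := by positivity
    have h2 := Real.exp_pos (ell + 1)
    have h3 := Real.exp_pos (2 * (ell + 1))
    linarith
  have hterm : ∀ j : Fin Pn × (Lat × ℤ), 0 ≤ kap ε ell Pn q j.1 / ‖spt (((j.1 : ℝ) + 1) / pp) j.2 p 2‖ := by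
    intro j
    exact div_nonneg (hkpos j.1).le (norm_nonneg _)
  have hC2r : C2 * r ≤ 1 := by
    by_contra hcon
    push Not at hcon
    nlinarith
  have key := pointwise (ι := Fin Pn × (Lat × ℤ)) J near hnJ hcard (ε := ε) (Lm := ell + 1)
    (δ := dl q) (r := r) (Cs := Cs) (om1 := C2 * r) (by linarith)
    (fun j => Lv ell Pn j.1)
    (fun j => kap ε ell Pn q j.1) (fun j => spt (tau pp j.1) j.2 p) (fun j => j.2.2) p
    hε hε' (dl_pos q).le hr hr1 hCs hCs1
    (fun j _ => ⟨Lv_nonneg hell j.1, Lv_le j.1⟩) (fun j _ => hkpos j.1) hc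
    (fun j _ => spt_apply_0 _ _ _)
    (by
      intro j hj h1 h2
      refine ⟨hne j hj h1 h2, ?_⟩
      have hmem : j ∈ (J \ near).filter (fun j =>
            0 < rho (Lv ell Pn j.1) (dl q) (spt (((j.1 : ℝ) + 1) / pp) j.2 p) ∧
            ‖spt (((j.1 : ℝ) + 1) / pp) j.2 p 2‖ < r) := by
        rw [Finset.mem_filter]
        exact ⟨hj, h1, h2⟩
      have := Finset.single_le_sum (fun k _ => hterm k) hmem
      exact (this.trans hsum).trans hC2r)
    hsum hC2
    (by rw [hBsum]; linarith [(hB p).1])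
    (by rw [hBsum]; exact (hB p).2)
    (hmat p + leviMatrix (phi ε ell r Pn pp q) p)
    ((hmat_isHermitian p).add (levi_isHermitian hphi2))
    (by
      intro v
      rw [hermForm_add, Complex.add_re, hermForm_hmat, hermForm_levi hphi2, Complex.ofReal_re,
        Complex.ofReal_re, leviQ_phi hε hε' hell hr])
  exact key

end Pool.Agent.NKM
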