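import Pool.Agent.NKM.Glue2

set_option autoImplicit false
open scoped Manifold ContDiff Topology ComplexConjugate
open MeasureTheory Set

namespace Pool.Agent.NKM

lemma shift_measurable (τ : ℝ) : Measurable (fun p : E3 => p - ![0, (τ : ℂ), (τ : ℂ)]) :=
  measurable_id.sub_const _

lemma Th_per (ε om L δ κ r τ : ℝ) (p : E3) (t : ℝ) :
    Th ε om L δ κ r (![p 0 + t * Complex.I, p 1, p 2] - ![0, (τ : ℂ), (τ : ℂ)]) =
      Th ε om L δ κ r (p - ![0, (τ : ℂ), (τ : ℂ)]) := by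
  unfold Th Gp uf rho Tf
  simp

/-- integral of one Poincare series over the fundamental domain -/
lemma lintegral_family {ε L δ κ r Cs τ : ℝ} (hε : 0 < ε) (hε' : ε ≤ 1 / 4)
    (hL : 0 ≤ L) (hδ : 0 < δ) (hκ : 0 < κ) (hr : 0 < r) (hCs1 : 1 ≤ Cs)
    (hCs : ∀ t, dsg t ≤ Cs) :
    ∫⁻ p in Dom, ∑' j : Lat × ℤ, ENNReal.ofReal (Th ε ε L δ κ r (spt τ j p)) ≤
      ENNReal.ofReal ((2 * Real.pi ^ 2 * κ / δ) *
        ((ε + 4 * ε) * (Real.exp (2 * L) + (L + 1) ^ 2) +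
          (2 + 2 * Cs * (L + 1)) * (L + 1) ^ 2)) := by
  have hG : Measurable (fun p : E3 =>
      ENNReal.ofReal (Th ε ε L δ κ r (p - ![0, (τ : ℂ), (τ : ℂ)]))) :=
    ENNReal.measurable_ofReal.comp ((Th_measurable ε ε L δ κ r).comp (shift_measurable τ))
  have h1 := unfold_sheets (fun p : E3 =>
      ENNReal.ofReal (Th ε ε L δ κ r (p - ![0, (τ : ℂ), (τ : ℂ)]))) hG
    (fun p t => by
      change ENNReal.ofReal (Th ε ε L δ κ r
        (![p 0 + t * Complex.I, p 1, p 2] - ![0, (τ : ℂ), (τ : ℂ)])) = _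
      rw [Th_per])
  have h2 : ∫⁻ p in Dom, ∑' j : Lat × ℤ, ENNReal.ofReal (Th ε ε L δ κ r (spt τ j p)) =
      ∫⁻ s : ℝ, ∫⁻ x : ℂ, ∫⁻ y : ℂ,
        ENNReal.ofReal (Th ε ε L δ κ r (![(s : ℂ), x, y] - ![0, (τ : ℂ), (τ : ℂ)])) := h1
  rw [h2]
  have h3 : ∀ (s : ℝ), ∫⁻ x : ℂ, ∫⁻ y : ℂ,
        ENNReal.ofReal (Th ε ε L δ κ r (![(s : ℂ), x, y] - ![0, (τ : ℂ), (τ : ℂ)])) =
      ∫⁻ x : ℂ, ∫⁻ y : ℂ, ENNReal.ofReal (Th ε ε L δ κ r ![(s : ℂ), x, y]) := by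
    intro s
    have h4 : ∀ x y : ℂ, ![(s : ℂ), x, y] - ![0, (τ : ℂ), (τ : ℂ)] =
        ![(s : ℂ), x - τ, y - τ] := by
      intro x y
      apply E3_ext <;> simp
    have h5 : ∀ x : ℂ, ∫⁻ y : ℂ,
        ENNReal.ofReal (Th ε ε L δ κ r (![(s : ℂ), x, y] - ![0, (τ : ℂ), (τ : ℂ)])) =
        ∫⁻ y : ℂ, ENNReal.ofReal (Th ε ε L δ κ r ![(s : ℂ), x - τ, y]) := by
      intro x
      simp_rw [h4]
      exact lintegral_sub_right_eq_self
        (fun y : ℂ => ENNReal.ofReal (Th ε ε L δ κ r ![(s : ℂ), x - τ, y])) (τ : ℂ)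
    simp_rw [h5]
    exact lintegral_sub_right_eq_self
      (fun x : ℂ => ∫⁻ y : ℂ, ENNReal.ofReal (Th ε ε L δ κ r ![(s : ℂ), x, y])) (τ : ℂ)
  simp_rw [h3]
  exact lintegral_Th hε hε' hε.le (by linarith) hL hδ hκ hr hCs1 hCs

lemma gact_measurable (j : Lat × ℤ) : Measurable (gact j) := by
  have : Continuous (gact j) := continuous_const_smul (⟨j.1, 0, j.2⟩ : Gam)
  exact this.measurable

lemma spt_measurable (τ : ℝ) (j : Lat × ℤ) : Measurable (spt τ j) :=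
  (shift_measurable τ).comp (gact_measurable j)

/-- total mass over the fundamental domain, from a pointwise determinant bound -/
theorem phi_mass {ε ell r Cs A : ℝ} {Pn pp q : ℕ} (hε : 0 < ε) (hε' : ε ≤ 1 / 4)
    (hell : 0 ≤ ell) (hr : 0 < r) (hCs : ∀ t, dsg t ≤ Cs) (hCs1 : 1 ≤ Cs) (hA : 0 ≤ A)
    (D : E3 → ℝ)
    (hD : ∀ p, D p ≤ A +
        2 * ∑ j ∈ (Finset.univ : Finset (Fin Pn)) ×ˢ Sfin ε ell r Pn q p,
          Th ε ε (Lv ell Pn j.1) (dl q) (kap ε ell Pn q j.1) r (spt (tau pp j.1) j.2 p)) :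
    ∫⁻ p in Dom, ENNReal.ofReal (D p) ≤ ENNReal.ofReal A * volume Dom +
      2 * ∑ i : Fin Pn, ENNReal.ofReal ((2 * Real.pi ^ 2 * kap ε ell Pn q i / dl q) *
        ((ε + 4 * ε) * (Real.exp (2 * Lv ell Pn i) + (Lv ell Pn i + 1) ^ 2) +
          (2 + 2 * Cs * (Lv ell Pn i + 1)) * (Lv ell Pn i + 1) ^ 2)) := by
  have hT : ∀ (i : Fin Pn) (q' : E3),
      0 ≤ Th ε ε (Lv ell Pn i) (dl q) (kap ε ell Pn q i) r q' :=
    fun i q' => Th_nonneg hε hε' hε.le q'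
  have h1 : ∀ p, ENNReal.ofReal (D p) ≤ ENNReal.ofReal A +
      2 * ∑ i : Fin Pn, ∑' j : Lat × ℤ, ENNReal.ofReal
        (Th ε ε (Lv ell Pn i) (dl q) (kap ε ell Pn q i) r (spt (tau pp i) j p)) := by
    intro p
    refine (ENNReal.ofReal_le_ofReal (hD p)).trans ?_
    rw [ENNReal.ofReal_add hA (by
      apply mul_nonneg (by norm_num)
      exact Finset.sum_nonneg fun j _ => hT j.1 _)]
    gcongr
    rw [ENNReal.ofReal_mul (by norm_num)]
    have e2 : ENNReal.ofReal 2 = 2 := by simp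
    rw [e2]
    gcongr
    rw [Finset.sum_product, ENNReal.ofReal_sum_of_nonneg
      (fun i _ => Finset.sum_nonneg fun j _ => hT i _)]
    apply Finset.sum_le_sum
    intro i _
    rw [ENNReal.ofReal_sum_of_nonneg (fun j _ => hT i _)]
    exact ENNReal.sum_le_tsum _
  have hmeas : ∀ (i : Fin Pn) (j : Lat × ℤ), Measurable (fun p : E3 => ENNReal.ofReal
        (Th ε ε (Lv ell Pn i) (dl q) (kap ε ell Pn q i) r (spt (tau pp i) j p))) :=
    fun i j => ENNReal.measurable_ofReal.comp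
      ((Th_measurable _ _ _ _ _ _).comp (spt_measurable _ _))
  have hmeas2 : ∀ (i : Fin Pn), Measurable (fun p : E3 => ∑' j : Lat × ℤ, ENNReal.ofReal
        (Th ε ε (Lv ell Pn i) (dl q) (kap ε ell Pn q i) r (spt (tau pp i) j p))) :=
    fun i => Measurable.ennreal_tsum (hmeas i)
  calc ∫⁻ p in Dom, ENNReal.ofReal (D p)
      ≤ ∫⁻ p in Dom, (ENNReal.ofReal A +
      2 * ∑ i : Fin Pn, ∑' j : Lat × ℤ, ENNReal.ofReal
        (Th ε ε (Lv ell Pn i) (dl q) (kap ε ell Pn q i) r (spt (tau pp i) j p))) :=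
        lintegral_mono h1
    _ = ENNReal.ofReal A * volume Dom + 2 * ∑ i : Fin Pn, ∫⁻ p in Dom,
        ∑' j : Lat × ℤ, ENNReal.ofReal
        (Th ε ε (Lv ell Pn i) (dl q) (kap ε ell Pn q i) r (spt (tau pp i) j p)) := by
        rw [lintegral_add_left measurable_const, lintegral_const, Measure.restrict_apply_univ,
          lintegral_const_mul _ (Finset.measurable_sum _ fun i _ => hmeas2 i),
          lintegral_finsetSum _ (fun i _ => hmeas2 i)]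
    _ ≤ _ := by
        gcongr with i _
        exact lintegral_family hε hε' (Lv_nonneg hell i) (dl_pos q)
          (kap_pos hε hε' i.pos i) hr hCs1 hCs

end Pool.Agent.NKM
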