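import Mathlib

set_option autoImplicit false
set_option linter.unusedSectionVars false
set_option linter.unusedSimpArgs false
open scoped Manifold ContDiff Topology
open Set

namespace Pool.Agent.NKM.QuotMfd

variable {E : Type} [NormedAddCommGroup E] [NormedSpace ℂ E]
variable {G : Type} [Group G] [MulAction G E]
variable {M : Type} [TopologicalSpace M] {q : E → M}

/-- local description of local inverses -/
lemma localInverse_eq_smul (hq : IsQuotientCoveringMap q G) (x v : E)
    (hv : q v ∈ (hq.isCoveringMap.isLocalHomeomorph.localInverseAt x).source) :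
    ∃ g : G, ∀ᶠ u in 𝓝 v, hq.isCoveringMap.isLocalHomeomorph.localInverseAt x (q u) = g • u := by
  set hl := hq.isCoveringMap.isLocalHomeomorph
  set w := hl.localInverseAt x (q v) with hw
  have hqw : q w = q v := hl.apply_localInverseAt_of_mem hv
  obtain ⟨g, hg⟩ := hq.apply_eq_iff_mem_orbit.mp hqw
  have hcs := hq.toContinuousConstSMul
  refine ⟨g, ?_⟩
  have hwt : w ∈ (hl.localInverseAt x).target := (hl.localInverseAt x).map_source hv
  have h1 : ∀ᶠ u in 𝓝 v, g • u ∈ (hl.localInverseAt x).target := by
    have hc : Continuous fun u : E => g • u := continuous_const_smul g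
    have : g • v ∈ (hl.localInverseAt x).target := by
      have : g • v = w := hg
      rw [this]; exact hwt
    exact hc.continuousAt.preimage_mem_nhds ((hl.localInverseAt x).open_target.mem_nhds this)
  have h2 : ∀ᶠ u in 𝓝 v, q u ∈ (hl.localInverseAt x).source :=
    hq.continuous.continuousAt.preimage_mem_nhds
      ((hl.localInverseAt x).open_source.mem_nhds hv)
  filter_upwards [h1, h2] with u hu1 hu2
  apply hl.injOn_localInverseAt_target (x := x)
  · exact (hl.localInverseAt x).map_source hu2
  · exact hu1
  · rw [hl.apply_localInverseAt_of_mem hu2]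
    exact (hq.map_smul g).symm

/-- the quotient charted space -/
@[reducible] noncomputable def cs (hq : IsQuotientCoveringMap q G) : ChartedSpace E M :=
  hq.isCoveringMap.isLocalHomeomorph.chartedSpace hq.surjective

/-- every chart of the atlas is a local inverse of the projection -/
lemma mem_atlas (hq : IsQuotientCoveringMap q G) (e : OpenPartialHomeomorph M E)
    (he : letI := cs hq; e ∈ atlas E M) :
    ∃ x : E, e = hq.isCoveringMap.isLocalHomeomorph.localInverseAt x := by
  let _ := cs hq
  obtain ⟨y, rfl⟩ := he
  refine ⟨hq.surjective.hasRightInverse.choose y, ?_⟩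
  rw [chartAt_self_eq, OpenPartialHomeomorph.trans_refl]

lemma isManifold (hq : IsQuotientCoveringMap q G)
    (hs : ∀ g : G, ContDiff ℂ ω (fun p : E => g • p)) :
    letI := cs hq
    IsManifold 𝓘(ℂ, E) ω M := by
  let _ := cs hq
  apply isManifold_of_contDiffOn
  intro e e' he he'
  obtain ⟨x, rfl⟩ := mem_atlas hq e he
  obtain ⟨x', rfl⟩ := mem_atlas hq e' he'
  set hl := hq.isCoveringMap.isLocalHomeomorph with hldef
  intro v hv
  simp only [modelWithCornersSelf_coe, modelWithCornersSelf_coe_symm, preimage_id_eq, id_eq,
    range_id, inter_univ, OpenPartialHomeomorph.coe_trans, Function.comp_def,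
    IsLocalHomeomorph.localInverseAt_symm] at hv ⊢
  rw [OpenPartialHomeomorph.trans_source] at hv
  have hv2 : q v ∈ (hl.localInverseAt x').source := by
    have := hv.2
    rwa [mem_preimage, hl.localInverseAt_symm] at this
  obtain ⟨g, hg⟩ := localInverse_eq_smul hq x' v hv2
  have h1 : ContDiffAt ℂ ω (fun u => hl.localInverseAt x' (q u)) v :=
    (hs g).contDiffAt.congr_of_eventuallyEq hg
  exact h1.contDiffWithinAt

end Pool.Agent.NKM.QuotMfd
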