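import Pool.Agent.NKM.Act
import Pool.Agent.NKM.QuotMfd

set_option autoImplicit false
set_option linter.unusedSectionVars false
open scoped Manifold ContDiff Topology
open Set Real

namespace Pool.Agent.NKM

/-- The compact complex threefold: the quotient of `ℂ³` by the deck group. -/
noncomputable def X3 : Type := MulAction.orbitRel.Quotient Gam E3

instance : TopologicalSpace X3 := inferInstanceAs (TopologicalSpace (MulAction.orbitRel.Quotient Gam E3))

/-- the projection -/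
noncomputable def pr : E3 → X3 := Quotient.mk (MulAction.orbitRel Gam E3)

lemma pr_cov : IsQuotientCoveringMap pr Gam :=
  isQuotientCoveringMap_quotientMk_of_properlyDiscontinuousSMul

instance : T2Space X3 :=
  inferInstanceAs (T2Space (Quotient (MulAction.orbitRel Gam E3)))

noncomputable instance : ChartedSpace E3 X3 := QuotMfd.cs pr_cov

instance : IsManifold 𝓘(ℂ, E3) ω X3 := QuotMfd.isManifold pr_cov contDiff_smul

instance : Nonempty X3 := ⟨pr 0⟩

instance : ConnectedSpace X3 := by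
  have : ConnectedSpace E3 := inferInstance
  exact pr_cov.surjective.connectedSpace pr_cov.continuous

lemma fract_mul {x c : ℝ} (hc : 0 < c) : x + (-⌊x / c⌋ : ℤ) * c ∈ Ico 0 c := by
  have h1 := Int.floor_le (x / c)
  have h2 := Int.lt_floor_add_one (x / c)
  push_cast
  constructor
  · have : ⌊x / c⌋ * c ≤ x := by
      rw [← le_div_iff₀ hc]; exact h1
    linarith
  · have : x < (⌊x / c⌋ + 1) * c := by
      rw [← div_lt_iff₀ hc]; exact h2
    linarith

/-- first lattice coordinate of the point of `ℝ²` with the two embeddings `x, y` -/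
noncomputable def ca (x y : ℝ) : ℝ := x - (x - y) / (gr - gc) * gr
/-- second lattice coordinate -/
noncomputable def cb (x y : ℝ) : ℝ := (x - y) / (gr - gc)

lemma gr_sub_gc_pos : 0 < gr - gc := by linarith [gr_pos, gc_neg]

lemma ca_cb_1 (x y : ℝ) : ca x y + cb x y * gr = x := by
  rw [ca, cb]; ring
lemma ca_cb_2 (x y : ℝ) : ca x y + cb x y * gc = y := by
  rw [ca, cb]
  have h := gr_sub_gc_pos.ne'
  field_simp
  ring

/-- The fundamental domain. -/
def Dom : Set E3 := {p | (p 0).re ∈ Ico (0 : ℝ) t0 ∧ (p 0).im ∈ Ico (0 : ℝ) 1 ∧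
  ca (p 1).re (p 2).re ∈ Ico (0 : ℝ) 1 ∧ cb (p 1).re (p 2).re ∈ Ico (0 : ℝ) 1 ∧
  ca (p 1).im (p 2).im ∈ Ico (0 : ℝ) 1 ∧ cb (p 1).im (p 2).im ∈ Ico (0 : ℝ) 1}

lemma ca_add (n : ℤ × ℤ) (x y : ℝ) : ca (x + e1 n) (y + e2 n) = ca x y + n.1 := by
  rw [ca, ca, e1_apply, e2_apply]
  have h := gr_sub_gc_pos.ne'
  field_simp
  ring

lemma cb_add (n : ℤ × ℤ) (x y : ℝ) : cb (x + e1 n) (y + e2 n) = cb x y + n.2 := by
  rw [cb, cb, e1_apply, e2_apply]
  have h := gr_sub_gc_pos.ne'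
  field_simp
  ring

lemma int_eq_neg_floor {x : ℝ} {n : ℤ} (h : x + n ∈ Ico (0 : ℝ) 1) : n = -⌊x⌋ := by
  have : ⌊x⌋ = -n := by
    rw [Int.floor_eq_iff]
    push_cast
    exact ⟨by linarith [h.1], by linarith [h.2]⟩
  omega

lemma floor_mem (x : ℝ) : x + (-⌊x⌋ : ℤ) ∈ Ico (0 : ℝ) 1 := by
  push_cast
  exact ⟨by linarith [Int.floor_le x], by linarith [Int.lt_floor_add_one x]⟩

/-- every point has exactly one translate in `Dom` -/
lemma existsUnique_dom (p : E3) : ∃! g : Gam, g • p ∈ Dom := by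
  have hlog := t0_pos
  set m : ℤ := -⌊(p 0).re / t0⌋ with hm
  set x1 : ℂ := (gr : ℂ) ^ m * p 1 with hx1
  set y1 : ℂ := (gc : ℂ) ^ m * p 2 with hy1
  set n : Lat := ((-⌊ca x1.re y1.re⌋, -⌊cb x1.re y1.re⌋), (-⌊ca x1.im y1.im⌋, -⌊cb x1.im y1.im⌋))
    with hn
  have key : ∀ g : Gam, g • p ∈ Dom ↔ ((p 0).re + g.m * t0 ∈ Ico (0 : ℝ) t0 ∧
      (p 0).im + g.k ∈ Ico (0 : ℝ) 1 ∧
      ca ((gr : ℂ) ^ g.m * p 1).re ((gc : ℂ) ^ g.m * p 2).re + g.n.1.1 ∈ Ico (0 : ℝ) 1 ∧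
      cb ((gr : ℂ) ^ g.m * p 1).re ((gc : ℂ) ^ g.m * p 2).re + g.n.1.2 ∈ Ico (0 : ℝ) 1 ∧
      ca ((gr : ℂ) ^ g.m * p 1).im ((gc : ℂ) ^ g.m * p 2).im + g.n.2.1 ∈ Ico (0 : ℝ) 1 ∧
      cb ((gr : ℂ) ^ g.m * p 1).im ((gc : ℂ) ^ g.m * p 2).im + g.n.2.2 ∈ Ico (0 : ℝ) 1) := by
    intro g
    rw [Dom, mem_ofPred_eq, smul_apply_0, smul_apply_1, smul_apply_2]
    have h0 : (p 0 + ((g.m : ℝ) * t0 : ℝ) + (g.k : ℂ) * Complex.I).re = (p 0).re + g.m * t0 := by
      simp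
    have h0' : (p 0 + ((g.m : ℝ) * t0 : ℝ) + (g.k : ℂ) * Complex.I).im = (p 0).im + g.k := by
      simp
    rw [h0, h0', Complex.add_re, Complex.add_re, Complex.add_im, Complex.add_im, E1_re, E1_im,
      E2_re, E2_im, ca_add, cb_add, ca_add, cb_add]
  refine ⟨⟨n, -⌊(p 0).im⌋, m⟩, ?_, ?_⟩
  · change (⟨n, -⌊(p 0).im⌋, m⟩ : Gam) • p ∈ Dom
    rw [key]
    exact ⟨fract_mul hlog, floor_mem _, floor_mem _, floor_mem _, floor_mem _, floor_mem _⟩
  · intro g hg
    change g • p ∈ Dom at hg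
    rw [key] at hg
    obtain ⟨h1, h2, h3, h4, h5, h6⟩ := hg
    have hgm : g.m = m := by
      have h1' : (p 0).re / t0 + g.m ∈ Ico (0 : ℝ) 1 := by
        constructor
        · have := h1.1
          have h : (p 0).re / t0 + g.m = ((p 0).re + g.m * t0) / t0 := by field_simp
          rw [h]; positivity
        · have h : (p 0).re / t0 + g.m = ((p 0).re + g.m * t0) / t0 := by field_simp
          rw [h, div_lt_one hlog]; exact h1.2
      exact int_eq_neg_floor h1'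
    rw [hgm] at h3 h4 h5 h6
    ext1
    · exact Prod.ext (Prod.ext (int_eq_neg_floor h3) (int_eq_neg_floor h4))
        (Prod.ext (int_eq_neg_floor h5) (int_eq_neg_floor h6))
    · exact int_eq_neg_floor h2
    · exact hgm

instance : CompactSpace X3 := by
  constructor
  set K : Set (ℝ × ℝ × ℝ × ℝ × ℝ × ℝ) :=
    Icc 0 t0 ×ˢ Icc 0 1 ×ˢ Icc 0 1 ×ˢ Icc 0 1 ×ˢ Icc 0 1 ×ˢ Icc 0 1 with hK
  set φ : ℝ × ℝ × ℝ × ℝ × ℝ × ℝ → E3 := fun x =>
    ![(x.1 : ℂ) + x.2.1 * Complex.I,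
      ((x.2.2.1 + x.2.2.2.1 * gr : ℝ) : ℂ) + ((x.2.2.2.2.1 + x.2.2.2.2.2 * gr : ℝ) : ℂ) * Complex.I,
      ((x.2.2.1 + x.2.2.2.1 * gc : ℝ) : ℂ) + ((x.2.2.2.2.1 + x.2.2.2.2.2 * gc : ℝ) : ℂ) * Complex.I]
    with hφ
  have hφc : Continuous φ := by
    rw [hφ]
    refine continuous_pi fun i => ?_
    fin_cases i <;> simp <;> fun_prop
  have hKc : IsCompact K := isCompact_Icc.prod (isCompact_Icc.prod (isCompact_Icc.prod
    (isCompact_Icc.prod (isCompact_Icc.prod isCompact_Icc))))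
  have himg : (univ : Set X3) = pr '' (φ '' K) := by
    apply Subset.antisymm
    · intro y _
      obtain ⟨p, rfl⟩ := pr_cov.surjective y
      obtain ⟨g, hg, -⟩ := existsUnique_dom p
      refine ⟨g • p, ?_, pr_cov.map_smul g⟩
      obtain ⟨h1, h2, h3, h4, h5, h6⟩ := hg
      set p' := g • p with hp'
      refine ⟨((p' 0).re, (p' 0).im, ca (p' 1).re (p' 2).re, cb (p' 1).re (p' 2).re,
        ca (p' 1).im (p' 2).im, cb (p' 1).im (p' 2).im),
        ⟨Ico_subset_Icc_self h1, Ico_subset_Icc_self h2, Ico_subset_Icc_self h3,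
          Ico_subset_Icc_self h4, Ico_subset_Icc_self h5, Ico_subset_Icc_self h6⟩, ?_⟩
      apply E3_ext
      · simp [hφ]
      · simp only [hφ, ca_cb_1]
        simp
      · simp only [hφ, ca_cb_2]
        simp
    · exact subset_univ _
  rw [himg]
  exact (hKc.image hφc).image pr_cov.continuous

end Pool.Agent.NKM
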