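import Mathlib

set_option autoImplicit false
open scoped ContDiff Topology
open MeasureTheory Set

namespace Pool.Agent.NKM

/-- smooth step -/
noncomputable def sg (t : ℝ) : ℝ := Real.smoothTransition t
/-- its derivative -/
noncomputable def dsg (t : ℝ) : ℝ := deriv sg t
/-- first primitive -/
noncomputable def S (t : ℝ) : ℝ := ∫ u in (0 : ℝ)..t, sg u
/-- second primitive -/
noncomputable def S2 (t : ℝ) : ℝ := ∫ u in (0 : ℝ)..t, S u
/-- smoothed half square -/
noncomputable def P (ε t : ℝ) : ℝ := ε ^ 2 * S2 (t / ε)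
/-- its derivative -/
noncomputable def P1 (ε t : ℝ) : ℝ := ε * S (t / ε)
/-- its second derivative -/
noncomputable def P2 (ε t : ℝ) : ℝ := sg (t / ε)
/-- smoothed absolute value -/
noncomputable def eta (s : ℝ) : ℝ := 2 * S s - s

/-! ### facts on `sg` -/
lemma sg_contDiff : ContDiff ℝ ∞ sg := Real.smoothTransition.contDiff
lemma sg_continuous : Continuous sg := sg_contDiff.continuous
lemma sg_nonneg (t : ℝ) : 0 ≤ sg t := Real.smoothTransition.nonneg t
lemma sg_le_one (t : ℝ) : sg t ≤ 1 := Real.smoothTransition.le_one t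
lemma sg_of_nonpos {t : ℝ} (h : t ≤ 0) : sg t = 0 := Real.smoothTransition.zero_of_nonpos h
lemma sg_of_one_le {t : ℝ} (h : 1 ≤ t) : sg t = 1 := Real.smoothTransition.one_of_one_le h
lemma hasDerivAt_sg (t : ℝ) : HasDerivAt sg (dsg t) t :=
  (sg_contDiff.differentiable (by simp)).differentiableAt.hasDerivAt
lemma dsg_contDiff : ContDiff ℝ ∞ dsg := by
  have := sg_contDiff
  rw [contDiff_infty_iff_deriv] at this
  exact this.2
lemma dsg_continuous : Continuous dsg := dsg_contDiff.continuous

end Pool.Agent.NKM
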