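import Pool.Agent.NKM.Par
import Pool.Agent.NKM.Act

set_option autoImplicit false
open scoped Manifold ContDiff Topology ComplexConjugate
open MeasureTheory Set

namespace Pool.Agent.NKM



/-! TARGETS -/

/-- the unit of the lattice -/
def oneL : Lat := ((1, 0), (0, 0))

lemma E1_oneL : E1 oneL = 1 := by simp [oneL, E1_apply, e1_apply]
lemma E2_oneL : E2 oneL = 1 := by simp [oneL, E2_apply, e2_apply]

lemma fK_ne (K : ℤ) (hK : K ≠ 0) : ((K • Phi : AddAut Lat) oneL).1.2 ≠ 0 := by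
  intro h0
  set v : Lat := (K • Phi : AddAut Lat) oneL with hv
  have h1 : E1 v = ((gr ^ K : ℝ) : ℂ) := by
    rw [hv, E1_zpow, E1_oneL, mul_one, Complex.ofReal_zpow]
  have h2 : E2 v = ((gc ^ K : ℝ) : ℂ) := by
    rw [hv, E2_zpow, E2_oneL, mul_one, Complex.ofReal_zpow]
  have h1r : (v.1.1 : ℝ) = gr ^ K := by
    have := congrArg Complex.re h1
    rw [E1_re, Complex.ofReal_re, e1_apply, h0] at this
    simpa using this
  have h2r : (v.1.1 : ℝ) = gc ^ K := by
    have := congrArg Complex.re h2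
    rw [E2_re, Complex.ofReal_re, e2_apply, h0] at this
    simpa using this
  have h3 : gr ^ K = gr ^ (-K) := by
    have h4 : |gc ^ K| = |gr ^ K| := by rw [← h2r, h1r]
    rw [abs_zpow, abs_gc, abs_of_pos (zpow_pos gr_pos K), inv_zpow] at h4
    rw [zpow_neg, h4]
  have h5 := zpow_right_injective₀ gr_pos one_lt_gr.ne' h3
  omega

/-- separation of sheets, by the norm form -/
theorem separation (Pn J : ℕ) : ∃ pp : ℕ, 0 < pp ∧
    ∀ (i i' : Fin Pn) (j j' : Lat × ℤ), (i, j) ≠ (i', j') → |j.2 - j'.2| ≤ (J : ℤ) →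
      ∀ p : E3, 1 / (pp : ℝ) ^ 2 ≤
        ‖(gr : ℂ) ^ (-j.2) * spt (((i : ℝ) + 1) / pp) j p 1 -
          (gr : ℂ) ^ (-j'.2) * spt (((i' : ℝ) + 1) / pp) j' p 1‖ *
        ‖(gc : ℂ) ^ (-j.2) * spt (((i : ℝ) + 1) / pp) j p 2 -
          (gc : ℂ) ^ (-j'.2) * spt (((i' : ℝ) + 1) / pp) j' p 2‖ := by
  classical
  set F : ℤ → ℕ := fun K => (((K • Phi : AddAut Lat) oneL).1.2).natAbs with hF
  set pp : ℕ := 1 + Pn + (Pn + 1) * ∑ K ∈ Finset.Icc (-(J : ℤ)) J, F K with hpp
  have hpp0 : 0 < pp := by rw [hpp]; omega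
  have hppP : Pn < pp := by rw [hpp]; omega
  have hppF : ∀ K : ℤ, |K| ≤ (J : ℤ) → Pn * F K < pp := by
    intro K hK
    have hmem : K ∈ Finset.Icc (-(J : ℤ)) J := Finset.mem_Icc.mpr (abs_le.mp hK)
    have h1 : F K ≤ ∑ K ∈ Finset.Icc (-(J : ℤ)) J, F K :=
      Finset.single_le_sum (fun _ _ => Nat.zero_le _) hmem
    have h2 : Pn * F K ≤ (Pn + 1) * ∑ K ∈ Finset.Icc (-(J : ℤ)) J, F K :=
      Nat.mul_le_mul (by omega) h1
    rw [hpp]; omega
  have hppR : (0 : ℝ) < pp := by exact_mod_cast hpp0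
  have hppC : (pp : ℂ) ≠ 0 := by exact_mod_cast hpp0.ne'
  refine ⟨pp, hpp0, ?_⟩
  intro i i' j j' hne hJ p
  set nu : Fin Pn → Lat × ℤ → Lat := fun i j =>
    ((-j.2) • Phi : AddAut Lat) ((pp : ℤ) • j.1 - ((i : ℤ) + 1) • oneL) with hnu
  have hE1 : ∀ (i : Fin Pn) (j : Lat × ℤ), E1 (nu i j) =
      (gr : ℂ) ^ (-j.2) * ((pp : ℂ) * E1 j.1 - ((i : ℂ) + 1)) := by
    intro i j
    simp only [hnu]
    rw [E1_zpow, map_sub, map_zsmul, map_zsmul, E1_oneL]
    simp
  have hE2 : ∀ (i : Fin Pn) (j : Lat × ℤ), E2 (nu i j) =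
      (gc : ℂ) ^ (-j.2) * ((pp : ℂ) * E2 j.1 - ((i : ℂ) + 1)) := by
    intro i j
    simp only [hnu]
    rw [E2_zpow, map_sub, map_zsmul, map_zsmul, E2_oneL]
    simp
  have hs1 : ∀ (i : Fin Pn) (j : Lat × ℤ), (gr : ℂ) ^ (-j.2) * spt (((i : ℝ) + 1) / pp) j p 1 =
      p 1 + E1 (nu i j) / pp := by
    intro i j
    have h1 : spt (((i : ℝ) + 1) / pp) j p 1 =
        (gr : ℂ) ^ j.2 * p 1 + E1 j.1 - (((i : ℂ) + 1) / pp) := by
      simp only [spt, gact, Pi.sub_apply, smul_apply_1]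
      simp
    rw [h1, hE1, zpow_neg]
    have h2 : (gr : ℂ) ^ j.2 ≠ 0 := zpow_ne_zero _ gr_ne'
    field_simp
    ring
  have hs2 : ∀ (i : Fin Pn) (j : Lat × ℤ), (gc : ℂ) ^ (-j.2) * spt (((i : ℝ) + 1) / pp) j p 2 =
      p 2 + E2 (nu i j) / pp := by
    intro i j
    have h1 : spt (((i : ℝ) + 1) / pp) j p 2 =
        (gc : ℂ) ^ j.2 * p 2 + E2 j.1 - (((i : ℂ) + 1) / pp) := by
      simp only [spt, gact, Pi.sub_apply, smul_apply_2]
      simp
    rw [h1, hE2, zpow_neg]
    have h2 : (gc : ℂ) ^ j.2 ≠ 0 := zpow_ne_zero _ gc_ne'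
    field_simp
    ring
  have hd : nu i j - nu i' j' ≠ 0 := by
    intro h0
    have h1 : nu i j = nu i' j' := sub_eq_zero.mp h0
    have h2 : (pp : ℤ) • j.1 - ((i : ℤ) + 1) • oneL =
        ((j.2 - j'.2) • Phi : AddAut Lat) ((pp : ℤ) • j'.1 - ((i' : ℤ) + 1) • oneL) := by
      have h3 := congrArg (fun x => (j.2 • Phi : AddAut Lat) x) h1
      simp only [hnu] at h3
      rw [← AddAut.add_apply, ← AddAut.add_apply, ← add_zsmul, ← add_zsmul] at h3
      rw [add_neg_cancel, zero_zsmul, AddAut.zero_apply] at h3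
      rw [h3, sub_eq_add_neg j.2]
    by_cases hK : j.2 - j'.2 = 0
    · rw [hK, zero_zsmul, AddAut.zero_apply] at h2
      have h4 := congrArg (fun x : Lat => x.1.1) h2
      simp only [oneL, Prod.fst_sub, Prod.smul_fst, smul_eq_mul, mul_one] at h4
      have hi := i.isLt
      have hi' := i'.isLt
      have hii : (i : ℤ) = i' := by
        have h5 : (pp : ℤ) ∣ (i : ℤ) - i' := ⟨j.1.1.1 - j'.1.1.1, by linear_combination (-1 : ℤ) * h4⟩
        have h6 : (i : ℤ) - i' = 0 := by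
          apply Int.eq_zero_of_abs_lt_dvd h5
          rw [abs_lt]
          constructor <;> omega
        omega
      have hij : i = i' := by
        apply Fin.ext
        exact_mod_cast hii
      rw [hij] at h2
      have h7 : (pp : ℤ) • j.1 = (pp : ℤ) • j'.1 := sub_left_injective h2
      have hpz : (pp : ℤ) ≠ 0 := by exact_mod_cast hpp0.ne'
      have h8 : j.1 = j'.1 := by
        have e1' := congrArg (fun x : Lat => x.1.1) h7
        have e2' := congrArg (fun x : Lat => x.1.2) h7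
        have e3' := congrArg (fun x : Lat => x.2.1) h7
        have e4' := congrArg (fun x : Lat => x.2.2) h7
        simp only [Prod.smul_fst, Prod.smul_snd, smul_eq_mul] at e1' e2' e3' e4'
        refine Prod.ext (Prod.ext ?_ ?_) (Prod.ext ?_ ?_)
        · exact mul_left_cancel₀ hpz e1'
        · exact mul_left_cancel₀ hpz e2'
        · exact mul_left_cancel₀ hpz e3'
        · exact mul_left_cancel₀ hpz e4'
      apply hne
      have h9 : j = j' := Prod.ext h8 (by omega)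
      rw [hij, h9]
    · have hf := fK_ne _ hK
      rw [map_sub, map_zsmul, map_zsmul] at h2
      have h4 := congrArg (fun x : Lat => x.1.2) h2
      simp only [Prod.fst_sub, Prod.snd_sub, Prod.smul_fst, Prod.smul_snd, smul_eq_mul] at h4
      have hone : oneL.1.2 = 0 := rfl
      rw [hone] at h4
      have h5 : (pp : ℤ) ∣ ((i' : ℤ) + 1) * (((j.2 - j'.2) • Phi : AddAut Lat) oneL).1.2 :=
        ⟨(((j.2 - j'.2) • Phi : AddAut Lat) j'.1).1.2 - j.1.1.2, by linear_combination h4⟩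
      have h6 : ((i' : ℤ) + 1) * (((j.2 - j'.2) • Phi : AddAut Lat) oneL).1.2 = 0 := by
        apply Int.eq_zero_of_abs_lt_dvd h5
        rw [abs_mul]
        have h7 := hppF _ hJ
        have h8 : |(i' : ℤ) + 1| ≤ Pn := by
          have hi' := i'.isLt
          rw [abs_le]; constructor <;> omega
        have h9 : |(((j.2 - j'.2) • Phi : AddAut Lat) oneL).1.2| = (F (j.2 - j'.2) : ℤ) := by
          rw [hF]; simp [Int.natCast_natAbs]
        rw [h9]
        calc |(i' : ℤ) + 1| * (F (j.2 - j'.2) : ℤ) ≤ (Pn : ℤ) * (F (j.2 - j'.2) : ℤ) :=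
              mul_le_mul_of_nonneg_right h8 (by positivity)
          _ < pp := by exact_mod_cast h7
      rcases mul_eq_zero.mp h6 with h | h
      · have hi' := i'.isLt
        omega
      · exact hf h
  have hn := one_le_norm _ hd
  rw [hs1, hs1, hs2, hs2]
  have e1 : p 1 + E1 (nu i j) / pp - (p 1 + E1 (nu i' j') / pp) = E1 (nu i j - nu i' j') / pp := by
    rw [map_sub]; ring
  have e2 : p 2 + E2 (nu i j) / pp - (p 2 + E2 (nu i' j') / pp) = E2 (nu i j - nu i' j') / pp := by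
    rw [map_sub]; ring
  rw [e1, e2, norm_div, norm_div, Complex.norm_natCast, div_mul_div_comm, ← sq]
  exact div_le_div_of_nonneg_right hn (by positivity)

end Pool.Agent.NKM
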