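import Pool.Agent.NKM.Sheet
import Pool.Agent.NKM.LQ
import Pool.Agent.NKM.OVF

set_option autoImplicit false
open scoped Manifold ContDiff Topology ComplexConjugate
open MeasureTheory Set

namespace Pool.Agent.NKM

/-! TARGETS -/

lemma two_le_inf : (2 : ℕ∞ω) ≤ (∞ : ℕ∞ω) := by norm_cast

lemma secondDeriv_line {n : ℕ} {f : (Fin n → ℂ) → ℝ} {p v : Fin n → ℂ} (hf : ContDiffAt ℝ 2 f p)
    {φ' : ℝ → ℝ} {c : ℝ}
    (h1 : ∀ᶠ t in 𝓝 (0 : ℝ), HasDerivAt (fun s : ℝ => f (p + s • v)) (φ' t) t)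
    (h2 : HasDerivAt φ' c 0) : secondDeriv f p v v = c ∧ fderiv ℝ f p v = φ' 0 := by
  have hline : ∀ t : ℝ, HasDerivAt (fun s : ℝ => p + s • v) v t := by
    intro t
    have := ((hasDerivAt_id t).smul_const v).const_add p
    simpa using this
  have hl0 : p + (0 : ℝ) • v = p := by simp
  have hdf : ∀ᶠ q in 𝓝 p, DifferentiableAt ℝ f q := by
    have := hf.eventually (by simp)
    exact this.mono fun q hq => hq.differentiableAt (by simp)
  have hcont : Filter.Tendsto (fun s : ℝ => p + s • v) (𝓝 0) (𝓝 p) := by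
    have := (hline 0).continuousAt.tendsto
    simpa using this
  have h3 : ∀ᶠ t in 𝓝 (0 : ℝ), φ' t = fderiv ℝ f (p + t • v) v := by
    filter_upwards [h1, hcont.eventually hdf] with t ht1 ht2
    have := ht2.hasFDerivAt.comp_hasDerivAt t (hline t)
    exact ht1.unique this
  have hf1 : DifferentiableAt ℝ (fderiv ℝ f) p :=
    (hf.fderiv_right (m := 1) (by norm_num)).differentiableAt (by norm_num)
  have h4 : HasDerivAt (fun t : ℝ => fderiv ℝ f (p + t • v) v) (fderiv ℝ (fderiv ℝ f) p v v) 0 := by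
    have e1 : HasFDerivAt (fderiv ℝ f) (fderiv ℝ (fderiv ℝ f) p) (p + (0 : ℝ) • v) := by
      rw [hl0]; exact hf1.hasFDerivAt
    have e2 := e1.comp_hasDerivAt (0 : ℝ) (hline 0)
    exact e2.clm_apply (hasDerivAt_const 0 v) |>.congr_deriv (by simp)
  constructor
  · unfold secondDeriv
    rw [iteratedFDeriv_two_apply]
    show fderiv ℝ (fderiv ℝ f) p v v = c
    exact (h4.congr_of_eventuallyEq h3).unique h2
  · rw [h3.self_of_nhds, hl0]

lemma leviQ_const_mul {n : ℕ} {f : (Fin n → ℂ) → ℝ} {p : Fin n → ℂ} (hf : ContDiffAt ℝ 2 f p)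
    (c : ℝ) (v : Fin n → ℂ) : leviQ (fun q => c * f q) p v = c * leviQ f p v := by
  have := leviQ_comp (g := fun t => c * t) (g' := fun _ => c) (g'' := fun _ => 0) hf (by fun_prop)
    (fun t => by simpa using (hasDerivAt_id t).const_mul c) (hasDerivAt_const _ _) v
  rw [this]; ring

lemma leviQ_add {n : ℕ} {f g : (Fin n → ℂ) → ℝ} {p : Fin n → ℂ} (hf : ContDiffAt ℝ 2 f p)
    (hg : ContDiffAt ℝ 2 g p) (v : Fin n → ℂ) :
    leviQ (fun q => f q + g q) p v = leviQ f p v + leviQ g p v := by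
  unfold leviQ secondDeriv
  have h : iteratedFDeriv ℝ 2 (fun q => f q + g q) p =
      iteratedFDeriv ℝ 2 f p + iteratedFDeriv ℝ 2 g p := iteratedFDeriv_add_apply hf hg
  rw [h]
  simp only [add_apply]
  ring

lemma leviQ_lin {n : ℕ} (ℓ : (Fin n → ℂ) →L[ℝ] ℝ) (c : ℝ) (p v : Fin n → ℂ) :
    leviQ (fun q => ℓ q + c) p v = 0 := by
  have hc : ContDiffAt ℝ 2 (fun q => ℓ q + c) p := by fun_prop
  have h : ∀ w : Fin n → ℂ, secondDeriv (fun q => ℓ q + c) p w w = 0 := by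
    intro w
    refine (secondDeriv_line hc (φ' := fun _ => ℓ w) (Filter.Eventually.of_forall fun t => ?_)
      (hasDerivAt_const _ _)).1
    have e1 := (((hasDerivAt_id t).mul_const (ℓ w)).const_add (ℓ p)).add_const c
    rw [one_mul] at e1
    refine e1.congr_of_eventuallyEq (Filter.Eventually.of_forall fun s => ?_)
    simp
  unfold leviQ
  rw [h, h]; simp

/-- real part of the first coordinate -/
noncomputable def l0 : E3 →L[ℝ] ℝ :=
  Complex.reCLM.comp ((ContinuousLinearMap.proj (R := ℝ) (φ := fun _ : Fin 3 => ℂ) 0))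

lemma l0_apply (p : E3) : l0 p = (p 0).re := rfl

lemma f0_cd : ContDiff ℝ ∞ (fun p : E3 => (p 0).re) := l0.contDiff
lemma f1_cd : ContDiff ℝ ∞ (fun p : E3 => ‖p 1‖ ^ 2) :=
  (contDiff_norm_sq ℝ).comp (contDiff_apply ℝ ℂ (1 : Fin 3))

lemma rho_cd (L δ : ℝ) : ContDiff ℝ ∞ (rho L δ) := by
  unfold rho
  exact (contDiff_const.sub (eta_contDiff.comp f0_cd)).sub (contDiff_const.mul f1_cd)

lemma Tf_cd {r : ℝ} (hr : 0 < r) {p : E3} (hp : p 2 ≠ 0) : ContDiffAt ℝ ∞ (Tf r) p := by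
  unfold Tf
  have h1 : ContDiffAt ℝ ∞ (fun p : E3 => ‖p 2‖) p :=
    ContDiffAt.norm ℝ (contDiff_apply ℝ ℂ (2 : Fin 3)).contDiffAt hp
  exact (contDiffAt_const.div h1 (norm_ne_zero_iff.2 hp)).log
    (div_ne_zero hr.ne' (norm_ne_zero_iff.2 hp))

lemma uf_cd {L δ κ r : ℝ} (hr : 0 < r) {p : E3} (hp : p 2 ≠ 0) :
    ContDiffAt ℝ ∞ (uf L δ κ r) p := by
  unfold uf
  exact (rho_cd L δ).contDiffAt.sub (contDiffAt_const.mul
    (S_contDiff.contDiffAt.comp p (Tf_cd hr hp)))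

lemma normSq_line (a b : ℂ) (t : ℝ) :
    ‖a + t • b‖ ^ 2 = ‖a‖ ^ 2 + 2 * t * (conj a * b).re + t ^ 2 * ‖b‖ ^ 2 := by
  rw [← Complex.normSq_eq_norm_sq, ← Complex.normSq_eq_norm_sq, ← Complex.normSq_eq_norm_sq]
  simp only [Complex.normSq_apply, Complex.add_re, Complex.add_im, Complex.real_smul,
    Complex.mul_re, Complex.mul_im, Complex.conj_re, Complex.conj_im, Complex.ofReal_re,
    Complex.ofReal_im]
  ring

lemma f1_der (p v : E3) : fderiv ℝ (fun p : E3 => ‖p 1‖ ^ 2) p v = 2 * (conj (p 1) * v 1).re ∧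
    secondDeriv (fun p : E3 => ‖p 1‖ ^ 2) p v v = 2 * ‖v 1‖ ^ 2 := by
  have h := secondDeriv_line (f := fun p : E3 => ‖p 1‖ ^ 2) (p := p) (v := v)
    (φ' := fun t => 2 * (conj (p 1) * v 1).re + 2 * t * ‖v 1‖ ^ 2) (c := 2 * ‖v 1‖ ^ 2)
    (f1_cd.contDiffAt.of_le two_le_inf) (Filter.Eventually.of_forall fun t => ?_) ?_
  · refine ⟨?_, h.1⟩
    rw [h.2]; simp
  · have e1 : HasDerivAt (fun t : ℝ => ‖p 1‖ ^ 2 + 2 * t * (conj (p 1) * v 1).re +
        t ^ 2 * ‖v 1‖ ^ 2) (2 * (conj (p 1) * v 1).re + 2 * t * ‖v 1‖ ^ 2) t := by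
      have a1 := (((hasDerivAt_id t).const_mul 2).mul_const (conj (p 1) * v 1).re).const_add
        (‖p 1‖ ^ 2)
      have a2 := ((hasDerivAt_pow 2 t).mul_const (‖v 1‖ ^ 2))
      refine (a1.add a2).congr_deriv ?_
      simp
    refine e1.congr_of_eventuallyEq (Filter.Eventually.of_forall fun s => ?_)
    exact normSq_line (p 1) (v 1) s
  · have a1 := (((hasDerivAt_id (0 : ℝ)).const_mul 2).mul_const (‖v 1‖ ^ 2)).const_add
      (2 * (conj (p 1) * v 1).re)
    refine a1.congr_deriv ?_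
    simp

lemma Tf_der {r : ℝ} (hr : 0 < r) {p : E3} (hp : p 2 ≠ 0) (v : E3) :
    fderiv ℝ (Tf r) p v = -((conj (p 2) * v 2).re / ‖p 2‖ ^ 2) ∧
    secondDeriv (Tf r) p v v =
      -(‖v 2‖ ^ 2 / ‖p 2‖ ^ 2 - 2 * (conj (p 2) * v 2).re ^ 2 / (‖p 2‖ ^ 2) ^ 2) := by
  set A := ‖p 2‖ ^ 2 with hA
  set B := (conj (p 2) * v 2).re with hB
  set C := ‖v 2‖ ^ 2 with hC
  have hA0 : 0 < A := by
    have := norm_pos_iff.2 hp
    positivity
  have hpos : ∀ᶠ t in 𝓝 (0 : ℝ), 0 < A + 2 * t * B + t ^ 2 * C := by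
    have hc : Continuous (fun t : ℝ => A + 2 * t * B + t ^ 2 * C) := by fun_prop
    refine hc.continuousAt.eventually (lt_mem_nhds ?_)
    simpa using hA0
  have h := secondDeriv_line (f := Tf r) (p := p) (v := v)
    (φ' := fun t => -((B + t * C) / (A + 2 * t * B + t ^ 2 * C)))
    (c := -(C / A - 2 * B ^ 2 / A ^ 2))
    ((Tf_cd hr hp).of_le two_le_inf) ?_ ?_
  · refine ⟨?_, h.1⟩
    rw [h.2]; simp
  · filter_upwards [hpos.eventually_nhds] with t ht
    have ht0 := ht.self_of_nhds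
    have a1 := (((hasDerivAt_id t).const_mul 2).mul_const B).const_add A
    have a2 := ((hasDerivAt_pow 2 t).mul_const C)
    have e1 : HasDerivAt (fun t : ℝ => A + 2 * t * B + t ^ 2 * C) (2 * B + 2 * t * C) t := by
      refine (a1.add a2).congr_deriv ?_
      simp
    have e2 := (((e1.log ht0.ne').const_mul (1 / 2)).const_sub (Real.log r))
    have e3 : HasDerivAt (fun s : ℝ => Real.log r - 1 / 2 * Real.log (A + 2 * s * B + s ^ 2 * C))
        (-((B + t * C) / (A + 2 * t * B + t ^ 2 * C))) t := by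
      refine e2.congr_deriv ?_
      field_simp
    refine e3.congr_of_eventuallyEq ?_
    filter_upwards [ht] with s hs
    have hn := normSq_line (p 2) (v 2) s
    have hq : (p + s • v) 2 = p 2 + s • v 2 := rfl
    have hne : p 2 + s • v 2 ≠ 0 := by
      intro h0
      rw [h0, norm_zero] at hn
      have : (0 : ℝ) < 0 := by
        calc (0 : ℝ) < A + 2 * s * B + s ^ 2 * C := hs
          _ = 0 ^ 2 := hn.symm
          _ = 0 := by norm_num
      exact lt_irrefl _ this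
    show Real.log (r / ‖(p + s • v) 2‖) = _
    rw [hq, Real.log_div hr.ne' (norm_ne_zero_iff.2 hne), ← hn, Real.log_pow]
    push_cast; ring
  · have b1 : HasDerivAt (fun t : ℝ => B + t * C) C 0 := by
      have := ((hasDerivAt_id (0 : ℝ)).mul_const C).const_add B
      simpa using this
    have b2 : HasDerivAt (fun t : ℝ => A + 2 * t * B + t ^ 2 * C) (2 * B) 0 := by
      have a1 := (((hasDerivAt_id (0 : ℝ)).const_mul 2).mul_const B).const_add A
      have a2 := ((hasDerivAt_pow 2 (0 : ℝ)).mul_const C)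
      refine (a1.add a2).congr_deriv ?_
      simp
    have b3 := (b1.div b2 (by simpa using hA0.ne')).neg
    refine b3.congr_deriv ?_
    simp
    field_simp
    ring

lemma rho_der (L δ : ℝ) (p v : E3) :
    fderiv ℝ (rho L δ) p v = 2 * (alf δ p v).re ∧
    leviQ (rho L δ) p v = -(1 / 2 * dsg (p 0).re * ‖v 0‖ ^ 2 + δ * ‖v 1‖ ^ 2) := by
  have c0 : ContDiffAt ℝ 2 (fun p : E3 => (p 0).re) p :=
    f0_cd.contDiffAt.of_le two_le_inf
  have c1 : ContDiffAt ℝ 2 (fun p : E3 => ‖p 1‖ ^ 2) p :=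
    f1_cd.contDiffAt.of_le two_le_inf
  have ce : ContDiff ℝ 2 eta := eta_contDiff.of_le two_le_inf
  have d0 : ∀ w : E3, fderiv ℝ (fun p : E3 => (p 0).re) p w = (w 0).re := by
    intro w
    exact congrArg (fun ℓ : E3 →L[ℝ] ℝ => ℓ w) l0.fderiv
  constructor
  · have h1 : HasFDerivAt (eta ∘ fun q : E3 => (q 0).re)
        ((2 * sg (p 0).re - 1) • fderiv ℝ (fun p : E3 => (p 0).re) p) p :=
      (hasDerivAt_eta (p 0).re).comp_hasFDerivAt p (c0.differentiableAt (by norm_num)).hasFDerivAt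
    have h2 := ((hasFDerivAt_const L p).sub h1).sub
      ((c1.differentiableAt (by norm_num)).hasFDerivAt.const_mul δ)
    have h3 : fderiv ℝ (rho L δ) p = _ := h2.fderiv
    rw [h3]
    simp only [sub_apply, zero_apply,
      smul_apply, smul_eq_mul, d0, (f1_der p v).1]
    unfold alf
    simp only [Complex.sub_re, Complex.re_ofReal_mul, mul_assoc]
    ring
  · have e1 : leviQ (fun q : E3 => eta (q 0).re) p v = 2 * dsg (p 0).re * (‖v 0‖ ^ 2 / 4) := by
      have h := leviQ_comp (g := eta) (g' := fun t => 2 * sg t - 1) (g'' := fun t => 2 * dsg t) c0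
        ce.contDiffAt hasDerivAt_eta (((hasDerivAt_sg _).const_mul 2).sub_const 1) v
      rw [h, d0, d0]
      have h0 : leviQ (fun p : E3 => (p 0).re) p v = 0 := by
        have := leviQ_lin l0 0 p v
        simp only [add_zero] at this
        exact this
      rw [h0]
      have h2 : ((v 0).re ^ 2 + ((Complex.I • v) 0).re ^ 2) = ‖v 0‖ ^ 2 := by
        rw [← Complex.normSq_eq_norm_sq, Complex.normSq_apply]
        simp
        ring
      rw [h2]; ring
    have e2 : leviQ (fun q : E3 => ‖q 1‖ ^ 2) p v = ‖v 1‖ ^ 2 := by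
      unfold leviQ
      rw [(f1_der p v).2, (f1_der p _).2]
      have : ‖(Complex.I • v) 1‖ = ‖v 1‖ := by simp
      rw [this]; ring
    have e3 : (rho L δ) = fun q : E3 => ((0 : E3 →L[ℝ] ℝ) q + L) +
        ((-1) * eta (q 0).re + (-δ) * ‖q 1‖ ^ 2) := by
      funext q; unfold rho; simp; ring
    have ce0 : ContDiffAt ℝ 2 (fun q : E3 => eta (q 0).re) p := ce.contDiffAt.comp p c0
    rw [e3, leviQ_add (by fun_prop) ((contDiffAt_const.mul ce0).add (contDiffAt_const.mul c1)),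
      leviQ_add (contDiffAt_const.mul ce0) (contDiffAt_const.mul c1), leviQ_lin,
      leviQ_const_mul ce0, leviQ_const_mul c1, e1, e2]
    ring

lemma Tf_levi {r : ℝ} (hr : 0 < r) {p : E3} (hp : p 2 ≠ 0) (v : E3) : leviQ (Tf r) p v = 0 := by
  unfold leviQ
  rw [(Tf_der hr hp v).2, (Tf_der hr hp _).2]
  have h1 : ‖(Complex.I • v) 2‖ = ‖v 2‖ := by simp
  have h2 : (conj (p 2) * (Complex.I • v) 2).re = -(conj (p 2) * v 2).im := by simp; ring
  have h3 : (conj (p 2) * v 2).re ^ 2 + (conj (p 2) * v 2).im ^ 2 = ‖p 2‖ ^ 2 * ‖v 2‖ ^ 2 := by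
    have h4 := Complex.normSq_apply (conj (p 2) * v 2)
    rw [Complex.normSq_eq_norm_sq, norm_mul, Complex.norm_conj] at h4
    rw [← mul_pow, h4]; ring
  have hA0 : ‖p 2‖ ^ 2 ≠ 0 := pow_ne_zero _ (norm_ne_zero_iff.2 hp)
  rw [h1, h2]
  generalize (conj (p 2) * v 2).re = B at *
  generalize (conj (p 2) * v 2).im = B' at *
  generalize ‖p 2‖ ^ 2 = A at *
  generalize ‖v 2‖ ^ 2 = C at *
  field_simp
  linear_combination (2 : ℝ) * h3

lemma uf_der {L δ κ r : ℝ} (hr : 0 < r) {p : E3} (hp : p 2 ≠ 0) (v : E3) :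
    fderiv ℝ (uf L δ κ r) p v = 2 * (alf δ p v + bet κ r p v).re ∧
    leviQ (uf L δ κ r) p v = -(1 / 2 * dsg (p 0).re * ‖v 0‖ ^ 2 + δ * ‖v 1‖ ^ 2) -
      κ * dsg (Tf r p) * (‖v 2‖ ^ 2 / (4 * ‖p 2‖ ^ 2)) := by
  have cT : ContDiffAt ℝ 2 (Tf r) p := (Tf_cd hr hp).of_le two_le_inf
  have cr : ContDiffAt ℝ 2 (rho L δ) p := (rho_cd L δ).contDiffAt.of_le two_le_inf
  have cS : ContDiff ℝ 2 S := S_contDiff.of_le two_le_inf
  constructor
  · have h1 : HasFDerivAt (S ∘ Tf r) (sg (Tf r p) • fderiv ℝ (Tf r) p) p :=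
      (hasDerivAt_S (Tf r p)).comp_hasFDerivAt p (cT.differentiableAt (by norm_num)).hasFDerivAt
    have h2 := (cr.differentiableAt (by norm_num)).hasFDerivAt.sub (h1.const_mul κ)
    have h3 : fderiv ℝ (uf L δ κ r) p = _ := h2.fderiv
    rw [h3]
    simp only [sub_apply, smul_apply, smul_eq_mul,
      (rho_der L δ p v).1, (Tf_der hr hp v).1]
    have h4 : (bet κ r p v).re = κ * sg (Tf r p) * ((conj (p 2) * v 2).re / ‖p 2‖ ^ 2) / 2 := by
      have h5 : bet κ r p v = ((κ * sg (Tf r p) / (2 * ‖p 2‖ ^ 2) : ℝ) : ℂ) * (conj (p 2) * v 2) := by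
        unfold bet
        have h6 : (p 2) * conj (p 2) = ((‖p 2‖ ^ 2 : ℝ) : ℂ) := by
          rw [Complex.mul_conj, Complex.normSq_eq_norm_sq]
        have h7 : ((‖p 2‖ ^ 2 : ℝ) : ℂ) ≠ 0 := by
          exact_mod_cast pow_ne_zero _ (norm_ne_zero_iff.2 hp)
        push_cast
        push_cast at h6 h7
        rw [div_mul_eq_mul_div, div_eq_div_iff (mul_ne_zero two_ne_zero hp)
          (mul_ne_zero two_ne_zero h7), ← h6]
        ring
      rw [h5, Complex.re_ofReal_mul]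
      ring
    rw [Complex.add_re, h4]
    ring
  · have e1 : leviQ (fun q : E3 => S (Tf r q)) p v =
        dsg (Tf r p) * (‖v 2‖ ^ 2 / (4 * ‖p 2‖ ^ 2)) := by
      have h := leviQ_comp (g := S) (g' := sg) (g'' := dsg) cT cS.contDiffAt hasDerivAt_S
        (hasDerivAt_sg _) v
      rw [h, Tf_levi hr hp, (Tf_der hr hp v).1, (Tf_der hr hp _).1]
      have h2 : (conj (p 2) * (Complex.I • v) 2).re = -(conj (p 2) * v 2).im := by simp; ring
      have h3 : (conj (p 2) * v 2).re ^ 2 + (conj (p 2) * v 2).im ^ 2 = ‖p 2‖ ^ 2 * ‖v 2‖ ^ 2 := by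
        have h4 := Complex.normSq_apply (conj (p 2) * v 2)
        rw [Complex.normSq_eq_norm_sq, norm_mul, Complex.norm_conj] at h4
        rw [← mul_pow, h4]; ring
      have hA0 : ‖p 2‖ ^ 2 ≠ 0 := pow_ne_zero _ (norm_ne_zero_iff.2 hp)
      rw [h2]
      generalize (conj (p 2) * v 2).re = B at *
      generalize (conj (p 2) * v 2).im = B' at *
      generalize ‖p 2‖ ^ 2 = A at *
      generalize ‖v 2‖ ^ 2 = C at *
      field_simp
      linear_combination (dsg (Tf r p)) * h3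
    have e3 : (uf L δ κ r) = fun q : E3 => rho L δ q + (-κ) * S (Tf r q) := by
      funext q; unfold uf; ring
    have cST : ContDiffAt ℝ 2 (fun q : E3 => S (Tf r q)) p := cS.contDiffAt.comp p cT
    rw [e3, leviQ_add cr (contDiffAt_const.mul cST), leviQ_const_mul cST, e1, (rho_der L δ p v).2]
    ring

lemma alf_I (δ : ℝ) (p v : E3) : alf δ p (Complex.I • v) = Complex.I * alf δ p v := by
  unfold alf
  simp only [Pi.smul_apply, smul_eq_mul]
  ring

lemma bet_I (κ r : ℝ) (p v : E3) : bet κ r p (Complex.I • v) = Complex.I * bet κ r p v := by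
  unfold bet
  simp only [Pi.smul_apply, smul_eq_mul]
  ring

lemma sq_aux (z : ℂ) : ((2 * z.re) ^ 2 + (2 * (Complex.I * z).re) ^ 2) / 4 = ‖z‖ ^ 2 := by
  rw [← Complex.normSq_eq_norm_sq, Complex.normSq_apply]
  simp
  ring

lemma P_rho_levi {ε : ℝ} (hε : 0 < ε) (L δ : ℝ) (p v : E3) :
    leviQ (fun q => P ε (rho L δ q)) p v = P2 ε (rho L δ p) * ‖alf δ p v‖ ^ 2 +
      P1 ε (rho L δ p) * (-(1 / 2 * dsg (p 0).re * ‖v 0‖ ^ 2 + δ * ‖v 1‖ ^ 2)) := by
  have cr : ContDiffAt ℝ 2 (rho L δ) p := (rho_cd L δ).contDiffAt.of_le two_le_inf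
  have cP : ContDiff ℝ 2 (P ε) := (P_contDiff ε).of_le two_le_inf
  rw [leviQ_comp (g := P ε) (g' := P1 ε) (g'' := P2 ε) cr cP.contDiffAt (hasDerivAt_P hε)
    (hasDerivAt_P1 hε _) v, (rho_der L δ p v).1, (rho_der L δ p _).1, alf_I, sq_aux,
    (rho_der L δ p v).2]

lemma P_uf_levi {ε L δ κ r : ℝ} (hε : 0 < ε) (hr : 0 < r) {p : E3} (hp : p 2 ≠ 0) (v : E3) :
    leviQ (fun q => P ε (uf L δ κ r q)) p v = P2 ε (uf L δ κ r p) * ‖alf δ p v + bet κ r p v‖ ^ 2 +
      P1 ε (uf L δ κ r p) * (-(1 / 2 * dsg (p 0).re * ‖v 0‖ ^ 2 + δ * ‖v 1‖ ^ 2) -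
      κ * dsg (Tf r p) * (‖v 2‖ ^ 2 / (4 * ‖p 2‖ ^ 2))) := by
  have cr : ContDiffAt ℝ 2 (uf L δ κ r) p := (uf_cd hr hp).of_le two_le_inf
  have cP : ContDiff ℝ 2 (P ε) := (P_contDiff ε).of_le two_le_inf
  rw [leviQ_comp (g := P ε) (g' := P1 ε) (g'' := P2 ε) cr cP.contDiffAt (hasDerivAt_P hε)
    (hasDerivAt_P1 hε _) v, (uf_der hr hp v).1, (uf_der hr hp _).1, alf_I, bet_I, ← mul_add,
    sq_aux, (uf_der hr hp v).2]

/-- the sheet potential vanishes off its support -/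
lemma Wf_eq_zero {ε L δ κ r : ℝ} (hε : 0 < ε) (hκ : 0 ≤ κ) (hr : 0 < r) {p : E3}
    (h : rho L δ p ≤ 0 ∨ r ≤ ‖p 2‖) : Wf ε L δ κ r p = 0 := by
  unfold Wf
  rcases h with h | h
  · have h1 : P ε (rho L δ p) = 0 := P_of_nonpos hε h
    have h2 : P ε (uf L δ κ r p) = 0 := by
      apply P_of_nonpos hε
      unfold uf
      have := mul_nonneg hκ (S_nonneg (Tf r p))
      linarith
    rw [h1, h2]; simp
  · have hp : p 2 ≠ 0 := by
      intro h0
      rw [h0, norm_zero] at h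
      linarith
    rw [if_neg hp]
    have hn : 0 < ‖p 2‖ := norm_pos_iff.2 hp
    have h1 : Tf r p ≤ 0 := by
      unfold Tf
      exact Real.log_nonpos (by positivity) ((div_le_one hn).2 h)
    have h2 : uf L δ κ r p = rho L δ p := by
      unfold uf; rw [S_of_nonpos h1]; ring
    rw [h2]; ring

lemma Wf_near_zero {ε L δ κ r : ℝ} (hε : 0 < ε) (hδ : 0 ≤ δ) (hκ : 0 < κ) (hr : 0 < r) {p : E3}
    (hp : p 2 = 0) : Wf ε L δ κ r =ᶠ[𝓝 p] fun q => (-(4 * (1 - 2 * ε))) * P ε (rho L δ q) := by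
  have hc : ContinuousAt (fun q : E3 => ‖q 2‖) p :=
    (continuous_apply (2 : Fin 3)).norm.continuousAt
  have h1 : ∀ᶠ q in 𝓝 p, ‖q 2‖ < r * Real.exp (-((L + 1) / κ + 1)) := by
    refine hc.eventually (gt_mem_nhds ?_)
    show ‖p 2‖ < _
    rw [hp, norm_zero]; positivity
  filter_upwards [h1] with q hq
  unfold Wf
  by_cases hq0 : q 2 = 0
  · rw [if_pos hq0]; ring
  · rw [if_neg hq0]
    have hn : 0 < ‖q 2‖ := norm_pos_iff.2 hq0
    have h2 : (L + 1) / κ + 1 ≤ Tf r q := by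
      unfold Tf
      rw [Real.le_log_iff_exp_le (by positivity), le_div_iff₀ hn]
      rw [Real.exp_neg] at hq
      have he := Real.exp_pos ((L + 1) / κ + 1)
      have h3 : r * (Real.exp ((L + 1) / κ + 1))⁻¹ * Real.exp ((L + 1) / κ + 1) = r := by
        rw [mul_assoc, inv_mul_cancel₀ he.ne', mul_one]
      nlinarith
    have h3 : uf L δ κ r q ≤ 0 := by
      unfold uf
      have h4 := le_S (Tf r q)
      have h5 : (L + 1) / κ ≤ S (Tf r q) := by linarith
      have h6 : L + 1 ≤ κ * S (Tf r q) := by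
        rwa [div_le_iff₀' hκ] at h5
      have h7 : rho L δ q ≤ L + 1 := by
        unfold rho
        have h8 := neg_one_le_eta (q 0).re
        have h9 : 0 ≤ δ * ‖q 1‖ ^ 2 := by positivity
        linarith
      linarith
    rw [P_of_nonpos hε h3]; ring

lemma Wf_near {ε L δ κ r : ℝ} {p : E3} (hp : p 2 ≠ 0) :
    Wf ε L δ κ r =ᶠ[𝓝 p] fun q => (4 * (1 - 2 * ε)) * P ε (uf L δ κ r q) +
      (-(4 * (1 - 2 * ε))) * P ε (rho L δ q) := by
  have hc : ContinuousAt (fun q : E3 => q 2) p := (continuous_apply (2 : Fin 3)).continuousAt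
  filter_upwards [hc.eventually_ne hp] with q hq
  unfold Wf
  rw [if_neg hq]; ring

/-- smoothness of the sheet potential -/
lemma Wf_contDiff {ε L δ κ r : ℝ} (hε : 0 < ε) (hδ : 0 ≤ δ) (hκ : 0 < κ) (hr : 0 < r) :
    ContDiff ℝ ∞ (Wf ε L δ κ r) := by
  rw [contDiff_iff_contDiffAt]
  intro p
  have h1 : ContDiff ℝ ∞ (fun q => (-(4 * (1 - 2 * ε))) * P ε (rho L δ q)) :=
    contDiff_const.mul ((P_contDiff ε).comp (rho_cd L δ))
  by_cases hp : p 2 = 0
  · exact h1.contDiffAt.congr_of_eventuallyEq (Wf_near_zero hε hδ hκ hr hp)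
  · refine ContDiffAt.congr_of_eventuallyEq ?_ (Wf_near hp)
    exact (contDiffAt_const.mul ((P_contDiff ε).contDiffAt.comp p (uf_cd hr hp))).add h1.contDiffAt

/-- Levi form of the sheet potential -/
lemma leviQ_Wf {ε L δ κ r : ℝ} (hε : 0 < ε) (hδ : 0 ≤ δ) (hκ : 0 < κ) (hr : 0 < r) (p v : E3) :
    leviQ (Wf ε L δ κ r) p v = Nf ε L δ κ r p v - Rf ε L δ κ r p * ‖v 2‖ ^ 2 := by
  have c1 : ContDiffAt ℝ 2 (fun q => P ε (rho L δ q)) p :=
    ((P_contDiff ε).comp (rho_cd L δ)).contDiffAt.of_le two_le_inf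
  by_cases hp : p 2 = 0
  · rw [leviQ_congr (Wf_near_zero hε hδ hκ hr hp), leviQ_const_mul c1, P_rho_levi hε]
    unfold Nf Rf
    rw [if_pos hp, hp]
    simp
    ring
  · have c2 : ContDiffAt ℝ 2 (fun q => P ε (uf L δ κ r q)) p :=
      ((P_contDiff ε).contDiffAt.comp p (uf_cd hr hp)).of_le two_le_inf
    rw [leviQ_congr (Wf_near hp), leviQ_add (contDiffAt_const.mul c2) (contDiffAt_const.mul c1),
      leviQ_const_mul c1, leviQ_const_mul c2, P_rho_levi hε, P_uf_levi hε hr hp]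
    unfold Nf Rf
    rw [if_neg hp]
    have hA0 : ‖p 2‖ ^ 2 ≠ 0 := pow_ne_zero _ (norm_ne_zero_iff.2 hp)
    field_simp
    ring

end Pool.Agent.NKM
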