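import Pool.Agent.NKM.Defs
import Pool.Agent.NKM.Act
import Pool.Agent.NKM.OneVar

set_option autoImplicit false
open scoped Manifold ContDiff Topology ComplexConjugate
open MeasureTheory Set

namespace Pool.Agent.NKM

/-- the quadratic form of the complex Hessian -/
noncomputable def leviQ {n : ℕ} (f : (Fin n → ℂ) → ℝ) (p v : Fin n → ℂ) : ℝ :=
  (secondDeriv f p v v + secondDeriv f p (Complex.I • v) (Complex.I • v)) / 4

/-- height function of a sheet -/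
noncomputable def rho (L δ : ℝ) (p : E3) : ℝ := L - eta (p 0).re - δ * ‖p 1‖ ^ 2
/-- logarithmic distance to a sheet -/
noncomputable def Tf (r : ℝ) (p : E3) : ℝ := Real.log (r / ‖p 2‖)
/-- height minus logarithmic pole -/
noncomputable def uf (L δ κ r : ℝ) (p : E3) : ℝ := rho L δ p - κ * S (Tf r p)
/-- potential of one sheet -/
noncomputable def Wf (ε L δ κ r : ℝ) (p : E3) : ℝ :=
  if p 2 = 0 then -(4 * (1 - 2 * ε) * P ε (rho L δ p))
  else 4 * (1 - 2 * ε) * (P ε (uf L δ κ r p) - P ε (rho L δ p))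
/-- `∂ρ · v` -/
noncomputable def alf (δ : ℝ) (p v : E3) : ℂ :=
  ((1 / 2 - sg (p 0).re : ℝ) : ℂ) * v 0 - (δ : ℂ) * conj (p 1) * v 1
/-- `∂(-κ S(T)) · v` -/
noncomputable def bet (κ r : ℝ) (p v : E3) : ℂ := ((κ * sg (Tf r p) : ℝ) : ℂ) * v 2 / (2 * p 2)
/-- the Levi form of a sheet without its background term -/
noncomputable def Nf (ε L δ κ r : ℝ) (p v : E3) : ℝ :=
  if p 2 = 0 then 4 * (1 - 2 * ε) * (-(P2 ε (rho L δ p) * ‖alf δ p v‖ ^ 2) +
    P1 ε (rho L δ p) * (1 / 2 * dsg (p 0).re * ‖v 0‖ ^ 2 + δ * ‖v 1‖ ^ 2))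
  else 4 * (1 - 2 * ε) * (P2 ε (uf L δ κ r p) * ‖alf δ p v + bet κ r p v‖ ^ 2 -
    P2 ε (rho L δ p) * ‖alf δ p v‖ ^ 2 +
    (P1 ε (rho L δ p) - P1 ε (uf L δ κ r p)) *
      (1 / 2 * dsg (p 0).re * ‖v 0‖ ^ 2 + δ * ‖v 1‖ ^ 2))
/-- the background coefficient of a sheet -/
noncomputable def Rf (ε L δ κ r : ℝ) (p : E3) : ℝ :=
  (1 - 2 * ε) * κ * P1 ε (uf L δ κ r p) * dsg (Tf r p) / ‖p 2‖ ^ 2

/-- the deck transformations without imaginary translation -/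
noncomputable def gact (j : Lat × ℤ) (p : E3) : E3 := (⟨j.1, 0, j.2⟩ : Gam) • p

/-- Poincare series -/
noncomputable def PS (W : E3 → ℝ) (p : E3) : ℝ := ∑' j : Lat × ℤ, W (gact j p)

end Pool.Agent.NKM
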